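import Pool.Agent.H312.Eq.Ie

set_option autoImplicit false

/-!
# The mean value
-/

namespace Pool.Agent.H312.Eq

open Finset Filter Topology MeasureTheory Complex Set Asymptotics
open Pool.Agent.H131R5.BZ Pool.Agent.Y930.Bz Pool.Agent.Y616.BM Pool.Agent.H312.Barnes
open Pool.Agent.H312.Sh Pool.Agent.H312.Ex Pool.Agent.H312.Lb

variable {r : ℕ} {w : Fin r → ℝ}

open Classical in
/-- the terms of the diagonal -/
noncomputable def dgt (a : ℝ) (w : Fin r → ℝ) (σ : ℝ) (p : (Fin r → ℕ) × (Fin r → ℕ)) : ℝ :=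
  if lam a w p.1 = lam a w p.2 then lam a w p.1 ^ (-σ) * lam a w p.2 ^ (-σ) else 0

lemma dgt_nonneg {a : ℝ} (ha : 0 < a) (hw : ∀ j, 0 < w j) (σ : ℝ)
    (p : (Fin r → ℕ) × (Fin r → ℕ)) : 0 ≤ dgt a w σ p := by
  unfold dgt
  have h1 := lam_pos ha hw p.1
  have h2 := lam_pos ha hw p.2
  split_ifs <;> positivity

lemma dg_eq (a : ℝ) (w : Fin r → ℝ) (σ : ℝ) (N : ℕ) :
    dg (bx r N) (lam a w) σ = ∑ p ∈ bx r N ×ˢ bx r N, dgt a w σ p := by
  rw [Finset.sum_product]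
  unfold dg dgt
  refine Finset.sum_congr rfl fun i _ => Finset.sum_congr rfl fun j _ => ?_
  by_cases h : lam a w i = lam a w j
  · simp only [if_pos h]
  · simp only [if_neg h]

lemma bx_tendsto (r : ℕ) : Tendsto (fun N : ℕ => bx r N ×ˢ bx r N) atTop atTop := by
  refine Filter.tendsto_atTop_finset_of_monotone ?_ ?_
  · intro N M h
    have h1 : bx r N ⊆ bx r M := by
      unfold bx
      exact Fintype.piFinset_subset _ _ fun _ => Finset.range_mono h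
    exact Finset.product_subset_product h1 h1
  · intro p
    refine ⟨(∑ j, p.1 j) + (∑ j, p.2 j) + 1, ?_⟩
    have h1 : ∀ j, p.1 j ≤ ∑ j, p.1 j := fun j =>
      Finset.single_le_sum (f := fun j => p.1 j) (fun _ _ => Nat.zero_le _) (Finset.mem_univ j)
    have h2 : ∀ j, p.2 j ≤ ∑ j, p.2 j := fun j =>
      Finset.single_le_sum (f := fun j => p.2 j) (fun _ _ => Nat.zero_le _) (Finset.mem_univ j)
    refine Finset.mem_product.2 ⟨Fintype.mem_piFinset.2 fun j => Finset.mem_range.2 ?_,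
      Fintype.mem_piFinset.2 fun j => Finset.mem_range.2 ?_⟩
    · have := h1 j
      omega
    · have := h2 j
      omega

lemma sq_two {θ : ℝ} (hθ : 0 < θ) (x y : ℂ) :
    ‖x‖ ^ 2 ≤ (1 + θ) * ‖y‖ ^ 2 + (1 + 1 / θ) * ‖x - y‖ ^ 2 := by
  have h1 : ‖x‖ ≤ ‖y‖ + ‖x - y‖ := by
    calc ‖x‖ = ‖y + (x - y)‖ := by rw [add_sub_cancel]
      _ ≤ _ := norm_add_le _ _
  have h2 : ‖x‖ ^ 2 ≤ (‖y‖ + ‖x - y‖) ^ 2 := pow_le_pow_left₀ (norm_nonneg _) h1 2
  refine h2.trans ?_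
  have h3 : 2 * (‖y‖ * ‖x - y‖) ≤ θ * ‖y‖ ^ 2 + 1 / θ * ‖x - y‖ ^ 2 := by
    have h4 : 0 ≤ (θ * ‖y‖ - ‖x - y‖) ^ 2 / θ := by positivity
    have h5 : (θ * ‖y‖ - ‖x - y‖) ^ 2 / θ =
        θ * ‖y‖ ^ 2 + 1 / θ * ‖x - y‖ ^ 2 - 2 * (‖y‖ * ‖x - y‖) := by
      field_simp
      ring
    linarith
  nlinarith

/-- the comparison of two mean squares -/
lemma ms_cmp {x y : ℝ → ℂ} {T θ : ℝ} (hT : 1 ≤ T) (hθ : 0 < θ)
    (hx : ContinuousOn x (Icc 1 T)) (hy : ContinuousOn y (Icc 1 T)) :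
    ∫ t in (1 : ℝ)..T, ‖x t‖ ^ 2 ≤ (1 + θ) * (∫ t in (1 : ℝ)..T, ‖y t‖ ^ 2) +
      (1 + 1 / θ) * ∫ t in (1 : ℝ)..T, ‖x t - y t‖ ^ 2 := by
  have i1 : IntervalIntegrable (fun t => ‖x t‖ ^ 2) volume 1 T :=
    ContinuousOn.intervalIntegrable_of_Icc hT (hx.norm.pow 2)
  have i2 : IntervalIntegrable (fun t => ‖y t‖ ^ 2) volume 1 T :=
    ContinuousOn.intervalIntegrable_of_Icc hT (hy.norm.pow 2)
  have i3 : IntervalIntegrable (fun t => ‖x t - y t‖ ^ 2) volume 1 T :=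
    ContinuousOn.intervalIntegrable_of_Icc hT ((hx.sub hy).norm.pow 2)
  rw [← intervalIntegral.integral_const_mul, ← intervalIntegral.integral_const_mul,
    ← intervalIntegral.integral_add (i2.const_mul _) (i3.const_mul _)]
  exact intervalIntegral.integral_mono_on hT i1 ((i2.const_mul _).add (i3.const_mul _))
    fun t _ => sq_two hθ _ _

variable {a : ℝ} {Z : ℂ → ℂ}

/-- the rest is small -/
theorem rest_small (ha : 0 < a) (hw : ∀ j, 0 < w j)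
    (hZ : ∀ s ∈ Om r, DifferentiableAt ℂ Z s)
    (hs : ∀ s : ℂ, (r : ℝ) < s.re → Z s = ∑' m : Fin r → ℕ, ((lam a w m : ℝ) : ℂ) ^ (-s))
    {σ : ℝ} (hI : ∀ ε : ℝ, 0 < ε → ∃ a₀ : ℝ, 1 ≤ a₀ ∧ ∀ a : ℝ, a₀ ≤ a → ∀ c : ℕ → ℂ, Tay a w c →
      ∃ T₂ : ℝ, 2 ≤ T₂ ∧ ∀ T : ℝ, T₂ ≤ T → I1 a w c σ T ≤ ENNReal.ofReal (ε * T))
    {ε : ℝ} (hε : 0 < ε) : ∃ N₀ : ℕ, ∀ N : ℕ, N₀ ≤ N → ∀ᶠ T : ℝ in atTop,
      ∫ t in (1 : ℝ)..T, ‖Z ((σ : ℂ) + (t : ℂ) * I) -
        ∑ m ∈ bx r N, ((lam a w m : ℝ) : ℂ) ^ (-((σ : ℂ) + (t : ℂ) * I))‖ ^ 2 ≤ ε * T := by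
  classical
  set P : Finset (Finset (Fin r)) := (Finset.univ : Finset (Finset (Fin r))).erase ∅ with hP
  set q : ℝ := (P.card : ℝ) with hq
  have hq0 : 0 ≤ q := Nat.cast_nonneg _
  obtain ⟨a₀, ha₀, h1⟩ := hI (ε / ((q + 1) * (q + 1))) (by positivity)
  -- the size of `N`
  obtain ⟨N₀, hN₀⟩ : ∃ N₀ : ℕ, ∀ j, a₀ ≤ N₀ * w j := by
    obtain ⟨N₀, hN₀⟩ := exists_nat_ge (∑ j, a₀ / w j)
    refine ⟨N₀, fun j => ?_⟩
    have h2 : a₀ / w j ≤ ∑ j, a₀ / w j :=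
      Finset.single_le_sum (f := fun j => a₀ / w j)
        (fun i _ => by have := hw i; positivity) (Finset.mem_univ j)
    have h3 := hw j
    have h4 : a₀ / w j ≤ N₀ := h2.trans hN₀
    rwa [div_le_iff₀ h3] at h4
  refine ⟨N₀, fun N hN => ?_⟩
  have hNN : (N₀ : ℝ) ≤ N := by exact_mod_cast hN
  have hsh0 : ∀ S, 0 < sh a w N S := by
    intro S
    unfold sh
    have : 0 ≤ ∑ j ∈ S, w j := Finset.sum_nonneg fun j _ => (hw j).le
    have : 0 ≤ (N : ℝ) * ∑ j ∈ S, w j := by positivity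
    linarith
  have hsh : ∀ S ∈ P, a₀ ≤ sh a w N S := by
    intro S hS
    have hS0 : S.Nonempty := Finset.nonempty_iff_ne_empty.2 (Finset.mem_erase.1 hS).1
    obtain ⟨j, hj⟩ := hS0
    unfold sh
    have h2 : w j ≤ ∑ j ∈ S, w j :=
      Finset.single_le_sum (f := fun j => w j) (fun i _ => (hw i).le) hj
    have h3 := hN₀ j
    have h4 := hw j
    calc a₀ ≤ N₀ * w j := h3
      _ ≤ N * w j := by gcongr
      _ ≤ N * ∑ j ∈ S, w j := by gcongr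
      _ ≤ _ := by linarith
  choose c hc using fun S => exists_taylor (sh a w N S) hw
  have hdec : ∀ s ∈ Om r, Z s = ∑ m ∈ bx r N, ((lam a w m : ℝ) : ℂ) ^ (-s) -
      ∑ S ∈ P, (-1 : ℂ) ^ S.card * FF (sh a w N S) w (c S) s := fun s hsO =>
    decomp ha hw hZ hs N (c := c) hc hsO
  have hev : ∀ᶠ T : ℝ in atTop, ∀ S ∈ P, I1 (sh a w N S) w (c S) σ T ≤
      ENNReal.ofReal (ε / ((q + 1) * (q + 1)) * T) := by
    rw [Filter.eventually_all_finset]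
    intro S hS
    obtain ⟨T₂, -, h2⟩ := h1 _ (hsh S hS) (c S) (hc S)
    filter_upwards [eventually_ge_atTop T₂] with T hT
    exact h2 T hT
  filter_upwards [hev, eventually_ge_atTop (1 : ℝ)] with T hT hT1
  have hT0 : 0 < T := by linarith
  have hFd : ∀ S, ∀ s ∈ Om r, DifferentiableAt ℂ (FF (sh a w N S) w (c S)) s := fun S s hs =>
    FF_diff (hsh0 S) hw (hc S) hs
  have hFc : ∀ S, ContinuousOn (fun t : ℝ => FF (sh a w N S) w (c S) ((σ : ℂ) + (t : ℂ) * I))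
      (Icc 1 T) := fun S => (line_cont (hFd S) σ).mono fun t ht => ht.1
  have hone : ∀ S ∈ P, ∫ t in (1 : ℝ)..T,
      ‖FF (sh a w N S) w (c S) ((σ : ℂ) + (t : ℂ) * I)‖ ^ 2 ≤
        ε / ((q + 1) * (q + 1)) * T := by
    intro S hS
    rw [IR_eq (hsh0 S) hw (hc S) (hFd S)
      (fun s hs => (FF_series (hsh0 S) hw (hc S) hs).tsum_eq.symm) σ hT1]
    have h2 := ENNReal.toReal_mono ENNReal.ofReal_ne_top (hT S hS)
    rwa [ENNReal.toReal_ofReal (by positivity)] at h2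
  calc ∫ t in (1 : ℝ)..T, ‖Z ((σ : ℂ) + (t : ℂ) * I) -
        ∑ m ∈ bx r N, ((lam a w m : ℝ) : ℂ) ^ (-((σ : ℂ) + (t : ℂ) * I))‖ ^ 2 =
      ∫ t in (1 : ℝ)..T, ‖∑ S ∈ P, (-1 : ℂ) ^ S.card *
        FF (sh a w N S) w (c S) ((σ : ℂ) + (t : ℂ) * I)‖ ^ 2 := by
        refine intervalIntegral.integral_congr fun t ht => ?_
        rw [Set.uIcc_of_le hT1] at ht
        show ‖Z ((σ : ℂ) + (t : ℂ) * I) - _‖ ^ 2 = _
        rw [hdec _ (mem_Om_of_im (by simpa using ht.1)), sub_sub_cancel_left, norm_neg]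
    _ ≤ ∫ t in (1 : ℝ)..T, q * ∑ S ∈ P,
        ‖FF (sh a w N S) w (c S) ((σ : ℂ) + (t : ℂ) * I)‖ ^ 2 := by
        refine intervalIntegral.integral_mono_on hT1 ?_ ?_ fun t _ => ?_
        · refine ContinuousOn.intervalIntegrable_of_Icc hT1 (ContinuousOn.pow (ContinuousOn.norm ?_) 2)
          exact continuousOn_finsetSum _ fun S _ => continuousOn_const.mul (hFc S)
        · refine ContinuousOn.intervalIntegrable_of_Icc hT1 (continuousOn_const.mul ?_)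
          exact continuousOn_finsetSum _ fun S _ => (hFc S).norm.pow 2
        · have h2 : ‖∑ S ∈ P, (-1 : ℂ) ^ S.card *
              FF (sh a w N S) w (c S) ((σ : ℂ) + (t : ℂ) * I)‖ ≤
              ∑ S ∈ P, ‖FF (sh a w N S) w (c S) ((σ : ℂ) + (t : ℂ) * I)‖ := by
            refine (norm_sum_le _ _).trans (Finset.sum_le_sum fun S _ => ?_)
            rw [norm_mul, norm_pow, norm_neg, norm_one, one_pow, one_mul]
          calc _ ≤ (∑ S ∈ P, ‖FF (sh a w N S) w (c S) ((σ : ℂ) + (t : ℂ) * I)‖) ^ 2 :=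
                pow_le_pow_left₀ (norm_nonneg _) h2 2
            _ ≤ _ := sq_sum_le_card_mul_sum_sq
    _ = q * ∑ S ∈ P, ∫ t in (1 : ℝ)..T,
        ‖FF (sh a w N S) w (c S) ((σ : ℂ) + (t : ℂ) * I)‖ ^ 2 := by
        rw [intervalIntegral.integral_const_mul, intervalIntegral.integral_finsetSum]
        intro S _
        exact ContinuousOn.intervalIntegrable_of_Icc hT1 ((hFc S).norm.pow 2)
    _ ≤ q * ∑ _S ∈ P, ε / ((q + 1) * (q + 1)) * T := by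
        gcongr with S hS
        exact hone S hS
    _ = (q * q) / ((q + 1) * (q + 1)) * (ε * T) := by
        rw [Finset.sum_const, nsmul_eq_mul, ← hq]
        ring
    _ ≤ 1 * (ε * T) := by
        gcongr
        rw [div_le_one (by positivity)]
        nlinarith
    _ = _ := one_mul _

/-- the mean value -/
theorem asy (ha : 0 < a) (hw : ∀ j, 0 < w j)
    (hZ : ∀ s ∈ Om r, DifferentiableAt ℂ Z s)
    (hs : ∀ s : ℂ, (r : ℝ) < s.re → Z s = ∑' m : Fin r → ℕ, ((lam a w m : ℝ) : ℂ) ^ (-s))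
    {σ : ℝ} (hI : ∀ ε : ℝ, 0 < ε → ∃ a₀ : ℝ, 1 ≤ a₀ ∧ ∀ a : ℝ, a₀ ≤ a → ∀ c : ℕ → ℂ, Tay a w c →
      ∃ T₂ : ℝ, 2 ≤ T₂ ∧ ∀ T : ℝ, T₂ ≤ T → I1 a w c σ T ≤ ENNReal.ofReal (ε * T))
    (hO : (fun T : ℝ => ∫ t in (1 : ℝ)..T, ‖Z ((σ : ℂ) + (t : ℂ) * I)‖ ^ 2) =O[atTop]
      fun T : ℝ => T) :
    Summable (dgt a w σ) ∧
      Tendsto (fun T : ℝ => (∫ t in (1 : ℝ)..T, ‖Z ((σ : ℂ) + (t : ℂ) * I)‖ ^ 2) / T) atTop
        (𝓝 (∑' p, dgt a w σ p)) := by
  set x : ℝ → ℂ := fun t => Z ((σ : ℂ) + (t : ℂ) * I) with hx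
  set y : ℕ → ℝ → ℂ := fun N t =>
    ∑ m ∈ bx r N, ((lam a w m : ℝ) : ℂ) ^ (-((σ : ℂ) + (t : ℂ) * I)) with hy
  have hxc : ∀ T : ℝ, ContinuousOn x (Icc 1 T) := fun T =>
    (line_cont hZ σ).mono fun t ht => ht.1
  have hyc : ∀ N : ℕ, Continuous (y N) := by
    intro N
    refine continuous_finsetSum _ fun m _ => ?_
    have hl : ((lam a w m : ℝ) : ℂ) ≠ 0 := by
      exact_mod_cast (lam_pos ha hw m).ne'
    exact (by fun_prop : Continuous fun t : ℝ => -((σ : ℂ) + (t : ℂ) * I)).const_cpow (Or.inl hl)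
  set A : ℝ → ℝ := fun T => (∫ t in (1 : ℝ)..T, ‖x t‖ ^ 2) / T with hA
  set D : ℕ → ℝ → ℝ := fun N T => (∫ t in (1 : ℝ)..T, ‖y N t‖ ^ 2) / T with hD
  set E : ℕ → ℝ → ℝ := fun N T => (∫ t in (1 : ℝ)..T, ‖x t - y N t‖ ^ 2) / T with hE
  set cN : ℕ → ℝ := fun N => dg (bx r N) (lam a w) σ with hcN
  have hDlim : ∀ N, Tendsto (D N) atTop (𝓝 (cN N)) := fun N =>
    fs_lim (bx r N) (lam a w) (fun m _ => lam_pos ha hw m) σ
  have hElim : ∀ ε : ℝ, 0 < ε → ∃ N₀ : ℕ, ∀ N, N₀ ≤ N → ∀ᶠ T in atTop, E N T ≤ ε := by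
    intro ε hε
    obtain ⟨N₀, hN₀⟩ := rest_small ha hw hZ hs hI hε
    refine ⟨N₀, fun N hN => ?_⟩
    filter_upwards [hN₀ N hN, eventually_gt_atTop (0 : ℝ)] with T hT hT0
    simp only [hE]
    rw [div_le_iff₀ hT0]
    exact hT
  have hE0 : ∀ N T, 1 ≤ T → 0 ≤ E N T := by
    intro N T hT
    simp only [hE]
    refine div_nonneg (intervalIntegral.integral_nonneg hT fun t _ => by positivity) (by linarith)
  have hA0 : ∀ T, 1 ≤ T → 0 ≤ A T := by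
    intro T hT
    simp only [hA]
    refine div_nonneg (intervalIntegral.integral_nonneg hT fun t _ => by positivity) (by linarith)
  have hcmp1 : ∀ (θ : ℝ), 0 < θ → ∀ (N : ℕ) (T : ℝ), 1 ≤ T →
      A T ≤ (1 + θ) * D N T + (1 + 1 / θ) * E N T := by
    intro θ hθ N T hT
    have hT0 : 0 < T := by linarith
    have h1 := ms_cmp hT hθ (hxc T) (hyc N).continuousOn
    simp only [hA, hD, hE]
    rw [← mul_div_assoc, ← mul_div_assoc, ← add_div]
    gcongr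
  have hcmp2 : ∀ (θ : ℝ), 0 < θ → ∀ (N : ℕ) (T : ℝ), 1 ≤ T →
      D N T ≤ (1 + θ) * A T + (1 + 1 / θ) * E N T := by
    intro θ hθ N T hT
    have hT0 : 0 < T := by linarith
    have h1 := ms_cmp hT hθ (hyc N).continuousOn (hxc T)
    have h2 : ∀ t, ‖y N t - x t‖ = ‖x t - y N t‖ := fun t => norm_sub_rev _ _
    simp only [h2] at h1
    simp only [hA, hD, hE]
    rw [← mul_div_assoc, ← mul_div_assoc, ← add_div]
    gcongr
  -- boundedness
  obtain ⟨M, hM⟩ : ∃ M : ℝ, ∀ᶠ T in atTop, A T ≤ M := by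
    obtain ⟨M, hM⟩ := hO.bound
    refine ⟨M, ?_⟩
    filter_upwards [hM, eventually_ge_atTop (1 : ℝ)] with T hT hT1
    have hT0 : 0 < T := by linarith
    rw [Real.norm_of_nonneg hT0.le] at hT
    simp only [hA]
    rw [div_le_iff₀ hT0]
    exact (Real.le_norm_self _).trans hT
  obtain ⟨N₁, hN₁⟩ := hElim 1 one_pos
  have hcB : ∀ N, N₁ ≤ N → cN N ≤ 2 * M + 2 := by
    intro N hN
    refine le_of_tendsto (hDlim N) ?_
    filter_upwards [hM, hN₁ N hN, eventually_ge_atTop (1 : ℝ)] with T h1 h2 h3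
    have h4 := hcmp2 1 one_pos N T h3
    norm_num at h4
    linarith
  have hnn := dgt_nonneg ha hw σ
  have hsum : Summable (dgt a w σ) := by
    refine summable_of_sum_le hnn (c := 2 * M + 2) fun u => ?_
    have h1 := (bx_tendsto r).eventually_ge_atTop u
    obtain ⟨N, h2, h3⟩ := (h1.and (eventually_ge_atTop N₁)).exists
    have h4 := hcB N h3
    simp only [hcN] at h4
    rw [dg_eq] at h4
    exact (Finset.sum_le_sum_of_subset_of_nonneg h2 fun p _ _ => hnn p).trans h4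
  set C : ℝ := ∑' p, dgt a w σ p with hC
  have hC0 : 0 ≤ C := tsum_nonneg hnn
  have hcl : Tendsto cN atTop (𝓝 C) := by
    have h1 := hsum.hasSum.comp (bx_tendsto r)
    refine h1.congr fun N => ?_
    simp only [hcN, Function.comp]
    rw [dg_eq]
  refine ⟨hsum, ?_⟩
  rw [Metric.tendsto_atTop]
  intro δ₀ hδ₀
  set δ : ℝ := min δ₀ 1 with hδ
  have hδ0 : 0 < δ := lt_min hδ₀ one_pos
  have hδ1 : δ ≤ 1 := min_le_right _ _
  set θ : ℝ := δ / (4 * (C + 2)) with hθ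
  have hθ0 : 0 < θ := by positivity
  have hθC : θ * (C + 2) = δ / 4 := by
    rw [hθ]; field_simp
  set ε : ℝ := δ / (4 * (1 + 1 / θ)) with hε
  have hε0 : 0 < ε := by positivity
  have hεθ : (1 + 1 / θ) * ε = δ / 4 := by
    rw [hε]; field_simp
  obtain ⟨N₂, hN₂⟩ := hElim ε hε0
  have h1 : ∀ᶠ N in atTop, |cN N - C| < δ / 8 := by
    have := Metric.tendsto_atTop.1 hcl (δ / 8) (by positivity)
    obtain ⟨N, hN⟩ := this
    filter_upwards [eventually_ge_atTop N] with n hn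
    have := hN n hn
    rwa [Real.dist_eq] at this
  obtain ⟨N, h2, h3⟩ := (h1.and (eventually_ge_atTop N₂)).exists
  have h4 : ∀ᶠ T in atTop, |D N T - cN N| < δ / 8 := by
    obtain ⟨T₁, hT₁⟩ := Metric.tendsto_atTop.1 (hDlim N) (δ / 8) (by positivity)
    filter_upwards [eventually_ge_atTop T₁] with T hT
    have := hT₁ T hT
    rwa [Real.dist_eq] at this
  have h5 : ∀ᶠ T in atTop, dist (A T) C < δ₀ := by
    filter_upwards [h4, hN₂ N h3, eventually_ge_atTop (1 : ℝ)] with T k1 k2 k3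
    rw [Real.dist_eq]
    have k4 := hcmp1 θ hθ0 N T k3
    have k5 := hcmp2 θ hθ0 N T k3
    have k6 : (1 + 1 / θ) * E N T ≤ δ / 4 := by
      rw [← hεθ]
      gcongr
    obtain ⟨l1, l2⟩ := abs_lt.1 k1
    obtain ⟨l3, l4⟩ := abs_lt.1 h2
    have k7 : D N T < C + δ / 4 := by linarith
    have k8 : C - δ / 4 < D N T := by linarith
    have k9 : A T ≤ C + 3 * δ / 4 := by
      have : (1 + θ) * D N T ≤ (1 + θ) * (C + δ / 4) := by gcongr
      have e1 : (1 + θ) * (C + δ / 4) = C + δ / 4 + θ * (C + δ / 4) := by ring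
      have e2 : θ * (C + δ / 4) ≤ θ * (C + 2) := by gcongr; linarith
      linarith
    have k10 : C - 3 * δ / 4 ≤ A T := by
      have e1 : (1 + θ) * A T = A T + θ * A T := by ring
      have e2 : θ * A T ≤ θ * (C + 2) := by
        gcongr
        linarith
      linarith
    have k11 : δ ≤ δ₀ := min_le_left _ _
    rw [abs_lt]
    constructor <;> linarith
  exact eventually_atTop.1 h5

end Pool.Agent.H312.Eq
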