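import Pool.Agent.H312.Eq.Seven

set_option autoImplicit false

/-!
# Linear forms at almost all points
-/

namespace Pool.Agent.H312.Eq

open Finset Filter Topology MeasureTheory Set
open Pool.Agent.Y616.BM Pool.Agent.H312.Lb

/-- the measure of a strip in a box -/
lemma strip {d : ℕ} {M η : ℝ} (hM : 0 ≤ M) (hη : 0 < η) (n : Fin d → ℤ) (hn : n ≠ 0) :
    volume.restrict (Set.pi univ fun _ : Fin d => Icc (-M) M)
      {v : Fin d → ℝ | |∑ i, (n i : ℝ) * v i| ≤ η} ≤ ENNReal.ofReal (η * (2 * M + 2) ^ d) := by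
  obtain ⟨i, hi⟩ : ∃ i, n i ≠ 0 := by
    by_contra hcon
    push Not at hcon
    exact hn (funext hcon)
  have hS : MeasurableSet {v : Fin d → ℝ | |∑ i, (n i : ℝ) * v i| ≤ η} :=
    measurableSet_le (by fun_prop) measurable_const
  have hbox : MeasurableSet (Set.pi univ fun _ : Fin d => Icc (-M) M) :=
    MeasurableSet.univ_pi fun _ => measurableSet_Icc
  set A : Matrix (Fin d) (Fin d) ℝ := Matrix.updateRow 1 i (fun j => (n j : ℝ)) with hA
  have hdet : A.det = n i := by
    rw [hA, ← Matrix.cramer_transpose_apply, Matrix.transpose_one, Matrix.cramer_one]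
    rfl
  have hni : (1 : ℝ) ≤ |(n i : ℝ)| := by
    have : 1 ≤ |n i| := Int.one_le_abs hi
    exact_mod_cast this
  have hdet0 : A.det ≠ 0 := by
    rw [hdet]
    exact_mod_cast hi
  set g : ℝ → ENNReal := fun u => (Icc (-M) M).indicator (fun _ => 1) u +
    (Icc (-η) η).indicator (fun _ => ENNReal.ofReal (1 / η)) u with hg
  have hgm : Measurable g :=
    (measurable_const.indicator measurableSet_Icc).add (measurable_const.indicator measurableSet_Icc)
  have hgi : ∫⁻ u, g u = ENNReal.ofReal (2 * M + 2) := by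
    simp only [hg]
    rw [lintegral_add_left (measurable_const.indicator measurableSet_Icc),
      lintegral_indicator measurableSet_Icc, lintegral_indicator measurableSet_Icc,
      setLIntegral_const, setLIntegral_const, Real.volume_Icc, Real.volume_Icc, one_mul,
      ← ENNReal.ofReal_mul (by positivity), ← ENNReal.ofReal_add (by linarith) (by
        have : 0 ≤ η - -η := by linarith
        positivity)]
    congr 1
    field_simp
    ring
  rw [Measure.restrict_apply hS]
  have hle : ∀ v : Fin d → ℝ, ({v : Fin d → ℝ | |∑ i, (n i : ℝ) * v i| ≤ η} ∩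
      Set.pi univ fun _ : Fin d => Icc (-M) M).indicator (1 : (Fin d → ℝ) → ENNReal) v ≤
      ENNReal.ofReal η * ∏ j, g (A.mulVec v j) := by
    intro v
    by_cases hv : v ∈ ({v : Fin d → ℝ | |∑ i, (n i : ℝ) * v i| ≤ η} ∩
      Set.pi univ fun _ : Fin d => Icc (-M) M)
    · rw [Set.indicator_of_mem hv]
      have h1 : ∀ j, (if j = i then ENNReal.ofReal (1 / η) else 1) ≤ g (A.mulVec v j) := by
        intro j
        by_cases hj : j = i
        · rw [if_pos hj, hj]
          have e1 : A.mulVec v i = ∑ k, (n k : ℝ) * v k := by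
            rw [hA]
            simp only [Matrix.mulVec, dotProduct, Matrix.updateRow_self]
          rw [e1]
          have h2 := hv.1
          simp only [Set.mem_ofPred_eq] at h2
          have h3 : (∑ k, (n k : ℝ) * v k) ∈ Icc (-η) η := abs_le.1 h2
          simp only [hg]
          rw [Set.indicator_of_mem h3]
          exact le_add_self
        · rw [if_neg hj]
          have e1 : A.mulVec v j = v j := by
            rw [hA]
            simp only [Matrix.mulVec, dotProduct, Matrix.updateRow_ne hj]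
            simp [Matrix.one_apply]
          rw [e1]
          have h3 : v j ∈ Icc (-M) M := hv.2 j (Set.mem_univ j)
          simp only [hg]
          rw [Set.indicator_of_mem h3]
          exact le_self_add
      have h2 : ENNReal.ofReal (1 / η) ≤ ∏ j, g (A.mulVec v j) := by
        calc ENNReal.ofReal (1 / η) = ∏ j, (if j = i then ENNReal.ofReal (1 / η) else 1) := by
              rw [Finset.prod_ite_eq' Finset.univ i]
              simp
          _ ≤ _ := Finset.prod_le_prod' fun j _ => h1 j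
      calc (1 : (Fin d → ℝ) → ENNReal) v = ENNReal.ofReal η * ENNReal.ofReal (1 / η) := by
            rw [← ENNReal.ofReal_mul hη.le, mul_one_div_cancel hη.ne', ENNReal.ofReal_one]
            rfl
        _ ≤ _ := by gcongr
    · rw [Set.indicator_of_notMem hv]
      exact zero_le
  calc volume ({v : Fin d → ℝ | |∑ i, (n i : ℝ) * v i| ≤ η} ∩
        Set.pi univ fun _ : Fin d => Icc (-M) M) =
      ∫⁻ v, ({v : Fin d → ℝ | |∑ i, (n i : ℝ) * v i| ≤ η} ∩
        Set.pi univ fun _ : Fin d => Icc (-M) M).indicator (1 : (Fin d → ℝ) → ENNReal) v :=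
        (lintegral_indicator_one (hS.inter hbox)).symm
    _ ≤ ∫⁻ v, ENNReal.ofReal η * ∏ j, g (A.mulVec v j) := lintegral_mono hle
    _ = ENNReal.ofReal η * (ENNReal.ofReal |A.det⁻¹| * (ENNReal.ofReal (2 * M + 2)) ^ d) := by
        rw [lintegral_const_mul' _ _ ENNReal.ofReal_ne_top, lint_matrix hdet0 hgm, hgi]
    _ ≤ ENNReal.ofReal η * (ENNReal.ofReal 1 * (ENNReal.ofReal (2 * M + 2)) ^ d) := by
        gcongr
        rw [hdet, abs_inv]
        exact inv_le_one_of_one_le₀ hni
    _ = _ := by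
        rw [ENNReal.ofReal_one, one_mul, ← ENNReal.ofReal_pow (by positivity),
          ← ENNReal.ofReal_mul hη.le]

/-- the Diophantine property of almost all points -/
def Dio {d : ℕ} (v : Fin d → ℝ) : Prop :=
  ∃ c : ℝ, 0 < c ∧ ∀ n : Fin d → ℤ, n ≠ 0 →
    c * (1 + ∑ i, |(n i : ℝ)|) ^ (-((d : ℝ) + 2)) ≤ |∑ i, (n i : ℝ) * v i|

theorem ae_dio (d : ℕ) : ∀ᵐ v : Fin d → ℝ, Dio v := by
  have hM : ∀ M : ℕ, ∀ᵐ v ∂(volume.restrict (Set.pi univ fun _ : Fin d => Icc (-(M : ℝ)) M)),
      Dio v := by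
    intro M
    set η : ℕ → ℝ := fun N => ((N : ℝ) + 1) ^ (-((d : ℝ) + 2)) with hη
    have hη0 : ∀ N, 0 < η N := fun N => by simp only [hη]; positivity
    set s : ℕ → Set (Fin d → ℝ) := fun N =>
      ⋃ n ∈ (Fintype.piFinset fun _ : Fin d => Finset.Icc (-(N : ℤ)) N).filter (fun n => n ≠ 0),
        {v : Fin d → ℝ | |∑ i, (n i : ℝ) * v i| ≤ η N} with hs
    have h1 : ∑' N, volume.restrict (Set.pi univ fun _ : Fin d => Icc (-(M : ℝ)) M) (s N) ≠ ⊤ := by
      have h2 : ∀ N, volume.restrict (Set.pi univ fun _ : Fin d => Icc (-(M : ℝ)) M) (s N) ≤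
          ENNReal.ofReal (2 ^ d * (2 * M + 2) ^ d * (((N + 1 : ℕ) : ℝ)) ^ (-(2 : ℝ))) := by
        intro N
        simp only [hs]
        refine (measure_biUnion_finset_le _ _).trans ?_
        calc _ ≤ ∑ n ∈ (Fintype.piFinset fun _ : Fin d =>
              Finset.Icc (-(N : ℤ)) N).filter (fun n => n ≠ 0),
              ENNReal.ofReal (η N * (2 * M + 2) ^ d) := by
              refine Finset.sum_le_sum fun n hn => ?_
              exact strip (Nat.cast_nonneg M) (hη0 N) n (Finset.mem_filter.1 hn).2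
          _ ≤ ∑ n ∈ (Fintype.piFinset fun _ : Fin d => Finset.Icc (-(N : ℤ)) N),
              ENNReal.ofReal (η N * (2 * M + 2) ^ d) :=
              Finset.sum_le_sum_of_subset (Finset.filter_subset _ _)
          _ = ((2 * N + 1 : ℕ) : ENNReal) ^ d * ENNReal.ofReal (η N * (2 * M + 2) ^ d) := by
              rw [Finset.sum_const, nsmul_eq_mul, Fintype.card_piFinset, Finset.prod_const,
                Finset.card_univ, Fintype.card_fin, Int.card_Icc]
              congr 1
              push_cast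
              congr 1
              have : ((N : ℤ) + 1 - -(N : ℤ)).toNat = 2 * N + 1 := by omega
              rw [this]
              push_cast
              ring
          _ ≤ _ := by
              rw [← ENNReal.ofReal_natCast, ← ENNReal.ofReal_pow (by positivity),
                ← ENNReal.ofReal_mul (by positivity)]
              apply ENNReal.ofReal_le_ofReal
              have hN : (0 : ℝ) < (N : ℝ) + 1 := by positivity
              have h3 : (((2 * N + 1 : ℕ) : ℝ)) ^ d ≤ 2 ^ d * ((N : ℝ) + 1) ^ d := by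
                rw [← mul_pow]
                apply pow_le_pow_left₀ (by positivity)
                push_cast
                linarith
              have h4 : ((N : ℝ) + 1) ^ d * η N = ((N : ℝ) + 1) ^ (-(2 : ℝ)) := by
                simp only [hη]
                rw [← Real.rpow_natCast, ← Real.rpow_add hN]
                congr 1
                ring
              calc (((2 * N + 1 : ℕ) : ℝ)) ^ d * (η N * (2 * M + 2) ^ d) ≤
                  (2 ^ d * ((N : ℝ) + 1) ^ d) * (η N * (2 * M + 2) ^ d) := by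
                    have := hη0 N
                    gcongr
                _ = 2 ^ d * (2 * M + 2) ^ d * (((N : ℝ) + 1) ^ d * η N) := by ring
                _ = _ := by
                    rw [h4]
                    push_cast
                    ring
      refine ne_top_of_le_ne_top ?_ (ENNReal.tsum_le_tsum h2)
      have h3 : Summable fun n : ℕ => 2 ^ d * (2 * (M : ℝ) + 2) ^ d *
          (((n + 1 : ℕ) : ℝ)) ^ (-(2 : ℝ)) :=
        ((summable_nat_add_iff 1).2 (Real.summable_nat_rpow.2 (by norm_num))).mul_left _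
      exact h3.tsum_ofReal_ne_top
    filter_upwards [ae_eventually_notMem h1] with v hv
    obtain ⟨N₀, hN₀⟩ := eventually_atTop.1 hv
    refine ⟨((N₀ : ℝ) + 1) ^ (-((d : ℝ) + 2)), by positivity, fun n hn => ?_⟩
    set P : ℕ := ∑ i, (n i).natAbs with hP
    have hPc : (P : ℝ) = ∑ i, |(n i : ℝ)| := by
      rw [hP, Nat.cast_sum]
      refine Finset.sum_congr rfl fun i _ => ?_
      rw [Nat.cast_natAbs, Int.cast_abs]
    have h2 := hN₀ (N₀ + P) (by omega)
    have h3 : η (N₀ + P) < |∑ i, (n i : ℝ) * v i| := by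
      by_contra hcon
      push Not at hcon
      apply h2
      simp only [hs]
      refine Set.mem_biUnion (x := n) ?_ hcon
      simp only [Finset.coe_filter, Set.mem_ofPred_eq, Fintype.mem_piFinset, Finset.mem_Icc]
      refine ⟨fun i => ?_, hn⟩
      have h4 : (n i).natAbs ≤ P :=
        Finset.single_le_sum (f := fun i => (n i).natAbs) (fun _ _ => Nat.zero_le _)
          (Finset.mem_univ i)
      constructor <;> omega
    refine le_trans ?_ h3.le
    simp only [hη]
    rw [← hPc, ← Real.mul_rpow (by positivity) (by positivity)]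
    apply Real.rpow_le_rpow_of_nonpos (by positivity) _ (by
      have : (0 : ℝ) ≤ d := Nat.cast_nonneg d
      linarith)
    push_cast
    have h5 : (0 : ℝ) ≤ N₀ := Nat.cast_nonneg _
    have h6 : (0 : ℝ) ≤ P := Nat.cast_nonneg _
    nlinarith
  have h2 : ∀ᵐ v : Fin d → ℝ, ∀ M : ℕ,
      v ∈ (Set.pi univ fun _ : Fin d => Icc (-(M : ℝ)) M) → Dio v := by
    rw [ae_all_iff]
    intro M
    rw [← ae_restrict_iff' (MeasurableSet.univ_pi fun _ => measurableSet_Icc)]
    exact hM M
  filter_upwards [h2] with v hv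
  obtain ⟨M, hM⟩ := exists_nat_ge (∑ i, |v i|)
  refine hv M fun i _ => ?_
  have h3 : |v i| ≤ ∑ i, |v i| :=
    Finset.single_le_sum (f := fun i => |v i|) (fun _ _ => abs_nonneg _) (Finset.mem_univ i)
  exact abs_le.1 (h3.trans hM)

/-- a common denominator -/
lemma denom {r d : ℕ} (B : Fin r → Fin d → ℚ) : ∃ q : ℕ, 0 < q ∧ ∃ b : Fin r → Fin d → ℤ,
    ∀ j i, (q : ℝ) * (B j i : ℝ) = b j i := by
  refine ⟨∏ j, ∏ i, (B j i).den, ?_, ?_⟩
  · exact Finset.prod_pos fun j _ => Finset.prod_pos fun i _ => (B j i).pos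
  · have h : ∀ j i, ∃ z : ℤ, ((∏ j, ∏ i, (B j i).den : ℕ) : ℝ) * (B j i : ℝ) = z := by
      intro j i
      have h1 : (B j i).den ∣ ∏ j, ∏ i, (B j i).den :=
        (Finset.dvd_prod_of_mem (fun i => (B j i).den) (Finset.mem_univ i)).trans
          (Finset.dvd_prod_of_mem (fun j => ∏ i, (B j i).den) (Finset.mem_univ j))
      obtain ⟨k, hk⟩ := h1
      refine ⟨k * (B j i).num, ?_⟩
      rw [hk]
      have h2 : ((B j i).den : ℝ) * (B j i : ℝ) = (B j i).num := by
        have h3 := Rat.den_mul_eq_num (B j i)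
        have h4 : (((B j i).den : ℚ) * (B j i) : ℚ) = ((B j i).num : ℚ) := h3
        exact_mod_cast h4
      push_cast
      rw [mul_right_comm, h2]
      ring
    choose b hb using h
    exact ⟨b, hb⟩

/-- from the parameters to the weights -/
theorem dio_lin {r d : ℕ} {v : Fin d → ℝ} (hv : Dio v) (B : Fin r → Fin d → ℚ) :
    ∃ c : ℝ, 0 < c ∧ LinDio ((rm B).mulVec v) c ((d : ℝ) + 2) := by
  obtain ⟨c, hc, h⟩ := hv
  obtain ⟨q, hq, b, hb⟩ := denom B
  have hq' : (0 : ℝ) < q := by exact_mod_cast hq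
  set Q : ℝ := 1 + ∑ j, ∑ i, |(b j i : ℝ)| with hQ
  have hQ1 : 1 ≤ Q := by
    have : 0 ≤ ∑ j, ∑ i, |(b j i : ℝ)| :=
      Finset.sum_nonneg fun j _ => Finset.sum_nonneg fun i _ => abs_nonneg _
    linarith
  have hQ0 : 0 < Q := by linarith
  refine ⟨(q : ℝ)⁻¹ * c * Q ^ (-((d : ℝ) + 2)), by positivity, fun n hn => ?_⟩
  set k : Fin d → ℤ := fun i => ∑ j, n j * b j i with hk
  have e1 : ∑ i, (k i : ℝ) * v i = q * ∑ j, (n j : ℝ) * (rm B).mulVec v j := by
    simp only [hk, rm, Matrix.mulVec, dotProduct, Matrix.of_apply]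
    push_cast
    simp only [Finset.sum_mul, Finset.mul_sum]
    rw [Finset.sum_comm]
    refine Finset.sum_congr rfl fun j _ => Finset.sum_congr rfl fun i _ => ?_
    rw [← hb]
    ring
  have hk0 : k ≠ 0 := by
    intro h0
    rw [h0] at e1
    simp only [Pi.zero_apply, Int.cast_zero, zero_mul, Finset.sum_const_zero] at e1
    rcases mul_eq_zero.1 e1.symm with h1 | h1
    · exact hq'.ne' h1
    · exact hn h1
  have h1 := h k hk0
  rw [e1, abs_mul, abs_of_pos hq'] at h1
  have h2 : 1 + ∑ i, |(k i : ℝ)| ≤ Q * (1 + ∑ j, |(n j : ℝ)|) := by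
    have h3 : ∀ i, |(k i : ℝ)| ≤ ∑ j, |(n j : ℝ)| * |(b j i : ℝ)| := by
      intro i
      simp only [hk]
      push_cast
      refine (Finset.abs_sum_le_sum_abs _ _).trans (Finset.sum_le_sum fun j _ => ?_)
      rw [abs_mul]
    have h4 : ∑ i, |(k i : ℝ)| ≤ ∑ j, |(n j : ℝ)| * ∑ i, |(b j i : ℝ)| := by
      refine (Finset.sum_le_sum fun i _ => h3 i).trans ?_
      rw [Finset.sum_comm]
      refine Finset.sum_le_sum fun j _ => ?_
      rw [Finset.mul_sum]
    have h5 : ∀ j, ∑ i, |(b j i : ℝ)| ≤ Q := by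
      intro j
      have : ∑ i, |(b j i : ℝ)| ≤ ∑ j, ∑ i, |(b j i : ℝ)| :=
        Finset.single_le_sum (f := fun j => ∑ i, |(b j i : ℝ)|)
          (fun j _ => Finset.sum_nonneg fun i _ => abs_nonneg _) (Finset.mem_univ j)
      linarith
    have h6 : ∑ j, |(n j : ℝ)| * ∑ i, |(b j i : ℝ)| ≤ (∑ j, |(n j : ℝ)|) * Q := by
      rw [Finset.sum_mul]
      refine Finset.sum_le_sum fun j _ => ?_
      have := h5 j
      gcongr
    nlinarith
  have hN0 : 0 < 1 + ∑ j, |(n j : ℝ)| := by
    have : 0 ≤ ∑ j, |(n j : ℝ)| := Finset.sum_nonneg fun j _ => abs_nonneg _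
    linarith
  have hk1 : 0 < 1 + ∑ i, |(k i : ℝ)| := by
    have : 0 ≤ ∑ i, |(k i : ℝ)| := Finset.sum_nonneg fun j _ => abs_nonneg _
    linarith
  have h3 : (Q * (1 + ∑ j, |(n j : ℝ)|)) ^ (-((d : ℝ) + 2)) ≤
      (1 + ∑ i, |(k i : ℝ)|) ^ (-((d : ℝ) + 2)) :=
    Real.rpow_le_rpow_of_nonpos hk1 h2 (by
      have : (0 : ℝ) ≤ d := Nat.cast_nonneg d
      linarith)
  rw [Real.mul_rpow hQ0.le hN0.le] at h3
  have h4 : c * (Q ^ (-((d : ℝ) + 2)) * (1 + ∑ j, |(n j : ℝ)|) ^ (-((d : ℝ) + 2))) ≤
      q * |∑ j, (n j : ℝ) * (rm B).mulVec v j| :=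
    (mul_le_mul_of_nonneg_left h3 hc.le).trans h1
  calc (q : ℝ)⁻¹ * c * Q ^ (-((d : ℝ) + 2)) * (1 + ∑ j, |(n j : ℝ)|) ^ (-((d : ℝ) + 2)) =
      (q : ℝ)⁻¹ * (c * (Q ^ (-((d : ℝ) + 2)) * (1 + ∑ j, |(n j : ℝ)|) ^ (-((d : ℝ) + 2)))) := by
        ring
    _ ≤ (q : ℝ)⁻¹ * (q * |∑ j, (n j : ℝ) * (rm B).mulVec v j|) := by gcongr
    _ = _ := by field_simp

end Pool.Agent.H312.Eq
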