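import Pool.Agent.H312.Eq.Tra

set_option autoImplicit false

/-!
# From the open range to the edge, and back
-/

namespace Pool.Agent.H312.Eq

open Finset Filter Topology MeasureTheory Complex Set Asymptotics
open Pool.Agent.H131R5.BZ Pool.Agent.Y930.Bz Pool.Agent.Y616.BM Pool.Agent.H312.Barnes
open Pool.Agent.H312.Sh Pool.Agent.H312.Ex Pool.Agent.H312.Lb

variable {r : ℕ} {w : Fin r → ℝ} {a : ℝ} {Z : ℂ → ℂ}

lemma FT_le_FT (w : Fin r → ℝ) {σ σ' : ℝ} (h : σ' ≤ σ) (T : ℝ) : FT w σ' T ≤ FT w σ T := by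
  unfold FT
  refine setLIntegral_mono' measurableSet_Ioc fun ρ hρ => ENNReal.ofReal_le_ofReal ?_
  refine mul_le_mul_of_nonneg_right ?_ (PP_nonneg w T ρ)
  exact Real.rpow_le_rpow_of_exponent_le hρ.1.le (by linarith)

lemma FT_le_FT' (w : Fin r → ℝ) {σ σ' : ℝ} (h : σ' ≤ σ) {T : ℝ} (hT : 1 ≤ T) :
    FT w σ T ≤ ENNReal.ofReal (T ^ (2 * (σ - σ'))) * FT w σ' T := by
  unfold FT
  rw [← lintegral_const_mul' _ _ ENNReal.ofReal_ne_top]
  refine setLIntegral_mono' measurableSet_Ioc fun ρ hρ => ?_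
  have hT0 : 0 < T := by linarith
  rw [← ENNReal.ofReal_mul (by positivity)]
  apply ENNReal.ofReal_le_ofReal
  have h0 : 0 < ρ := by linarith [hρ.1]
  rw [← mul_assoc]
  refine mul_le_mul_of_nonneg_right ?_ (PP_nonneg w T ρ)
  calc ρ ^ (2 * σ - 1) = ρ ^ (2 * (σ - σ')) * ρ ^ (2 * σ' - 1) := by
        rw [← Real.rpow_add h0]
        congr 1
        ring
    _ ≤ _ := by
        have h1 : ρ ^ (2 * (σ - σ')) ≤ T ^ (2 * (σ - σ')) :=
          Real.rpow_le_rpow h0.le hρ.2 (by linarith)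
        gcongr

/-- from the mean squares on the open half-line to the resonance integral on the edge -/
theorem FT_of_open (ha : 0 < a) (hw : ∀ j, 0 < w j)
    (hZ : ∀ s ∈ Om r, DifferentiableAt ℂ Z s)
    (hs : ∀ s : ℂ, (r : ℝ) < s.re → Z s = ∑' m : Fin r → ℕ, ((lam a w m : ℝ) : ℂ) ^ (-s))
    {σ' : ℝ} (hσ' : 1 / 2 ≤ σ')
    (hI : ∀ σ : ℝ, σ' < σ → ∀ ε : ℝ, 0 < ε →
      (fun T : ℝ => ∫ t in (1 : ℝ)..T, ‖Z ((σ : ℂ) + (t : ℂ) * I)‖ ^ 2)
      =O[atTop] fun T : ℝ => T ^ (1 + ε)) :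
    ∀ ε : ℝ, 0 < ε → ∃ C : ℝ, 0 ≤ C ∧ ∀ T : ℝ, 2 ≤ T →
      FT w σ' T ≤ ENNReal.ofReal (C * T ^ (2 * σ' + ε)) := by
  intro ε hε
  obtain ⟨C, hC, h1⟩ := res_of_ms ha hw hZ hs (σ := σ' + ε / 4) (by linarith)
    (hI (σ' + ε / 4) (by linarith)) (ε / 2) (by positivity)
  refine ⟨C, hC, fun T hT => (FT_le_FT w (by linarith) T).trans ((h1 T hT).trans (le_of_eq ?_))⟩
  congr 3
  ring

/-- from the resonance integral on the edge to the mean squares in the closed range -/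
theorem ms_of_FT (ha : 0 < a) (hw : ∀ j, 0 < w j)
    (hZ : ∀ s ∈ Om r, DifferentiableAt ℂ Z s)
    (hs : ∀ s : ℂ, (r : ℝ) < s.re → Z s = ∑' m : Fin r → ℕ, ((lam a w m : ℝ) : ℂ) ^ (-s))
    {σ' : ℝ} (hσ' : 1 / 2 ≤ σ')
    (hH : ∀ ε : ℝ, 0 < ε → ∃ C : ℝ, 0 ≤ C ∧ ∀ T : ℝ, 2 ≤ T →
      FT w σ' T ≤ ENNReal.ofReal (C * T ^ (2 * σ' + ε)))
    {σ : ℝ} (hσ : σ' ≤ σ) {ε : ℝ} (hε : 0 < ε) :
    (fun T : ℝ => ∫ t in (1 : ℝ)..T, ‖Z ((σ : ℂ) + (t : ℂ) * I)‖ ^ 2)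
      =O[atTop] fun T : ℝ => T ^ (1 + ε) := by
  have hσ0 : 0 < σ := by linarith
  obtain ⟨C, hC, h1⟩ := hH ε hε
  have h2 : (fun T : ℝ => resR w σ T) =O[atTop] fun T : ℝ => T ^ (2 * σ + ε) := by
    refine IsBigO.of_bound C ?_
    filter_upwards [eventually_ge_atTop (2 : ℝ)] with T hT
    have hT1 : 1 ≤ T := by linarith
    have hT0 : 0 < T := by linarith
    have h3 := (FT_le_FT' w hσ hT1).trans (mul_le_mul_right (h1 T hT) _)
    rw [← ENNReal.ofReal_mul (by positivity)] at h3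
    have h4 := ENNReal.toReal_mono ENNReal.ofReal_ne_top h3
    rw [ENNReal.toReal_ofReal (by positivity), ← resR_eq w σ hT1] at h4
    rw [Real.norm_of_nonneg (resR_nonneg w σ hT1), Real.norm_of_nonneg (by positivity)]
    calc _ ≤ _ := h4
      _ = C * (T ^ (2 * (σ - σ')) * T ^ (2 * σ' + ε)) := by ring
      _ = _ := by
          rw [← Real.rpow_add hT0]
          congr 2
          ring
  rcases (hσ'.trans hσ).lt_or_eq with hlt | heq
  · have e1 : 2 * σ - 1 + (1 + ε) = 2 * σ + ε := by ring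
    have h3 := (crit ha hw hZ hs hlt (θ := 1 + ε) (β := 0) (by linarith) le_rfl).2 (by
      simpa only [Real.rpow_zero, mul_one, e1] using h2)
    simpa only [Real.rpow_zero, mul_one] using h3
  · have h3 := (theta_w ha hw hZ hs hσ0).1
    rw [← heq] at h3 h2 ⊢
    have e1 : (2 : ℝ) * (1 / 2) - 1 = 0 := by norm_num
    have e2 : (2 : ℝ) * (1 / 2) + ε = 1 + ε := by norm_num
    rw [e1] at h3
    rw [e2] at h2
    simp only [Real.rpow_zero, one_mul] at h3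
    exact h3.trans h2

end Pool.Agent.H312.Eq
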