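import Pool.Agent.H312.Eq.Mv

set_option autoImplicit false

/-!
# Near coincidences: bounds for the integral of the square of the kernel
-/

namespace Pool.Agent.H312.Eq

open Finset Filter Topology MeasureTheory Complex Set
open Pool.Agent.H131R5.BZ Pool.Agent.Y930.Bz Pool.Agent.Y616.BM Pool.Agent.H312.Barnes
open Pool.Agent.H312.Sh Pool.Agent.H312.Ex Pool.Agent.H312.Lb

variable {r : ℕ} {w : Fin r → ℝ}

/-- the integral of the Fejer kernel -/
lemma fej_int {c R : ℝ} (hc : c ≠ 0) (hR : 0 < R) :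
    ∫ ρ in (0 : ℝ)..R, (1 - ρ / R) * Real.cos (c * ρ) = (1 - Real.cos (c * R)) / (c ^ 2 * R) := by
  have h1 : ∀ ρ ∈ Set.uIcc (0 : ℝ) R, HasDerivAt
      (fun ρ => (1 - ρ / R) * (Real.sin (c * ρ) / c) - Real.cos (c * ρ) / (c ^ 2 * R))
      ((1 - ρ / R) * Real.cos (c * ρ)) ρ := by
    intro ρ _
    have k1 : HasDerivAt (fun ρ : ℝ => c * ρ) c ρ := by
      simpa using (hasDerivAt_id ρ).const_mul c
    have k2 : HasDerivAt (fun ρ : ℝ => Real.sin (c * ρ)) (Real.cos (c * ρ) * c) ρ := k1.sin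
    have k3 : HasDerivAt (fun ρ : ℝ => Real.cos (c * ρ)) (-Real.sin (c * ρ) * c) ρ := k1.cos
    have k4 : HasDerivAt (fun ρ : ℝ => 1 - ρ / R) (-(1 / R)) ρ := by
      simpa using ((hasDerivAt_id ρ).div_const R).const_sub 1
    have k5 := (k4.mul (k2.div_const c)).sub (k3.div_const (c ^ 2 * R))
    refine k5.congr_deriv ?_
    field_simp
    ring
  rw [intervalIntegral.integral_eq_sub_of_hasDerivAt h1
    (Continuous.intervalIntegrable (by fun_prop) _ _)]
  simp only [mul_zero, Real.sin_zero, Real.cos_zero, zero_div, sub_zero, div_self hR.ne', sub_self,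
    zero_mul]
  ring

lemma fej_nonneg (μ : ℝ) {R : ℝ} (hR : 0 < R) :
    0 ≤ ∫ ρ in (0 : ℝ)..R, (1 - ρ / R) * Real.cos (2 * Real.pi * μ * ρ) := by
  by_cases h : μ = 0
  · refine intervalIntegral.integral_nonneg hR.le fun ρ hρ => ?_
    rw [h]
    simp only [mul_zero, zero_mul, Real.cos_zero, mul_one]
    have : ρ / R ≤ 1 := (div_le_one hR).2 hρ.2
    linarith
  · have hp := Real.pi_pos
    rw [fej_int (by positivity) hR]
    have h1 := Real.cos_le_one (2 * Real.pi * μ * R)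
    refine div_nonneg (by linarith) (by positivity)

lemma fej_low {μ R : ℝ} (hR : 0 < R) (hμ : |μ| * R ≤ 1 / 8) :
    R / 8 ≤ ∫ ρ in (0 : ℝ)..R, (1 - ρ / R) * Real.cos (2 * Real.pi * μ * ρ) := by
  have hp := Real.pi_pos
  have hcos : ∀ ρ : ℝ, 0 ≤ ρ → ρ ≤ R → 1 / 2 ≤ Real.cos (2 * Real.pi * μ * ρ) := by
    intro ρ h0 h1
    have h2 : |2 * Real.pi * μ * ρ| ≤ Real.pi / 3 := by
      rw [abs_mul, abs_mul, abs_of_pos (by positivity : 0 < 2 * Real.pi), abs_of_nonneg h0]
      have h3 : |μ| * ρ ≤ 1 / 8 := (mul_le_mul_of_nonneg_left h1 (abs_nonneg _)).trans hμ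
      nlinarith
    rw [← Real.cos_abs, ← Real.cos_pi_div_three]
    exact Real.cos_le_cos_of_nonneg_of_le_pi (abs_nonneg _) (by linarith) h2
  have h1 : ∫ ρ in (0 : ℝ)..R, (1 - ρ / R) * (1 / 2) ≤
      ∫ ρ in (0 : ℝ)..R, (1 - ρ / R) * Real.cos (2 * Real.pi * μ * ρ) := by
    refine intervalIntegral.integral_mono_on hR.le (Continuous.intervalIntegrable (by fun_prop) _ _)
      (Continuous.intervalIntegrable (by fun_prop) _ _) fun ρ hρ => ?_
    have h2 : ρ / R ≤ 1 := (div_le_one hR).2 hρ.2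
    exact mul_le_mul_of_nonneg_left (hcos ρ hρ.1 hρ.2) (by linarith)
  refine le_trans ?_ h1
  have h2 : ∫ ρ in (0 : ℝ)..R, (1 - ρ / R) * (1 / 2) = R / 4 := by
    rw [intervalIntegral.integral_mul_const, intervalIntegral.integral_sub
      (Continuous.intervalIntegrable (by fun_prop) _ _)
      (Continuous.intervalIntegrable (by fun_prop) _ _), intervalIntegral.integral_div]
    simp only [intervalIntegral.integral_const, integral_id, smul_eq_mul]
    field_simp
    ring
  rw [h2]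
  linarith

lemma KK_sq_re (hw : ∀ j, 0 < w j) {x : ℝ} (hx : 0 < x) (ρ : ℝ) :
    HasSum (fun p : (Fin r → ℕ) × (Fin r → ℕ) => ew w x p * Real.cos (2 * Real.pi * df w p * ρ))
      (‖KK 0 w ((x : ℂ) + ((2 * Real.pi * ρ : ℝ) : ℂ) * I)‖ ^ 2) := by
  have hs : Summable fun p : (Fin r → ℕ) × (Fin r → ℕ) =>
      (ew w x p : ℂ) * cexp (((-(2 * Real.pi * df w p) : ℝ) : ℂ) * I * ρ) := by
    refine Summable.of_norm_bounded (ew_hasSum hw hx).summable fun p => ?_
    rw [norm_mul, Complex.norm_real, Real.norm_of_nonneg (ew_pos w x p).le]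
    have : ((-(2 * Real.pi * df w p) : ℝ) : ℂ) * I * ρ =
        ((-(2 * Real.pi * df w p) * ρ : ℝ) : ℂ) * I := by
      push_cast; ring
    rw [this, Complex.norm_exp_ofReal_mul_I, mul_one]
  have h1 := hs.hasSum
  rw [← KK_sq hw hx ρ] at h1
  have h2 := Complex.hasSum_re h1
  rw [Complex.ofReal_re] at h2
  refine h2.congr_fun fun p => ?_
  rw [Complex.re_ofReal_mul]
  congr 1
  have : ((-(2 * Real.pi * df w p) : ℝ) : ℂ) * I * ρ =
      ((-(2 * Real.pi * df w p * ρ) : ℝ) : ℂ) * I := by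
    push_cast; ring
  rw [this, Complex.exp_ofReal_mul_I_re, Real.cos_neg]

/-- the lower bound by near coincidences -/
theorem fej_lower (hw : ∀ j, 0 < w j) {x R : ℝ} (hx : 0 < x) (hR : 0 < R)
    (P : Finset ((Fin r → ℕ) × (Fin r → ℕ))) (hP : ∀ p ∈ P, |df w p| * R ≤ 1 / 8) :
    R / 8 * ∑ p ∈ P, ew w x p ≤
      ∫ ρ in (0 : ℝ)..R, ‖KK 0 w ((x : ℂ) + ((2 * Real.pi * ρ : ℝ) : ℂ) * I)‖ ^ 2 := by
  set g : (Fin r → ℕ) × (Fin r → ℕ) → ℝ → ℝ := fun p ρ =>
    ew w x p * ((1 - ρ / R) * Real.cos (2 * Real.pi * df w p * ρ)) with hg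
  have hgc : ∀ p, Continuous (g p) := fun p => by
    simp only [hg]
    fun_prop
  have hsum := (ew_hasSum hw hx).summable
  have hT : HasSum (fun p => ∫ ρ in Ioc 0 R, g p ρ) (∫ ρ in Ioc 0 R, ∑' p, g p ρ) := by
    refine hasSum_integral_of_summable_integral_norm (fun p => ?_) ?_
    · exact ((hgc p).intervalIntegrable 0 R).1
    · refine Summable.of_nonneg_of_le (fun p => integral_nonneg fun _ => norm_nonneg _) (fun p => ?_)
        (hsum.mul_left R)
      calc ∫ ρ in Ioc 0 R, ‖g p ρ‖ ≤ ∫ _ρ in Ioc 0 R, ew w x p := by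
            refine setIntegral_mono_on ((hgc p).norm.intervalIntegrable 0 R).1 (by simp)
              measurableSet_Ioc fun ρ hρ => ?_
            simp only [hg]
            rw [norm_mul, norm_mul, Real.norm_of_nonneg (ew_pos w x p).le, Real.norm_eq_abs,
              Real.norm_eq_abs]
            have h1 : |1 - ρ / R| ≤ 1 := by
              have h2 : ρ / R ≤ 1 := (div_le_one hR).2 hρ.2
              have h3 : 0 < ρ / R := div_pos hρ.1 hR
              rw [abs_le]
              constructor <;> linarith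
            have h2 := Real.abs_cos_le_one (2 * Real.pi * df w p * ρ)
            have h3 : |1 - ρ / R| * |Real.cos (2 * Real.pi * df w p * ρ)| ≤ 1 * 1 :=
              mul_le_mul h1 h2 (abs_nonneg _) zero_le_one
            have h4 := (ew_pos w x p).le
            calc ew w x p * (|1 - ρ / R| * |Real.cos (2 * Real.pi * df w p * ρ)|) ≤
                ew w x p * (1 * 1) := by gcongr
              _ = _ := by ring
        _ = _ := by
            rw [setIntegral_const, measureReal_def, Real.volume_Ioc,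
              ENNReal.toReal_ofReal (by linarith), smul_eq_mul, sub_zero]
  have hval : ∀ p, ∫ ρ in Ioc 0 R, g p ρ = ew w x p *
      ∫ ρ in (0 : ℝ)..R, (1 - ρ / R) * Real.cos (2 * Real.pi * df w p * ρ) := by
    intro p
    rw [← intervalIntegral.integral_of_le hR.le, ← intervalIntegral.integral_const_mul]
  have h1 : ∑ p ∈ P, R / 8 * ew w x p ≤ ∫ ρ in Ioc 0 R, ∑' p, g p ρ := by
    rw [← hT.tsum_eq]
    refine le_trans (Finset.sum_le_sum fun p hp => ?_) (hT.summable.sum_le_tsum P fun p _ => ?_)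
    · rw [hval]
      have h2 := fej_low hR (hP p hp)
      have h3 := (ew_pos w x p).le
      rw [mul_comm]
      gcongr
    · rw [hval]
      exact mul_nonneg (ew_pos w x p).le (fej_nonneg _ hR)
  rw [Finset.mul_sum]
  refine h1.trans ?_
  rw [← intervalIntegral.integral_of_le hR.le]
  have h2 : ∀ ρ, ∑' p, g p ρ = (1 - ρ / R) *
      ‖KK 0 w ((x : ℂ) + ((2 * Real.pi * ρ : ℝ) : ℂ) * I)‖ ^ 2 := by
    intro ρ
    rw [← (KK_sq_re hw hx ρ).tsum_eq, ← tsum_mul_left]
    refine tsum_congr fun p => ?_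
    simp only [hg]
    ring
  simp only [h2]
  have hc := (KK0_cont hw hx).norm.pow 2
  refine intervalIntegral.integral_mono_on hR.le
    (((by fun_prop : Continuous fun ρ : ℝ => 1 - ρ / R).mul hc).intervalIntegrable _ _)
    (hc.intervalIntegrable _ _) fun ρ hρ => ?_
  have h3 : 0 ≤ ρ / R := div_nonneg hρ.1 hR.le
  have h4 : 0 ≤ ‖KK 0 w ((x : ℂ) + ((2 * Real.pi * ρ : ℝ) : ℂ) * I)‖ ^ 2 := by positivity
  nlinarith

end Pool.Agent.H312.Eq
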