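import Pool.Agent.H312.Eq.Hd

set_option autoImplicit false

/-!
# The order of the mean square for almost all weights
-/

namespace Pool.Agent.H312.Eq

open Finset Filter Topology MeasureTheory Complex Set Asymptotics
open Pool.Agent.H131R5.BZ Pool.Agent.Y930.Bz Pool.Agent.Y616.BM Pool.Agent.H312.Barnes
open Pool.Agent.H312.Sh Pool.Agent.H312.Ex Pool.Agent.H312.Lb

variable {r : ℕ} {w : Fin r → ℝ}

/-- from the real integral to the extended one -/
lemma FT_of_resR (w : Fin r → ℝ) {σ q : ℝ} (hσ : 0 < σ) (hq : 0 ≤ q)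
    (h : (fun T : ℝ => resR w σ T) =O[atTop] fun T : ℝ => T ^ q) :
    ∃ C : ℝ, 0 ≤ C ∧ ∀ T : ℝ, 2 ≤ T → FT w σ T ≤ ENNReal.ofReal (C * T ^ q) := by
  obtain ⟨C, hC⟩ := h.bound
  obtain ⟨T₁, hT₁⟩ := eventually_atTop.1 hC
  set T₂ : ℝ := max T₁ 2 with hT₂
  have hT₂2 : 2 ≤ T₂ := le_max_right _ _
  refine ⟨|C| + resR w σ T₂, add_nonneg (abs_nonneg _) (resR_nonneg w σ (by linarith)),
    fun T hT => ?_⟩
  have hT0 : 0 < T := by linarith
  have h1q : 1 ≤ T ^ q := Real.one_le_rpow (by linarith) hq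
  have hR0 := resR_nonneg w σ (by linarith : 1 ≤ T₂)
  have hfin : ∀ S : ℝ, 1 ≤ S → FT w σ S = ENNReal.ofReal (resR w σ S) := fun S hS => by
    rw [resR_eq w σ hS, ENNReal.ofReal_toReal (FT_lt_top w hσ hS).ne]
  rcases le_total T T₂ with h1 | h1
  · calc FT w σ T ≤ FT w σ T₂ := FT_mono w σ h1
      _ = ENNReal.ofReal (resR w σ T₂) := hfin T₂ (by linarith)
      _ ≤ _ := by
        apply ENNReal.ofReal_le_ofReal
        have := abs_nonneg C
        nlinarith
  · rw [hfin T (by linarith)]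
    apply ENNReal.ofReal_le_ofReal
    have h2 := hT₁ T ((le_max_left _ _).trans h1)
    rw [Real.norm_of_nonneg (resR_nonneg w σ (by linarith)), Real.norm_of_nonneg (by positivity)]
      at h2
    refine h2.trans ?_
    have h3 := le_abs_self C
    have h4 : 0 < T ^ q := by positivity
    nlinarith

variable {a : ℝ} {Z : ℂ → ℂ}

/-- the order of the mean square for good parameters -/
theorem theta_good {d : ℕ} {v : Fin d → ℝ} (hv : GoodL v) (hvi : LinearIndependent ℚ v)
    (hvD : Dio v) (hr : 1 ≤ r) (hw : ∀ j, 0 < w j)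
    (hspan : Submodule.span ℚ (Set.range w) = Submodule.span ℚ (Set.range v)) (ha : 0 < a)
    (hZ : ∀ s ∈ Om r, DifferentiableAt ℂ Z s)
    (hs : ∀ s : ℂ, (r : ℝ) < s.re → Z s = ∑' m : Fin r → ℕ, ((lam a w m : ℝ) : ℂ) ^ (-s)) :
    (∀ σ : ℝ, (r : ℝ) - d / 2 < σ →
      (fun T : ℝ => ∫ t in (1 : ℝ)..T, ‖Z ((σ : ℂ) + (t : ℂ) * I)‖ ^ 2) =Θ[atTop]
        fun T : ℝ => T) ∧
    ∀ σ : ℝ, σ = (r : ℝ) - d / 2 → (fun T : ℝ => T * Real.log T) =O[atTop]
      fun T : ℝ => ∫ t in (1 : ℝ)..T, ‖Z ((σ : ℂ) + (t : ℂ) * I)‖ ^ 2 := by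
  obtain ⟨B, e, he, hdet, hwB⟩ := lin hvi hspan
  have hdr : d ≤ r := by
    simpa using Fintype.card_le_of_injective e he
  have hdr' : (d : ℝ) ≤ r := by exact_mod_cast hdr
  have hr' : (1 : ℝ) ≤ r := by exact_mod_cast hr
  obtain ⟨c, hc, hLD⟩ := dio_lin hvD B
  rw [← hwB] at hLD
  obtain ⟨c₁, C₁, hc₁, hC₁, hHD⟩ := hd_all hvi B e he hdet hwB hw
  have hτ : 0 < (d : ℝ) + 2 := by positivity
  have hp : ((2 * r - d : ℕ) : ℝ) = 2 * ((r : ℝ) - d / 2) := by
    rw [Nat.cast_sub (by omega)]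
    push_cast
    ring
  constructor
  · intro σ hσ
    have hσ2 : 1 / 2 < σ := by linarith
    have hσ0 : 0 < σ := by linarith
    constructor
    · -- the upper bound
      have hH : ∀ ε : ℝ, 0 < ε → ∃ C : ℝ, 0 ≤ C ∧ ∀ T : ℝ, 2 ≤ T →
          FT w ((r : ℝ) - d / 2) T ≤ ENNReal.ofReal (C * T ^ (2 * ((r : ℝ) - d / 2) + ε)) := by
        intro ε hε
        refine FT_of_resR w (by linarith) (by linarith) ?_
        have h1 := (resR_good (σ := (r : ℝ) - d / 2) hv hvi hr hw hspan one_pos).2.1 rfl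
        refine h1.trans ?_
        have h2 : (fun T : ℝ => (Real.log T) ^ ((2 : ℝ) + 1)) =O[atTop] fun T : ℝ => T ^ ε :=
          (isLittleO_log_rpow_rpow_atTop _ hε).isBigO
        have h3 := (isBigO_refl (fun T : ℝ => T ^ (2 * ((r : ℝ) - d / 2) - 1 + 1)) atTop).mul h2
        refine h3.trans_eventuallyEq ?_
        filter_upwards [eventually_gt_atTop (0 : ℝ)] with T hT
        rw [← Real.rpow_add hT]
        congr 1
        ring
      obtain ⟨C, T₀, hC, hT₀, h1⟩ := FT_up hw hc hτ hLD hc₁ hC₁ hHD (σ := σ) hσ2.le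
        (by rw [hp]; linarith) hσ hH
      have h2 : (fun T : ℝ => resR w σ T) =O[atTop]
          fun T : ℝ => T ^ (2 * σ - 1 + 1) * (Real.log T) ^ (0 : ℝ) := by
        refine IsBigO.of_bound C ?_
        filter_upwards [eventually_ge_atTop T₀] with T hT
        have hT1 : 1 ≤ T := by linarith
        have hT0 : 0 < T := by linarith
        have h3 := ENNReal.toReal_mono ENNReal.ofReal_ne_top (h1 T hT)
        rw [ENNReal.toReal_ofReal (by positivity), ← resR_eq w σ hT1] at h3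
        rw [Real.norm_of_nonneg (resR_nonneg w σ hT1), Real.rpow_zero, mul_one,
          Real.norm_of_nonneg (by positivity)]
        have e1 : 2 * σ - 1 + 1 = 2 * σ := by ring
        rw [e1]
        exact h3
      have h3 := (crit ha hw hZ hs hσ2 one_pos le_rfl).2 h2
      simpa only [Real.rpow_one, Real.rpow_zero, mul_one] using h3
    · -- the lower bound
      refine IsBigO.trans ?_ (low_i ha hw hZ hs hσ2)
      refine IsBigO.of_bound (2 ^ (2 * σ + 1)) ?_
      filter_upwards [eventually_ge_atTop (2 : ℝ)] with T hT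
      have hT1 : 1 ≤ T := by linarith
      have hT0 : 0 < T := by linarith
      have h1 := FT_ge w hσ0 hT
      have h2 := ENNReal.toReal_mono (ENNReal.mul_ne_top ENNReal.ofReal_ne_top
        (FT_lt_top w hσ0 hT1).ne) h1
      rw [ENNReal.toReal_mul, ENNReal.toReal_ofReal (by positivity),
        ENNReal.toReal_ofReal (by positivity), ← resR_eq w σ hT1] at h2
      have h3 := resR_nonneg w σ hT1
      rw [Real.norm_of_nonneg hT0.le, Real.norm_of_nonneg (by positivity)]
      calc T = T ^ (1 - 2 * σ) * T ^ (2 * σ) := by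
            rw [← Real.rpow_add hT0]
            rw [sub_add_cancel, Real.rpow_one]
        _ ≤ T ^ (1 - 2 * σ) * (2 ^ (2 * σ + 1) * resR w σ T) := by gcongr
        _ = _ := by ring
  · intro σ hσ
    have hσ2 : 1 / 2 ≤ σ := by rw [hσ]; linarith
    have hσ0 : 0 < σ := by linarith
    obtain ⟨k, T₀, hk, hT₀, h1⟩ := FT_low_log hw hc hτ hLD hc₁ hC₁ hHD (σ := σ) hσ2
      (by rw [hp, hσ])
    have h2 : ∀ T : ℝ, T₀ ≤ T → k * (T ^ (2 * σ) * Real.log T) ≤ resR w σ T := by
      intro T hT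
      have hT1 : 1 ≤ T := by linarith
      have hl : 0 ≤ Real.log T := Real.log_nonneg hT1
      have h3 := ENNReal.toReal_mono (FT_lt_top w hσ0 hT1).ne (h1 T hT)
      rw [ENNReal.toReal_ofReal (by positivity), ← resR_eq w σ hT1] at h3
      exact h3
    have h3 : (fun T : ℝ => T * Real.log T) =O[atTop] fun T : ℝ => T ^ (1 - 2 * σ) * resR w σ T := by
      refine IsBigO.of_bound k⁻¹ ?_
      filter_upwards [eventually_ge_atTop T₀] with T hT
      have hT1 : 1 ≤ T := by linarith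
      have hT0 : 0 < T := by linarith
      have hl : 0 ≤ Real.log T := Real.log_nonneg hT1
      have h4 := resR_nonneg w σ hT1
      rw [Real.norm_of_nonneg (by positivity), Real.norm_of_nonneg (by positivity)]
      calc T * Real.log T = T ^ (1 - 2 * σ) * T ^ (2 * σ) * Real.log T := by
            rw [← Real.rpow_add hT0]
            rw [sub_add_cancel, Real.rpow_one]
        _ = k⁻¹ * (T ^ (1 - 2 * σ) * (k * (T ^ (2 * σ) * Real.log T))) := by field_simp
        _ ≤ k⁻¹ * (T ^ (1 - 2 * σ) * resR w σ T) := by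
            have := h2 T hT
            gcongr
    refine h3.trans ?_
    rcases hσ2.lt_or_eq with hlt | heq
    · exact low_i ha hw hZ hs hlt
    · have h4 := (theta_w ha hw hZ hs hσ0).2
      rw [← heq] at h4 ⊢
      have e1 : (2 : ℝ) * (1 / 2) - 1 = 0 := by norm_num
      have e2 : (1 : ℝ) - 2 * (1 / 2) = 0 := by norm_num
      rw [e1] at h4
      rw [e2]
      simp only [Real.rpow_zero, one_mul] at h4 ⊢
      exact h4

end Pool.Agent.H312.Eq
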