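import Pool.Agent.H312.Eq.Four

set_option autoImplicit false

/-!
# The integral of the kernel over long intervals, 2
-/

namespace Pool.Agent.H312.Eq

open Finset Filter Topology MeasureTheory Complex Set
open Pool.Agent.H131R5.BZ Pool.Agent.Y930.Bz Pool.Agent.Y616.BM Pool.Agent.H312.Barnes
open Pool.Agent.H312.Sh

variable {r : ℕ} {w : Fin r → ℝ}

lemma lam0_nonneg (hw : ∀ j, 0 < w j) (m : Fin r → ℕ) : 0 ≤ lam 0 w m := by
  unfold lam
  have : 0 ≤ ∑ j, (m j : ℝ) * w j := Finset.sum_nonneg fun j _ => by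
    have := hw j
    positivity
  linarith

lemma ew_sum_le (hw : ∀ j, 0 < w j) : ∃ K : ℝ, 0 < K ∧ ∀ x : ℝ, 0 < x → x ≤ 1 →
    Summable (ew w x) ∧ ∑' p, ew w x p ≤ K * (x ^ (2 * r))⁻¹ := by
  set L : ℝ := ∏ j, (Real.exp (w j) / w j) with hL
  have hL0 : 0 < L := Finset.prod_pos fun j _ => by have := hw j; positivity
  refine ⟨L * L, by positivity, fun x hx hx1 => ?_⟩
  have h1 := ew_hasSum hw hx
  refine ⟨h1.summable, ?_⟩
  rw [h1.tsum_eq]
  have h2 : ∏ j, (1 - Real.exp (-(w j) * x))⁻¹ ≤ L * (x ^ r)⁻¹ := by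
    have e1 : (x ^ r)⁻¹ = ∏ _j : Fin r, x⁻¹ := by
      rw [Finset.prod_const, Finset.card_univ, Fintype.card_fin, inv_pow]
    rw [hL, e1, ← Finset.prod_mul_distrib]
    refine Finset.prod_le_prod (fun j _ => ?_) fun j _ => ?_
    · have hwj := hw j
      have : Real.exp (-(w j) * x) ≤ 1 := Real.exp_le_one_iff.2 (by nlinarith)
      exact inv_nonneg.2 (by linarith)
    · have hwj := hw j
      have hbase : w j * x * Real.exp (-(w j) * x) ≤ 1 - Real.exp (-(w j) * x) := by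
        have h2 := Real.add_one_le_exp (w j * x)
        have h3 : Real.exp (w j * x) * Real.exp (-(w j) * x) = 1 := by
          rw [← Real.exp_add]; simp
        have h4 := Real.exp_pos (-(w j) * x)
        nlinarith
      have h3 : w j * x * Real.exp (-(w j)) ≤ 1 - Real.exp (-(w j) * x) := by
        refine le_trans ?_ hbase
        have : Real.exp (-(w j)) ≤ Real.exp (-(w j) * x) := Real.exp_le_exp.2 (by nlinarith)
        gcongr
      calc (1 - Real.exp (-(w j) * x))⁻¹ ≤ (w j * x * Real.exp (-(w j)))⁻¹ :=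
            inv_anti₀ (by positivity) h3
        _ = _ := by
            rw [Real.exp_neg]
            field_simp
  have h0 : 0 ≤ ∏ j, (1 - Real.exp (-(w j) * x))⁻¹ := Finset.prod_nonneg fun j _ => by
    have hwj := hw j
    have : Real.exp (-(w j) * x) ≤ 1 := Real.exp_le_one_iff.2 (by nlinarith)
    exact inv_nonneg.2 (by linarith)
  calc _ ≤ (L * (x ^ r)⁻¹) * (L * (x ^ r)⁻¹) := mul_le_mul h2 h2 h0 (by positivity)
    _ = _ := by
      have : x ^ (2 * r) = x ^ r * x ^ r := by rw [two_mul, pow_add]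
      rw [this, mul_inv]
      ring

/-- the exponential weight beats the small denominators -/
lemma ew_pow (hw : ∀ j, 0 < w j) {τ : ℝ} (hτ : 0 < τ) : ∃ K : ℝ, 0 < K ∧ ∀ x : ℝ, 0 < x → x ≤ 1 →
    ∀ p : (Fin r → ℕ) × (Fin r → ℕ), ew w x p * (1 + (lam 0 w p.1 + lam 0 w p.2)) ^ τ ≤
      K * x ^ (-τ) * ew w (x / 2) p := by
  obtain ⟨D, hD, h⟩ := rpow_exp_le (q := τ) (c := 1 / 2) hτ (by norm_num)
  refine ⟨Real.exp (1 / 2) * D, by positivity, fun x hx hx1 p => ?_⟩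
  set Λ : ℝ := lam 0 w p.1 + lam 0 w p.2 with hΛ
  have hΛ0 : 0 ≤ Λ := add_nonneg (lam0_nonneg hw _) (lam0_nonneg hw _)
  have h1 := h ((1 + Λ) * x) (by positivity)
  rw [Real.mul_rpow (by positivity) hx.le] at h1
  have e1 : ew w x p = ew w (x / 2) p * ew w (x / 2) p := by
    unfold ew
    rw [← Real.exp_add]
    congr 1
    ring
  have e2 : ew w (x / 2) p ≤ Real.exp (1 / 2) * Real.exp (-(1 / 2 * ((1 + Λ) * x))) := by
    unfold ew
    rw [← Real.exp_add]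
    apply Real.exp_le_exp.2
    rw [← hΛ]
    nlinarith
  have h2 : ew w (x / 2) p * (1 + Λ) ^ τ ≤ Real.exp (1 / 2) * D * x ^ (-τ) := by
    have hxτ : 0 < x ^ τ := by positivity
    rw [Real.rpow_neg hx.le, ← div_eq_mul_inv, le_div_iff₀ hxτ]
    calc ew w (x / 2) p * (1 + Λ) ^ τ * x ^ τ ≤
        (Real.exp (1 / 2) * Real.exp (-(1 / 2 * ((1 + Λ) * x)))) * (1 + Λ) ^ τ * x ^ τ := by
          gcongr
      _ = Real.exp (1 / 2) * ((1 + Λ) ^ τ * x ^ τ * Real.exp (-(1 / 2 * ((1 + Λ) * x)))) := by ring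
      _ ≤ Real.exp (1 / 2) * D := by gcongr
  have h3 := ew_pos w (x / 2) p
  rw [e1]
  calc ew w (x / 2) p * ew w (x / 2) p * (1 + Λ) ^ τ =
      (ew w (x / 2) p * (1 + Λ) ^ τ) * ew w (x / 2) p := by ring
    _ ≤ _ := by gcongr

open Classical in
/-- the integral of the square of the kernel over an interval -/
theorem int_KK (hw : ∀ j, 0 < w j) {c τ : ℝ} (hc : 0 < c) (hτ : 0 < τ) (h : LinDio w c τ) :
    ∃ K : ℝ, 0 < K ∧ ∀ x A B : ℝ, 0 < x → x ≤ 1 → A ≤ B →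
      |(∫ ρ in A..B, ‖KK 0 w ((x : ℂ) + ((2 * Real.pi * ρ : ℝ) : ℂ) * I)‖ ^ 2) -
        (B - A) * Dc w x| ≤ K * x ^ (-(2 * r + τ)) := by
  obtain ⟨K₁, hK₁, h1⟩ := df_lower hw hc hτ.le h
  obtain ⟨K₂, hK₂, h2⟩ := ew_pow hw hτ
  obtain ⟨K₃, hK₃, h3⟩ := ew_sum_le hw
  refine ⟨K₁ * (K₂ * (K₃ * 2 ^ (2 * r))), by positivity, fun x A B hx hx1 hAB => ?_⟩
  set g : (Fin r → ℕ) × (Fin r → ℕ) → ℝ → ℂ := fun p ρ =>
    (ew w x p : ℂ) * cexp (((-(2 * Real.pi * df w p) : ℝ) : ℂ) * I * ρ) with hg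
  have hgc : ∀ p, Continuous (g p) := by
    intro p
    simp only [hg]
    fun_prop
  have hgn : ∀ p ρ, ‖g p ρ‖ = ew w x p := by
    intro p ρ
    simp only [hg]
    rw [norm_mul, Complex.norm_real, Real.norm_of_nonneg (ew_pos w x p).le]
    have : ((-(2 * Real.pi * df w p) : ℝ) : ℂ) * I * ρ =
        ((-(2 * Real.pi * df w p) * ρ : ℝ) : ℂ) * I := by
      push_cast; ring
    rw [this, Complex.norm_exp_ofReal_mul_I, mul_one]
  have hsum := (h3 x hx hx1).1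
  have hT : HasSum (fun p => ∫ ρ in Ioc A B, g p ρ) (∫ ρ in Ioc A B, ∑' p, g p ρ) := by
    refine hasSum_integral_of_summable_integral_norm (fun p => ?_) ?_
    · exact ((hgc p).intervalIntegrable A B).1
    · have : ∀ p, ∫ ρ in Ioc A B, ‖g p ρ‖ = (B - A) * ew w x p := by
        intro p
        simp only [hgn]
        rw [setIntegral_const, measureReal_def, Real.volume_Ioc,
          ENNReal.toReal_ofReal (by linarith), smul_eq_mul]
      simp only [this]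
      exact hsum.mul_left _
  have hint : ∫ ρ in Ioc A B, ∑' p, g p ρ =
      ((∫ ρ in A..B, ‖KK 0 w ((x : ℂ) + ((2 * Real.pi * ρ : ℝ) : ℂ) * I)‖ ^ 2 : ℝ) : ℂ) := by
    rw [← intervalIntegral.integral_ofReal, intervalIntegral.integral_of_le hAB]
    refine integral_congr_ae (ae_of_all _ fun ρ => ?_)
    exact (KK_sq hw hx ρ).symm
  rw [hint] at hT
  set D : (Fin r → ℕ) × (Fin r → ℕ) → ℝ := fun p => if df w p = 0 then ew w x p else 0 with hD
  have hDle : ∀ p, 0 ≤ D p ∧ D p ≤ ew w x p := by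
    intro p
    simp only [hD]
    split_ifs
    · exact ⟨(ew_pos w x p).le, le_rfl⟩
    · exact ⟨le_rfl, (ew_pos w x p).le⟩
  have hDs : Summable D := Summable.of_nonneg_of_le (fun p => (hDle p).1) (fun p => (hDle p).2) hsum
  have hD2 : HasSum (fun p => (((B - A) * D p : ℝ) : ℂ)) (((B - A) * Dc w x : ℝ) : ℂ) := by
    have h4 : HasSum D (Dc w x) := hDs.hasSum
    exact Complex.hasSum_ofReal.2 (h4.mul_left _)
  have hdiff := hT.sub hD2
  -- termwise
  have hterm : ∀ p, ‖(∫ ρ in Ioc A B, g p ρ) - (((B - A) * D p : ℝ) : ℂ)‖ ≤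
      K₁ * (K₂ * x ^ (-τ)) * ew w (x / 2) p := by
    intro p
    have hi : ∫ ρ in Ioc A B, g p ρ = (ew w x p : ℂ) *
        ∫ ρ in A..B, cexp (((-(2 * Real.pi * df w p) : ℝ) : ℂ) * I * ρ) := by
      rw [← intervalIntegral.integral_of_le hAB, ← intervalIntegral.integral_const_mul]
    by_cases hp : df w p = 0
    · have e1 : D p = ew w x p := by simp only [hD]; rw [if_pos hp]
      have e2 : (∫ ρ in A..B, cexp (((-(2 * Real.pi * df w p) : ℝ) : ℂ) * I * ρ)) =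
          ((B - A : ℝ) : ℂ) := by
        rw [hp]
        simp
      rw [hi, e1, e2]
      have e3 : (ew w x p : ℂ) * ((B - A : ℝ) : ℂ) - (((B - A) * ew w x p : ℝ) : ℂ) = 0 := by
        push_cast; ring
      rw [e3, norm_zero]
      have := ew_pos w (x / 2) p
      positivity
    · have e1 : D p = 0 := by simp only [hD]; rw [if_neg hp]
      rw [hi, e1, mul_zero, Complex.ofReal_zero, sub_zero, norm_mul, Complex.norm_real,
        Real.norm_of_nonneg (ew_pos w x p).le]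
      calc ew w x p * ‖∫ ρ in A..B, cexp (((-(2 * Real.pi * df w p) : ℝ) : ℂ) * I * ρ)‖ ≤
          ew w x p * (1 / |df w p|) :=
            mul_le_mul_of_nonneg_left (osc hp A B) (ew_pos w x p).le
        _ ≤ ew w x p * (K₁ * (1 + (lam 0 w p.1 + lam 0 w p.2)) ^ τ) :=
            mul_le_mul_of_nonneg_left (h1 p hp) (ew_pos w x p).le
        _ = K₁ * (ew w x p * (1 + (lam 0 w p.1 + lam 0 w p.2)) ^ τ) := by ring
        _ ≤ K₁ * (K₂ * x ^ (-τ) * ew w (x / 2) p) := by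
            have := h2 x hx hx1 p
            gcongr
        _ = _ := by ring
  obtain ⟨hs2, hs3⟩ := h3 (x / 2) (by positivity) (by linarith)
  have hmaj : Summable fun p => K₁ * (K₂ * x ^ (-τ)) * ew w (x / 2) p := hs2.mul_left _
  have hns : Summable fun p => ‖(∫ ρ in Ioc A B, g p ρ) - (((B - A) * D p : ℝ) : ℂ)‖ :=
    Summable.of_nonneg_of_le (fun p => norm_nonneg _) hterm hmaj
  have h6 := norm_tsum_le_tsum_norm hns
  rw [hdiff.tsum_eq] at h6
  have h7 : ‖((∫ ρ in A..B, ‖KK 0 w ((x : ℂ) + ((2 * Real.pi * ρ : ℝ) : ℂ) * I)‖ ^ 2 : ℝ) : ℂ) -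
      (((B - A) * Dc w x : ℝ) : ℂ)‖ =
      |(∫ ρ in A..B, ‖KK 0 w ((x : ℂ) + ((2 * Real.pi * ρ : ℝ) : ℂ) * I)‖ ^ 2) -
        (B - A) * Dc w x| := by
    rw [← Complex.ofReal_sub, Complex.norm_real, Real.norm_eq_abs]
  rw [← h7]
  refine h6.trans ((hns.tsum_le_tsum hterm hmaj).trans ?_)
  rw [tsum_mul_left]
  have e4 : x ^ (-(2 * (r : ℝ) + τ)) = x ^ (-τ) * (x ^ (2 * r))⁻¹ := by
    rw [← Real.rpow_natCast, ← Real.rpow_neg hx.le, ← Real.rpow_add hx]
    congr 1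
    push_cast
    ring
  rw [e4]
  have e5 : ((x / 2) ^ (2 * r))⁻¹ = 2 ^ (2 * r) * (x ^ (2 * r))⁻¹ := by
    rw [div_pow, inv_div, div_eq_mul_inv]
  rw [e5] at hs3
  calc K₁ * (K₂ * x ^ (-τ)) * ∑' p, ew w (x / 2) p ≤
      K₁ * (K₂ * x ^ (-τ)) * (K₃ * (2 ^ (2 * r) * (x ^ (2 * r))⁻¹)) := by gcongr
    _ = _ := by ring

end Pool.Agent.H312.Eq
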