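import Pool.Agent.H312.Ex.Crit

set_option autoImplicit false

/-!
# The integral of the kernel over long intervals
-/

namespace Pool.Agent.H312.Eq

open Finset Filter Topology MeasureTheory Complex Set
open Pool.Agent.H131R5.BZ Pool.Agent.Y930.Bz Pool.Agent.Y616.BM Pool.Agent.H312.Barnes
open Pool.Agent.H312.Sh

/-- product of sums over `Fin r → ℕ` -/
lemma hasSum_prod_c (r : ℕ) (g : Fin r → ℕ → ℂ) (S : Fin r → ℂ)
    (hn : ∀ j, Summable fun k => ‖g j k‖) (hS : ∀ j, HasSum (g j) (S j)) :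
    (Summable fun m : Fin r → ℕ => ‖∏ j, g j (m j)‖) ∧
      HasSum (fun m : Fin r → ℕ => ∏ j, g j (m j)) (∏ j, S j) := by
  have hsn : ∀ (n : ℕ) (g : Fin n → ℕ → ℂ), (∀ j, Summable fun k => ‖g j k‖) →
      Summable fun m : Fin n → ℕ => ‖∏ j, g j (m j)‖ := by
    intro n g hn
    have h1 := hasSum_prod_fin n (fun j k => ‖g j k‖) (fun j => ∑' k, ‖g j k‖)
      (fun j k => norm_nonneg _) (fun j => (hn j).hasSum)
    refine h1.summable.congr fun m => ?_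
    rw [norm_prod]
  refine ⟨hsn r g hn, ?_⟩
  induction r with
  | zero =>
    simp only [Finset.univ_eq_empty, Finset.prod_empty]
    exact hasSum_unique (fun _ : Fin 0 → ℕ => (1 : ℂ))
  | succ n ih =>
    have h1 := ih (fun j => g j.succ) (fun j => S j.succ) (fun j => hn j.succ)
      (fun j => hS j.succ)
    set G : (Fin n → ℕ) → ℂ := fun m => ∏ j : Fin n, g j.succ (m j) with hG
    have hGn : Summable fun m => ‖G m‖ := hsn n (fun j => g j.succ) fun j => hn j.succ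
    have hs : Summable (fun x : ℕ × (Fin n → ℕ) => g 0 x.1 * G x.2) :=
      summable_mul_of_summable_norm (hn 0) hGn
    have h2 : HasSum (fun x : ℕ × (Fin n → ℕ) => g 0 x.1 * G x.2)
        (S 0 * ∏ j : Fin n, S j.succ) :=
      HasSum.mul (f := g 0) (g := G) (hS 0) h1 hs
    rw [Fin.prod_univ_succ]
    have h3 := (Fin.consEquiv (fun _ : Fin (n + 1) => ℕ)).hasSum_iff
      (f := fun m : Fin (n + 1) → ℕ => ∏ j, g j (m j)) (a := S 0 * ∏ j : Fin n, S j.succ)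
    rw [← h3]
    have h4 : ((fun m : Fin (n + 1) → ℕ => ∏ j, g j (m j)) ∘
        (Fin.consEquiv (fun _ : Fin (n + 1) => ℕ))) = fun x => g 0 x.1 * G x.2 := by
      funext x
      simp only [Function.comp, Fin.consEquiv, Equiv.coe_fn_mk, hG]
      rw [Fin.prod_univ_succ]
      simp
    rw [h4]
    exact h2

variable {r : ℕ} {w : Fin r → ℝ}

lemma KK_sum (hw : ∀ j, 0 < w j) {z : ℂ} (hz : 0 < z.re) :
    (Summable fun m : Fin r → ℕ => ‖cexp (-((lam 0 w m : ℝ) : ℂ) * z)‖) ∧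
      HasSum (fun m : Fin r → ℕ => cexp (-((lam 0 w m : ℝ) : ℂ) * z)) (KK 0 w z) := by
  have hlt : ∀ j, ‖cexp (-(w j : ℂ) * z)‖ < 1 := by
    intro j
    rw [Complex.norm_exp, Real.exp_lt_one_iff]
    have h1 : (-(w j : ℂ) * z).re = -(w j * z.re) := by simp
    rw [h1]
    have := mul_pos (hw j) hz
    linarith
  have h1 := hasSum_prod_c r (fun j k => (cexp (-(w j : ℂ) * z)) ^ k)
    (fun j => (1 - cexp (-(w j : ℂ) * z))⁻¹)
    (fun j => by
      have := summable_geometric_of_lt_one (norm_nonneg _) (hlt j)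
      simpa only [norm_pow] using this)
    (fun j => hasSum_geometric_of_norm_lt_one (hlt j))
  have h2 : ∀ m : Fin r → ℕ, ∏ j, (cexp (-(w j : ℂ) * z)) ^ (m j) =
      cexp (-((lam 0 w m : ℝ) : ℂ) * z) := by
    intro m
    have : ∏ j, cexp (-(w j : ℂ) * z) ^ (m j) = cexp (∑ j, (m j : ℂ) * (-(w j : ℂ) * z)) := by
      rw [Complex.exp_sum]
      exact Finset.prod_congr rfl (fun j _ => by rw [← Complex.exp_nat_mul])
    rw [this]
    congr 1
    unfold lam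
    push_cast
    rw [zero_add, neg_mul, Finset.sum_mul, ← Finset.sum_neg_distrib]
    exact Finset.sum_congr rfl (fun j _ => by ring)
  simp only [h2] at h1
  have h3 : KK 0 w z = ∏ j, (1 - cexp (-(w j : ℂ) * z))⁻¹ := by
    unfold KK
    simp
  rw [h3]
  exact h1

/-- the exponential weight of a pair -/
noncomputable def ew (w : Fin r → ℝ) (x : ℝ) (p : (Fin r → ℕ) × (Fin r → ℕ)) : ℝ :=
  Real.exp (-(lam 0 w p.1 + lam 0 w p.2) * x)

/-- the difference of a pair -/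
noncomputable def df (w : Fin r → ℝ) (p : (Fin r → ℕ) × (Fin r → ℕ)) : ℝ :=
  lam 0 w p.1 - lam 0 w p.2

open Classical in
/-- the number of coincidences -/
noncomputable def Dc (w : Fin r → ℝ) (x : ℝ) : ℝ :=
  ∑' p : (Fin r → ℕ) × (Fin r → ℕ), if df w p = 0 then ew w x p else 0

lemma ew_pos (w : Fin r → ℝ) (x : ℝ) (p : (Fin r → ℕ) × (Fin r → ℕ)) : 0 < ew w x p :=
  Real.exp_pos _

lemma ew_hasSum (hw : ∀ j, 0 < w j) {x : ℝ} (hx : 0 < x) :
    HasSum (ew w x) ((∏ j, (1 - Real.exp (-(w j) * x))⁻¹) * ∏ j, (1 - Real.exp (-(w j) * x))⁻¹) := by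
  have h1 := hasSum_exp (a := 0) hw hx
  simp only [neg_zero, zero_mul, Real.exp_zero, one_mul] at h1
  have h2 : Summable fun p : (Fin r → ℕ) × (Fin r → ℕ) =>
      Real.exp (-(lam 0 w p.1) * x) * Real.exp (-(lam 0 w p.2) * x) :=
    Summable.mul_of_nonneg h1.summable h1.summable (fun _ => (Real.exp_pos _).le)
      (fun _ => (Real.exp_pos _).le)
  have h3 := HasSum.mul (f := fun m : Fin r → ℕ => Real.exp (-(lam 0 w m) * x))
    (g := fun m : Fin r → ℕ => Real.exp (-(lam 0 w m) * x)) h1 h1 h2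
  refine h3.congr_fun fun p => ?_
  unfold ew
  rw [← Real.exp_add]
  congr 1
  ring

/-- the square of the kernel as a sum over pairs -/
lemma KK_sq (hw : ∀ j, 0 < w j) {x : ℝ} (hx : 0 < x) (ρ : ℝ) :
    ((‖KK 0 w ((x : ℂ) + ((2 * Real.pi * ρ : ℝ) : ℂ) * I)‖ ^ 2 : ℝ) : ℂ) =
      ∑' p : (Fin r → ℕ) × (Fin r → ℕ),
        (ew w x p : ℂ) * cexp (((-(2 * Real.pi * df w p) : ℝ) : ℂ) * I * ρ) := by
  set z : ℂ := (x : ℂ) + ((2 * Real.pi * ρ : ℝ) : ℂ) * I with hz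
  have hre : z.re = x := by rw [hz]; simp
  obtain ⟨h1, h2⟩ := KK_sum hw (z := z) (by rw [hre]; exact hx)
  have h3 : HasSum (fun m : Fin r → ℕ => (starRingEnd ℂ) (cexp (-((lam 0 w m : ℝ) : ℂ) * z)))
      ((starRingEnd ℂ) (KK 0 w z)) := by
    have := h2.map (starRingEnd ℂ) Complex.continuous_conj
    exact this
  have h4 : Summable fun m : Fin r → ℕ =>
      ‖(starRingEnd ℂ) (cexp (-((lam 0 w m : ℝ) : ℂ) * z))‖ := by
    simpa only [Complex.norm_conj] using h1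
  have h5 : ((‖KK 0 w z‖ ^ 2 : ℝ) : ℂ) = KK 0 w z * (starRingEnd ℂ) (KK 0 w z) := by
    rw [Complex.mul_conj, Complex.normSq_eq_norm_sq]
  rw [h5, ← h3.tsum_eq, ← h2.tsum_eq, tsum_mul_tsum_of_summable_norm h1 h4]
  refine tsum_congr fun p => ?_
  rw [← Complex.exp_conj]
  unfold ew df
  rw [Complex.ofReal_exp, ← Complex.exp_add, ← Complex.exp_add]
  congr 1
  rw [hz]
  simp only [map_mul, map_neg, map_add, Complex.conj_ofReal, Complex.conj_I]
  push_cast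
  ring

lemma osc {μ : ℝ} (hμ : μ ≠ 0) (A B : ℝ) :
    ‖∫ ρ in A..B, cexp (((-(2 * Real.pi * μ) : ℝ) : ℂ) * I * ρ)‖ ≤ 1 / |μ| := by
  have hp := Real.pi_pos
  have hc : (((-(2 * Real.pi * μ) : ℝ) : ℂ) * I) ≠ 0 := by
    refine mul_ne_zero ?_ Complex.I_ne_zero
    have : (-(2 * Real.pi * μ) : ℝ) ≠ 0 := by
      rw [neg_ne_zero]
      positivity
    exact_mod_cast this
  rw [integral_exp_mul_complex hc, norm_div]
  have h1 : ∀ s : ℝ, ‖cexp (((-(2 * Real.pi * μ) : ℝ) : ℂ) * I * s)‖ = 1 := by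
    intro s
    have : ((-(2 * Real.pi * μ) : ℝ) : ℂ) * I * s = ((-(2 * Real.pi * μ) * s : ℝ) : ℂ) * I := by
      push_cast; ring
    rw [this, Complex.norm_exp_ofReal_mul_I]
  have h2 : ‖((-(2 * Real.pi * μ) : ℝ) : ℂ) * I‖ = 2 * Real.pi * |μ| := by
    rw [norm_mul, Complex.norm_I, mul_one, Complex.norm_real, Real.norm_eq_abs, abs_neg, abs_mul,
      abs_of_pos (by positivity : 0 < 2 * Real.pi)]
  have h3 : ‖cexp (((-(2 * Real.pi * μ) : ℝ) : ℂ) * I * B) -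
      cexp (((-(2 * Real.pi * μ) : ℝ) : ℂ) * I * A)‖ ≤ 2 := by
    refine (norm_sub_le _ _).trans ?_
    rw [h1, h1]
    norm_num
  rw [h2]
  have hμ0 : 0 < |μ| := abs_pos.2 hμ
  rw [div_le_div_iff₀ (by positivity) hμ0]
  have h4 := Real.pi_gt_three
  nlinarith

/-- the Diophantine condition on the linear forms -/
def LinDio (w : Fin r → ℝ) (c τ : ℝ) : Prop :=
  ∀ n : Fin r → ℤ, ∑ j, (n j : ℝ) * w j ≠ 0 →
    c * (1 + ∑ j, |(n j : ℝ)|) ^ (-τ) ≤ |∑ j, (n j : ℝ) * w j|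

lemma df_lower (hw : ∀ j, 0 < w j) {c τ : ℝ} (hc : 0 < c) (hτ : 0 ≤ τ) (h : LinDio w c τ) :
    ∃ K : ℝ, 0 < K ∧ ∀ p : (Fin r → ℕ) × (Fin r → ℕ), df w p ≠ 0 →
      1 / |df w p| ≤ K * (1 + (lam 0 w p.1 + lam 0 w p.2)) ^ τ := by
  obtain ⟨k, hk1, hk⟩ : ∃ k : ℝ, 1 ≤ k ∧ ∀ j, 1 ≤ k * w j := by
    refine ⟨1 + ∑ j, 1 / w j, ?_, fun j => ?_⟩
    · have : 0 ≤ ∑ j, 1 / w j := Finset.sum_nonneg fun j _ => by have := hw j; positivity
      linarith
    · have h1 : 1 / w j ≤ ∑ j, 1 / w j :=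
        Finset.single_le_sum (f := fun j => 1 / w j)
          (fun i _ => by have := hw i; positivity) (Finset.mem_univ j)
      have h2 := hw j
      have h3 : 1 / w j * w j = 1 := by field_simp
      nlinarith
  have hk0 : 0 < k := by linarith
  refine ⟨c⁻¹ * k ^ τ, by positivity, fun p hp => ?_⟩
  set n : Fin r → ℤ := fun j => (p.1 j : ℤ) - (p.2 j : ℤ) with hn
  have e1 : ∑ j, (n j : ℝ) * w j = df w p := by
    unfold df lam
    simp only [hn]
    push_cast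
    rw [zero_add, zero_add, ← Finset.sum_sub_distrib]
    exact Finset.sum_congr rfl fun j _ => by ring
  have h1 := h n (by rw [e1]; exact hp)
  rw [e1] at h1
  have hl : ∀ m : Fin r → ℕ, ∑ j, (m j : ℝ) ≤ k * lam 0 w m := by
    intro m
    unfold lam
    rw [zero_add, Finset.mul_sum]
    refine Finset.sum_le_sum fun j _ => ?_
    have h2 : (0 : ℝ) ≤ m j := Nat.cast_nonneg _
    have h3 := hk j
    nlinarith
  have h2 : 1 + ∑ j, |(n j : ℝ)| ≤ k * (1 + (lam 0 w p.1 + lam 0 w p.2)) := by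
    have h3 : ∑ j, |(n j : ℝ)| ≤ ∑ j, (p.1 j : ℝ) + ∑ j, (p.2 j : ℝ) := by
      rw [← Finset.sum_add_distrib]
      refine Finset.sum_le_sum fun j _ => ?_
      simp only [hn]
      push_cast
      have h4 : (0 : ℝ) ≤ p.1 j := Nat.cast_nonneg _
      have h5 : (0 : ℝ) ≤ p.2 j := Nat.cast_nonneg _
      rw [abs_le]
      constructor <;> linarith
    have h4 := hl p.1
    have h5 := hl p.2
    nlinarith
  have hN0 : 0 < 1 + ∑ j, |(n j : ℝ)| := by
    have : 0 ≤ ∑ j, |(n j : ℝ)| := Finset.sum_nonneg fun j _ => abs_nonneg _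
    linarith
  have hd0 : 0 < |df w p| := abs_pos.2 hp
  have h3 : (1 + ∑ j, |(n j : ℝ)|) ^ τ ≤ (k * (1 + (lam 0 w p.1 + lam 0 w p.2))) ^ τ :=
    Real.rpow_le_rpow hN0.le h2 hτ
  have hL0 : 0 ≤ 1 + (lam 0 w p.1 + lam 0 w p.2) := by
    have h4 := hl p.1
    have h5 := hl p.2
    have h6 : 0 ≤ ∑ j, (p.1 j : ℝ) := Finset.sum_nonneg fun j _ => Nat.cast_nonneg _
    have h7 : 0 ≤ ∑ j, (p.2 j : ℝ) := Finset.sum_nonneg fun j _ => Nat.cast_nonneg _
    have h8 : 0 ≤ lam 0 w p.1 := by nlinarith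
    have h9 : 0 ≤ lam 0 w p.2 := by nlinarith
    linarith
  rw [Real.mul_rpow hk0.le hL0] at h3
  have h4 : 0 < (1 + ∑ j, |(n j : ℝ)|) ^ τ := by positivity
  rw [Real.rpow_neg hN0.le] at h1
  calc 1 / |df w p| ≤ 1 / (c * ((1 + ∑ j, |(n j : ℝ)|) ^ τ)⁻¹) :=
        one_div_le_one_div_of_le (by positivity) h1
    _ = c⁻¹ * (1 + ∑ j, |(n j : ℝ)|) ^ τ := by field_simp
    _ ≤ c⁻¹ * (k ^ τ * (1 + (lam 0 w p.1 + lam 0 w p.2)) ^ τ) := by gcongr
    _ = _ := by ring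

end Pool.Agent.H312.Eq
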