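import Pool.Agent.H312.Eq.Un3

set_option autoImplicit false

/-!
# The mean square of a Dirichlet polynomial
-/

namespace Pool.Agent.H312.Eq

open Finset Filter Topology MeasureTheory Complex Set

/-- the diagonal of a finite sum -/
noncomputable def dg {ι : Type*} (s : Finset ι) (l : ι → ℝ) (σ : ℝ) : ℝ :=
  ∑ i ∈ s, ∑ j ∈ s, if l i = l j then l i ^ (-σ) * l j ^ (-σ) else 0

lemma cpow_line {x : ℝ} (hx : 0 < x) (σ t : ℝ) :
    ((x : ℝ) : ℂ) ^ (-((σ : ℂ) + (t : ℂ) * I)) =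
      ((x ^ (-σ) : ℝ) : ℂ) * cexp (((-(t * Real.log x) : ℝ) : ℂ) * I) := by
  have hx0 : ((x : ℝ) : ℂ) ≠ 0 := by exact_mod_cast hx.ne'
  rw [Complex.cpow_def_of_ne_zero hx0, ← Complex.ofReal_log hx.le, Real.rpow_def_of_pos hx,
    Complex.ofReal_exp, ← Complex.exp_add]
  congr 1
  push_cast
  ring

/-- the mean square of a finite sum -/
theorem fs_ms {ι : Type*} (s : Finset ι) (l : ι → ℝ) (hl : ∀ i ∈ s, 0 < l i) (σ : ℝ) :
    ∃ K : ℝ, ∀ T : ℝ, 1 ≤ T →
      |(∫ t in (1 : ℝ)..T, ‖∑ i ∈ s, ((l i : ℝ) : ℂ) ^ (-((σ : ℂ) + (t : ℂ) * I))‖ ^ 2) -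
        (T - 1) * dg s l σ| ≤ K := by
  classical
  set co : ι → ι → ℝ := fun i j => l i ^ (-σ) * l j ^ (-σ) with hco
  have hco0 : ∀ i ∈ s, ∀ j ∈ s, 0 ≤ co i j := fun i hi j hj => by
    have := hl i hi
    have := hl j hj
    simp only [hco]
    positivity
  set μ : ι → ι → ℝ := fun i j => (Real.log (l i) - Real.log (l j)) / (2 * Real.pi) with hμ
  refine ⟨∑ i ∈ s, ∑ j ∈ s, co i j * (1 / |μ i j|), fun T hT => ?_⟩
  have hsq : ∀ t : ℝ, ((‖∑ i ∈ s, ((l i : ℝ) : ℂ) ^ (-((σ : ℂ) + (t : ℂ) * I))‖ ^ 2 : ℝ) : ℂ) =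
      ∑ i ∈ s, ∑ j ∈ s, (co i j : ℂ) * cexp (((-(2 * Real.pi * μ i j) : ℝ) : ℂ) * I * t) := by
    intro t
    have h1 : ∀ z : ℂ, ((‖z‖ ^ 2 : ℝ) : ℂ) = z * (starRingEnd ℂ) z := fun z => by
      rw [Complex.mul_conj, Complex.normSq_eq_norm_sq]
    rw [h1, map_sum, Finset.sum_mul_sum]
    refine Finset.sum_congr rfl fun i hi => Finset.sum_congr rfl fun j hj => ?_
    rw [cpow_line (hl i hi), cpow_line (hl j hj), map_mul, Complex.conj_ofReal, ← Complex.exp_conj]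
    simp only [map_mul, Complex.conj_ofReal, Complex.conj_I, hco, hμ]
    rw [Complex.ofReal_mul, mul_mul_mul_comm, ← Complex.exp_add]
    congr 2
    have hp : (Real.pi : ℂ) ≠ 0 := by exact_mod_cast Real.pi_ne_zero
    push_cast
    field_simp
    ring
  have hint : ((∫ t in (1 : ℝ)..T, ‖∑ i ∈ s, ((l i : ℝ) : ℂ) ^ (-((σ : ℂ) + (t : ℂ) * I))‖ ^ 2 : ℝ)
      : ℂ) = ∑ i ∈ s, ∑ j ∈ s, (co i j : ℂ) *
        ∫ t in (1 : ℝ)..T, cexp (((-(2 * Real.pi * μ i j) : ℝ) : ℂ) * I * t) := by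
    rw [← intervalIntegral.integral_ofReal]
    simp only [hsq]
    rw [intervalIntegral.integral_finsetSum]
    · refine Finset.sum_congr rfl fun i _ => ?_
      rw [intervalIntegral.integral_finsetSum]
      · refine Finset.sum_congr rfl fun j _ => ?_
        rw [intervalIntegral.integral_const_mul]
      · intro j _
        exact Continuous.intervalIntegrable (by fun_prop) _ _
    · intro i _
      exact Continuous.intervalIntegrable (by fun_prop) _ _
  have hdg : (((T - 1) * dg s l σ : ℝ) : ℂ) = ∑ i ∈ s, ∑ j ∈ s,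
      ((if l i = l j then (T - 1) * co i j else 0 : ℝ) : ℂ) := by
    unfold dg
    rw [Finset.mul_sum]
    push_cast
    refine Finset.sum_congr rfl fun i _ => ?_
    rw [Finset.mul_sum]
    refine Finset.sum_congr rfl fun j _ => ?_
    split_ifs
    · simp only [hco]
      push_cast
      ring
    · simp
  rw [← Real.norm_eq_abs, ← Complex.norm_real, Complex.ofReal_sub, hint, hdg,
    ← Finset.sum_sub_distrib]
  refine (norm_sum_le _ _).trans (Finset.sum_le_sum fun i hi => ?_)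
  rw [← Finset.sum_sub_distrib]
  refine (norm_sum_le _ _).trans (Finset.sum_le_sum fun j hj => ?_)
  by_cases h : l i = l j
  · have hμ0 : μ i j = 0 := by
      simp only [hμ]
      rw [h, sub_self, zero_div]
    have e1 : (∫ t in (1 : ℝ)..T, cexp (((-(2 * Real.pi * μ i j) : ℝ) : ℂ) * I * t)) =
        ((T - 1 : ℝ) : ℂ) := by
      rw [hμ0]
      simp
    rw [if_pos h, e1]
    have e2 : (co i j : ℂ) * ((T - 1 : ℝ) : ℂ) - (((T - 1) * co i j : ℝ) : ℂ) = 0 := by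
      push_cast; ring
    rw [e2, norm_zero, hμ0]
    simp
  · rw [if_neg h, Complex.ofReal_zero, sub_zero, norm_mul, Complex.norm_real,
      Real.norm_of_nonneg (hco0 i hi j hj)]
    refine mul_le_mul_of_nonneg_left (osc ?_ 1 T) (hco0 i hi j hj)
    simp only [hμ]
    have hp := Real.pi_pos
    refine div_ne_zero ?_ (by positivity)
    intro h1
    apply h
    exact Real.log_injOn_pos (Set.mem_Ioi.2 (hl i hi)) (Set.mem_Ioi.2 (hl j hj)) (by linarith)

/-- the mean value of a finite sum -/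
theorem fs_lim {ι : Type*} (s : Finset ι) (l : ι → ℝ) (hl : ∀ i ∈ s, 0 < l i) (σ : ℝ) :
    Tendsto (fun T : ℝ => (∫ t in (1 : ℝ)..T,
      ‖∑ i ∈ s, ((l i : ℝ) : ℂ) ^ (-((σ : ℂ) + (t : ℂ) * I))‖ ^ 2) / T) atTop
      (𝓝 (dg s l σ)) := by
  obtain ⟨K, hK⟩ := fs_ms s l hl σ
  have h1 : Tendsto (fun T : ℝ => (K + |dg s l σ|) / T) atTop (𝓝 0) :=
    tendsto_const_nhds.div_atTop tendsto_id
  rw [tendsto_iff_norm_sub_tendsto_zero]
  refine squeeze_zero' (Eventually.of_forall fun _ => norm_nonneg _) ?_ h1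
  filter_upwards [eventually_ge_atTop (1 : ℝ)] with T hT
  have hT0 : 0 < T := by linarith
  have h2 := hK T hT
  set J : ℝ := ∫ t in (1 : ℝ)..T,
      ‖∑ i ∈ s, ((l i : ℝ) : ℂ) ^ (-((σ : ℂ) + (t : ℂ) * I))‖ ^ 2 with hJ
  rw [Real.norm_eq_abs]
  have e1 : J / T - dg s l σ = ((J - (T - 1) * dg s l σ) - dg s l σ) / T := by
    field_simp
    ring
  rw [e1, abs_div, abs_of_pos hT0]
  gcongr
  exact (abs_sub _ _).trans (by gcongr)

end Pool.Agent.H312.Eq
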