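import Pool.Agent.H312.Eq.Gup

set_option autoImplicit false

/-!
# The mean value theorem to the right of the abscissa, for all weights
-/

namespace Pool.Agent.H312.Eq

open Finset Filter Topology MeasureTheory Complex Set Asymptotics
open Pool.Agent.H131R5.BZ Pool.Agent.Y930.Bz Pool.Agent.Y616.BM Pool.Agent.H312.Barnes
open Pool.Agent.H312.Sh Pool.Agent.H312.Ex Pool.Agent.H312.Lb

variable {r : ℕ} {w : Fin r → ℝ} {a : ℝ} {Z : ℂ → ℂ}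

/-- the bound without `ε` -/
theorem ms_lin (ha : 0 < a) (hw : ∀ j, 0 < w j)
    (hZ : ∀ s ∈ Om r, DifferentiableAt ℂ Z s)
    (hs : ∀ s : ℂ, (r : ℝ) < s.re → Z s = ∑' m : Fin r → ℕ, ((lam a w m : ℝ) : ℂ) ^ (-s))
    {σ' : ℝ} (hσ' : 1 / 2 ≤ σ')
    (hH : ∀ ε : ℝ, 0 < ε → ∃ C : ℝ, 0 ≤ C ∧ ∀ T : ℝ, 2 ≤ T →
      FT w σ' T ≤ ENNReal.ofReal (C * T ^ (2 * σ' + ε)))
    {σ : ℝ} (hσ : σ' < σ) :
    (fun T : ℝ => ∫ t in (1 : ℝ)..T, ‖Z ((σ : ℂ) + (t : ℂ) * I)‖ ^ 2) =O[atTop] fun T : ℝ => T := by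
  have hσ2 : 1 / 2 < σ := by linarith
  obtain ⟨C, T₀, hC, hT₀, h1⟩ := FT_up' hw hσ' hσ hH
  have h2 : (fun T : ℝ => resR w σ T) =O[atTop]
      fun T : ℝ => T ^ (2 * σ - 1 + 1) * (Real.log T) ^ (0 : ℝ) := by
    refine IsBigO.of_bound C ?_
    filter_upwards [eventually_ge_atTop T₀] with T hT
    have hT1 : 1 ≤ T := by linarith
    have hT0 : 0 < T := by linarith
    have h3 := ENNReal.toReal_mono ENNReal.ofReal_ne_top (h1 T hT)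
    rw [ENNReal.toReal_ofReal (by positivity), ← resR_eq w σ hT1] at h3
    rw [Real.norm_of_nonneg (resR_nonneg w σ hT1), Real.rpow_zero, mul_one,
      Real.norm_of_nonneg (by positivity)]
    have e1 : 2 * σ - 1 + 1 = 2 * σ := by ring
    rw [e1]
    exact h3
  have h3 := (crit ha hw hZ hs hσ2 one_pos le_rfl).2 h2
  simpa only [Real.rpow_one, Real.rpow_zero, mul_one] using h3

/-- the mean value theorem to the right of the abscissa -/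
theorem mean_half (ha : 0 < a) (hw : ∀ j, 0 < w j)
    (hZ : ∀ s ∈ Om r, DifferentiableAt ℂ Z s)
    (hs : ∀ s : ℂ, (r : ℝ) < s.re → Z s = ∑' m : Fin r → ℕ, ((lam a w m : ℝ) : ℂ) ^ (-s))
    {σ' : ℝ} (hσ' : 1 / 2 ≤ σ')
    (hH : ∀ ε : ℝ, 0 < ε → ∃ C : ℝ, 0 ≤ C ∧ ∀ T : ℝ, 2 ≤ T →
      FT w σ' T ≤ ENNReal.ofReal (C * T ^ (2 * σ' + ε)))
    {σ : ℝ} (hσ : σ' < σ) :
    Summable (dgt a w σ) ∧ 0 < ∑' p, dgt a w σ p ∧
      Tendsto (fun T : ℝ => (∫ t in (1 : ℝ)..T, ‖Z ((σ : ℂ) + (t : ℂ) * I)‖ ^ 2) / T) atTop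
        (𝓝 (∑' p, dgt a w σ p)) := by
  have hσ2 : 1 / 2 < σ := by linarith
  have hσ0 : 0 < σ := by linarith
  have hO := ms_lin ha hw hZ hs hσ' hH hσ
  obtain ⟨C₃, T₃, hC₃, hT₃, h1⟩ := FT_up' hw hσ' hσ hH
  obtain ⟨q, K, hq0, hq1, hK, htr⟩ := FT_trunc' hw hσ' hσ hH
  have hE : ∀ ε : ℝ, 0 < ε → ∃ a₀ : ℝ, 1 ≤ a₀ ∧ ∀ a : ℝ, a₀ ≤ a → ∀ c : ℕ → ℂ, Tay a w c →
      ∃ T₂ : ℝ, 2 ≤ T₂ ∧ ∀ T : ℝ, T₂ ≤ T → I1 a w c σ T ≤ ENNReal.ofReal (ε * T) := by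
    intro ε hε
    refine I1_small hw hσ2.le (fun ε' hε' => ?_) hε
    refine ET_small hw hσ0 (fun ε'' hε'' => ?_) hε'
    exact JJ_small hw (by linarith : 0 < σ') hσ hH hC₃ h1 hq0 hq1 hK htr hε''
  obtain ⟨h2, h3⟩ := asy ha hw hZ hs hE hO
  refine ⟨h2, ?_, h3⟩
  refine h2.tsum_pos (dgt_nonneg ha hw σ) (0, 0) ?_
  unfold dgt
  rw [if_pos rfl]
  have := lam_pos ha hw (0 : Fin r → ℕ)
  positivity

end Pool.Agent.H312.Eq
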