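import Pool.Agent.H312.Eq.Pd

set_option autoImplicit false

/-!
# The resonance integral to the right of the abscissa
-/

namespace Pool.Agent.H312.Eq

open Finset Filter Topology MeasureTheory Complex Set Asymptotics
open Pool.Agent.H131R5.BZ Pool.Agent.Y930.Bz Pool.Agent.Y616.BM Pool.Agent.H312.Barnes
open Pool.Agent.H312.Sh Pool.Agent.H312.Ex Pool.Agent.H312.Lb

variable {r : ℕ} {w : Fin r → ℝ}

/-- the blocks, upper bound without Diophantine condition -/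
theorem block_up (hw : ∀ j, 0 < w j) {σ' : ℝ} (hσ' : 1 / 2 ≤ σ')
    (hH : ∀ ε : ℝ, 0 < ε → ∃ C : ℝ, 0 ≤ C ∧ ∀ T : ℝ, 2 ≤ T →
      FT w σ' T ≤ ENNReal.ofReal (C * T ^ (2 * σ' + ε))) {ε : ℝ} (hε : 0 < ε) (hε1 : ε ≤ 1)
    {σ : ℝ} (hσ : 1 / 2 ≤ σ) : ∃ K : ℝ, 1 ≤ K ∧ ∀ R T : ℝ, 0 < R → 2 * R ≤ T →
      K * (T / R) ^ (2 * (r : ℝ) + 1) ≤ R →
      ∫⁻ ρ in Ioc R (2 * R), ENNReal.ofReal (ρ ^ (2 * σ - 1) * PP w T ρ) ≤
        ENNReal.ofReal (K * (R ^ (2 * σ) * (T / R) ^ (2 * σ' + (2 * r + 1) * ε))) := by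
  obtain ⟨C₀, hC₀, h1⟩ := long hw hσ' hH hε hε1
  obtain ⟨K₂, hK₂, h2⟩ := QQ_KK hw
  have h2σ : 0 ≤ 2 * σ - 1 := by linarith
  set E : ℝ := K₂ * 2 ^ (2 * σ - 1) * C₀ + 1 with hE
  have hE1 : 1 ≤ E := by
    have a2 : 0 ≤ K₂ * 2 ^ (2 * σ - 1) * C₀ := by positivity
    linarith
  have hE0 : 0 < E := by linarith
  refine ⟨E, hE1, fun R T hR hRT hbig => ?_⟩
  have hT : 0 < T := by linarith
  have hTR : 1 ≤ T / R := by rw [le_div_iff₀ hR]; linarith
  have hTR0 : 0 < T / R := by linarith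
  have hRR : R ≤ 2 * R := by linarith
  set x : ℝ := R / T with hx
  have hx0 : 0 < x := by positivity
  have hx1 : x ≤ 1 := (div_le_one hT).2 (by linarith)
  have e1 : x⁻¹ = T / R := by rw [hx, inv_div]
  have hup := h1 x R hx0 hx1 (by
    rw [e1]
    calc (T / R) ^ (2 * (r : ℝ)) ≤ (T / R) ^ (2 * (r : ℝ) + 1) :=
          Real.rpow_le_rpow_of_exponent_le hTR (by linarith)
      _ ≤ E * (T / R) ^ (2 * (r : ℝ) + 1) := le_mul_of_one_le_left (by positivity) hE1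
      _ ≤ R := hbig)
  rw [e1] at hup
  calc ∫⁻ ρ in Ioc R (2 * R), ENNReal.ofReal (ρ ^ (2 * σ - 1) * PP w T ρ) ≤
      ∫⁻ ρ in Ioc R (2 * R), ENNReal.ofReal ((2 * R) ^ (2 * σ - 1) * K₂) *
        ENNReal.ofReal (‖KK 0 w ((x : ℂ) + ((2 * Real.pi * ρ : ℝ) : ℂ) * I)‖ ^ 2) := by
        refine setLIntegral_mono' measurableSet_Ioc fun ρ hρ => ?_
        have hρ0 : 0 < ρ := hR.trans hρ.1
        rw [← ENNReal.ofReal_mul (by positivity)]
        apply ENNReal.ofReal_le_ofReal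
        have h5 := (h2 x ρ hx0 hx1).1
        have h6 : PP w T ρ ≤ QQ w x ρ := by
          have : QQ w (ρ / T) ρ ≤ QQ w x ρ :=
            QQ_anti w hx0 (by rw [hx]; have := hρ.1.le; gcongr) ρ
          exact this
        have h7 : ρ ^ (2 * σ - 1) ≤ (2 * R) ^ (2 * σ - 1) := Real.rpow_le_rpow hρ0.le hρ.2 h2σ
        have h8 := PP_nonneg w T ρ
        calc _ ≤ (2 * R) ^ (2 * σ - 1) * (K₂ *
              ‖KK 0 w ((x : ℂ) + ((2 * Real.pi * ρ : ℝ) : ℂ) * I)‖ ^ 2) :=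
              mul_le_mul h7 (h6.trans h5) h8 (by positivity)
          _ = _ := by ring
    _ = ENNReal.ofReal ((2 * R) ^ (2 * σ - 1) * K₂) * ENNReal.ofReal
        (∫ ρ in R..(2 * R), ‖KK 0 w ((x : ℂ) + ((2 * Real.pi * ρ : ℝ) : ℂ) * I)‖ ^ 2) := by
        rw [lintegral_const_mul' _ _ ENNReal.ofReal_ne_top, lint_KK hw hx0 hRR]
    _ ≤ ENNReal.ofReal ((2 * R) ^ (2 * σ - 1) * K₂) *
        ENNReal.ofReal (C₀ * (R * (T / R) ^ (2 * σ' + (2 * r + 1) * ε))) := by gcongr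
    _ ≤ _ := by
        rw [← ENNReal.ofReal_mul (by positivity)]
        apply ENNReal.ofReal_le_ofReal
        have e4 : R ^ (2 * σ) = R ^ (2 * σ - 1) * R := by
          rw [Real.rpow_sub hR, Real.rpow_one]
          field_simp
        have h5 : K₂ * 2 ^ (2 * σ - 1) * C₀ ≤ E := by linarith
        calc _ = (K₂ * 2 ^ (2 * σ - 1) * C₀) *
              (R ^ (2 * σ) * (T / R) ^ (2 * σ' + (2 * r + 1) * ε)) := by
              rw [Real.mul_rpow (by norm_num) hR.le, e4]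
              ring
          _ ≤ _ := by gcongr

/-- the upper bound without logarithm, off the critical line -/
theorem FT_up' (hw : ∀ j, 0 < w j) {σ σ' : ℝ} (hσ' : 1 / 2 ≤ σ') (hσσ : σ' < σ)
    (hH : ∀ ε : ℝ, 0 < ε → ∃ C : ℝ, 0 ≤ C ∧ ∀ T : ℝ, 2 ≤ T →
      FT w σ' T ≤ ENNReal.ofReal (C * T ^ (2 * σ' + ε))) :
    ∃ C T₀ : ℝ, 0 ≤ C ∧ 2 ≤ T₀ ∧ ∀ T : ℝ, T₀ ≤ T →
      FT w σ T ≤ ENNReal.ofReal (C * T ^ (2 * σ)) := by
  have hσ : 1 / 2 ≤ σ := by linarith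
  set ε₁ : ℝ := min 1 ((σ - σ') / (2 * r + 1)) with hε₁
  have hε₁0 : 0 < ε₁ := lt_min one_pos (div_pos (by linarith) (by positivity))
  set p : ℝ := 2 * σ' + (2 * r + 1) * ε₁ with hp
  have hσp : p < 2 * σ := by
    have h1 : ε₁ ≤ (σ - σ') / (2 * r + 1) := min_le_right _ _
    have h2 : (2 * (r : ℝ) + 1) * ε₁ ≤ σ - σ' := by
      rw [le_div_iff₀ (by positivity)] at h1
      linarith
    linarith
  obtain ⟨K, hK, hb⟩ := block_up hw hσ' hH hε₁0 (min_le_left _ _) hσ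
  rw [← hp] at hb
  have hK0 : 0 < K := by linarith
  have hκ : 0 < 2 * (r : ℝ) + 1 := by positivity
  obtain ⟨k, T₀, hk, hT₀, hs⟩ := scales hκ hK
  set g : ℝ := 2 * (σ - σ') with hg
  have hg0 : 0 < g := by rw [hg]; linarith
  obtain ⟨C, hC, hH'⟩ := hH (k * g) (by positivity)
  set q : ℝ := (2 : ℝ) ^ (-(2 * σ - p)) with hq
  have hq0 : 0 < q := by positivity
  have hq1 : q < 1 := Real.rpow_lt_one_of_one_lt_of_neg (by norm_num) (by linarith)
  have hq1' : 0 < 1 - q := by linarith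
  refine ⟨C + K * (1 / (1 - q)), T₀, by positivity, hT₀, fun T hT => ?_⟩
  have hT2 : 2 ≤ T := hT₀.trans hT
  have hT0 : 0 < T := by linarith
  obtain ⟨M, -, hM2, hM3⟩ := hs T hT
  have hM0 : (0 : ℝ) < 2 ^ M := by positivity
  have hTM : T / 2 ^ M ≤ T := div_le_self hT0.le (one_le_pow₀ (by norm_num))
  have hterm : ∀ m ∈ Finset.range M,
      ∫⁻ ρ in Ioc (T / 2 ^ (m + 1)) (2 * (T / 2 ^ (m + 1))),
        ENNReal.ofReal (ρ ^ (2 * σ - 1) * PP w T ρ) ≤
      ENNReal.ofReal (K * T ^ (2 * σ) * q ^ m) := by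
    intro m hm
    have hm' := Finset.mem_range.1 hm
    set R : ℝ := T / 2 ^ (m + 1) with hR
    have hR0 : 0 < R := by positivity
    have e1 : T / R = 2 ^ (m + 1) := by
      rw [hR]; field_simp
    have h1 := (hb R T hR0 (by
      rw [hR]
      have : (1 : ℝ) ≤ 2 ^ m := one_le_pow₀ (by norm_num)
      rw [pow_succ, mul_div_assoc', div_le_iff₀ (by positivity)]
      nlinarith) (by rw [e1]; exact hM3 m hm'))
    refine h1.trans (ENNReal.ofReal_le_ofReal ?_)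
    rw [e1, mul_assoc]
    have e2 : R ^ (2 * σ) * ((2 : ℝ) ^ (m + 1)) ^ p = T ^ (2 * σ) * q ^ (m + 1) := by
      have e3 : R ^ (2 * σ) = T ^ (2 * σ) * ((2 : ℝ) ^ (m + 1)) ^ (-(2 * σ)) := by
        rw [hR, Real.div_rpow hT0.le (by positivity), Real.rpow_neg (by positivity),
          div_eq_mul_inv]
      have e4 : q ^ (m + 1) = ((2 : ℝ) ^ (m + 1)) ^ (-(2 * σ - p)) := by
        rw [hq, ← Real.rpow_natCast, ← Real.rpow_natCast, ← Real.rpow_mul (by norm_num),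
          ← Real.rpow_mul (by norm_num), mul_comm]
      rw [e3, e4, mul_assoc, ← Real.rpow_add (by positivity)]
      congr 2
      ring
    rw [e2]
    have h5 : q ^ (m + 1) ≤ q ^ m := by
      rw [pow_succ]
      have : 0 < q ^ m := by positivity
      nlinarith
    gcongr
  have hsum : ∑ m ∈ Finset.range M, ENNReal.ofReal (K * T ^ (2 * σ) * q ^ m) ≤
      ENNReal.ofReal (K * (1 / (1 - q)) * T ^ (2 * σ)) := by
    rw [← ENNReal.ofReal_sum_of_nonneg (fun m _ => by positivity), ← Finset.mul_sum]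
    apply ENNReal.ofReal_le_ofReal
    have h5 : ∑ m ∈ Finset.range M, q ^ m ≤ 1 / (1 - q) := by
      rw [one_div, ← tsum_geometric_of_lt_one hq0.le hq1]
      exact (summable_geometric_of_lt_one hq0.le hq1).sum_le_tsum _ (fun m _ => by positivity)
    calc _ ≤ K * T ^ (2 * σ) * (1 / (1 - q)) := by gcongr
      _ = _ := by ring
  have hfirst : ∫⁻ ρ in Ioc 1 (T / 2 ^ M), ENNReal.ofReal (ρ ^ (2 * σ - 1) * PP w T ρ) ≤
      ENNReal.ofReal (C * T ^ (2 * σ)) := by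
    calc _ ≤ ∫⁻ ρ in Ioc 1 (T / 2 ^ M), ENNReal.ofReal ((T / 2 ^ M) ^ g) *
          ENNReal.ofReal (ρ ^ (2 * σ' - 1) * PP w T ρ) := by
          refine setLIntegral_mono' measurableSet_Ioc fun ρ hρ => ?_
          have hρ0 : 0 < ρ := by linarith [hρ.1]
          rw [← ENNReal.ofReal_mul (by positivity)]
          apply ENNReal.ofReal_le_ofReal
          have h1 : ρ ^ (2 * σ - 1) = ρ ^ g * ρ ^ (2 * σ' - 1) := by
            rw [← Real.rpow_add hρ0]
            congr 1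
            rw [hg]; ring
          have h2 : ρ ^ g ≤ (T / 2 ^ M) ^ g := Real.rpow_le_rpow hρ0.le hρ.2 hg0.le
          have h3 := PP_nonneg w T ρ
          rw [h1]
          calc _ ≤ (T / 2 ^ M) ^ g * ρ ^ (2 * σ' - 1) * PP w T ρ := by gcongr
            _ = _ := by ring
      _ = ENNReal.ofReal ((T / 2 ^ M) ^ g) * ∫⁻ ρ in Ioc 1 (T / 2 ^ M),
          ENNReal.ofReal (ρ ^ (2 * σ' - 1) * PP w T ρ) :=
          lintegral_const_mul' _ _ ENNReal.ofReal_ne_top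
      _ ≤ ENNReal.ofReal ((T / 2 ^ M) ^ g) * FT w σ' T :=
          mul_le_mul_right (lintegral_mono_set (Set.Ioc_subset_Ioc_right hTM)) _
      _ ≤ ENNReal.ofReal ((T / 2 ^ M) ^ g) * ENNReal.ofReal (C * T ^ (2 * σ' + k * g)) :=
          mul_le_mul_right (hH' T hT2) _
      _ ≤ _ := by
          rw [← ENNReal.ofReal_mul (by positivity)]
          apply ENNReal.ofReal_le_ofReal
          have h1 : (T / 2 ^ M) ^ g ≤ T ^ (g - k * g) := by
            have h2 : T / 2 ^ M ≤ T ^ (1 - k) := by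
              rw [Real.rpow_sub hT0, Real.rpow_one]
              gcongr
            calc (T / 2 ^ M) ^ g ≤ (T ^ (1 - k)) ^ g :=
                  Real.rpow_le_rpow (by positivity) h2 hg0.le
              _ = _ := by
                  rw [← Real.rpow_mul hT0.le]
                  congr 1
                  ring
          calc (T / 2 ^ M) ^ g * (C * T ^ (2 * σ' + k * g)) ≤
              T ^ (g - k * g) * (C * T ^ (2 * σ' + k * g)) := by gcongr
            _ = C * (T ^ (g - k * g) * T ^ (2 * σ' + k * g)) := by ring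
            _ = _ := by
                rw [← Real.rpow_add hT0]
                congr 2
                rw [hg]; ring
  have hsub : Ioc 1 T ⊆ Ioc 1 (T / 2 ^ M) ∪ Ioc (T / 2 ^ M) T := by
    intro ρ hρ
    rcases le_or_gt ρ (T / 2 ^ M) with h | h
    · exact Or.inl ⟨hρ.1, h⟩
    · exact Or.inr ⟨h, hρ.2⟩
  calc FT w σ T ≤ ∫⁻ ρ in Ioc 1 (T / 2 ^ M) ∪ Ioc (T / 2 ^ M) T,
        ENNReal.ofReal (ρ ^ (2 * σ - 1) * PP w T ρ) := lintegral_mono_set hsub
    _ ≤ (∫⁻ ρ in Ioc 1 (T / 2 ^ M), ENNReal.ofReal (ρ ^ (2 * σ - 1) * PP w T ρ)) +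
        ∫⁻ ρ in Ioc (T / 2 ^ M) T, ENNReal.ofReal (ρ ^ (2 * σ - 1) * PP w T ρ) :=
        lintegral_union_le _ _ _
    _ ≤ ENNReal.ofReal (C * T ^ (2 * σ)) + ENNReal.ofReal (K * (1 / (1 - q)) * T ^ (2 * σ)) := by
        refine add_le_add hfirst ?_
        rw [dyad _ hT0 M]
        exact (Finset.sum_le_sum hterm).trans hsum
    _ = _ := by
        rw [← ENNReal.ofReal_add (by positivity) (by positivity)]
        congr 1
        ring

/-- the small `ρ` contribute little -/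
theorem FT_trunc' (hw : ∀ j, 0 < w j) {σ σ' : ℝ} (hσ' : 1 / 2 ≤ σ') (hσσ : σ' < σ)
    (hH : ∀ ε : ℝ, 0 < ε → ∃ C : ℝ, 0 ≤ C ∧ ∀ T : ℝ, 2 ≤ T →
      FT w σ' T ≤ ENNReal.ofReal (C * T ^ (2 * σ' + ε))) :
    ∃ q K : ℝ, 0 < q ∧ q < 1 ∧ 0 ≤ K ∧ ∀ m₀ : ℕ, ∃ T₀ : ℝ, 2 ≤ T₀ ∧ ∀ T : ℝ, T₀ ≤ T →
      ∫⁻ ρ in Ioc 1 (T / 2 ^ m₀), ENNReal.ofReal (ρ ^ (2 * σ - 1) * PP w T ρ) ≤
        ENNReal.ofReal (K * q ^ m₀ * T ^ (2 * σ)) := by
  have hσ : 1 / 2 ≤ σ := by linarith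
  set ε₁ : ℝ := min 1 ((σ - σ') / (2 * r + 1)) with hε₁
  have hε₁0 : 0 < ε₁ := lt_min one_pos (div_pos (by linarith) (by positivity))
  set p : ℝ := 2 * σ' + (2 * r + 1) * ε₁ with hp
  have hσp : p < 2 * σ := by
    have h1 : ε₁ ≤ (σ - σ') / (2 * r + 1) := min_le_right _ _
    have h2 : (2 * (r : ℝ) + 1) * ε₁ ≤ σ - σ' := by
      rw [le_div_iff₀ (by positivity)] at h1
      linarith
    linarith
  obtain ⟨K, hK, hb⟩ := block_up hw hσ' hH hε₁0 (min_le_left _ _) hσ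
  rw [← hp] at hb
  have hK0 : 0 < K := by linarith
  have hκ : 0 < 2 * (r : ℝ) + 1 := by positivity
  obtain ⟨k, T₀, hk, hT₀, hs⟩ := scales hκ hK
  set g : ℝ := 2 * (σ - σ') with hg
  have hg0 : 0 < g := by rw [hg]; linarith
  obtain ⟨C, hC, hH'⟩ := hH (k * g / 2) (by positivity)
  set q : ℝ := (2 : ℝ) ^ (-(2 * σ - p)) with hq
  have hq0 : 0 < q := by positivity
  have hq1 : q < 1 := Real.rpow_lt_one_of_one_lt_of_neg (by norm_num) (by linarith)
  have hq1' : 0 < 1 - q := by linarith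
  refine ⟨q, 1 + K * (1 / (1 - q)), hq0, hq1, by positivity, fun m₀ => ?_⟩
  -- the threshold
  have hev : ∀ᶠ T : ℝ in atTop, C * T ^ (-(k * g / 2)) ≤ q ^ m₀ ∧ (m₀ : ℝ) ≤ k * Real.log T := by
    have h1 : Tendsto (fun T : ℝ => C * T ^ (-(k * g / 2))) atTop (𝓝 (C * 0)) :=
      (tendsto_rpow_neg_atTop (by positivity)).const_mul C
    rw [mul_zero] at h1
    have h2 : Tendsto (fun T : ℝ => k * Real.log T) atTop atTop :=
      Real.tendsto_log_atTop.const_mul_atTop hk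
    filter_upwards [h1.eventually_le_const (by positivity : (0 : ℝ) < q ^ m₀),
      h2.eventually_ge_atTop (m₀ : ℝ)] with T h3 h4
    exact ⟨h3, h4⟩
  obtain ⟨T₁, hT₁⟩ := eventually_atTop.1 hev
  refine ⟨max T₀ T₁, hT₀.trans (le_max_left _ _), fun T hT => ?_⟩
  have hTT₀ : T₀ ≤ T := (le_max_left _ _).trans hT
  obtain ⟨hsm, hm₀⟩ := hT₁ T ((le_max_right _ _).trans hT)
  have hT2 : 2 ≤ T := hT₀.trans hTT₀
  have hT0 : 0 < T := by linarith
  obtain ⟨M, hM1, hM2, hM3⟩ := hs T hTT₀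
  have hM0 : (0 : ℝ) < 2 ^ M := by positivity
  have hmM : m₀ ≤ M := by exact_mod_cast hm₀.trans hM1
  have hTM : T / 2 ^ M ≤ T := div_le_self hT0.le (one_le_pow₀ (by norm_num))
  set S : ℝ := T / 2 ^ m₀ with hS
  have hS0 : 0 < S := by positivity
  have hSM : S / 2 ^ (M - m₀) = T / 2 ^ M := by
    rw [hS, div_div, ← pow_add]
    congr 2
    omega
  have hterm : ∀ i ∈ Finset.range (M - m₀),
      ∫⁻ ρ in Ioc (S / 2 ^ (i + 1)) (2 * (S / 2 ^ (i + 1))),
        ENNReal.ofReal (ρ ^ (2 * σ - 1) * PP w T ρ) ≤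
      ENNReal.ofReal (K * q ^ m₀ * T ^ (2 * σ) * q ^ i) := by
    intro i hi
    have hi' := Finset.mem_range.1 hi
    set m : ℕ := m₀ + i with hm
    have hm' : m < M := by omega
    have hSm : S / 2 ^ (i + 1) = T / 2 ^ (m + 1) := by
      rw [hS, div_div, ← pow_add]
      congr 2
    rw [hSm]
    set R : ℝ := T / 2 ^ (m + 1) with hR
    have hR0 : 0 < R := by positivity
    have e1 : T / R = 2 ^ (m + 1) := by
      rw [hR]; field_simp
    have h1 := (hb R T hR0 (by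
      rw [hR]
      have : (1 : ℝ) ≤ 2 ^ m := one_le_pow₀ (by norm_num)
      rw [pow_succ, mul_div_assoc', div_le_iff₀ (by positivity)]
      nlinarith) (by rw [e1]; exact hM3 m hm'))
    refine h1.trans (ENNReal.ofReal_le_ofReal ?_)
    rw [e1]
    have e2 : R ^ (2 * σ) * ((2 : ℝ) ^ (m + 1)) ^ p = T ^ (2 * σ) * q ^ (m + 1) := by
      have e3 : R ^ (2 * σ) = T ^ (2 * σ) * ((2 : ℝ) ^ (m + 1)) ^ (-(2 * σ)) := by
        rw [hR, Real.div_rpow hT0.le (by positivity), Real.rpow_neg (by positivity),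
          div_eq_mul_inv]
      have e4 : q ^ (m + 1) = ((2 : ℝ) ^ (m + 1)) ^ (-(2 * σ - p)) := by
        rw [hq, ← Real.rpow_natCast, ← Real.rpow_natCast, ← Real.rpow_mul (by norm_num),
          ← Real.rpow_mul (by norm_num), mul_comm]
      rw [e3, e4, mul_assoc, ← Real.rpow_add (by positivity)]
      congr 2
      ring
    rw [e2]
    have h5 : q ^ (m + 1) ≤ q ^ m₀ * q ^ i := by
      rw [← pow_add, ← hm, pow_succ]
      have : 0 < q ^ m := by positivity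
      nlinarith
    calc K * (T ^ (2 * σ) * q ^ (m + 1)) ≤ K * (T ^ (2 * σ) * (q ^ m₀ * q ^ i)) := by gcongr
      _ = _ := by ring
  have hsum : ∑ i ∈ Finset.range (M - m₀), ENNReal.ofReal (K * q ^ m₀ * T ^ (2 * σ) * q ^ i) ≤
      ENNReal.ofReal (K * (1 / (1 - q)) * q ^ m₀ * T ^ (2 * σ)) := by
    rw [← ENNReal.ofReal_sum_of_nonneg (fun m _ => by positivity), ← Finset.mul_sum]
    apply ENNReal.ofReal_le_ofReal
    have h5 : ∑ m ∈ Finset.range (M - m₀), q ^ m ≤ 1 / (1 - q) := by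
      rw [one_div, ← tsum_geometric_of_lt_one hq0.le hq1]
      exact (summable_geometric_of_lt_one hq0.le hq1).sum_le_tsum _ (fun m _ => by positivity)
    calc _ ≤ K * q ^ m₀ * T ^ (2 * σ) * (1 / (1 - q)) := by gcongr
      _ = _ := by ring
  have hfirst : ∫⁻ ρ in Ioc 1 (T / 2 ^ M), ENNReal.ofReal (ρ ^ (2 * σ - 1) * PP w T ρ) ≤
      ENNReal.ofReal (q ^ m₀ * T ^ (2 * σ)) := by
    calc _ ≤ ∫⁻ ρ in Ioc 1 (T / 2 ^ M), ENNReal.ofReal ((T / 2 ^ M) ^ g) *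
          ENNReal.ofReal (ρ ^ (2 * σ' - 1) * PP w T ρ) := by
          refine setLIntegral_mono' measurableSet_Ioc fun ρ hρ => ?_
          have hρ0 : 0 < ρ := by linarith [hρ.1]
          rw [← ENNReal.ofReal_mul (by positivity)]
          apply ENNReal.ofReal_le_ofReal
          have h1 : ρ ^ (2 * σ - 1) = ρ ^ g * ρ ^ (2 * σ' - 1) := by
            rw [← Real.rpow_add hρ0]
            congr 1
            rw [hg]; ring
          have h2 : ρ ^ g ≤ (T / 2 ^ M) ^ g := Real.rpow_le_rpow hρ0.le hρ.2 hg0.le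
          have h3 := PP_nonneg w T ρ
          rw [h1]
          calc _ ≤ (T / 2 ^ M) ^ g * ρ ^ (2 * σ' - 1) * PP w T ρ := by gcongr
            _ = _ := by ring
      _ = ENNReal.ofReal ((T / 2 ^ M) ^ g) * ∫⁻ ρ in Ioc 1 (T / 2 ^ M),
          ENNReal.ofReal (ρ ^ (2 * σ' - 1) * PP w T ρ) :=
          lintegral_const_mul' _ _ ENNReal.ofReal_ne_top
      _ ≤ ENNReal.ofReal ((T / 2 ^ M) ^ g) * FT w σ' T :=
          mul_le_mul_right (lintegral_mono_set (Set.Ioc_subset_Ioc_right hTM)) _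
      _ ≤ ENNReal.ofReal ((T / 2 ^ M) ^ g) * ENNReal.ofReal (C * T ^ (2 * σ' + k * g / 2)) :=
          mul_le_mul_right (hH' T hT2) _
      _ ≤ _ := by
          rw [← ENNReal.ofReal_mul (by positivity)]
          apply ENNReal.ofReal_le_ofReal
          have h1 : (T / 2 ^ M) ^ g ≤ T ^ (g - k * g) := by
            have h2 : T / 2 ^ M ≤ T ^ (1 - k) := by
              rw [Real.rpow_sub hT0, Real.rpow_one]
              gcongr
            calc (T / 2 ^ M) ^ g ≤ (T ^ (1 - k)) ^ g :=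
                  Real.rpow_le_rpow (by positivity) h2 hg0.le
              _ = _ := by
                  rw [← Real.rpow_mul hT0.le]
                  congr 1
                  ring
          calc (T / 2 ^ M) ^ g * (C * T ^ (2 * σ' + k * g / 2)) ≤
              T ^ (g - k * g) * (C * T ^ (2 * σ' + k * g / 2)) := by gcongr
            _ = C * (T ^ (g - k * g) * T ^ (2 * σ' + k * g / 2)) := by ring
            _ = C * T ^ (-(k * g / 2)) * T ^ (2 * σ) := by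
                rw [← Real.rpow_add hT0, mul_assoc C, ← Real.rpow_add hT0]
                congr 2
                rw [hg]; ring
            _ ≤ _ := by gcongr
  have hsub : Ioc 1 S ⊆ Ioc 1 (T / 2 ^ M) ∪ Ioc (T / 2 ^ M) S := by
    intro ρ hρ
    rcases le_or_gt ρ (T / 2 ^ M) with h | h
    · exact Or.inl ⟨hρ.1, h⟩
    · exact Or.inr ⟨h, hρ.2⟩
  calc ∫⁻ ρ in Ioc 1 S, ENNReal.ofReal (ρ ^ (2 * σ - 1) * PP w T ρ) ≤
        ∫⁻ ρ in Ioc 1 (T / 2 ^ M) ∪ Ioc (T / 2 ^ M) S,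
        ENNReal.ofReal (ρ ^ (2 * σ - 1) * PP w T ρ) := lintegral_mono_set hsub
    _ ≤ (∫⁻ ρ in Ioc 1 (T / 2 ^ M), ENNReal.ofReal (ρ ^ (2 * σ - 1) * PP w T ρ)) +
        ∫⁻ ρ in Ioc (T / 2 ^ M) S, ENNReal.ofReal (ρ ^ (2 * σ - 1) * PP w T ρ) :=
        lintegral_union_le _ _ _
    _ ≤ ENNReal.ofReal (q ^ m₀ * T ^ (2 * σ)) +
        ENNReal.ofReal (K * (1 / (1 - q)) * q ^ m₀ * T ^ (2 * σ)) := by
        refine add_le_add hfirst ?_
        rw [← hSM, dyad _ hS0 (M - m₀)]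
        exact (Finset.sum_le_sum hterm).trans hsum
    _ = _ := by
        rw [← ENNReal.ofReal_add (by positivity) (by positivity)]
        congr 1
        ring

end Pool.Agent.H312.Eq
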