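import Pool.Agent.H312.Eq.Dio

set_option autoImplicit false

/-!
# The number of coincidences
-/

namespace Pool.Agent.H312.Eq

open Finset Filter Topology MeasureTheory Set
open Pool.Agent.H131R5.BZ Pool.Agent.Y930.Bz Pool.Agent.Y616.BM Pool.Agent.H312.Lb

variable {r d : ℕ}

lemma one_fac {b x : ℝ} (hb : 0 < b) (hx : 0 < x) (hx1 : x ≤ 1) :
    (1 - Real.exp (-b * x))⁻¹ ≤ Real.exp b / b * x⁻¹ := by
  have hbase : b * x * Real.exp (-b * x) ≤ 1 - Real.exp (-b * x) := by
    have h2 := Real.add_one_le_exp (b * x)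
    have h3 : Real.exp (b * x) * Real.exp (-b * x) = 1 := by
      rw [← Real.exp_add]; simp
    have h4 := Real.exp_pos (-b * x)
    nlinarith
  have h3 : b * x * Real.exp (-b) ≤ 1 - Real.exp (-b * x) := by
    refine le_trans ?_ hbase
    have : Real.exp (-b) ≤ Real.exp (-b * x) := Real.exp_le_exp.2 (by nlinarith)
    gcongr
  calc (1 - Real.exp (-b * x))⁻¹ ≤ (b * x * Real.exp (-b))⁻¹ :=
        inv_anti₀ (by positivity) h3
    _ = _ := by
        rw [Real.exp_neg]
        field_simp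

lemma one_le_fac {b x : ℝ} (hb : 0 < b) (hx : 0 < x) : 1 ≤ (1 - Real.exp (-b * x))⁻¹ := by
  have h1 : Real.exp (-b * x) < 1 := Real.exp_lt_one_iff.2 (by nlinarith [mul_pos hb hx])
  have h2 := Real.exp_pos (-b * x)
  exact one_le_inv_iff₀.2 ⟨by linarith, by linarith⟩

open Classical in
/-- the upper bound for the number of coincidences -/
theorem hd_upper {v : Fin d → ℝ} (hv : LinearIndependent ℚ v) (B : Fin r → Fin d → ℚ)
    (e : Fin d → Fin r) (he : Function.Injective e) (hdet : ((rm B).submatrix e id).det ≠ 0)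
    {w : Fin r → ℝ} (hwB : w = (rm B).mulVec v) (hw : ∀ j, 0 < w j) :
    ∃ C : ℝ, 0 < C ∧ ∀ x : ℝ, 0 < x → x ≤ 1 → Dc w x ≤ C * (x ^ (2 * r - d))⁻¹ := by
  set t : Finset (Fin r) := Finset.univ.image e with ht
  have hdr : d ≤ r := by
    simpa using Fintype.card_le_of_injective e he
  set L : Fin r → ℝ := fun j => Real.exp (w j) / w j with hL
  have hL0 : ∀ j, 0 < L j := fun j => by have := hw j; simp only [hL]; positivity
  set L₁ : ℝ := ∏ j, L j with hL₁
  set L₂ : ℝ := ∏ j, (if j ∈ t then 1 else L j) with hL₂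
  have hL₁0 : 0 < L₁ := Finset.prod_pos fun j _ => hL0 j
  have hL₂0 : 0 < L₂ := Finset.prod_pos fun j _ => by
    split_ifs
    · exact one_pos
    · exact hL0 j
  refine ⟨L₁ * L₂, by positivity, fun x hx hx1 => ?_⟩
  -- the majorant
  set g : Fin r → ℕ → ℝ := fun j k =>
    if j ∈ t then (if k = 0 then 1 else 0) else (Real.exp (-(w j) * x)) ^ k with hg
  set S : Fin r → ℝ := fun j => if j ∈ t then 1 else (1 - Real.exp (-(w j) * x))⁻¹ with hS
  have hg0 : ∀ j k, 0 ≤ g j k := by
    intro j k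
    simp only [hg]
    split_ifs <;> positivity
  have hE : ∀ j, Real.exp (-(w j) * x) < 1 := fun j => by
    rw [Real.exp_lt_one_iff]
    have := mul_pos (hw j) hx
    linarith
  have hgS : ∀ j, HasSum (g j) (S j) := by
    intro j
    by_cases hj : j ∈ t
    · simp only [hg, hS, if_pos hj]
      exact hasSum_ite_eq 0 1
    · simp only [hg, hS, if_neg hj]
      exact hasSum_geometric_of_lt_one (Real.exp_pos _).le (hE j)
  have hH := hasSum_prod_fin r g S hg0 hgS
  have h1 := hasSum_exp (a := 0) hw hx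
  simp only [neg_zero, zero_mul, Real.exp_zero, one_mul] at h1
  set G : (Fin r → ℕ) × (Fin r → ℕ) → ℝ := fun p =>
    Real.exp (-(lam 0 w p.1) * x) * ∏ j, g j (p.2 j) with hG
  have hGs : Summable G := Summable.mul_of_nonneg h1.summable hH.summable
    (fun _ => (Real.exp_pos _).le) (fun u => Finset.prod_nonneg fun j _ => hg0 j _)
  have hGsum : HasSum G ((∏ j, (1 - Real.exp (-(w j) * x))⁻¹) * ∏ j, S j) :=
    HasSum.mul (f := fun m : Fin r → ℕ => Real.exp (-(lam 0 w m) * x))
      (g := fun u : Fin r → ℕ => ∏ j, g j (u j)) h1 hH hGs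
  -- the injection
  set Φ : {p : (Fin r → ℕ) × (Fin r → ℕ) | df w p = 0} → (Fin r → ℕ) × (Fin r → ℕ) := fun p =>
    (p.1.1, fun j => if j ∈ t then 0 else p.1.2 j) with hΦ
  have hco : ∀ p : (Fin r → ℕ) × (Fin r → ℕ), df w p = 0 → ∀ i : Fin d,
      ∑ j, ((p.1 j : ℝ) - p.2 j) * (B j i : ℝ) = 0 := by
    intro p hp i
    have e1 : ∑ i, (∑ j, ((p.1 j : ℚ) - p.2 j) * B j i) • v i = 0 := by
      have e2 : df w p = ∑ i, (∑ j, ((p.1 j : ℝ) - p.2 j) * (B j i : ℝ)) * v i := by
        unfold df lam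
        rw [hwB]
        simp only [rm, Matrix.mulVec, dotProduct, Matrix.of_apply]
        rw [zero_add, zero_add, ← Finset.sum_sub_distrib]
        simp only [Finset.sum_mul, Finset.mul_sum, ← Finset.sum_sub_distrib]
        rw [Finset.sum_comm]
        refine Finset.sum_congr rfl fun i _ => Finset.sum_congr rfl fun j _ => ?_
        ring
      rw [hp] at e2
      rw [e2]
      refine Finset.sum_congr rfl fun i _ => ?_
      rw [Rat.smul_def]
      push_cast
      rfl
    have e3 := Fintype.linearIndependent_iff.1 hv _ e1 i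
    have e4 : ((∑ j, ((p.1 j : ℚ) - p.2 j) * B j i : ℚ) : ℝ) = 0 := by
      rw [e3]; simp
    rw [← e4]
    push_cast
    rfl
  have hΦi : Function.Injective Φ := by
    rintro ⟨⟨m, m'⟩, hp⟩ ⟨⟨n, n'⟩, hq⟩ heq
    simp only [hΦ, Prod.mk.injEq] at heq
    obtain ⟨h2, h3⟩ := heq
    have h4 := hco _ hp
    have h5 := hco _ hq
    simp only at h4 h5
    rw [h2] at h4
    have h6 : ∀ j, j ∉ t → m' j = n' j := by
      intro j hj
      have := congrFun h3 j
      simpa only [if_neg hj] using this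
    have h7 : ∀ i : Fin d, ∑ k : Fin d, ((m' (e k) : ℝ) - n' (e k)) * (B (e k) i : ℝ) = 0 := by
      intro i
      have h8 : ∑ j, ((m' j : ℝ) - n' j) * (B j i : ℝ) = 0 := by
        have h9 := h4 i
        have h10 := h5 i
        have h11 : ∑ j, ((m' j : ℝ) - n' j) * (B j i : ℝ) =
            ∑ j, ((n j : ℝ) - n' j) * (B j i : ℝ) - ∑ j, ((n j : ℝ) - m' j) * (B j i : ℝ) := by
          rw [← Finset.sum_sub_distrib]
          exact Finset.sum_congr rfl fun j _ => by ring
        rw [h11, h9, h10, sub_zero]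
      rw [← h8]
      refine Fintype.sum_of_injective e he _ _ (fun j hj => ?_) (fun k => rfl)
      have hj' : j ∉ t := by
        intro hcon
        rw [ht, Finset.mem_image] at hcon
        obtain ⟨k, -, hk⟩ := hcon
        exact hj ⟨k, hk⟩
      rw [h6 j hj', sub_self, zero_mul]
    have h12 := Matrix.eq_zero_of_vecMul_eq_zero hdet
      (v := fun k => (m' (e k) : ℝ) - n' (e k)) (by
        funext i
        simp only [Matrix.vecMul, dotProduct, Matrix.submatrix_apply, id, rm, Matrix.of_apply,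
          Pi.zero_apply]
        exact h7 i)
    have h13 : m' = n' := by
      funext j
      by_cases hj : j ∈ t
      · rw [ht, Finset.mem_image] at hj
        obtain ⟨k, -, hk⟩ := hj
        have := congrFun h12 k
        simp only [Pi.zero_apply] at this
        rw [hk] at this
        have h14 : (m' j : ℝ) = n' j := by linarith
        exact_mod_cast h14
      · exact h6 j hj
    subst h2 h13
    rfl
  have hle : ∀ p : {p : (Fin r → ℕ) × (Fin r → ℕ) | df w p = 0}, ew w x p.1 ≤ G (Φ p) := by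
    intro p
    simp only [hG, hΦ]
    have e1 : ew w x p.1 = Real.exp (-(lam 0 w p.1.1) * x) * Real.exp (-(lam 0 w p.1.2) * x) := by
      unfold ew
      rw [← Real.exp_add]
      congr 1
      ring
    rw [e1]
    refine mul_le_mul_of_nonneg_left ?_ (Real.exp_pos _).le
    have e2 : Real.exp (-(lam 0 w p.1.2) * x) = ∏ j, (Real.exp (-(w j) * x)) ^ (p.1.2 j) := by
      have : ∏ j, (Real.exp (-(w j) * x)) ^ (p.1.2 j) =
          Real.exp (∑ j, (p.1.2 j : ℝ) * (-(w j) * x)) := by
        rw [Real.exp_sum]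
        exact Finset.prod_congr rfl (fun j _ => by rw [← Real.exp_nat_mul])
      rw [this]
      congr 1
      unfold lam
      rw [zero_add, neg_mul, Finset.sum_mul, ← Finset.sum_neg_distrib]
      exact Finset.sum_congr rfl (fun j _ => by ring)
    rw [e2]
    refine Finset.prod_le_prod (fun j _ => by positivity) fun j _ => ?_
    by_cases hj : j ∈ t
    · simp only [hg, if_pos hj, if_true]
      exact pow_le_one₀ (Real.exp_pos _).le (hE j).le
    · simp only [hg, if_neg hj]
      exact le_rfl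
  have hDc : Dc w x = ∑' p : {p : (Fin r → ℕ) × (Fin r → ℕ) | df w p = 0}, ew w x p.1 := by
    unfold Dc
    rw [tsum_subtype {p : (Fin r → ℕ) × (Fin r → ℕ) | df w p = 0} (ew w x)]
    refine tsum_congr fun p => ?_
    by_cases hp : df w p = 0
    · rw [if_pos hp, Set.indicator_of_mem (by exact hp)]
    · rw [if_neg hp, Set.indicator_of_notMem (by exact hp)]
  rw [hDc]
  have hG0 : ∀ p, 0 ≤ G p := fun p => mul_nonneg (Real.exp_pos _).le
    (Finset.prod_nonneg fun j _ => hg0 j _)
  have hs2 : Summable fun p : {p : (Fin r → ℕ) × (Fin r → ℕ) | df w p = 0} => ew w x p.1 :=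
    (ew_hasSum hw hx).summable.subtype _
  refine (Summable.tsum_le_tsum_of_inj Φ hΦi (fun c _ => hG0 c) hle hs2 hGs).trans ?_
  rw [hGsum.tsum_eq]
  have hA : ∏ j, (1 - Real.exp (-(w j) * x))⁻¹ ≤ L₁ * (x⁻¹) ^ r := by
    have e1 : (x⁻¹) ^ r = ∏ _j : Fin r, x⁻¹ := by
      rw [Finset.prod_const, Finset.card_univ, Fintype.card_fin]
    rw [hL₁, e1, ← Finset.prod_mul_distrib]
    refine Finset.prod_le_prod (fun j _ => (one_pos.le.trans (one_le_fac (hw j) hx))) fun j _ => ?_
    exact one_fac (hw j) hx hx1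
  have hB : ∏ j, S j ≤ L₂ * (x⁻¹) ^ (r - d) := by
    have e1 : (x⁻¹) ^ (r - d) = ∏ j, (if j ∈ t then 1 else x⁻¹) := by
      have e2 : ∏ j, (if j ∈ t then 1 else x⁻¹) = ∏ j ∈ tᶜ, (if j ∈ t then 1 else x⁻¹) :=
        (Finset.prod_subset (Finset.subset_univ _) (fun j _ hj => by
          rw [Finset.mem_compl, not_not] at hj
          rw [if_pos hj])).symm
      rw [e2, Finset.prod_congr rfl (fun j hj => if_neg (Finset.mem_compl.1 hj)),
        Finset.prod_const, Finset.card_compl, ht, Finset.card_image_of_injective _ he]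
      simp
    rw [hL₂, e1, ← Finset.prod_mul_distrib]
    refine Finset.prod_le_prod (fun j _ => ?_) fun j _ => ?_
    · simp only [hS]
      split_ifs
      · exact zero_le_one
      · exact (one_pos.le.trans (one_le_fac (hw j) hx))
    · simp only [hS]
      by_cases hj : j ∈ t
      · simp only [if_pos hj, mul_one, le_refl]
      · simp only [if_neg hj]
        exact one_fac (hw j) hx hx1
  have hA0 : 0 ≤ ∏ j, S j := Finset.prod_nonneg fun j _ => by
    simp only [hS]
    split_ifs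
    · exact zero_le_one
    · exact (one_pos.le.trans (one_le_fac (hw j) hx))
  calc _ ≤ (L₁ * (x⁻¹) ^ r) * (L₂ * (x⁻¹) ^ (r - d)) := mul_le_mul hA hB hA0 (by positivity)
    _ = L₁ * L₂ * ((x⁻¹) ^ r * (x⁻¹) ^ (r - d)) := by ring
    _ = _ := by
        rw [← pow_add, inv_pow]
        congr 3
        omega

open Classical in
/-- the lower bound for the number of coincidences -/
theorem hd_lower {v : Fin d → ℝ} (B : Fin r → Fin d → ℚ) (hdr : d ≤ r)
    {w : Fin r → ℝ} (hwB : w = (rm B).mulVec v) (hw : ∀ j, 0 < w j) :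
    ∃ c : ℝ, 0 < c ∧ ∀ x : ℝ, 0 < x → x ≤ 1 → c * (x ^ (2 * r - d))⁻¹ ≤ Dc w x := by
  obtain ⟨q, hq, b, hb⟩ := denom B
  have hq' : (0 : ℝ) < q := by exact_mod_cast hq
  set Q : ℕ := ∑ j, ∑ i, (b j i).natAbs with hQ
  set W : ℝ := ∑ j, w j with hW
  have hW0 : 0 ≤ W := Finset.sum_nonneg fun j _ => (hw j).le
  refine ⟨Real.exp (-(2 * W)) * ((2 * (Q : ℝ) + 1) ^ d)⁻¹, by positivity, fun x hx hx1 => ?_⟩
  set N : ℕ := ⌊1 / x⌋₊ with hN
  have hx0 : 0 < 1 / x := by positivity
  have hNle : (N : ℝ) ≤ 1 / x := Nat.floor_le hx0.le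
  have hNlt : 1 / x < N + 1 := Nat.lt_floor_add_one _
  have hNx : (N : ℝ) * x ≤ 1 := by rwa [le_div_iff₀ hx] at hNle
  have h1x : 1 ≤ 1 / x := by rwa [le_div_iff₀ hx, one_mul]
  set S : Finset (Fin r → ℕ) := Fintype.piFinset fun _ => Finset.range (N + 1) with hS
  set Y : Finset (Fin d → ℤ) := Fintype.piFinset fun _ =>
    Finset.Icc (-((N * Q : ℕ) : ℤ)) ((N * Q : ℕ) : ℤ) with hY
  set f : (Fin r → ℕ) → (Fin d → ℤ) := fun m i => ∑ j, (m j : ℤ) * b j i with hf
  have hScard : S.card = (N + 1) ^ r := by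
    rw [hS, Fintype.card_piFinset, Finset.prod_const, Finset.card_range, Finset.card_univ,
      Fintype.card_fin]
  have hYcard : Y.card = (2 * (N * Q) + 1) ^ d := by
    rw [hY, Fintype.card_piFinset, Finset.prod_const, Finset.card_univ, Fintype.card_fin,
      Int.card_Icc]
    congr 1
    omega
  have hmaps : Set.MapsTo f (S : Set (Fin r → ℕ)) (Y : Set (Fin d → ℤ)) := by
    intro m hm
    rw [Finset.mem_coe, hS, Fintype.mem_piFinset] at hm
    rw [Finset.mem_coe, hY, Fintype.mem_piFinset]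
    intro i
    rw [Finset.mem_Icc, ← abs_le]
    simp only [hf]
    calc |∑ j, (m j : ℤ) * b j i| ≤ ∑ j, |(m j : ℤ) * b j i| := Finset.abs_sum_le_sum_abs _ _
      _ ≤ ∑ j, (N : ℤ) * ((b j i).natAbs : ℤ) := by
          refine Finset.sum_le_sum fun j _ => ?_
          rw [abs_mul, Int.abs_eq_natAbs (b j i), abs_of_nonneg (by positivity)]
          have h2 : (m j : ℤ) ≤ N := by
            have := Finset.mem_range.1 (hm j)
            omega
          gcongr
      _ = (N : ℤ) * ((∑ j, (b j i).natAbs : ℕ) : ℤ) := by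
          push_cast
          rw [Finset.mul_sum]
      _ ≤ (N : ℤ) * (Q : ℤ) := by
          have h2 : ∑ j, (b j i).natAbs ≤ Q := by
            rw [hQ]
            refine Finset.sum_le_sum fun j _ => ?_
            exact Finset.single_le_sum (f := fun i => (b j i).natAbs) (fun _ _ => Nat.zero_le _)
              (Finset.mem_univ i)
          have h3 : ((∑ j, (b j i).natAbs : ℕ) : ℤ) ≤ (Q : ℤ) := by exact_mod_cast h2
          gcongr
      _ = _ := by push_cast; ring
  set P : Finset ((Fin r → ℕ) × (Fin r → ℕ)) := (S ×ˢ S).filter (fun p => f p.1 = f p.2) with hP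
  have hCS : (S.card) ^ 2 ≤ Y.card * P.card := by
    have h2 := Finset.card_eq_sum_card_fiberwise hmaps
    have h3 : Set.MapsTo (fun p : (Fin r → ℕ) × (Fin r → ℕ) => f p.1)
        (P : Set ((Fin r → ℕ) × (Fin r → ℕ))) (Y : Set (Fin d → ℤ)) := by
      intro p hp
      rw [Finset.mem_coe, hP, Finset.mem_filter, Finset.mem_product] at hp
      exact hmaps hp.1.1
    have h4 := Finset.card_eq_sum_card_fiberwise h3
    have h5 : ∀ k ∈ Y, (P.filter (fun p => f p.1 = k)).card = (S.filter (fun m => f m = k)).card ^ 2 := by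
      intro k _
      have h6 : P.filter (fun p => f p.1 = k) =
          (S.filter (fun m => f m = k)) ×ˢ (S.filter (fun m => f m = k)) := by
        ext p
        simp only [hP, Finset.mem_filter, Finset.mem_product]
        constructor
        · rintro ⟨⟨⟨ha, hb⟩, hc⟩, hd⟩
          exact ⟨⟨ha, hd⟩, hb, by rw [← hc]; exact hd⟩
        · rintro ⟨⟨ha, hb⟩, hc, hd⟩
          exact ⟨⟨⟨ha, hc⟩, by rw [hb, hd]⟩, hb⟩
      rw [h6, Finset.card_product, sq]
    rw [h4, Finset.sum_congr rfl h5, h2]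
    have h6 := sq_sum_le_card_mul_sum_sq (s := Y) (f := fun k => (S.filter (fun m => f m = k)).card)
    exact_mod_cast h6
  have hlam : ∀ m ∈ S, lam 0 w m ≤ N * W := by
    intro m hm
    rw [hS, Fintype.mem_piFinset] at hm
    unfold lam
    rw [zero_add, hW, Finset.mul_sum]
    refine Finset.sum_le_sum fun j _ => ?_
    have h2 : (m j : ℝ) ≤ N := by
      have := Finset.mem_range.1 (hm j)
      exact_mod_cast (by omega : m j ≤ N)
    have := (hw j).le
    gcongr
  have hfl : ∀ m : Fin r → ℕ, (q : ℝ) * lam 0 w m = ∑ i, (f m i : ℝ) * v i := by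
    intro m
    unfold lam
    rw [hwB]
    simp only [rm, Matrix.mulVec, dotProduct, Matrix.of_apply, hf]
    push_cast
    rw [zero_add]
    simp only [Finset.sum_mul, Finset.mul_sum]
    rw [Finset.sum_comm]
    refine Finset.sum_congr rfl fun i _ => Finset.sum_congr rfl fun j _ => ?_
    rw [← hb]
    ring
  have hterm : ∀ p ∈ P, Real.exp (-(2 * W)) ≤ (if df w p = 0 then ew w x p else 0) := by
    intro p hp
    rw [hP, Finset.mem_filter, Finset.mem_product] at hp
    have h2 : df w p = 0 := by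
      unfold df
      have h3 := hfl p.1
      have h4 := hfl p.2
      rw [hp.2, ← h4] at h3
      have h5 := mul_left_cancel₀ hq'.ne' h3
      rw [h5, sub_self]
    rw [if_pos h2]
    unfold ew
    apply Real.exp_le_exp.2
    have h3 := hlam p.1 hp.1.1
    have h4 := hlam p.2 hp.1.2
    have h5 : (lam 0 w p.1 + lam 0 w p.2) * x ≤ (2 * (N * W)) * x :=
      mul_le_mul_of_nonneg_right (by linarith) hx.le
    have h6 : 2 * (N * W) * x = 2 * W * (N * x) := by ring
    have h7 : 2 * W * (N * x) ≤ 2 * W * 1 := by gcongr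
    nlinarith
  have hsum : Summable fun p : (Fin r → ℕ) × (Fin r → ℕ) => if df w p = 0 then ew w x p else 0 := by
    refine Summable.of_nonneg_of_le (fun p => ?_) (fun p => ?_) (ew_hasSum hw hx).summable
    · split_ifs
      · exact (ew_pos w x p).le
      · exact le_rfl
    · split_ifs
      · exact le_rfl
      · exact (ew_pos w x p).le
  have hlow : (P.card : ℝ) * Real.exp (-(2 * W)) ≤ Dc w x := by
    calc (P.card : ℝ) * Real.exp (-(2 * W)) = ∑ _p ∈ P, Real.exp (-(2 * W)) := by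
          rw [Finset.sum_const, nsmul_eq_mul]
      _ ≤ ∑ p ∈ P, (if df w p = 0 then ew w x p else 0) := Finset.sum_le_sum hterm
      _ ≤ _ := hsum.sum_le_tsum P fun p _ => by
          split_ifs
          · exact (ew_pos w x p).le
          · exact le_rfl
  refine le_trans ?_ hlow
  have hCS' : ((N : ℝ) + 1) ^ (2 * r) ≤ (2 * (N * Q) + 1) ^ d * (P.card : ℝ) := by
    rw [hScard, hYcard, ← pow_mul, mul_comm r 2] at hCS
    exact_mod_cast hCS
  have h2 : (1 / x) ^ (2 * r) ≤ (2 * (N * Q) + 1) ^ d * (P.card : ℝ) := by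
    refine le_trans ?_ hCS'
    gcongr
  have h3 : (2 * ((N : ℝ) * Q) + 1) ^ d ≤ (2 * (Q : ℝ) + 1) ^ d * (1 / x) ^ d := by
    rw [← mul_pow]
    apply pow_le_pow_left₀ (by positivity)
    have h4 : (0 : ℝ) ≤ Q := Nat.cast_nonneg Q
    nlinarith
  have h4 : (1 / x) ^ (2 * r) = (1 / x) ^ (2 * r - d) * (1 / x) ^ d := by
    rw [← pow_add]
    congr 1
    omega
  rw [h4] at h2
  have h5 : (1 / x) ^ (2 * r - d) * (1 / x) ^ d ≤
      (2 * (Q : ℝ) + 1) ^ d * (P.card : ℝ) * (1 / x) ^ d := by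
    calc _ ≤ _ := h2
      _ ≤ ((2 * (Q : ℝ) + 1) ^ d * (1 / x) ^ d) * (P.card : ℝ) := by gcongr
      _ = _ := by ring
  have h6 : (1 / x) ^ (2 * r - d) ≤ (2 * (Q : ℝ) + 1) ^ d * (P.card : ℝ) :=
    le_of_mul_le_mul_right h5 (by positivity)
  have h7 : (x ^ (2 * r - d))⁻¹ = (1 / x) ^ (2 * r - d) := by
    rw [one_div, inv_pow]
  rw [h7]
  calc Real.exp (-(2 * W)) * ((2 * (Q : ℝ) + 1) ^ d)⁻¹ * (1 / x) ^ (2 * r - d) ≤
      Real.exp (-(2 * W)) * ((2 * (Q : ℝ) + 1) ^ d)⁻¹ *
        ((2 * (Q : ℝ) + 1) ^ d * (P.card : ℝ)) := by gcongr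
    _ = _ := by field_simp

theorem hd_all {v : Fin d → ℝ} (hv : LinearIndependent ℚ v) (B : Fin r → Fin d → ℚ)
    (e : Fin d → Fin r) (he : Function.Injective e) (hdet : ((rm B).submatrix e id).det ≠ 0)
    {w : Fin r → ℝ} (hwB : w = (rm B).mulVec v) (hw : ∀ j, 0 < w j) :
    ∃ c C : ℝ, 0 < c ∧ 0 < C ∧ HD w (2 * r - d) c C := by
  have hdr : d ≤ r := by
    simpa using Fintype.card_le_of_injective e he
  obtain ⟨C, hC, h1⟩ := hd_upper hv B e he hdet hwB hw
  obtain ⟨c, hc, h2⟩ := hd_lower B hdr hwB hw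
  exact ⟨c, C, hc, hC, fun x hx hx1 => ⟨h2 x hx hx1, h1 x hx hx1⟩⟩

end Pool.Agent.H312.Eq
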