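import Pool.Agent.H312.Eq.Fs

set_option autoImplicit false

/-!
# Inclusion and exclusion
-/

namespace Pool.Agent.H312.Eq

open Finset Filter Topology MeasureTheory Complex Set
open Pool.Agent.H131R5.BZ Pool.Agent.Y930.Bz Pool.Agent.Y616.BM Pool.Agent.H312.Barnes
open Pool.Agent.H312.Sh Pool.Agent.H312.Ex Pool.Agent.H312.Lb

variable {r : ℕ} {w : Fin r → ℝ}

/-- the box -/
def bx (r N : ℕ) : Finset (Fin r → ℕ) := Fintype.piFinset fun _ => Finset.range N

/-- the shifted parameter -/
noncomputable def sh (a : ℝ) (w : Fin r → ℝ) (N : ℕ) (S : Finset (Fin r)) : ℝ :=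
  a + N * ∑ j ∈ S, w j

open Classical in
lemma lam_shift (a : ℝ) (w : Fin r → ℝ) (N : ℕ) (S : Finset (Fin r)) (m : Fin r → ℕ) :
    lam a w (fun j => m j + if j ∈ S then N else 0) = lam (sh a w N S) w m := by
  unfold lam sh
  have h1 : ∑ j, ((m j + if j ∈ S then N else 0 : ℕ) : ℝ) * w j =
      ∑ j, (m j : ℝ) * w j + N * ∑ j ∈ S, w j := by
    rw [← Finset.sum_filter_add_sum_filter_not Finset.univ (fun j => j ∈ S)
      (fun j => ((m j + if j ∈ S then N else 0 : ℕ) : ℝ) * w j),
      ← Finset.sum_filter_add_sum_filter_not Finset.univ (fun j => j ∈ S)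
      (fun j => (m j : ℝ) * w j)]
    have h2 : ∑ j ∈ Finset.univ.filter (fun j => j ∈ S),
        ((m j + if j ∈ S then N else 0 : ℕ) : ℝ) * w j =
        ∑ j ∈ Finset.univ.filter (fun j => j ∈ S), (m j : ℝ) * w j + N * ∑ j ∈ S, w j := by
      have h3 : Finset.univ.filter (fun j => j ∈ S) = S := by ext j; simp
      rw [h3, Finset.mul_sum, ← Finset.sum_add_distrib]
      refine Finset.sum_congr rfl fun j hj => ?_
      rw [if_pos hj]
      push_cast
      ring
    have h4 : ∑ j ∈ Finset.univ.filter (fun j => ¬ j ∈ S),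
        ((m j + if j ∈ S then N else 0 : ℕ) : ℝ) * w j =
        ∑ j ∈ Finset.univ.filter (fun j => ¬ j ∈ S), (m j : ℝ) * w j := by
      refine Finset.sum_congr rfl fun j hj => ?_
      rw [if_neg (Finset.mem_filter.1 hj).2, add_zero]
    rw [h2, h4]
    ring
  rw [h1]
  ring

open Classical in
/-- inclusion and exclusion for the Dirichlet series -/
theorem incl {a : ℝ} (ha : 0 < a) (hw : ∀ j, 0 < w j) (N : ℕ) {s : ℂ} (hs : (r : ℝ) < s.re) :
    ∑ m ∈ bx r N, ((lam a w m : ℝ) : ℂ) ^ (-s) =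
      ∑ S : Finset (Fin r), (-1 : ℂ) ^ S.card *
        ∑' m : Fin r → ℕ, ((lam (sh a w N S) w m : ℝ) : ℂ) ^ (-s) := by
  obtain ⟨c, hc⟩ := exists_taylor a hw
  set f : (Fin r → ℕ) → ℂ := fun m => ((lam a w m : ℝ) : ℂ) ^ (-s) with hf
  have hfs : Summable f := (FF_series ha hw hc hs).summable
  have hfn : Summable fun m => ‖f m‖ := hfs.norm
  -- the terms
  set g : Finset (Fin r) → (Fin r → ℕ) → ℂ := fun S m =>
    (∏ j ∈ S, (if N ≤ m j then (-1 : ℂ) else 0)) * f m with hg
  have hgn : ∀ S m, ‖g S m‖ ≤ ‖f m‖ := by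
    intro S m
    simp only [hg]
    rw [norm_mul, norm_prod]
    have h1 : ∏ j ∈ S, ‖(if N ≤ m j then (-1 : ℂ) else 0)‖ ≤ 1 := by
      refine Finset.prod_le_one (fun j _ => norm_nonneg _) fun j _ => ?_
      split_ifs <;> simp
    exact mul_le_of_le_one_left (norm_nonneg _) h1
  have hgs : ∀ S, Summable (g S) := fun S => Summable.of_norm_bounded hfn (hgn S)
  have hsum : ∀ m, ∑ S : Finset (Fin r), g S m = if m ∈ bx r N then f m else 0 := by
    intro m
    simp only [hg]
    rw [← Finset.sum_mul]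
    have h1 := Finset.prod_add (fun j : Fin r => (if N ≤ m j then (-1 : ℂ) else 0))
      (fun _ => (1 : ℂ)) Finset.univ
    simp only [Finset.prod_const_one, mul_one, Finset.powerset_univ] at h1
    rw [← h1]
    by_cases hm : m ∈ bx r N
    · rw [if_pos hm]
      have h2 : ∀ j ∈ (Finset.univ : Finset (Fin r)), (if N ≤ m j then (-1 : ℂ) else 0) + 1 = 1 := by
        intro j _
        have h3 := Finset.mem_range.1 (Fintype.mem_piFinset.1 hm j)
        rw [if_neg (by omega), zero_add]
      rw [Finset.prod_congr rfl h2, Finset.prod_const_one, one_mul]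
    · rw [if_neg hm]
      have h2 : ∃ j, N ≤ m j := by
        by_contra hcon
        push Not at hcon
        exact hm (Fintype.mem_piFinset.2 fun j => Finset.mem_range.2 (hcon j))
      obtain ⟨j, hj⟩ := h2
      rw [Finset.prod_eq_zero (Finset.mem_univ j) (by rw [if_pos hj]; ring), zero_mul]
  have h1 : ∑ m ∈ bx r N, f m = ∑' m, ∑ S : Finset (Fin r), g S m := by
    simp only [hsum]
    rw [tsum_eq_sum (s := bx r N) (fun m hm => if_neg hm)]
    exact (Finset.sum_congr rfl fun m hm => if_pos hm).symm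
  have h2 : ∑' m, ∑ S : Finset (Fin r), g S m = ∑ S : Finset (Fin r), ∑' m, g S m :=
    Summable.tsum_finsetSum fun S _ => hgs S
  rw [h1, h2]
  refine Finset.sum_congr rfl fun S _ => ?_
  -- one set
  set φ : (Fin r → ℕ) → (Fin r → ℕ) := fun m j => m j + if j ∈ S then N else 0 with hφ
  have hφi : Function.Injective φ := by
    intro m m' h
    funext j
    have := congrFun h j
    simp only [hφ] at this
    omega
  have hsupp : Function.support (g S) ⊆ Set.range φ := by
    intro m hm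
    have h3 : ∀ j ∈ S, N ≤ m j := by
      intro j hj
      by_contra hcon
      apply hm
      simp only [hg]
      rw [Finset.prod_eq_zero hj (if_neg hcon), zero_mul]
    refine ⟨fun j => if j ∈ S then m j - N else m j, ?_⟩
    funext j
    simp only [hφ]
    by_cases hj : j ∈ S
    · have := h3 j hj
      simp only [if_pos hj]
      omega
    · simp only [if_neg hj, add_zero]
  rw [← hφi.tsum_eq hsupp, ← tsum_mul_left]
  refine tsum_congr fun m => ?_
  simp only [hg]
  have h3 : ∏ j ∈ S, (if N ≤ φ m j then (-1 : ℂ) else 0) = (-1 : ℂ) ^ S.card := by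
    rw [← Finset.prod_const]
    refine Finset.prod_congr rfl fun j hj => ?_
    simp only [hφ]
    rw [if_pos hj, if_pos (by omega)]
  rw [h3]
  congr 1
  simp only [hf, hφ]
  rw [lam_shift]

variable {a : ℝ} {Z : ℂ → ℂ}

open Classical in
/-- the zeta function is a finite sum up to zeta functions with large shifts -/
theorem decomp (ha : 0 < a) (hw : ∀ j, 0 < w j)
    (hZ : ∀ s ∈ Om r, DifferentiableAt ℂ Z s)
    (hs : ∀ s : ℂ, (r : ℝ) < s.re → Z s = ∑' m : Fin r → ℕ, ((lam a w m : ℝ) : ℂ) ^ (-s))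
    (N : ℕ) {c : Finset (Fin r) → ℕ → ℂ} (hc : ∀ S, Tay (sh a w N S) w (c S)) {s : ℂ}
    (hsO : s ∈ Om r) :
    Z s = ∑ m ∈ bx r N, ((lam a w m : ℝ) : ℂ) ^ (-s) -
      ∑ S ∈ (Finset.univ : Finset (Finset (Fin r))).erase ∅, (-1 : ℂ) ^ S.card *
        FF (sh a w N S) w (c S) s := by
  have hsh : ∀ S, 0 < sh a w N S := by
    intro S
    unfold sh
    have : 0 ≤ ∑ j ∈ S, w j := Finset.sum_nonneg fun j _ => (hw j).le
    have : 0 ≤ (N : ℝ) * ∑ j ∈ S, w j := by positivity
    linarith
  obtain ⟨c₀, hc₀⟩ := exists_taylor a hw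
  have h1 := eq_FF ha hw hc₀ hZ hs s hsO
  set G : ℂ → ℂ := fun s => ∑ m ∈ bx r N, ((lam a w m : ℝ) : ℂ) ^ (-s) -
      ∑ S ∈ (Finset.univ : Finset (Finset (Fin r))).erase ∅, (-1 : ℂ) ^ S.card *
        FF (sh a w N S) w (c S) s with hG
  have hGd : ∀ s ∈ Om r, DifferentiableAt ℂ G s := by
    intro s hs
    simp only [hG]
    refine DifferentiableAt.sub ?_ ?_
    · refine DifferentiableAt.fun_sum fun m _ => ?_
      have hl : ((lam a w m : ℝ) : ℂ) ≠ 0 := by
        have h2 : 0 < lam a w m := by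
          have := lam0_nonneg hw m
          unfold lam at this ⊢
          linarith
        exact_mod_cast h2.ne'
      exact DifferentiableAt.const_cpow (by fun_prop) (Or.inl hl)
    · refine DifferentiableAt.fun_sum fun S _ => ?_
      exact (FF_diff (hsh S) hw (hc S) hs).const_mul _
  have hGs : ∀ s : ℂ, (r : ℝ) < s.re → G s = ∑' m : Fin r → ℕ, ((lam a w m : ℝ) : ℂ) ^ (-s) := by
    intro s hs
    simp only [hG]
    rw [incl ha hw N hs]
    have h2 : ∀ S : Finset (Fin r), FF (sh a w N S) w (c S) s =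
        ∑' m : Fin r → ℕ, ((lam (sh a w N S) w m : ℝ) : ℂ) ^ (-s) := fun S =>
      (FF_series (hsh S) hw (hc S) hs).tsum_eq.symm
    simp only [h2]
    rw [← Finset.add_sum_erase _ _ (Finset.mem_univ (∅ : Finset (Fin r)))]
    have e0 : sh a w N ∅ = a := by
      unfold sh
      simp
    rw [e0, Finset.card_empty, pow_zero, one_mul]
    ring
  have h2 := eq_FF ha hw hc₀ hGd hGs s hsO
  rw [h1, ← h2]

end Pool.Agent.H312.Eq
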