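import Pool.Agent.H312.Eq.Fin

set_option autoImplicit false

/-!
# Linear forms with algebraic coefficients
-/

namespace Pool.Agent.H312.Eq

open Finset Filter Topology MeasureTheory Set
open Pool.Agent.Y616.BM Pool.Agent.H312.Lb

/-- a common denominator -/
lemma denom' {ι : Type*} [Fintype ι] (B : ι → ℚ) : ∃ q : ℕ, 0 < q ∧ ∃ b : ι → ℤ,
    ∀ i, (q : ℚ) * B i = b i := by
  classical
  refine ⟨∏ i, (B i).den, ?_, ?_⟩
  · exact Finset.prod_pos fun i _ => (B i).pos
  · have h : ∀ i, ∃ z : ℤ, ((∏ i, (B i).den : ℕ) : ℚ) * B i = z := by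
      intro i
      have h1 : (B i).den ∣ ∏ i, (B i).den :=
        Finset.dvd_prod_of_mem (fun i => (B i).den) (Finset.mem_univ i)
      obtain ⟨k, hk⟩ := h1
      refine ⟨k * (B i).num, ?_⟩
      rw [hk]
      have h2 : ((B i).den : ℚ) * B i = (B i).num := Rat.den_mul_eq_num (B i)
      push_cast
      rw [mul_right_comm, h2]
      ring
    choose b hb using h
    exact ⟨b, hb⟩

/-- the bound of Liouville for linear forms -/
theorem lio {r : ℕ} {α : Fin r → ℝ} (halg : ∀ j, IsAlgebraic ℚ (α j)) :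
    ∃ c τ : ℝ, 0 < c ∧ 0 < τ ∧ LinDio α c τ := by
  classical
  set F : IntermediateField ℚ ℝ := IntermediateField.adjoin ℚ (Set.range α) with hF
  have hfd : FiniteDimensional ℚ F := by
    apply IntermediateField.finiteDimensional_adjoin
    rintro x ⟨i, rfl⟩
    exact (halg i).isIntegral
  set D : ℕ := Module.finrank ℚ F with hD
  have hD0 : 0 < D := Module.finrank_pos
  let b : Module.Basis (Fin D) ℚ F := Module.finBasis ℚ F
  let a : Fin r → F := fun j => ⟨α j, IntermediateField.subset_adjoin ℚ _ ⟨j, rfl⟩⟩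
  obtain ⟨q, hq, z, hz⟩ := denom' (fun p : Fin r × Fin D × Fin D =>
    Algebra.leftMulMatrix b (a p.1) p.2.1 p.2.2)
  have hq' : (0 : ℝ) < q := by exact_mod_cast hq
  set β : Fin D → ℝ := fun i => ((b i : F) : ℝ) with hβ
  have hβ0 : ∀ i, β i ≠ 0 := by
    intro i h
    have h1 : b i = 0 := by
      apply Subtype.ext
      exact h
    exact b.ne_zero i h1
  set S : ℝ := ∑ i, |β i| with hS
  set Y₀ : ℝ := 1 + ∑ p, |(z p : ℝ)| with hY₀
  have hY₀1 : 1 ≤ Y₀ := by
    have : 0 ≤ ∑ p, |(z p : ℝ)| := Finset.sum_nonneg fun p _ => abs_nonneg _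
    linarith
  set k₀ : Fin D := ⟨0, hD0⟩ with hk₀
  have hk0 : 0 < |β k₀| := abs_pos.2 (hβ0 k₀)
  have hS0 : 0 < S := by
    have : |β k₀| ≤ S := Finset.single_le_sum (f := fun i => |β i|) (fun _ _ => abs_nonneg _)
      (Finset.mem_univ k₀)
    linarith
  set W : ℝ := q * (S * ((D.factorial : ℝ) * Y₀ ^ D)) with hW
  have hW0 : 0 < W := by
    have : (0 : ℝ) < D.factorial := by exact_mod_cast D.factorial_pos
    positivity
  refine ⟨|β k₀| / W, D, by positivity, by exact_mod_cast hD0, fun n hn => ?_⟩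
  set x : F := ∑ j, (n j : ℚ) • a j with hx
  have hxr : (x : ℝ) = ∑ j, (n j : ℝ) * α j := by
    rw [hx]
    rw [IntermediateField.coe_sum]
    refine Finset.sum_congr rfl fun j _ => ?_
    rw [IntermediateField.coe_smul, Rat.smul_def]
    push_cast
    rfl
  have hx0 : x ≠ 0 := by
    intro h
    apply hn
    rw [← hxr, h]
    rfl
  set A : Matrix (Fin D) (Fin D) ℤ := Matrix.of fun i k => ∑ j, n j * z (j, i, k) with hA
  have hAq : ∀ i k, ((A i k : ℤ) : ℚ) = q * Algebra.leftMulMatrix b x i k := by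
    intro i k
    rw [hx, map_sum, Matrix.sum_apply, Finset.mul_sum, hA]
    simp only [Matrix.of_apply]
    push_cast
    refine Finset.sum_congr rfl fun j _ => ?_
    rw [map_smul, Matrix.smul_apply, smul_eq_mul, ← hz]
    ring
  have hdetA : A.det ≠ 0 := by
    intro h0
    have h1 : (A.map (Int.cast : ℤ → ℚ)) = (q : ℚ) • Algebra.leftMulMatrix b x := by
      ext i k
      rw [Matrix.map_apply, Matrix.smul_apply, smul_eq_mul]
      exact hAq i k
    have h2 : ((A.det : ℤ) : ℚ) = (A.map (Int.cast : ℤ → ℚ)).det := by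
      have := RingHom.map_det (Int.castRingHom ℚ) A
      exact this
    rw [h0, h1, Matrix.det_smul, ← Algebra.norm_eq_matrix_det] at h2
    have h3 : Algebra.norm ℚ x ≠ 0 := (Algebra.norm_ne_zero_iff).2 hx0
    have h4 : (q : ℚ) ≠ 0 := by exact_mod_cast hq.ne'
    exact (mul_ne_zero (pow_ne_zero _ h4) h3) (by simpa using h2.symm)
  set AR : Matrix (Fin D) (Fin D) ℝ := A.map (Int.cast : ℤ → ℝ) with hAR
  have hdetR : AR.det = (A.det : ℝ) := by
    have := RingHom.map_det (Int.castRingHom ℝ) A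
    exact this.symm
  have hdet1 : 1 ≤ |AR.det| := by
    rw [hdetR]
    have : 1 ≤ |A.det| := Int.one_le_abs hdetA
    exact_mod_cast this
  -- the eigenvector
  have heig : Matrix.vecMul β AR = ((q : ℝ) * (x : ℝ)) • β := by
    funext k
    simp only [Matrix.vecMul, dotProduct, Pi.smul_apply, smul_eq_mul, hAR, Matrix.map_apply]
    have h1 : x * b k = ∑ i, Algebra.leftMulMatrix b x i k • b i := by
      conv_lhs => rw [← b.sum_repr (x * b k)]
      refine Finset.sum_congr rfl fun i _ => ?_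
      rw [Algebra.leftMulMatrix_eq_repr_mul]
    have h2 : (x : ℝ) * β k = ∑ i, ((Algebra.leftMulMatrix b x i k : ℚ) : ℝ) * β i := by
      have h3 := congrArg (fun y : F => (y : ℝ)) h1
      simp only [IntermediateField.coe_mul, IntermediateField.coe_sum,
        IntermediateField.coe_smul] at h3
      rw [hβ]
      simp only
      rw [h3]
      refine Finset.sum_congr rfl fun i _ => ?_
      rw [Rat.smul_def]
    rw [mul_assoc, h2, Finset.mul_sum]
    refine Finset.sum_congr rfl fun i _ => ?_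
    have h4 : ((A i k : ℤ) : ℝ) = q * ((Algebra.leftMulMatrix b x i k : ℚ) : ℝ) := by
      have h5 := hAq i k
      have h6 : (((A i k : ℤ) : ℚ) : ℝ) = ((q * Algebra.leftMulMatrix b x i k : ℚ) : ℝ) := by
        rw [h5]
      push_cast at h6
      exact h6
    rw [h4]
    ring
  have hadj : AR.det • β = ((q : ℝ) * (x : ℝ)) • Matrix.vecMul β AR.adjugate := by
    rw [← Matrix.smul_vecMul, ← heig, Matrix.vecMul_vecMul, Matrix.mul_adjugate,
      Matrix.vecMul_smul, Matrix.vecMul_one]
  -- the size of the entries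
  set Y : ℝ := Y₀ * (1 + ∑ j, |(n j : ℝ)|) with hY
  have hN1 : 1 ≤ 1 + ∑ j, |(n j : ℝ)| := by
    have : 0 ≤ ∑ j, |(n j : ℝ)| := Finset.sum_nonneg fun p _ => abs_nonneg _
    linarith
  have hY1 : 1 ≤ Y := by
    rw [hY]
    nlinarith
  have hAY : ∀ i k, |AR i k| ≤ Y := by
    intro i k
    rw [hAR, Matrix.map_apply, hA]
    simp only [Matrix.of_apply]
    push_cast
    calc |∑ j, (n j : ℝ) * (z (j, i, k) : ℝ)| ≤ ∑ j, |(n j : ℝ) * (z (j, i, k) : ℝ)| :=
          Finset.abs_sum_le_sum_abs _ _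
      _ ≤ ∑ j, |(n j : ℝ)| * Y₀ := by
          refine Finset.sum_le_sum fun j _ => ?_
          rw [abs_mul]
          have h1 : |(z (j, i, k) : ℝ)| ≤ ∑ p, |(z p : ℝ)| :=
            Finset.single_le_sum (f := fun p => |(z p : ℝ)|) (fun _ _ => abs_nonneg _)
              (Finset.mem_univ (j, i, k))
          have h2 : |(z (j, i, k) : ℝ)| ≤ Y₀ := by linarith
          gcongr
      _ = (∑ j, |(n j : ℝ)|) * Y₀ := by rw [Finset.sum_mul]
      _ ≤ _ := by
          rw [hY]
          nlinarith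
  have hadjY : ∀ i k, |AR.adjugate i k| ≤ (D.factorial : ℝ) * Y ^ D := by
    intro i k
    rw [Matrix.adjugate_apply]
    have h1 := Matrix.det_le (A := AR.updateRow k (Pi.single i 1))
      (abv := AbsoluteValue.abs) (x := Y) (by
        intro i' j'
        by_cases h : i' = k
        · rw [h, Matrix.updateRow_self]
          by_cases h' : j' = i
          · rw [h', Pi.single_eq_same]
            simpa using hY1
          · rw [Pi.single_eq_of_ne h']
            simp only [map_zero]
            linarith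
        · rw [Matrix.updateRow_ne h]
          exact hAY i' j')
    rw [Fintype.card_fin, nsmul_eq_mul] at h1
    exact h1
  have h1 := congrFun hadj k₀
  simp only [Pi.smul_apply, smul_eq_mul, Matrix.vecMul, dotProduct] at h1
  have h2 : |β k₀| ≤ (q : ℝ) * |(x : ℝ)| * (S * ((D.factorial : ℝ) * Y ^ D)) := by
    calc |β k₀| = 1 * |β k₀| := (one_mul _).symm
      _ ≤ |AR.det| * |β k₀| := by gcongr
      _ = |AR.det * β k₀| := (abs_mul _ _).symm
      _ = (q : ℝ) * |(x : ℝ)| * |∑ i, β i * AR.adjugate i k₀| := by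
          rw [h1, abs_mul, abs_mul, abs_of_pos hq']
      _ ≤ _ := by
          gcongr
          calc |∑ i, β i * AR.adjugate i k₀| ≤ ∑ i, |β i * AR.adjugate i k₀| :=
                Finset.abs_sum_le_sum_abs _ _
            _ ≤ ∑ i, |β i| * ((D.factorial : ℝ) * Y ^ D) := by
                refine Finset.sum_le_sum fun i _ => ?_
                rw [abs_mul]
                have := hadjY i k₀
                gcongr
            _ = _ := by rw [Finset.sum_mul]
  rw [← hxr]
  have hN0 : 0 < 1 + ∑ j, |(n j : ℝ)| := by linarith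
  rw [Real.rpow_neg hN0.le, Real.rpow_natCast, div_mul_eq_mul_div, ← div_eq_mul_inv, div_div,
    div_le_iff₀ (by positivity)]
  calc |β k₀| ≤ _ := h2
    _ = |(x : ℝ)| * ((1 + ∑ j, |(n j : ℝ)|) ^ D * W) := by
        rw [hY, hW, mul_pow]
        ring

/-- weights with algebraic ratios -/
theorem lio_ratio {r : ℕ} {w : Fin r → ℝ} (hr : 1 ≤ r) (hw : ∀ j, 0 < w j)
    (halg : ∀ i j, IsAlgebraic ℚ (w i / w j)) :
    ∃ c τ : ℝ, 0 < c ∧ 0 < τ ∧ LinDio w c τ := by
  set j₀ : Fin r := ⟨0, hr⟩ with hj₀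
  obtain ⟨c, τ, hc, hτ, h⟩ := lio (α := fun j => w j / w j₀) fun j => halg j j₀
  have h0 := hw j₀
  refine ⟨w j₀ * c, τ, by positivity, hτ, fun n hn => ?_⟩
  have e1 : ∑ j, (n j : ℝ) * w j = w j₀ * ∑ j, (n j : ℝ) * (w j / w j₀) := by
    rw [Finset.mul_sum]
    refine Finset.sum_congr rfl fun j _ => ?_
    field_simp
  rw [e1] at hn ⊢
  have h1 := h n (right_ne_zero_of_mul hn)
  rw [abs_mul, abs_of_pos h0, mul_assoc]
  gcongr

end Pool.Agent.H312.Eq
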