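import Pool.Agent.H312.Eq.Asy

set_option autoImplicit false

/-!
# The mean value theorem for Diophantine weights
-/

namespace Pool.Agent.H312.Eq

open Finset Filter Topology MeasureTheory Complex Set Asymptotics
open Pool.Agent.H131R5.BZ Pool.Agent.Y930.Bz Pool.Agent.Y616.BM Pool.Agent.H312.Barnes
open Pool.Agent.H312.Sh Pool.Agent.H312.Ex Pool.Agent.H312.Lb

variable {r : ℕ} {w : Fin r → ℝ} {a : ℝ} {Z : ℂ → ℂ}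

/-- the mean value theorem -/
theorem mean_gen (hr : 1 ≤ r) (ha : 0 < a) (hw : ∀ j, 0 < w j)
    (hZ : ∀ s ∈ Om r, DifferentiableAt ℂ Z s)
    (hs : ∀ s : ℂ, (r : ℝ) < s.re → Z s = ∑' m : Fin r → ℕ, ((lam a w m : ℝ) : ℂ) ^ (-s))
    {d : ℕ} (hdr : d ≤ r) {c τ c₁ C₁ : ℝ} (hc : 0 < c) (hτ : 0 < τ) (hLD : LinDio w c τ)
    (hc₁ : 0 < c₁) (hC₁ : 0 < C₁) (hHD : HD w (2 * r - d) c₁ C₁)
    (hI : ∀ ε : ℝ, 0 < ε → (fun T : ℝ => ∫ t in (1 : ℝ)..T,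
        ‖Z ((((r : ℝ) - d / 2 : ℝ) : ℂ) + (t : ℂ) * I)‖ ^ 2) =O[atTop] fun T : ℝ => T ^ (1 + ε))
    {σ : ℝ} (hσ : (r : ℝ) - d / 2 < σ) :
    Summable (dgt a w σ) ∧ 0 < ∑' p, dgt a w σ p ∧
      Tendsto (fun T : ℝ => (∫ t in (1 : ℝ)..T, ‖Z ((σ : ℂ) + (t : ℂ) * I)‖ ^ 2) / T) atTop
        (𝓝 (∑' p, dgt a w σ p)) := by
  have hdr' : (d : ℝ) ≤ r := by exact_mod_cast hdr
  have hr' : (1 : ℝ) ≤ r := by exact_mod_cast hr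
  have hp : ((2 * r - d : ℕ) : ℝ) = 2 * ((r : ℝ) - d / 2) := by
    rw [Nat.cast_sub (by omega)]
    push_cast
    ring
  have hσ2 : 1 / 2 < σ := by linarith
  have hσ0 : 0 < σ := by linarith
  have hH := res_of_ms ha hw hZ hs (by linarith : 1 / 2 ≤ (r : ℝ) - d / 2) hI
  have hO := (theta_gen hr ha hw hZ hs hdr hc hτ hLD hc₁ hC₁ hHD).2.2 hI σ hσ
  obtain ⟨C₃, T₃, hC₃, hT₃, h1⟩ := FT_up hw hc hτ hLD hc₁ hC₁ hHD (σ := σ) hσ2.le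
    (by rw [hp]; linarith) hσ hH
  obtain ⟨q, K, hq0, hq1, hK, htr⟩ := FT_trunc hw hc hτ hLD hc₁ hC₁ hHD (σ := σ) hσ2.le
    (by rw [hp]; linarith) hσ hH
  have hE : ∀ ε : ℝ, 0 < ε → ∃ a₀ : ℝ, 1 ≤ a₀ ∧ ∀ a : ℝ, a₀ ≤ a → ∀ c : ℕ → ℂ, Tay a w c →
      ∃ T₂ : ℝ, 2 ≤ T₂ ∧ ∀ T : ℝ, T₂ ≤ T → I1 a w c σ T ≤ ENNReal.ofReal (ε * T) := by
    intro ε hε
    refine I1_small hw hσ2.le (fun ε' hε' => ?_) hε
    refine ET_small hw hσ0 (fun ε'' hε'' => ?_) hε'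
    exact JJ_small hw (by linarith : 0 < (r : ℝ) - d / 2) hσ hH hC₃ h1 hq0 hq1 hK htr hε''
  obtain ⟨h2, h3⟩ := asy ha hw hZ hs hE hO
  refine ⟨h2, ?_, h3⟩
  refine h2.tsum_pos (dgt_nonneg ha hw σ) (0, 0) ?_
  unfold dgt
  rw [if_pos rfl]
  have := lam_pos ha hw (0 : Fin r → ℕ)
  positivity

end Pool.Agent.H312.Eq
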