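import Pool.Agent.H312.Eq.Up

set_option autoImplicit false

/-!
# The number of near coincidences
-/

namespace Pool.Agent.H312.Eq

open Finset

lemma abs_sum_mul_le {r : ℕ} (a b : Fin r → ℤ) {A Q : ℤ} (hA : ∀ j, |a j| ≤ A) (hA0 : 0 ≤ A)
    (hQ : ∑ j, |b j| ≤ Q) : |∑ j, a j * b j| ≤ A * Q := by
  calc |∑ j, a j * b j| ≤ ∑ j, |a j * b j| := Finset.abs_sum_le_sum_abs _ _
    _ ≤ ∑ j, A * |b j| := by
        refine Finset.sum_le_sum fun j _ => ?_
        rw [abs_mul]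
        exact mul_le_mul_of_nonneg_right (hA j) (abs_nonneg _)
    _ = A * ∑ j, |b j| := by rw [Finset.mul_sum]
    _ ≤ A * Q := mul_le_mul_of_nonneg_left hQ hA0

/-- the near coincidences -/
theorem near {r d : ℕ} (b : Fin r → Fin d → ℤ) (Q : ℕ) (hQ1 : 1 ≤ Q)
    (hQ : ∀ i, ∑ j, |b j i| ≤ (Q : ℤ)) (n : Fin r → ℤ) (N : ℕ) (hN1 : 1 ≤ N)
    (hN : ∀ j, |n j| ≤ (N : ℤ)) {i₀ : Fin d} (hk : ∑ j, n j * b j i₀ ≠ 0) (X : ℕ) (hX : 1 ≤ X) :
    ∃ P : Finset ((Fin r → ℕ) × (Fin r → ℕ)),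
      (X + 1) ^ (2 * r) ≤ (3 * Q * N) * (5 * Q ^ 2 * N * X) ^ (d - 1) * P.card ∧
      ∀ p ∈ P, (∀ j, p.1 j ≤ X) ∧ (∀ j, p.2 j ≤ X) ∧ ∃ s : ℤ, |s| ≤ 2 * (X * Q) ∧
        ∀ i, ∑ j, ((p.1 j : ℤ) - p.2 j) * b j i = s * ∑ j, n j * b j i := by
  classical
  set k : Fin d → ℤ := fun i => ∑ j, n j * b j i with hkdef
  set f : (Fin r → ℕ) → (Fin d → ℤ) := fun m i => ∑ j, (m j : ℤ) * b j i with hf
  set t : (Fin r → ℕ) → ℤ := fun m => f m i₀ / k i₀ with ht
  set g : (Fin r → ℕ) → (Fin d → ℤ) := fun m i => f m i - t m * k i with hg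
  set G : ℕ := X * Q + X * Q * (N * Q) with hG
  set S : Finset (Fin r → ℕ) := Fintype.piFinset fun _ => Finset.range (X + 1) with hS
  set Y : Finset (Fin d → ℤ) := Fintype.piFinset fun i =>
    if i = i₀ then Finset.Icc (-((N * Q : ℕ) : ℤ)) ((N * Q : ℕ) : ℤ)
    else Finset.Icc (-((G : ℕ) : ℤ)) ((G : ℕ) : ℤ) with hY
  have hScard : S.card = (X + 1) ^ r := by
    rw [hS, Fintype.card_piFinset, Finset.prod_const, Finset.card_range, Finset.card_univ,
      Fintype.card_fin]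
  have hYcard : Y.card = (2 * (N * Q) + 1) * (2 * G + 1) ^ (d - 1) := by
    rw [hY, Fintype.card_piFinset, Fintype.prod_eq_mul_prod_compl i₀, if_pos rfl, Int.card_Icc]
    congr 1
    · omega
    · have h1 : ∀ i ∈ ({i₀} : Finset (Fin d))ᶜ, (if i = i₀ then
          Finset.Icc (-((N * Q : ℕ) : ℤ)) ((N * Q : ℕ) : ℤ)
          else Finset.Icc (-((G : ℕ) : ℤ)) ((G : ℕ) : ℤ)).card = 2 * G + 1 := by
        intro i hi
        rw [Finset.mem_compl, Finset.mem_singleton] at hi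
        rw [if_neg hi, Int.card_Icc]
        omega
      rw [Finset.prod_congr rfl h1, Finset.prod_const, Finset.card_compl, Finset.card_singleton,
        Fintype.card_fin]
  have hkb : ∀ i, |k i| ≤ (N : ℤ) * Q := fun i =>
    abs_sum_mul_le n (fun j => b j i) hN (by positivity) (hQ i)
  have hfb : ∀ m ∈ S, ∀ i, |f m i| ≤ (X : ℤ) * Q := by
    intro m hm i
    rw [hS, Fintype.mem_piFinset] at hm
    refine abs_sum_mul_le (fun j => (m j : ℤ)) (fun j => b j i) (fun j => ?_) (by positivity) (hQ i)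
    have := Finset.mem_range.1 (hm j)
    rw [abs_of_nonneg (by positivity)]
    omega
  have hmaps : Set.MapsTo g (S : Set (Fin r → ℕ)) (Y : Set (Fin d → ℤ)) := by
    intro m hm
    rw [Finset.mem_coe] at hm
    rw [Finset.mem_coe, hY, Fintype.mem_piFinset]
    intro i
    by_cases hi : i = i₀
    · rw [if_pos hi, Finset.mem_Icc, ← abs_le, hi]
      have h1 : g m i₀ = f m i₀ % k i₀ := by
        simp only [hg, ht]
        have := Int.emod_add_mul_ediv (f m i₀) (k i₀)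
        linarith
      rw [h1, abs_of_nonneg (Int.emod_nonneg _ hk)]
      have h2 := Int.emod_lt_abs (f m i₀) hk
      have h3 := hkb i₀
      push_cast
      linarith
    · rw [if_neg hi, Finset.mem_Icc, ← abs_le]
      have h1 : |t m| ≤ (X : ℤ) * Q := by
        refine le_trans ?_ (hfb m hm i₀)
        rw [Int.abs_eq_natAbs, Int.abs_eq_natAbs]
        exact_mod_cast Int.natAbs_ediv_le_natAbs _ _
      have h2 : |t m * k i| ≤ (X : ℤ) * Q * (N * Q) := by
        rw [abs_mul]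
        exact mul_le_mul h1 (hkb i) (abs_nonneg _) (by positivity)
      simp only [hg]
      refine (abs_sub _ _).trans ?_
      have h3 := hfb m hm i
      rw [hG]
      push_cast
      linarith
  set P : Finset ((Fin r → ℕ) × (Fin r → ℕ)) := (S ×ˢ S).filter (fun p => g p.1 = g p.2) with hP
  have hCS : (S.card) ^ 2 ≤ Y.card * P.card := by
    have h2 := Finset.card_eq_sum_card_fiberwise hmaps
    have h3 : Set.MapsTo (fun p : (Fin r → ℕ) × (Fin r → ℕ) => g p.1)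
        (P : Set ((Fin r → ℕ) × (Fin r → ℕ))) (Y : Set (Fin d → ℤ)) := by
      intro p hp
      rw [Finset.mem_coe, hP, Finset.mem_filter, Finset.mem_product] at hp
      exact hmaps hp.1.1
    have h4 := Finset.card_eq_sum_card_fiberwise h3
    have h5 : ∀ y ∈ Y, (P.filter (fun p => g p.1 = y)).card = (S.filter (fun m => g m = y)).card ^ 2 := by
      intro y _
      have h6 : P.filter (fun p => g p.1 = y) =
          (S.filter (fun m => g m = y)) ×ˢ (S.filter (fun m => g m = y)) := by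
        ext p
        simp only [hP, Finset.mem_filter, Finset.mem_product]
        constructor
        · rintro ⟨⟨⟨ha, hb⟩, hc⟩, hd⟩
          exact ⟨⟨ha, hd⟩, hb, by rw [← hc]; exact hd⟩
        · rintro ⟨⟨ha, hb⟩, hc, hd⟩
          exact ⟨⟨⟨ha, hc⟩, by rw [hb, hd]⟩, hb⟩
      rw [h6, Finset.card_product, sq]
    rw [h4, Finset.sum_congr rfl h5, h2]
    have h6 := sq_sum_le_card_mul_sum_sq (s := Y) (f := fun y => (S.filter (fun m => g m = y)).card)
    exact_mod_cast h6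
  refine ⟨P, ?_, ?_⟩
  · calc (X + 1) ^ (2 * r) = S.card ^ 2 := by rw [hScard, ← pow_mul, mul_comm r 2]
      _ ≤ Y.card * P.card := hCS
      _ ≤ _ := by
          rw [hYcard]
          have h1 : 1 ≤ N * Q := Nat.one_le_iff_ne_zero.2 (by positivity)
          have h2 : 1 ≤ X * Q := Nat.one_le_iff_ne_zero.2 (by positivity)
          have h3 : 2 * (N * Q) + 1 ≤ 3 * Q * N := by nlinarith
          have h4 : 2 * G + 1 ≤ 5 * Q ^ 2 * N * X := by
            rw [hG]
            have h5 : X * Q ≤ X * Q * (N * Q) := Nat.le_mul_of_pos_right _ (by positivity)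
            have h6 : 1 ≤ X * Q * (N * Q) := by omega
            calc 2 * (X * Q + X * Q * (N * Q)) + 1 ≤ 5 * (X * Q * (N * Q)) := by omega
              _ = _ := by ring
          gcongr
  · intro p hp
    rw [hP, Finset.mem_filter, Finset.mem_product] at hp
    obtain ⟨⟨h1, h2⟩, h3⟩ := hp
    have h1' := h1
    have h2' := h2
    rw [hS, Fintype.mem_piFinset] at h1' h2'
    have h4 : ∀ i, f p.1 i - f p.2 i = (t p.1 - t p.2) * k i := by
      intro i
      have := congrFun h3 i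
      simp only [hg] at this
      linarith
    refine ⟨fun j => ?_, fun j => ?_, t p.1 - t p.2, ?_, fun i => ?_⟩
    · have := Finset.mem_range.1 (h1' j)
      omega
    · have := Finset.mem_range.1 (h2' j)
      omega
    · have h5 := h4 i₀
      have h6 := hfb _ h1 i₀
      have h7 := hfb _ h2 i₀
      have h8 : |f p.1 i₀ - f p.2 i₀| ≤ 2 * (X * Q) := (abs_sub _ _).trans (by linarith)
      rw [h5, abs_mul] at h8
      have h9 : 1 ≤ |k i₀| := Int.one_le_abs hk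
      have h10 := abs_nonneg (t p.1 - t p.2)
      nlinarith
    · rw [← h4 i]
      simp only [hf]
      rw [← Finset.sum_sub_distrib]
      exact Finset.sum_congr rfl fun j _ => by ring

/-- the inequality for the parameters -/
lemma num_aux {r d : ℕ} {X N R C K E ε card : ℝ} (hX : 1 ≤ X) (hN : 1 ≤ N) (hC : 0 < C)
    (hK : 0 < K) (hE : 0 < E) (hd : 1 ≤ d) (hε : 0 < ε) (hε1 : ((d : ℝ) + 1) * ε = 1 / 2)
    (hR1 : X ^ d ≤ R) (hR2 : R ≤ 2 * X ^ d)
    (h1 : X ^ (2 * r) ≤ K * N ^ d * X ^ (d - 1) * card)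
    (h2 : R / 8 * (card * E) ≤ C * (X ^ (2 * (r : ℝ)) + R ^ (1 + ε) * X ^ (2 * ((r : ℝ) - d / 2) + ε))) :
    X ≤ (32 * E⁻¹ * K * C) ^ 2 * N ^ (2 * d) := by
  have hX0 : 0 < X := by linarith
  have hN0 : 0 < N := by linarith
  have hXd : 1 ≤ X ^ d := one_le_pow₀ hX
  have hR0 : 1 ≤ R := hXd.trans hR1
  have hRp : 0 < R := by linarith
  have hd' : (1 : ℝ) ≤ d := by exact_mod_cast hd
  have ey : X ^ (2 * r) = X ^ (2 * (r : ℝ)) := by
    rw [← Real.rpow_natCast]
    push_cast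
    rfl
  set y : ℝ := X ^ (2 * (r : ℝ)) with hy
  have hy0 : 0 < y := by positivity
  rw [ey] at h1
  set Z : ℝ := R ^ (1 + ε) * X ^ (2 * ((r : ℝ) - d / 2) + ε) with hZ
  have hZ0 : 0 < Z := by positivity
  have ha : y ≤ Z := by
    have e1 : y = X ^ d * X ^ (2 * ((r : ℝ) - d / 2)) := by
      rw [hy, ← Real.rpow_natCast, ← Real.rpow_add hX0]
      congr 1
      ring
    have e2 : R ≤ R ^ (1 + ε) := by
      calc R = R ^ (1 : ℝ) := (Real.rpow_one R).symm
        _ ≤ _ := Real.rpow_le_rpow_of_exponent_le hR0 (by linarith)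
    have e3 : X ^ (2 * ((r : ℝ) - d / 2)) ≤ X ^ (2 * ((r : ℝ) - d / 2) + ε) :=
      Real.rpow_le_rpow_of_exponent_le hX (by linarith)
    rw [e1, hZ]
    exact mul_le_mul (hR1.trans e2) e3 (by positivity) (by positivity)
  have hb : X ^ (d - 1) * Z ≤ 2 * R * y * X ^ (-(1 / 2) : ℝ) := by
    have e1 : R ^ (1 + ε) = R * R ^ ε := by rw [Real.rpow_add hRp, Real.rpow_one]
    have e2 : R ^ ε ≤ 2 * X ^ ((d : ℝ) * ε) := by
      calc R ^ ε ≤ (2 * X ^ d) ^ ε := Real.rpow_le_rpow hRp.le hR2 hε.le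
        _ = 2 ^ ε * X ^ ((d : ℝ) * ε) := by
            rw [Real.mul_rpow (by norm_num) (by positivity), ← Real.rpow_natCast,
              ← Real.rpow_mul hX0.le]
        _ ≤ 2 ^ (1 : ℝ) * X ^ ((d : ℝ) * ε) := by
            have : (2 : ℝ) ^ ε ≤ 2 ^ (1 : ℝ) :=
              Real.rpow_le_rpow_of_exponent_le (by norm_num) (by nlinarith)
            gcongr
        _ = _ := by rw [Real.rpow_one]
    have e3 : X ^ (d - 1) * X ^ (2 * ((r : ℝ) - d / 2) + ε) * X ^ ((d : ℝ) * ε) =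
        y * X ^ (-(1 / 2) : ℝ) := by
      rw [hy, ← Real.rpow_natCast, ← Real.rpow_add hX0, ← Real.rpow_add hX0, ← Real.rpow_add hX0,
        Nat.cast_sub hd]
      congr 1
      push_cast
      linarith
    calc X ^ (d - 1) * Z = X ^ (d - 1) * (R * R ^ ε * X ^ (2 * ((r : ℝ) - d / 2) + ε)) := by
          rw [hZ, e1]
      _ ≤ X ^ (d - 1) * (R * (2 * X ^ ((d : ℝ) * ε)) * X ^ (2 * ((r : ℝ) - d / 2) + ε)) := by
          gcongr
      _ = 2 * R * (X ^ (d - 1) * X ^ (2 * ((r : ℝ) - d / 2) + ε) * X ^ ((d : ℝ) * ε)) := by ring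
      _ = _ := by rw [e3]; ring
  have hfin : (R * y) * (E / 8) ≤ (R * y) * (4 * K * C * N ^ d * X ^ (-(1 / 2) : ℝ)) := by
    calc (R * y) * (E / 8) = R / 8 * E * y := by ring
      _ ≤ R / 8 * E * (K * N ^ d * X ^ (d - 1) * card) := by gcongr
      _ = K * N ^ d * X ^ (d - 1) * (R / 8 * (card * E)) := by ring
      _ ≤ K * N ^ d * X ^ (d - 1) * (C * (y + Z)) := by gcongr
      _ ≤ K * N ^ d * X ^ (d - 1) * (C * (Z + Z)) := by gcongr
      _ = 2 * K * N ^ d * C * (X ^ (d - 1) * Z) := by ring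
      _ ≤ 2 * K * N ^ d * C * (2 * R * y * X ^ (-(1 / 2) : ℝ)) := by gcongr
      _ = _ := by ring
  have h3 := le_of_mul_le_mul_left hfin (by positivity)
  have h4 : X ^ (1 / 2 : ℝ) ≤ 32 * E⁻¹ * K * C * N ^ d := by
    have e1 : X ^ (-(1 / 2) : ℝ) * X ^ (1 / 2 : ℝ) = 1 := by
      rw [← Real.rpow_add hX0]
      norm_num
    have h5 : 0 < X ^ (1 / 2 : ℝ) := by positivity
    calc X ^ (1 / 2 : ℝ) = 8 * E⁻¹ * ((E / 8) * X ^ (1 / 2 : ℝ)) := by field_simp
      _ ≤ 8 * E⁻¹ * ((4 * K * C * N ^ d * X ^ (-(1 / 2) : ℝ)) * X ^ (1 / 2 : ℝ)) := by gcongr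
      _ = 32 * E⁻¹ * K * C * N ^ d * (X ^ (-(1 / 2) : ℝ) * X ^ (1 / 2 : ℝ)) := by ring
      _ = _ := by rw [e1, mul_one]
  calc X = (X ^ (1 / 2 : ℝ)) ^ 2 := by
        rw [← Real.rpow_natCast, ← Real.rpow_mul hX0.le]
        norm_num
    _ ≤ (32 * E⁻¹ * K * C * N ^ d) ^ 2 := by
        apply pow_le_pow_left₀ (by positivity) h4
    _ = _ := by rw [mul_pow, ← pow_mul, mul_comm d 2]

end Pool.Agent.H312.Eq
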