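import Pool.Agent.H312.Eq.Edge

set_option autoImplicit false

/-!
# Long intervals and short intervals for functions with nonnegative coefficients
-/

namespace Pool.Agent.H312.Eq

open Finset Filter Topology MeasureTheory Complex Set
open Pool.Agent.H131R5.BZ Pool.Agent.Y930.Bz Pool.Agent.Y616.BM Pool.Agent.H312.Barnes
open Pool.Agent.H312.Sh Pool.Agent.H312.Ex Pool.Agent.H312.Lb

variable {r : ℕ} {w : Fin r → ℝ}

/-- the weighted integral with a shift -/
lemma fej_shift (hw : ∀ j, 0 < w j) {x R : ℝ} (hx : 0 < x) (hR : 0 < R) (t : ℝ) :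
    HasSum (fun p : (Fin r → ℕ) × (Fin r → ℕ) => (2 * (ew w x p * Real.cos (2 * Real.pi * df w p * t))) *
        ∫ ρ in (0 : ℝ)..R, (1 - ρ / R) * Real.cos (2 * Real.pi * df w p * ρ))
      (∫ ρ in (0 : ℝ)..R, (1 - ρ / R) *
        (‖KK 0 w ((x : ℂ) + ((2 * Real.pi * (t + ρ) : ℝ) : ℂ) * I)‖ ^ 2 +
          ‖KK 0 w ((x : ℂ) + ((2 * Real.pi * (t - ρ) : ℝ) : ℂ) * I)‖ ^ 2)) := by
  set g : (Fin r → ℕ) × (Fin r → ℕ) → ℝ → ℝ := fun p ρ =>
    (2 * (ew w x p * Real.cos (2 * Real.pi * df w p * t))) *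
      ((1 - ρ / R) * Real.cos (2 * Real.pi * df w p * ρ)) with hg
  have hgc : ∀ p, Continuous (g p) := fun p => by
    simp only [hg]
    fun_prop
  have hsum := (ew_hasSum hw hx).summable
  have hT : HasSum (fun p => ∫ ρ in Ioc 0 R, g p ρ) (∫ ρ in Ioc 0 R, ∑' p, g p ρ) := by
    refine hasSum_integral_of_summable_integral_norm (fun p => ?_) ?_
    · exact ((hgc p).intervalIntegrable 0 R).1
    · refine Summable.of_nonneg_of_le (fun p => integral_nonneg fun _ => norm_nonneg _) (fun p => ?_)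
        (hsum.mul_left (2 * R))
      calc ∫ ρ in Ioc 0 R, ‖g p ρ‖ ≤ ∫ _ρ in Ioc 0 R, 2 * ew w x p := by
            refine setIntegral_mono_on ((hgc p).norm.intervalIntegrable 0 R).1
              (continuous_const.intervalIntegrable 0 R).1
              measurableSet_Ioc fun ρ hρ => ?_
            simp only [hg]
            rw [norm_mul, norm_mul, norm_mul, norm_mul, Real.norm_of_nonneg (ew_pos w x p).le,
              Real.norm_eq_abs, Real.norm_eq_abs, Real.norm_eq_abs, Real.norm_eq_abs]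
            have h1 : |1 - ρ / R| ≤ 1 := by
              have h2 : ρ / R ≤ 1 := (div_le_one hR).2 hρ.2
              have h3 : 0 < ρ / R := div_pos hρ.1 hR
              rw [abs_le]
              constructor <;> linarith
            have h2 := Real.abs_cos_le_one (2 * Real.pi * df w p * ρ)
            have h2' := Real.abs_cos_le_one (2 * Real.pi * df w p * t)
            have h3 : |1 - ρ / R| * |Real.cos (2 * Real.pi * df w p * ρ)| ≤ 1 * 1 :=
              mul_le_mul h1 h2 (abs_nonneg _) zero_le_one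
            have h4 := (ew_pos w x p).le
            have h5 : |(2 : ℝ)| = 2 := abs_of_pos two_pos
            rw [h5]
            calc 2 * (ew w x p * |Real.cos (2 * Real.pi * df w p * t)|) *
                  (|1 - ρ / R| * |Real.cos (2 * Real.pi * df w p * ρ)|) ≤
                2 * (ew w x p * 1) * (1 * 1) := by gcongr
              _ = _ := by ring
        _ = _ := by
            rw [setIntegral_const, measureReal_def, Real.volume_Ioc,
              ENNReal.toReal_ofReal (by linarith), smul_eq_mul, sub_zero]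
            ring
  have hval : ∀ p, ∫ ρ in Ioc 0 R, g p ρ =
      (2 * (ew w x p * Real.cos (2 * Real.pi * df w p * t))) *
      ∫ ρ in (0 : ℝ)..R, (1 - ρ / R) * Real.cos (2 * Real.pi * df w p * ρ) := by
    intro p
    rw [← intervalIntegral.integral_of_le hR.le, ← intervalIntegral.integral_const_mul]
  simp only [hval] at hT
  have h2 : ∀ ρ, ∑' p, g p ρ = (1 - ρ / R) *
        (‖KK 0 w ((x : ℂ) + ((2 * Real.pi * (t + ρ) : ℝ) : ℂ) * I)‖ ^ 2 +
          ‖KK 0 w ((x : ℂ) + ((2 * Real.pi * (t - ρ) : ℝ) : ℂ) * I)‖ ^ 2) := by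
    intro ρ
    have h3 := ((KK_sq_re hw hx (t + ρ)).add (KK_sq_re hw hx (t - ρ))).mul_left (1 - ρ / R)
    rw [← h3.tsum_eq]
    refine tsum_congr fun p => ?_
    simp only [hg]
    have h4 : Real.cos (2 * Real.pi * df w p * (t + ρ)) + Real.cos (2 * Real.pi * df w p * (t - ρ)) =
        2 * Real.cos (2 * Real.pi * df w p * t) * Real.cos (2 * Real.pi * df w p * ρ) := by
      rw [mul_add, mul_sub, Real.cos_add, Real.cos_sub]
      ring
    calc _ = (1 - ρ / R) * (ew w x p * (2 * Real.cos (2 * Real.pi * df w p * t) *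
          Real.cos (2 * Real.pi * df w p * ρ))) := by ring
      _ = _ := by rw [← h4]; ring
  simp only [h2] at hT
  rw [← intervalIntegral.integral_of_le hR.le] at hT
  exact hT

/-- a short interval anywhere is dominated by the interval at zero -/
theorem win (hw : ∀ j, 0 < w j) {x L : ℝ} (hx : 0 < x) (hL : 0 < L) (t : ℝ) :
    ∫ ρ in t..(t + L), ‖KK 0 w ((x : ℂ) + ((2 * Real.pi * ρ : ℝ) : ℂ) * I)‖ ^ 2 ≤
      4 * ∫ ρ in (0 : ℝ)..(2 * L), ‖KK 0 w ((x : ℂ) + ((2 * Real.pi * ρ : ℝ) : ℂ) * I)‖ ^ 2 := by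
  set f : ℝ → ℝ := fun ρ => ‖KK 0 w ((x : ℂ) + ((2 * Real.pi * ρ : ℝ) : ℂ) * I)‖ ^ 2 with hf
  have hfc : Continuous f := (KK0_cont hw hx).norm.pow 2
  have hf0 : ∀ ρ, 0 ≤ f ρ := fun ρ => by simp only [hf]; positivity
  set R : ℝ := 2 * L with hRdef
  have hR : 0 < R := by positivity
  have h1 := fej_shift hw hx hR t
  have h2 := fej_shift hw hx hR 0
  have hle : ∫ ρ in (0 : ℝ)..R, (1 - ρ / R) * (f (t + ρ) + f (t - ρ)) ≤
      ∫ ρ in (0 : ℝ)..R, (1 - ρ / R) * (f (0 + ρ) + f (0 - ρ)) := by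
    refine hasSum_le (fun p => ?_) h1 h2
    have h3 := fej_nonneg (df w p) hR
    have h4 := Real.cos_le_one (2 * Real.pi * df w p * t)
    have h5 := (ew_pos w x p).le
    rw [mul_zero, Real.cos_zero]
    gcongr
  have heven : ∀ ρ, f (0 - ρ) = f ρ := by
    intro ρ
    have h3 := KK_sq_re hw hx (0 - ρ)
    have h4 := KK_sq_re hw hx ρ
    refine h3.unique (h4.congr_fun fun p => ?_)
    rw [zero_sub, mul_neg, Real.cos_neg]
  have hc1 : Continuous fun ρ : ℝ => 1 - ρ / R := by fun_prop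
  have hc2 : Continuous fun ρ : ℝ => (1 - ρ / R) * (f (t + ρ) + f (t - ρ)) :=
    hc1.mul ((hfc.comp (by fun_prop)).add (hfc.comp (by fun_prop)))
  have hc3 : Continuous fun ρ : ℝ => (1 - ρ / R) * (f (0 + ρ) + f (0 - ρ)) :=
    hc1.mul ((hfc.comp (by fun_prop)).add (hfc.comp (by fun_prop)))
  have hup : ∫ ρ in (0 : ℝ)..R, (1 - ρ / R) * (f (0 + ρ) + f (0 - ρ)) ≤
      ∫ ρ in (0 : ℝ)..R, 2 * f ρ := by
    refine intervalIntegral.integral_mono_on hR.le (hc3.intervalIntegrable _ _)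
      ((continuous_const.mul hfc).intervalIntegrable _ _) fun ρ hρ => ?_
    rw [heven, zero_add]
    have h3 : 0 ≤ ρ / R := div_nonneg hρ.1 hR.le
    have h4 := hf0 ρ
    nlinarith
  have hlow : ∫ ρ in (0 : ℝ)..L, (1 / 2) * f (t + ρ) ≤
      ∫ ρ in (0 : ℝ)..R, (1 - ρ / R) * (f (t + ρ) + f (t - ρ)) := by
    have h3 : ∫ ρ in (0 : ℝ)..L, (1 / 2) * f (t + ρ) ≤
        ∫ ρ in (0 : ℝ)..L, (1 - ρ / R) * (f (t + ρ) + f (t - ρ)) := by
      refine intervalIntegral.integral_mono_on hL.le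
        ((continuous_const.mul (hfc.comp (by fun_prop))).intervalIntegrable _ _)
        (hc2.intervalIntegrable _ _) fun ρ hρ => ?_
      have h4 : ρ / R ≤ 1 / 2 := by
        rw [hRdef, div_le_div_iff₀ (by positivity) (by norm_num)]
        linarith [hρ.2]
      have h5 := hf0 (t + ρ)
      have h6 := hf0 (t - ρ)
      nlinarith
    refine h3.trans ?_
    rw [← intervalIntegral.integral_add_adjacent_intervals (b := L) (c := R)
      (hc2.intervalIntegrable _ _) (hc2.intervalIntegrable _ _)]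
    refine le_add_of_nonneg_right (intervalIntegral.integral_nonneg (by linarith) fun ρ hρ => ?_)
    have h4 : ρ / R ≤ 1 := (div_le_one hR).2 hρ.2
    have h5 := hf0 (t + ρ)
    have h6 := hf0 (t - ρ)
    exact mul_nonneg (by linarith) (by linarith)
  have e1 : ∫ ρ in (0 : ℝ)..L, (1 / 2) * f (t + ρ) = (1 / 2) * ∫ ρ in t..(t + L), f ρ := by
    rw [intervalIntegral.integral_const_mul, intervalIntegral.integral_comp_add_left f t, add_zero]
  have e2 : ∫ ρ in (0 : ℝ)..R, 2 * f ρ = 2 * ∫ ρ in (0 : ℝ)..R, f ρ :=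
    intervalIntegral.integral_const_mul _ _
  rw [e1] at hlow
  rw [e2] at hup
  linarith

/-- many short intervals -/
theorem wins (hw : ∀ j, 0 < w j) {x L : ℝ} (hx : 0 < x) (hL : 0 < L) (t : ℝ) (n : ℕ) :
    ∫ ρ in t..(t + n * L), ‖KK 0 w ((x : ℂ) + ((2 * Real.pi * ρ : ℝ) : ℂ) * I)‖ ^ 2 ≤
      n * (4 * ∫ ρ in (0 : ℝ)..(2 * L), ‖KK 0 w ((x : ℂ) + ((2 * Real.pi * ρ : ℝ) : ℂ) * I)‖ ^ 2) := by
  have hfc : Continuous fun ρ : ℝ => ‖KK 0 w ((x : ℂ) + ((2 * Real.pi * ρ : ℝ) : ℂ) * I)‖ ^ 2 :=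
    (KK0_cont hw hx).norm.pow 2
  induction n with
  | zero => simp
  | succ n ih =>
    have e1 : t + ((n + 1 : ℕ) : ℝ) * L = (t + n * L) + L := by push_cast; ring
    rw [e1, ← intervalIntegral.integral_add_adjacent_intervals (b := t + n * L)
      (hfc.intervalIntegrable _ _) (hfc.intervalIntegrable _ _)]
    refine (add_le_add ih (win hw hx hL (t + n * L))).trans (le_of_eq ?_)
    push_cast
    ring

/-- the integral over `[R, 2R]` -/
theorem long (hw : ∀ j, 0 < w j) {σ' : ℝ} (hσ' : 1 / 2 ≤ σ')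
    (hH : ∀ ε > 0, ∃ C : ℝ, 0 ≤ C ∧ ∀ T : ℝ, 2 ≤ T →
      FT w σ' T ≤ ENNReal.ofReal (C * T ^ (2 * σ' + ε))) {ε : ℝ} (hε : 0 < ε) (hε1 : ε ≤ 1) :
    ∃ C : ℝ, 0 < C ∧ ∀ x R : ℝ, 0 < x → x ≤ 1 → (x⁻¹) ^ (2 * (r : ℝ)) ≤ R →
      ∫ ρ in R..(2 * R), ‖KK 0 w ((x : ℂ) + ((2 * Real.pi * ρ : ℝ) : ℂ) * I)‖ ^ 2 ≤
        C * (R * (x⁻¹) ^ (2 * σ' + (2 * r + 1) * ε)) := by
  obtain ⟨C, hC, h1⟩ := int_up hw hσ' hH hε
  refine ⟨64 * C, by positivity, fun x R hx hx1 hR => ?_⟩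
  set y : ℝ := x⁻¹ with hy
  have hy0 : 0 < y := by positivity
  have hy1 : 1 ≤ y := (one_le_inv₀ hx).2 hx1
  set f : ℝ → ℝ := fun ρ => ‖KK 0 w ((x : ℂ) + ((2 * Real.pi * ρ : ℝ) : ℂ) * I)‖ ^ 2 with hf
  have hfc : Continuous f := (KK0_cont hw hx).norm.pow 2
  have hf0 : ∀ ρ, 0 ≤ f ρ := fun ρ => by simp only [hf]; positivity
  have hyr : 1 ≤ y ^ (2 * (r : ℝ)) := Real.one_le_rpow hy1 (by positivity)
  obtain ⟨M, hM1, hM2⟩ := exists_nat_pow_near (x := y ^ (2 * (r : ℝ))) (y := 2) hyr (by norm_num)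
  set L : ℝ := 2 ^ M with hL
  have hL0 : 0 < L := by positivity
  have hR0 : 0 < R := by linarith
  have hLR : L ≤ R := hM1.trans hR
  have e1 : (2 : ℝ) ^ (M + 1) = 2 * L := by rw [pow_succ, hL]; ring
  have hint := h1 x (M + 1) hx hx1
  rw [e1] at hint
  have hpow : ∀ u : ℝ, x ^ (-u) = y ^ u := by
    intro u
    rw [hy, Real.inv_rpow hx.le, Real.rpow_neg hx.le]
  rw [hpow, hpow] at hint
  rw [e1] at hM2
  have hshort : ∫ ρ in (0 : ℝ)..(2 * L), f ρ ≤ 8 * C * (L * y ^ (2 * σ' + (2 * r + 1) * ε)) := by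
    refine hint.trans ?_
    have h2 : y ^ (2 * (r : ℝ)) ≤ 2 * L := hM2.le
    have h3 : (2 * L) ^ (1 + ε) = 2 * L * (2 * L) ^ ε := by
      rw [Real.rpow_add (by positivity), Real.rpow_one]
    have h4 : (2 * L) ^ ε ≤ 2 * y ^ (2 * (r : ℝ) * ε) := by
      calc (2 * L) ^ ε ≤ (2 * y ^ (2 * (r : ℝ))) ^ ε :=
            Real.rpow_le_rpow (by positivity) (by linarith) hε.le
        _ = 2 ^ ε * y ^ (2 * (r : ℝ) * ε) := by
            rw [Real.mul_rpow (by norm_num) (by positivity), ← Real.rpow_mul hy0.le]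
        _ ≤ 2 ^ (1 : ℝ) * y ^ (2 * (r : ℝ) * ε) := by
            have : (2 : ℝ) ^ ε ≤ 2 ^ (1 : ℝ) :=
              Real.rpow_le_rpow_of_exponent_le (by norm_num) hε1
            gcongr
        _ = _ := by rw [Real.rpow_one]
    have h5 : y ^ (2 * (r : ℝ) * ε) * y ^ (2 * σ' + ε) = y ^ (2 * σ' + (2 * r + 1) * ε) := by
      rw [← Real.rpow_add hy0]
      congr 1
      ring
    have h6 : 1 ≤ y ^ (2 * σ' + (2 * r + 1) * ε) := Real.one_le_rpow hy1 (by positivity)
    have h7 : 0 < y ^ (2 * σ' + ε) := by positivity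
    calc C * (y ^ (2 * (r : ℝ)) + (2 * L) ^ (1 + ε) * y ^ (2 * σ' + ε)) ≤
        C * (2 * L * y ^ (2 * σ' + (2 * r + 1) * ε) +
          (2 * L * (2 * y ^ (2 * (r : ℝ) * ε))) * y ^ (2 * σ' + ε)) := by
          rw [h3]
          have h8 : y ^ (2 * (r : ℝ)) ≤ 2 * L * y ^ (2 * σ' + (2 * r + 1) * ε) :=
            h2.trans (le_mul_of_one_le_right (by positivity) h6)
          gcongr
      _ = C * (2 * L * y ^ (2 * σ' + (2 * r + 1) * ε) +
          4 * L * (y ^ (2 * (r : ℝ) * ε) * y ^ (2 * σ' + ε))) := by ring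
      _ = 6 * C * (L * y ^ (2 * σ' + (2 * r + 1) * ε)) := by rw [h5]; ring
      _ ≤ _ := by
          have : 0 < L * y ^ (2 * σ' + (2 * r + 1) * ε) := by positivity
          nlinarith [mul_pos hC this]
  set n : ℕ := ⌈R / L⌉₊ with hn
  have hn1 : R / L ≤ n := Nat.le_ceil _
  have hn2 : (n : ℝ) ≤ 2 * (R / L) := by
    have h2 : (n : ℝ) < R / L + 1 := Nat.ceil_lt_add_one (by positivity)
    have h3 : 1 ≤ R / L := (one_le_div hL0).2 hLR
    linarith
  have hnL : R ≤ n * L := by rwa [div_le_iff₀ hL0] at hn1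
  calc ∫ ρ in R..(2 * R), f ρ ≤ ∫ ρ in R..(R + n * L), f ρ := by
        refine intervalIntegral.integral_mono_interval le_rfl (by linarith) (by linarith)
          (ae_of_all _ fun ρ => hf0 ρ) (hfc.intervalIntegrable _ _)
    _ ≤ n * (4 * ∫ ρ in (0 : ℝ)..(2 * L), f ρ) := wins hw hx hL0 R n
    _ ≤ (2 * (R / L)) * (4 * (8 * C * (L * y ^ (2 * σ' + (2 * r + 1) * ε)))) := by
        have h2 : 0 ≤ ∫ ρ in (0 : ℝ)..(2 * L), f ρ :=
          intervalIntegral.integral_nonneg (by positivity) fun ρ _ => hf0 ρ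
        exact mul_le_mul hn2 (by linarith) (by positivity) (by positivity)
    _ = _ := by
        field_simp
        ring

end Pool.Agent.H312.Eq
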