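import Pool.Agent.H312.Eq.Six
import Pool.Agent.H312.Lb.Ae

set_option autoImplicit false

/-!
# The resonance integral for Diophantine weights
-/

namespace Pool.Agent.H312.Eq

open Finset Filter Topology MeasureTheory Complex Set Asymptotics
open Pool.Agent.H131R5.BZ Pool.Agent.Y930.Bz Pool.Agent.Y616.BM Pool.Agent.H312.Barnes
open Pool.Agent.H312.Sh Pool.Agent.H312.Ex Pool.Agent.H312.Lb

variable {r : ℕ} {w : Fin r → ℝ}

lemma dyad (f : ℝ → ENNReal) {T : ℝ} (hT : 0 < T) (M : ℕ) :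
    ∫⁻ ρ in Ioc (T / 2 ^ M) T, f ρ =
      ∑ m ∈ Finset.range M, ∫⁻ ρ in Ioc (T / 2 ^ (m + 1)) (2 * (T / 2 ^ (m + 1))), f ρ := by
  induction M with
  | zero => simp
  | succ M ih =>
    rw [Finset.sum_range_succ, ← ih]
    have e1 : 2 * (T / 2 ^ (M + 1)) = T / 2 ^ M := by
      rw [pow_succ]; field_simp
    rw [e1]
    have h1 : T / 2 ^ (M + 1) ≤ T / 2 ^ M := by
      apply div_le_div_of_nonneg_left hT.le (by positivity)
      exact pow_le_pow_right₀ (by norm_num) (Nat.le_succ M)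
    have h2 : T / 2 ^ M ≤ T := div_le_self hT.le (one_le_pow₀ (by norm_num))
    rw [← Set.Ioc_union_Ioc_eq_Ioc h1 h2, lintegral_union measurableSet_Ioc, add_comm]
    rw [Set.disjoint_left]
    intro x hx hx'
    exact absurd hx.2 (not_le.2 hx'.1)

/-- the number of good scales -/
lemma scales {κ K : ℝ} (hκ : 0 < κ) (hK : 1 ≤ K) : ∃ c T₀ : ℝ, 0 < c ∧ 2 ≤ T₀ ∧ ∀ T : ℝ, T₀ ≤ T →
    ∃ M : ℕ, c * Real.log T ≤ M ∧ T ^ c ≤ 2 ^ M ∧ ∀ m < M,
      K * (2 ^ (m + 1)) ^ κ ≤ T / 2 ^ (m + 1) := by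
  have hl2 : 0 < Real.log 2 := Real.log_pos (by norm_num)
  have hl2' : Real.log 2 < 1 := by
    have := Real.log_two_lt_d9
    linarith
  set b : ℝ := (κ + 1) * Real.log 2 with hb
  have hb0 : 0 < b := by positivity
  set c : ℝ := Real.log 2 / (4 * b) with hc
  have hc0 : 0 < c := by positivity
  refine ⟨c, max 2 (Real.exp (2 * Real.log K + 4 * b)), hc0, le_max_left _ _, fun T hT => ?_⟩
  have hT2 : 2 ≤ T := (le_max_left _ _).trans hT
  have hT0 : 0 < T := by linarith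
  have hK0 : 0 < K := by linarith
  have hlT : 2 * Real.log K + 4 * b ≤ Real.log T := by
    rw [Real.le_log_iff_exp_le hT0]
    exact (le_max_right _ _).trans hT
  have hlK : 0 ≤ Real.log K := Real.log_nonneg hK
  have hlT0 : 0 ≤ Real.log T := by nlinarith
  set y : ℝ := (Real.log T - Real.log K) / b with hy
  have hy0 : 0 ≤ y := div_nonneg (by nlinarith) hb0.le
  set M : ℕ := ⌊y⌋₊ with hM
  have hM1 : (M : ℝ) ≤ y := Nat.floor_le hy0
  have hM2 : y < M + 1 := Nat.lt_floor_add_one y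
  have hMb : (M : ℝ) * b ≤ Real.log T - Real.log K := by
    rw [hy, le_div_iff₀ hb0] at hM1
    exact hM1
  have hMlow : Real.log T / (4 * b) ≤ M := by
    have h1 : Real.log T / (2 * b) ≤ y := by
      rw [hy, div_le_div_iff₀ (by positivity) hb0]
      nlinarith
    have h2 : 1 ≤ Real.log T / (4 * b) := by
      rw [le_div_iff₀ (by positivity)]
      linarith
    have h3 : Real.log T / (2 * b) = 2 * (Real.log T / (4 * b)) := by
      field_simp
      ring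
    linarith
  have hcl : c * Real.log T = Real.log 2 * (Real.log T / (4 * b)) := by
    rw [hc]; ring
  have hlb : 0 ≤ Real.log T / (4 * b) := by positivity
  refine ⟨M, ?_, ?_, fun m hm => ?_⟩
  · rw [hcl]
    nlinarith
  · have e1 : T ^ c = Real.exp (c * Real.log T) := by
      rw [Real.rpow_def_of_pos hT0, mul_comm]
    have e2 : (2 : ℝ) ^ M = Real.exp (M * Real.log 2) := by
      rw [Real.exp_nat_mul, Real.exp_log (by norm_num)]
    rw [e1, e2]
    apply Real.exp_le_exp.2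
    rw [hcl]
    nlinarith
  · have hm' : ((m + 1 : ℕ) : ℝ) ≤ M := by exact_mod_cast hm
    rw [le_div_iff₀ (by positivity)]
    have e1 : (2 : ℝ) ^ (m + 1) = Real.exp (((m + 1 : ℕ) : ℝ) * Real.log 2) := by
      rw [Real.exp_nat_mul, Real.exp_log (by norm_num)]
    rw [e1, ← Real.exp_mul]
    calc K * Real.exp (((m + 1 : ℕ) : ℝ) * Real.log 2 * κ) *
          Real.exp (((m + 1 : ℕ) : ℝ) * Real.log 2) =
        Real.exp (Real.log K + ((m + 1 : ℕ) : ℝ) * b) := by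
          rw [Real.exp_add, Real.exp_log hK0, mul_assoc, ← Real.exp_add]
          congr 2
          rw [hb]
          ring
      _ ≤ Real.exp (Real.log T) := by
          apply Real.exp_le_exp.2
          nlinarith
      _ = T := Real.exp_log hT0

/-- the lower bound with the logarithm, on the critical line -/
theorem FT_low_log (hw : ∀ j, 0 < w j) {c τ : ℝ} (hc : 0 < c) (hτ : 0 < τ) (h : LinDio w c τ)
    {p : ℕ} {c₁ C₁ : ℝ} (hc₁ : 0 < c₁) (hC₁ : 0 < C₁) (hD : HD w p c₁ C₁) {σ : ℝ}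
    (hσ : 1 / 2 ≤ σ) (hσp : 2 * σ = p) : ∃ k T₀ : ℝ, 0 < k ∧ 2 ≤ T₀ ∧ ∀ T : ℝ, T₀ ≤ T →
      ENNReal.ofReal (k * (T ^ (2 * σ) * Real.log T)) ≤ FT w σ T := by
  obtain ⟨K, hK, hb⟩ := block hw hc hτ h hc₁ hC₁ hD hσ
  have hK0 : 0 < K := by linarith
  have hκ : 0 < 2 * (r : ℝ) + τ := by positivity
  obtain ⟨k, T₀, hk, hT₀, hs⟩ := scales hκ hK
  refine ⟨k * K⁻¹, T₀, by positivity, hT₀, fun T hT => ?_⟩
  have hT2 : 2 ≤ T := hT₀.trans hT
  have hT0 : 0 < T := by linarith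
  obtain ⟨M, hM1, -, hM3⟩ := hs T hT
  have hone : 1 ≤ T / 2 ^ M := by
    rcases Nat.eq_zero_or_pos M with h0 | h0
    · rw [h0, pow_zero, div_one]; linarith
    · have h1 := hM3 (M - 1) (by omega)
      have e : M - 1 + 1 = M := by omega
      rw [e] at h1
      have h2 : 1 ≤ ((2 : ℝ) ^ M) ^ (2 * (r : ℝ) + τ) :=
        Real.one_le_rpow (one_le_pow₀ (by norm_num)) hκ.le
      nlinarith
  have hterm : ∀ m ∈ Finset.range M, ENNReal.ofReal (K⁻¹ * T ^ (2 * σ)) ≤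
      ∫⁻ ρ in Ioc (T / 2 ^ (m + 1)) (2 * (T / 2 ^ (m + 1))),
        ENNReal.ofReal (ρ ^ (2 * σ - 1) * PP w T ρ) := by
    intro m hm
    have hm' := Finset.mem_range.1 hm
    set R : ℝ := T / 2 ^ (m + 1) with hR
    have hR0 : 0 < R := by positivity
    have e1 : T / R = 2 ^ (m + 1) := by
      rw [hR]; field_simp
    have h1 := (hb R T hR0 (by
      rw [hR]
      have : (1 : ℝ) ≤ 2 ^ m := one_le_pow₀ (by norm_num)
      rw [pow_succ, mul_div_assoc', div_le_iff₀ (by positivity)]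
      nlinarith) (by rw [e1]; exact hM3 m hm')).1
    refine le_trans (le_of_eq ?_) h1
    congr 2
    rw [e1]
    have e2 : ((2 : ℝ) ^ (m + 1)) ^ p = ((2 : ℝ) ^ (m + 1)) ^ (2 * σ) := by
      rw [hσp, Real.rpow_natCast]
    rw [e2, ← Real.mul_rpow hR0.le (by positivity)]
    congr 1
    rw [hR]; field_simp
  calc ENNReal.ofReal (k * K⁻¹ * (T ^ (2 * σ) * Real.log T)) ≤
      ENNReal.ofReal (M * (K⁻¹ * T ^ (2 * σ))) := by
        apply ENNReal.ofReal_le_ofReal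
        calc _ = (k * Real.log T) * (K⁻¹ * T ^ (2 * σ)) := by ring
          _ ≤ _ := by gcongr
    _ = ∑ _m ∈ Finset.range M, ENNReal.ofReal (K⁻¹ * T ^ (2 * σ)) := by
        rw [Finset.sum_const, Finset.card_range, nsmul_eq_mul, ENNReal.ofReal_mul
          (by positivity : (0 : ℝ) ≤ M), ENNReal.ofReal_natCast]
    _ ≤ ∑ m ∈ Finset.range M, ∫⁻ ρ in Ioc (T / 2 ^ (m + 1)) (2 * (T / 2 ^ (m + 1))),
        ENNReal.ofReal (ρ ^ (2 * σ - 1) * PP w T ρ) := Finset.sum_le_sum hterm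
    _ = ∫⁻ ρ in Ioc (T / 2 ^ M) T, ENNReal.ofReal (ρ ^ (2 * σ - 1) * PP w T ρ) :=
        (dyad _ hT0 M).symm
    _ ≤ _ := lintegral_mono_set (Set.Ioc_subset_Ioc_left hone)

/-- the upper bound without logarithm, off the critical line -/
theorem FT_up (hw : ∀ j, 0 < w j) {c τ : ℝ} (hc : 0 < c) (hτ : 0 < τ) (h : LinDio w c τ)
    {p : ℕ} {c₁ C₁ : ℝ} (hc₁ : 0 < c₁) (hC₁ : 0 < C₁) (hD : HD w p c₁ C₁) {σ σ' : ℝ}
    (hσ : 1 / 2 ≤ σ) (hσp : (p : ℝ) < 2 * σ) (hσσ : σ' < σ)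
    (hH : ∀ ε : ℝ, 0 < ε → ∃ C : ℝ, 0 ≤ C ∧ ∀ T : ℝ, 2 ≤ T →
      FT w σ' T ≤ ENNReal.ofReal (C * T ^ (2 * σ' + ε))) :
    ∃ C T₀ : ℝ, 0 ≤ C ∧ 2 ≤ T₀ ∧ ∀ T : ℝ, T₀ ≤ T →
      FT w σ T ≤ ENNReal.ofReal (C * T ^ (2 * σ)) := by
  obtain ⟨K, hK, hb⟩ := block hw hc hτ h hc₁ hC₁ hD hσ
  have hK0 : 0 < K := by linarith
  have hκ : 0 < 2 * (r : ℝ) + τ := by positivity
  obtain ⟨k, T₀, hk, hT₀, hs⟩ := scales hκ hK
  set g : ℝ := 2 * (σ - σ') with hg
  have hg0 : 0 < g := by rw [hg]; linarith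
  obtain ⟨C, hC, hH'⟩ := hH (k * g) (by positivity)
  set q : ℝ := (2 : ℝ) ^ (-(2 * σ - p)) with hq
  have hq0 : 0 < q := by positivity
  have hq1 : q < 1 := Real.rpow_lt_one_of_one_lt_of_neg (by norm_num) (by linarith)
  have hq1' : 0 < 1 - q := by linarith
  refine ⟨C + K * (1 / (1 - q)), T₀, by positivity, hT₀, fun T hT => ?_⟩
  have hT2 : 2 ≤ T := hT₀.trans hT
  have hT0 : 0 < T := by linarith
  obtain ⟨M, -, hM2, hM3⟩ := hs T hT
  have hM0 : (0 : ℝ) < 2 ^ M := by positivity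
  have hTM : T / 2 ^ M ≤ T := div_le_self hT0.le (one_le_pow₀ (by norm_num))
  have hterm : ∀ m ∈ Finset.range M,
      ∫⁻ ρ in Ioc (T / 2 ^ (m + 1)) (2 * (T / 2 ^ (m + 1))),
        ENNReal.ofReal (ρ ^ (2 * σ - 1) * PP w T ρ) ≤
      ENNReal.ofReal (K * T ^ (2 * σ) * q ^ m) := by
    intro m hm
    have hm' := Finset.mem_range.1 hm
    set R : ℝ := T / 2 ^ (m + 1) with hR
    have hR0 : 0 < R := by positivity
    have e1 : T / R = 2 ^ (m + 1) := by
      rw [hR]; field_simp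
    have h1 := (hb R T hR0 (by
      rw [hR]
      have : (1 : ℝ) ≤ 2 ^ m := one_le_pow₀ (by norm_num)
      rw [pow_succ, mul_div_assoc', div_le_iff₀ (by positivity)]
      nlinarith) (by rw [e1]; exact hM3 m hm')).2
    refine h1.trans (ENNReal.ofReal_le_ofReal ?_)
    rw [e1, mul_assoc]
    have e2 : R ^ (2 * σ) * ((2 : ℝ) ^ (m + 1)) ^ p = T ^ (2 * σ) * q ^ (m + 1) := by
      have e3 : R ^ (2 * σ) = T ^ (2 * σ) * ((2 : ℝ) ^ (m + 1)) ^ (-(2 * σ)) := by
        rw [hR, Real.div_rpow hT0.le (by positivity), Real.rpow_neg (by positivity),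
          div_eq_mul_inv]
      have e4 : q ^ (m + 1) = ((2 : ℝ) ^ (m + 1)) ^ (-(2 * σ - p)) := by
        rw [hq, ← Real.rpow_natCast, ← Real.rpow_natCast, ← Real.rpow_mul (by norm_num),
          ← Real.rpow_mul (by norm_num), mul_comm]
      rw [e3, e4, mul_assoc, ← Real.rpow_natCast (((2 : ℝ) ^ (m + 1))) p,
        ← Real.rpow_add (by positivity)]
      congr 2
      ring
    rw [e2]
    have h5 : q ^ (m + 1) ≤ q ^ m := by
      rw [pow_succ]
      have : 0 < q ^ m := by positivity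
      nlinarith
    gcongr
  have hsum : ∑ m ∈ Finset.range M, ENNReal.ofReal (K * T ^ (2 * σ) * q ^ m) ≤
      ENNReal.ofReal (K * (1 / (1 - q)) * T ^ (2 * σ)) := by
    rw [← ENNReal.ofReal_sum_of_nonneg (fun m _ => by positivity), ← Finset.mul_sum]
    apply ENNReal.ofReal_le_ofReal
    have h5 : ∑ m ∈ Finset.range M, q ^ m ≤ 1 / (1 - q) := by
      rw [one_div, ← tsum_geometric_of_lt_one hq0.le hq1]
      exact (summable_geometric_of_lt_one hq0.le hq1).sum_le_tsum _ (fun m _ => by positivity)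
    calc _ ≤ K * T ^ (2 * σ) * (1 / (1 - q)) := by gcongr
      _ = _ := by ring
  have hfirst : ∫⁻ ρ in Ioc 1 (T / 2 ^ M), ENNReal.ofReal (ρ ^ (2 * σ - 1) * PP w T ρ) ≤
      ENNReal.ofReal (C * T ^ (2 * σ)) := by
    calc _ ≤ ∫⁻ ρ in Ioc 1 (T / 2 ^ M), ENNReal.ofReal ((T / 2 ^ M) ^ g) *
          ENNReal.ofReal (ρ ^ (2 * σ' - 1) * PP w T ρ) := by
          refine setLIntegral_mono' measurableSet_Ioc fun ρ hρ => ?_
          have hρ0 : 0 < ρ := by linarith [hρ.1]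
          rw [← ENNReal.ofReal_mul (by positivity)]
          apply ENNReal.ofReal_le_ofReal
          have h1 : ρ ^ (2 * σ - 1) = ρ ^ g * ρ ^ (2 * σ' - 1) := by
            rw [← Real.rpow_add hρ0]
            congr 1
            rw [hg]; ring
          have h2 : ρ ^ g ≤ (T / 2 ^ M) ^ g := Real.rpow_le_rpow hρ0.le hρ.2 hg0.le
          have h3 := PP_nonneg w T ρ
          rw [h1]
          calc _ ≤ (T / 2 ^ M) ^ g * ρ ^ (2 * σ' - 1) * PP w T ρ := by gcongr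
            _ = _ := by ring
      _ = ENNReal.ofReal ((T / 2 ^ M) ^ g) * ∫⁻ ρ in Ioc 1 (T / 2 ^ M),
          ENNReal.ofReal (ρ ^ (2 * σ' - 1) * PP w T ρ) :=
          lintegral_const_mul' _ _ ENNReal.ofReal_ne_top
      _ ≤ ENNReal.ofReal ((T / 2 ^ M) ^ g) * FT w σ' T :=
          mul_le_mul_right (lintegral_mono_set (Set.Ioc_subset_Ioc_right hTM)) _
      _ ≤ ENNReal.ofReal ((T / 2 ^ M) ^ g) * ENNReal.ofReal (C * T ^ (2 * σ' + k * g)) :=
          mul_le_mul_right (hH' T hT2) _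
      _ ≤ _ := by
          rw [← ENNReal.ofReal_mul (by positivity)]
          apply ENNReal.ofReal_le_ofReal
          have h1 : (T / 2 ^ M) ^ g ≤ T ^ (g - k * g) := by
            have h2 : T / 2 ^ M ≤ T ^ (1 - k) := by
              rw [Real.rpow_sub hT0, Real.rpow_one]
              gcongr
            calc (T / 2 ^ M) ^ g ≤ (T ^ (1 - k)) ^ g :=
                  Real.rpow_le_rpow (by positivity) h2 hg0.le
              _ = _ := by
                  rw [← Real.rpow_mul hT0.le]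
                  congr 1
                  ring
          calc (T / 2 ^ M) ^ g * (C * T ^ (2 * σ' + k * g)) ≤
              T ^ (g - k * g) * (C * T ^ (2 * σ' + k * g)) := by gcongr
            _ = C * (T ^ (g - k * g) * T ^ (2 * σ' + k * g)) := by ring
            _ = _ := by
                rw [← Real.rpow_add hT0]
                congr 2
                rw [hg]; ring
  have hsub : Ioc 1 T ⊆ Ioc 1 (T / 2 ^ M) ∪ Ioc (T / 2 ^ M) T := by
    intro ρ hρ
    rcases le_or_gt ρ (T / 2 ^ M) with h | h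
    · exact Or.inl ⟨hρ.1, h⟩
    · exact Or.inr ⟨h, hρ.2⟩
  calc FT w σ T ≤ ∫⁻ ρ in Ioc 1 (T / 2 ^ M) ∪ Ioc (T / 2 ^ M) T,
        ENNReal.ofReal (ρ ^ (2 * σ - 1) * PP w T ρ) := lintegral_mono_set hsub
    _ ≤ (∫⁻ ρ in Ioc 1 (T / 2 ^ M), ENNReal.ofReal (ρ ^ (2 * σ - 1) * PP w T ρ)) +
        ∫⁻ ρ in Ioc (T / 2 ^ M) T, ENNReal.ofReal (ρ ^ (2 * σ - 1) * PP w T ρ) :=
        lintegral_union_le _ _ _
    _ ≤ ENNReal.ofReal (C * T ^ (2 * σ)) + ENNReal.ofReal (K * (1 / (1 - q)) * T ^ (2 * σ)) := by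
        refine add_le_add hfirst ?_
        rw [dyad _ hT0 M]
        exact (Finset.sum_le_sum hterm).trans hsum
    _ = _ := by
        rw [← ENNReal.ofReal_add (by positivity) (by positivity)]
        congr 1
        ring

end Pool.Agent.H312.Eq
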