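import Pool.Agent.H312.Eq.Five

set_option autoImplicit false

/-!
# The resonance integral over the large dyadic blocks
-/

namespace Pool.Agent.H312.Eq

open Finset Filter Topology MeasureTheory Complex Set
open Pool.Agent.H131R5.BZ Pool.Agent.Y930.Bz Pool.Agent.Y616.BM Pool.Agent.H312.Barnes
open Pool.Agent.H312.Sh Pool.Agent.H312.Ex

variable {r : ℕ} {w : Fin r → ℝ}

/-- the resonance product at a fixed level -/
noncomputable def QQ {r : ℕ} (w : Fin r → ℝ) (x ρ : ℝ) : ℝ :=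
  ∏ j, ((max (nd (ρ * w j)) x) ^ 2)⁻¹

lemma QQ_nonneg (w : Fin r → ℝ) (x ρ : ℝ) : 0 ≤ QQ w x ρ :=
  Finset.prod_nonneg fun j _ => by positivity

lemma QQ_anti (w : Fin r → ℝ) {x x' : ℝ} (hx : 0 < x) (hxx : x ≤ x') (ρ : ℝ) :
    QQ w x' ρ ≤ QQ w x ρ := by
  unfold QQ
  refine Finset.prod_le_prod (fun j _ => by positivity) fun j _ => ?_
  have h1 : 0 < max (nd (ρ * w j)) x := hx.trans_le (le_max_right _ _)
  exact inv_anti₀ (by positivity) (pow_le_pow_left₀ h1.le (max_le_max le_rfl hxx) 2)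

lemma KK0_sq (w : Fin r → ℝ) (z : ℂ) :
    ‖KK 0 w z‖ ^ 2 = ∏ j, (‖1 - cexp (-(w j : ℂ) * z)‖ ^ 2)⁻¹ := by
  unfold KK
  rw [norm_mul, norm_prod, mul_pow]
  have h1 : ‖cexp (-((0 : ℝ) : ℂ) * z)‖ = 1 := by simp
  rw [h1, one_pow, one_mul, ← Finset.prod_pow]
  refine Finset.prod_congr rfl fun j _ => ?_
  rw [norm_inv, inv_pow]

lemma QQ_KK (hw : ∀ j, 0 < w j) : ∃ K : ℝ, 0 < K ∧ ∀ x ρ : ℝ, 0 < x → x ≤ 1 →
    QQ w x ρ ≤ K * ‖KK 0 w ((x : ℂ) + ((2 * Real.pi * ρ : ℝ) : ℂ) * I)‖ ^ 2 ∧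
      ‖KK 0 w ((x : ℂ) + ((2 * Real.pi * ρ : ℝ) : ℂ) * I)‖ ^ 2 ≤ K * QQ w x ρ := by
  have hp := Real.pi_pos
  set L₁ : ℝ := ∏ j, ((2 * (w j + 2 * Real.pi)) ^ 2) with hL₁
  set L₂ : ℝ := ∏ j, (cf (w j))⁻¹ with hL₂
  have hL₁0 : 0 < L₁ := Finset.prod_pos fun j _ => by have := hw j; positivity
  have hL₂0 : 0 < L₂ := Finset.prod_pos fun j _ => inv_pos.2 (cf_pos (hw j))
  refine ⟨L₁ + L₂, by positivity, fun x ρ hx hx1 => ?_⟩
  set z : ℂ := (x : ℂ) + ((2 * Real.pi * ρ : ℝ) : ℂ) * I with hz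
  have hN : ∀ j, 0 < ‖1 - cexp (-(w j : ℂ) * z)‖ := fun j =>
    norm_pos_iff.2 (one_sub_ne (hw j) (by rw [hz]; simpa using hx))
  have hm : ∀ j, 0 < max (nd (ρ * w j)) x := fun j => hx.trans_le (le_max_right _ _)
  have hK0 : 0 ≤ ‖KK 0 w z‖ ^ 2 := by positivity
  have hQ0 := QQ_nonneg w x ρ
  constructor
  · have h1 : QQ w x ρ ≤ L₁ * ‖KK 0 w z‖ ^ 2 := by
      rw [KK0_sq, hL₁, ← Finset.prod_mul_distrib]
      unfold QQ
      refine Finset.prod_le_prod (fun j _ => by positivity) fun j _ => ?_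
      have h2 := factor_le_nd (D := ρ) (hw j) hx
      have h3 := hN j
      have h4 := hm j
      have h5 := hw j
      rw [← div_eq_mul_inv, le_div_iff₀ (by positivity), inv_mul_le_iff₀ (by positivity),
        ← mul_pow]
      refine pow_le_pow_left₀ h3.le (h2.trans_eq ?_) 2
      ring
    nlinarith
  · have h1 : ‖KK 0 w z‖ ^ 2 ≤ L₂ * QQ w x ρ := by
      rw [KK0_sq, hL₂]
      unfold QQ
      rw [← Finset.prod_mul_distrib]
      refine Finset.prod_le_prod (fun j _ => by positivity) fun j _ => ?_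
      have h2 := fac_lower (ρ := ρ) (hw j) hx hx le_rfl hx1
      have h3 := hN j
      have h4 := hm j
      have h5 := cf_pos (hw j)
      rw [← mul_inv]
      exact inv_anti₀ (by positivity) h2
    nlinarith

lemma KK0_cont (hw : ∀ j, 0 < w j) {x : ℝ} (hx : 0 < x) :
    Continuous fun ρ : ℝ => KK 0 w ((x : ℂ) + ((2 * Real.pi * ρ : ℝ) : ℂ) * I) := by
  refine continuous_iff_continuousAt.2 fun ρ => ?_
  have h2 : DifferentiableAt ℂ (KK 0 w) ((x : ℂ) + ((2 * Real.pi * ρ : ℝ) : ℂ) * I) := by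
    apply KK_diff hw
    simpa using hx
  exact ContinuousAt.comp (g := KK 0 w)
    (f := fun ρ : ℝ => (x : ℂ) + ((2 * Real.pi * ρ : ℝ) : ℂ) * I) h2.continuousAt (by fun_prop)

lemma lint_KK (hw : ∀ j, 0 < w j) {x A B : ℝ} (hx : 0 < x) (hAB : A ≤ B) :
    ∫⁻ ρ in Ioc A B, ENNReal.ofReal (‖KK 0 w ((x : ℂ) + ((2 * Real.pi * ρ : ℝ) : ℂ) * I)‖ ^ 2) =
      ENNReal.ofReal (∫ ρ in A..B, ‖KK 0 w ((x : ℂ) + ((2 * Real.pi * ρ : ℝ) : ℂ) * I)‖ ^ 2) := by
  rw [intervalIntegral.integral_of_le hAB, ofReal_integral_eq_lintegral_ofReal]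
  · exact (((KK0_cont hw hx).norm.pow 2).intervalIntegrable A B).1
  · exact ae_of_all _ fun ρ => by positivity

/-- the size of the number of coincidences -/
def HD (w : Fin r → ℝ) (p : ℕ) (c C : ℝ) : Prop :=
  ∀ x : ℝ, 0 < x → x ≤ 1 → c * (x ^ p)⁻¹ ≤ Dc w x ∧ Dc w x ≤ C * (x ^ p)⁻¹

/-- the blocks -/
theorem block (hw : ∀ j, 0 < w j) {c τ : ℝ} (hc : 0 < c) (hτ : 0 < τ) (h : LinDio w c τ)
    {p : ℕ} {c₁ C₁ : ℝ} (hc₁ : 0 < c₁) (hC₁ : 0 < C₁) (hD : HD w p c₁ C₁) {σ : ℝ}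
    (hσ : 1 / 2 ≤ σ) : ∃ K : ℝ, 1 ≤ K ∧ ∀ R T : ℝ, 0 < R → 2 * R ≤ T →
      K * (T / R) ^ (2 * r + τ) ≤ R →
      ENNReal.ofReal (K⁻¹ * (R ^ (2 * σ) * (T / R) ^ p)) ≤
        ∫⁻ ρ in Ioc R (2 * R), ENNReal.ofReal (ρ ^ (2 * σ - 1) * PP w T ρ) ∧
      ∫⁻ ρ in Ioc R (2 * R), ENNReal.ofReal (ρ ^ (2 * σ - 1) * PP w T ρ) ≤
        ENNReal.ofReal (K * (R ^ (2 * σ) * (T / R) ^ p)) := by
  obtain ⟨K₁, hK₁, h1⟩ := int_KK hw hc hτ h
  obtain ⟨K₂, hK₂, h2⟩ := QQ_KK hw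
  have h2σ : 0 ≤ 2 * σ - 1 := by linarith
  set E : ℝ := (K₂ * 2 ^ p * 2 / c₁) + K₂ * 2 ^ (2 * σ - 1) * (C₁ + c₁) + 2 * K₁ / c₁ + 1 with hE
  have hE1 : 1 ≤ E := by
    have a1 : 0 ≤ K₂ * 2 ^ p * 2 / c₁ := by positivity
    have a2 : 0 ≤ K₂ * 2 ^ (2 * σ - 1) * (C₁ + c₁) := by positivity
    have a3 : 0 ≤ 2 * K₁ / c₁ := by positivity
    linarith
  have hE0 : 0 < E := by linarith
  refine ⟨E, hE1, fun R T hR hRT hbig => ?_⟩
  have hT : 0 < T := by linarith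
  have hTR : 1 ≤ T / R := by rw [le_div_iff₀ hR]; linarith
  have hTR0 : 0 < T / R := by linarith
  have hκ : 0 ≤ 2 * (r : ℝ) + τ := by positivity
  have hbig' : K₁ * (T / R) ^ (2 * (r : ℝ) + τ) ≤ c₁ / 2 * R := by
    have h3 : 2 * K₁ / c₁ ≤ E := by
      have a1 : 0 ≤ K₂ * 2 ^ p * 2 / c₁ := by positivity
      have a2 : 0 ≤ K₂ * 2 ^ (2 * σ - 1) * (C₁ + c₁) := by positivity
      linarith
    have h4 : 2 * K₁ / c₁ * (T / R) ^ (2 * (r : ℝ) + τ) ≤ R :=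
      (mul_le_mul_of_nonneg_right h3 (by positivity)).trans hbig
    calc K₁ * (T / R) ^ (2 * (r : ℝ) + τ) =
        c₁ / 2 * (2 * K₁ / c₁ * (T / R) ^ (2 * (r : ℝ) + τ)) := by field_simp
      _ ≤ _ := by gcongr
  have hRR : R ≤ 2 * R := by linarith
  have hTRp : 1 ≤ (T / R) ^ p := one_le_pow₀ hTR
  constructor
  · -- the lower bound
    set x : ℝ := 2 * R / T with hx
    have hx0 : 0 < x := by positivity
    have hx1 : x ≤ 1 := (div_le_one hT).2 hRT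
    have hI := h1 x R (2 * R) hx0 hx1 hRR
    have hDx := (hD x hx0 hx1).1
    have e1 : (x ^ p)⁻¹ = (T / R) ^ p / 2 ^ p := by
      rw [← inv_pow, hx, inv_div, ← div_pow]
      congr 1
      field_simp
    have e2 : x ^ (-(2 * (r : ℝ) + τ)) ≤ (T / R) ^ (2 * (r : ℝ) + τ) := by
      rw [Real.rpow_neg hx0.le, ← Real.inv_rpow hx0.le]
      apply Real.rpow_le_rpow (by positivity) _ hκ
      rw [hx, inv_div]
      gcongr
    have hlow : R * (c₁ * ((T / R) ^ p / 2 ^ p)) / 2 ≤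
        ∫ ρ in R..(2 * R), ‖KK 0 w ((x : ℂ) + ((2 * Real.pi * ρ : ℝ) : ℂ) * I)‖ ^ 2 := by
      have h5 := (abs_le.1 hI).1
      have e3 : (2 * R - R) = R := by ring
      rw [e3] at h5
      rw [e1] at hDx
      have h6 : R * (c₁ * ((T / R) ^ p / 2 ^ p)) ≤ R * Dc w x := by gcongr
      have h7 : K₁ * x ^ (-(2 * (r : ℝ) + τ)) ≤ R * (c₁ * ((T / R) ^ p / 2 ^ p)) / 2 := by
        have h8 : 1 ≤ (T / R) ^ p / 2 ^ p := by
          rw [← div_pow]
          apply one_le_pow₀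
          rw [le_div_iff₀ (by norm_num), one_mul, le_div_iff₀ hR]
          exact hRT
        calc K₁ * x ^ (-(2 * (r : ℝ) + τ)) ≤ K₁ * (T / R) ^ (2 * (r : ℝ) + τ) := by gcongr
          _ ≤ c₁ / 2 * R := hbig'
          _ ≤ c₁ / 2 * R * ((T / R) ^ p / 2 ^ p) := le_mul_of_one_le_right (by positivity) h8
          _ = _ := by ring
      linarith
    calc ENNReal.ofReal (E⁻¹ * (R ^ (2 * σ) * (T / R) ^ p)) ≤
        ENNReal.ofReal (R ^ (2 * σ - 1) * K₂⁻¹) *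
          ENNReal.ofReal (R * (c₁ * ((T / R) ^ p / 2 ^ p)) / 2) := by
          rw [← ENNReal.ofReal_mul (by positivity)]
          apply ENNReal.ofReal_le_ofReal
          have e4 : R ^ (2 * σ) = R ^ (2 * σ - 1) * R := by
            rw [Real.rpow_sub hR, Real.rpow_one]
            field_simp
          have h5 : E⁻¹ ≤ (K₂ * 2 ^ p * 2 / c₁)⁻¹ := by
            apply inv_anti₀ (by positivity)
            have a2 : 0 ≤ K₂ * 2 ^ (2 * σ - 1) * (C₁ + c₁) := by positivity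
            have a3 : 0 ≤ 2 * K₁ / c₁ := by positivity
            linarith
          calc E⁻¹ * (R ^ (2 * σ) * (T / R) ^ p) ≤
              (K₂ * 2 ^ p * 2 / c₁)⁻¹ * (R ^ (2 * σ) * (T / R) ^ p) := by gcongr
            _ = _ := by
              rw [e4]
              field_simp
      _ ≤ ENNReal.ofReal (R ^ (2 * σ - 1) * K₂⁻¹) * ∫⁻ ρ in Ioc R (2 * R),
          ENNReal.ofReal (‖KK 0 w ((x : ℂ) + ((2 * Real.pi * ρ : ℝ) : ℂ) * I)‖ ^ 2) := by
          rw [lint_KK hw hx0 hRR]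
          gcongr
      _ = ∫⁻ ρ in Ioc R (2 * R), ENNReal.ofReal (R ^ (2 * σ - 1) * K₂⁻¹) *
          ENNReal.ofReal (‖KK 0 w ((x : ℂ) + ((2 * Real.pi * ρ : ℝ) : ℂ) * I)‖ ^ 2) :=
          (lintegral_const_mul' _ _ ENNReal.ofReal_ne_top).symm
      _ ≤ _ := by
          refine setLIntegral_mono' measurableSet_Ioc fun ρ hρ => ?_
          have hρ0 : 0 < ρ := hR.trans hρ.1
          rw [← ENNReal.ofReal_mul (by positivity)]
          apply ENNReal.ofReal_le_ofReal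
          have h5 := (h2 x ρ hx0 hx1).2
          have h6 : QQ w x ρ ≤ PP w T ρ := by
            have : QQ w x ρ ≤ QQ w (ρ / T) ρ :=
              QQ_anti w (by positivity) (by rw [hx]; have := hρ.2; gcongr) ρ
            exact this
          have h7 : R ^ (2 * σ - 1) ≤ ρ ^ (2 * σ - 1) := Real.rpow_le_rpow hR.le hρ.1.le h2σ
          have h8 := PP_nonneg w T ρ
          calc _ ≤ R ^ (2 * σ - 1) * K₂⁻¹ * (K₂ * QQ w x ρ) := by gcongr
            _ = R ^ (2 * σ - 1) * QQ w x ρ := by field_simp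
            _ ≤ ρ ^ (2 * σ - 1) * PP w T ρ := by
                have := QQ_nonneg w x ρ
                gcongr
  · -- the upper bound
    set x : ℝ := R / T with hx
    have hx0 : 0 < x := by positivity
    have hx1 : x ≤ 1 := (div_le_one hT).2 (by linarith)
    have hI := h1 x R (2 * R) hx0 hx1 hRR
    have hDx := (hD x hx0 hx1).2
    have e1 : (x ^ p)⁻¹ = (T / R) ^ p := by
      rw [← inv_pow, hx, inv_div]
    have e2 : x ^ (-(2 * (r : ℝ) + τ)) = (T / R) ^ (2 * (r : ℝ) + τ) := by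
      rw [Real.rpow_neg hx0.le, ← Real.inv_rpow hx0.le, hx, inv_div]
    have hup : ∫ ρ in R..(2 * R), ‖KK 0 w ((x : ℂ) + ((2 * Real.pi * ρ : ℝ) : ℂ) * I)‖ ^ 2 ≤
        (C₁ + c₁) * (R * (T / R) ^ p) := by
      have h5 := (abs_le.1 hI).2
      have e3 : (2 * R - R) = R := by ring
      rw [e3, e2] at h5
      rw [e1] at hDx
      have h6 : R * Dc w x ≤ R * (C₁ * (T / R) ^ p) := by gcongr
      have h7 : K₁ * (T / R) ^ (2 * (r : ℝ) + τ) ≤ c₁ * (R * (T / R) ^ p) := by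
        calc _ ≤ c₁ / 2 * R := hbig'
          _ ≤ c₁ * R := by nlinarith [mul_pos hc₁ hR]
          _ ≤ c₁ * R * (T / R) ^ p := le_mul_of_one_le_right (by positivity) hTRp
          _ = _ := by ring
      nlinarith
    calc ∫⁻ ρ in Ioc R (2 * R), ENNReal.ofReal (ρ ^ (2 * σ - 1) * PP w T ρ) ≤
        ∫⁻ ρ in Ioc R (2 * R), ENNReal.ofReal ((2 * R) ^ (2 * σ - 1) * K₂) *
          ENNReal.ofReal (‖KK 0 w ((x : ℂ) + ((2 * Real.pi * ρ : ℝ) : ℂ) * I)‖ ^ 2) := by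
          refine setLIntegral_mono' measurableSet_Ioc fun ρ hρ => ?_
          have hρ0 : 0 < ρ := hR.trans hρ.1
          rw [← ENNReal.ofReal_mul (by positivity)]
          apply ENNReal.ofReal_le_ofReal
          have h5 := (h2 x ρ hx0 hx1).1
          have h6 : PP w T ρ ≤ QQ w x ρ := by
            have : QQ w (ρ / T) ρ ≤ QQ w x ρ :=
              QQ_anti w hx0 (by rw [hx]; have := hρ.1.le; gcongr) ρ
            exact this
          have h7 : ρ ^ (2 * σ - 1) ≤ (2 * R) ^ (2 * σ - 1) := Real.rpow_le_rpow hρ0.le hρ.2 h2σ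
          have h8 := PP_nonneg w T ρ
          calc _ ≤ (2 * R) ^ (2 * σ - 1) * (K₂ *
                ‖KK 0 w ((x : ℂ) + ((2 * Real.pi * ρ : ℝ) : ℂ) * I)‖ ^ 2) :=
                mul_le_mul h7 (h6.trans h5) h8 (by positivity)
            _ = _ := by ring
      _ = ENNReal.ofReal ((2 * R) ^ (2 * σ - 1) * K₂) * ENNReal.ofReal
          (∫ ρ in R..(2 * R), ‖KK 0 w ((x : ℂ) + ((2 * Real.pi * ρ : ℝ) : ℂ) * I)‖ ^ 2) := by
          rw [lintegral_const_mul' _ _ ENNReal.ofReal_ne_top, lint_KK hw hx0 hRR]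
      _ ≤ ENNReal.ofReal ((2 * R) ^ (2 * σ - 1) * K₂) *
          ENNReal.ofReal ((C₁ + c₁) * (R * (T / R) ^ p)) := by gcongr
      _ ≤ _ := by
          rw [← ENNReal.ofReal_mul (by positivity)]
          apply ENNReal.ofReal_le_ofReal
          have e4 : R ^ (2 * σ) = R ^ (2 * σ - 1) * R := by
            rw [Real.rpow_sub hR, Real.rpow_one]
            field_simp
          have h5 : K₂ * 2 ^ (2 * σ - 1) * (C₁ + c₁) ≤ E := by
            have a1 : 0 ≤ K₂ * 2 ^ p * 2 / c₁ := by positivity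
            have a3 : 0 ≤ 2 * K₁ / c₁ := by positivity
            linarith
          calc _ = (K₂ * 2 ^ (2 * σ - 1) * (C₁ + c₁)) * (R ^ (2 * σ) * (T / R) ^ p) := by
                rw [Real.mul_rpow (by norm_num) hR.le, e4]
                ring
            _ ≤ _ := by gcongr

end Pool.Agent.H312.Eq
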