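import Pool.Agent.H312.Eq.Lio

set_option autoImplicit false

/-!
# The order of the mean square under a Diophantine condition
-/

namespace Pool.Agent.H312.Eq

open Finset Filter Topology MeasureTheory Complex Set Asymptotics
open Pool.Agent.H131R5.BZ Pool.Agent.Y930.Bz Pool.Agent.Y616.BM Pool.Agent.H312.Barnes
open Pool.Agent.H312.Sh Pool.Agent.H312.Ex Pool.Agent.H312.Lb

variable {r : ℕ} {w : Fin r → ℝ}

/-- the number of coincidences for all weights -/
theorem hd_span (hw : ∀ j, 0 < w j) :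
    Module.finrank ℚ (Submodule.span ℚ (Set.range w)) ≤ r ∧
    ∃ c C : ℝ, 0 < c ∧ 0 < C ∧
      HD w (2 * r - Module.finrank ℚ (Submodule.span ℚ (Set.range w))) c C := by
  have hfd : Module.Finite ℚ (Submodule.span ℚ (Set.range w)) :=
    FiniteDimensional.span_of_finite ℚ (Set.finite_range w)
  set d : ℕ := Module.finrank ℚ (Submodule.span ℚ (Set.range w)) with hd
  let b : Module.Basis (Fin d) ℚ (Submodule.span ℚ (Set.range w)) := Module.finBasis ℚ _
  set v : Fin d → ℝ := fun i => ((b i : Submodule.span ℚ (Set.range w)) : ℝ) with hv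
  have hvi : LinearIndependent ℚ v := by
    have h1 := b.linearIndependent.map' (Submodule.subtype _) (Submodule.ker_subtype _)
    exact h1
  have hspan : Submodule.span ℚ (Set.range w) = Submodule.span ℚ (Set.range v) := by
    have h1 : Set.range v = (Submodule.subtype (Submodule.span ℚ (Set.range w))) '' (Set.range b) := by
      rw [← Set.range_comp]
      rfl
    rw [h1, ← Submodule.map_span, b.span_eq, Submodule.map_top, Submodule.range_subtype]
  obtain ⟨B, e, he, hdet, hwB⟩ := lin hvi hspan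
  have hdr : d ≤ r := by
    simpa using Fintype.card_le_of_injective e he
  exact ⟨hdr, hd_all hvi B e he hdet hwB hw⟩

variable {a : ℝ} {Z : ℂ → ℂ}

/-- from the mean square to the resonance integral -/
lemma res_of_ms (ha : 0 < a) (hw : ∀ j, 0 < w j)
    (hZ : ∀ s ∈ Om r, DifferentiableAt ℂ Z s)
    (hs : ∀ s : ℂ, (r : ℝ) < s.re → Z s = ∑' m : Fin r → ℕ, ((lam a w m : ℝ) : ℂ) ^ (-s))
    {σ : ℝ} (hσ : 1 / 2 ≤ σ)
    (hI : ∀ ε : ℝ, 0 < ε → (fun T : ℝ => ∫ t in (1 : ℝ)..T, ‖Z ((σ : ℂ) + (t : ℂ) * I)‖ ^ 2)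
      =O[atTop] fun T : ℝ => T ^ (1 + ε)) :
    ∀ ε : ℝ, 0 < ε → ∃ C : ℝ, 0 ≤ C ∧ ∀ T : ℝ, 2 ≤ T →
      FT w σ T ≤ ENNReal.ofReal (C * T ^ (2 * σ + ε)) := by
  intro ε hε
  refine FT_of_resR w (by linarith) (by linarith) ?_
  rcases hσ.lt_or_eq with hlt | heq
  · have h1 := (crit ha hw hZ hs hlt (θ := 1 + ε) (β := 0) (by linarith) le_rfl).1 (by
      simpa only [Real.rpow_zero, mul_one] using hI ε hε)
    have e1 : 2 * σ - 1 + (1 + ε) = 2 * σ + ε := by ring
    simpa only [Real.rpow_zero, mul_one, e1] using h1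
  · have h1 := (theta_w ha hw hZ hs (by linarith : 0 < σ)).2
    have h2 := hI ε hε
    rw [← heq] at h1 h2 ⊢
    have e1 : (2 : ℝ) * (1 / 2) - 1 = 0 := by norm_num
    have e2 : (2 : ℝ) * (1 / 2) + ε = 1 + ε := by norm_num
    rw [e1] at h1
    rw [e2]
    simp only [Real.rpow_zero, one_mul] at h1
    exact h1.trans h2

/-- the order of the mean square -/
theorem theta_gen (hr : 1 ≤ r) (ha : 0 < a) (hw : ∀ j, 0 < w j)
    (hZ : ∀ s ∈ Om r, DifferentiableAt ℂ Z s)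
    (hs : ∀ s : ℂ, (r : ℝ) < s.re → Z s = ∑' m : Fin r → ℕ, ((lam a w m : ℝ) : ℂ) ^ (-s))
    {d : ℕ} (hdr : d ≤ r) {c τ c₁ C₁ : ℝ} (hc : 0 < c) (hτ : 0 < τ) (hLD : LinDio w c τ)
    (hc₁ : 0 < c₁) (hC₁ : 0 < C₁) (hHD : HD w (2 * r - d) c₁ C₁) :
    (∀ σ : ℝ, 1 / 2 < σ → (fun T : ℝ => T) =O[atTop]
      (fun T : ℝ => ∫ t in (1 : ℝ)..T, ‖Z ((σ : ℂ) + (t : ℂ) * I)‖ ^ 2)) ∧
    (∀ σ : ℝ, σ = (r : ℝ) - d / 2 → (fun T : ℝ => T * Real.log T) =O[atTop]
      fun T : ℝ => ∫ t in (1 : ℝ)..T, ‖Z ((σ : ℂ) + (t : ℂ) * I)‖ ^ 2) ∧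
    ((∀ ε : ℝ, 0 < ε → (fun T : ℝ => ∫ t in (1 : ℝ)..T,
        ‖Z ((((r : ℝ) - d / 2 : ℝ) : ℂ) + (t : ℂ) * I)‖ ^ 2) =O[atTop] fun T : ℝ => T ^ (1 + ε)) →
      ∀ σ : ℝ, (r : ℝ) - d / 2 < σ →
        (fun T : ℝ => ∫ t in (1 : ℝ)..T, ‖Z ((σ : ℂ) + (t : ℂ) * I)‖ ^ 2) =O[atTop]
          fun T : ℝ => T) := by
  have hdr' : (d : ℝ) ≤ r := by exact_mod_cast hdr
  have hr' : (1 : ℝ) ≤ r := by exact_mod_cast hr
  have hp : ((2 * r - d : ℕ) : ℝ) = 2 * ((r : ℝ) - d / 2) := by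
    rw [Nat.cast_sub (by omega)]
    push_cast
    ring
  refine ⟨?_, ?_, ?_⟩
  · intro σ hσ2
    have hσ0 : 0 < σ := by linarith
    refine IsBigO.trans ?_ (low_i ha hw hZ hs hσ2)
    refine IsBigO.of_bound (2 ^ (2 * σ + 1)) ?_
    filter_upwards [eventually_ge_atTop (2 : ℝ)] with T hT
    have hT1 : 1 ≤ T := by linarith
    have hT0 : 0 < T := by linarith
    have h1 := FT_ge w hσ0 hT
    have h2 := ENNReal.toReal_mono (ENNReal.mul_ne_top ENNReal.ofReal_ne_top
      (FT_lt_top w hσ0 hT1).ne) h1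
    rw [ENNReal.toReal_mul, ENNReal.toReal_ofReal (by positivity),
      ENNReal.toReal_ofReal (by positivity), ← resR_eq w σ hT1] at h2
    have h3 := resR_nonneg w σ hT1
    rw [Real.norm_of_nonneg hT0.le, Real.norm_of_nonneg (by positivity)]
    calc T = T ^ (1 - 2 * σ) * T ^ (2 * σ) := by
          rw [← Real.rpow_add hT0]
          rw [sub_add_cancel, Real.rpow_one]
      _ ≤ T ^ (1 - 2 * σ) * (2 ^ (2 * σ + 1) * resR w σ T) := by gcongr
      _ = _ := by ring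
  · intro σ hσ
    have hσ2 : 1 / 2 ≤ σ := by rw [hσ]; linarith
    have hσ0 : 0 < σ := by linarith
    obtain ⟨k, T₀, hk, hT₀, h1⟩ := FT_low_log hw hc hτ hLD hc₁ hC₁ hHD (σ := σ) hσ2
      (by rw [hp, hσ])
    have h2 : ∀ T : ℝ, T₀ ≤ T → k * (T ^ (2 * σ) * Real.log T) ≤ resR w σ T := by
      intro T hT
      have hT1 : 1 ≤ T := by linarith
      have hl : 0 ≤ Real.log T := Real.log_nonneg hT1
      have h3 := ENNReal.toReal_mono (FT_lt_top w hσ0 hT1).ne (h1 T hT)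
      rw [ENNReal.toReal_ofReal (by positivity), ← resR_eq w σ hT1] at h3
      exact h3
    have h3 : (fun T : ℝ => T * Real.log T) =O[atTop] fun T : ℝ => T ^ (1 - 2 * σ) * resR w σ T := by
      refine IsBigO.of_bound k⁻¹ ?_
      filter_upwards [eventually_ge_atTop T₀] with T hT
      have hT1 : 1 ≤ T := by linarith
      have hT0 : 0 < T := by linarith
      have hl : 0 ≤ Real.log T := Real.log_nonneg hT1
      have h4 := resR_nonneg w σ hT1
      rw [Real.norm_of_nonneg (by positivity), Real.norm_of_nonneg (by positivity)]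
      calc T * Real.log T = T ^ (1 - 2 * σ) * T ^ (2 * σ) * Real.log T := by
            rw [← Real.rpow_add hT0]
            rw [sub_add_cancel, Real.rpow_one]
        _ = k⁻¹ * (T ^ (1 - 2 * σ) * (k * (T ^ (2 * σ) * Real.log T))) := by field_simp
        _ ≤ k⁻¹ * (T ^ (1 - 2 * σ) * resR w σ T) := by
            have := h2 T hT
            gcongr
    refine h3.trans ?_
    rcases hσ2.lt_or_eq with hlt | heq
    · exact low_i ha hw hZ hs hlt
    · have h4 := (theta_w ha hw hZ hs hσ0).2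
      rw [← heq] at h4 ⊢
      have e1 : (2 : ℝ) * (1 / 2) - 1 = 0 := by norm_num
      have e2 : (1 : ℝ) - 2 * (1 / 2) = 0 := by norm_num
      rw [e1] at h4
      rw [e2]
      simp only [Real.rpow_zero, one_mul] at h4 ⊢
      exact h4
  · intro hI σ hσ
    have hσ2 : 1 / 2 < σ := by linarith
    have hσ0 : 0 < σ := by linarith
    have hH := res_of_ms ha hw hZ hs (by linarith : 1 / 2 ≤ (r : ℝ) - d / 2) hI
    obtain ⟨C, T₀, hC, hT₀, h1⟩ := FT_up hw hc hτ hLD hc₁ hC₁ hHD (σ := σ) hσ2.le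
      (by rw [hp]; linarith) hσ hH
    have h2 : (fun T : ℝ => resR w σ T) =O[atTop]
        fun T : ℝ => T ^ (2 * σ - 1 + 1) * (Real.log T) ^ (0 : ℝ) := by
      refine IsBigO.of_bound C ?_
      filter_upwards [eventually_ge_atTop T₀] with T hT
      have hT1 : 1 ≤ T := by linarith
      have hT0 : 0 < T := by linarith
      have h3 := ENNReal.toReal_mono ENNReal.ofReal_ne_top (h1 T hT)
      rw [ENNReal.toReal_ofReal (by positivity), ← resR_eq w σ hT1] at h3
      rw [Real.norm_of_nonneg (resR_nonneg w σ hT1), Real.rpow_zero, mul_one,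
        Real.norm_of_nonneg (by positivity)]
      have e1 : 2 * σ - 1 + 1 = 2 * σ := by ring
      rw [e1]
      exact h3
    have h3 := (crit ha hw hZ hs hσ2 one_pos le_rfl).2 h2
    simpa only [Real.rpow_one, Real.rpow_zero, mul_one] using h3

end Pool.Agent.H312.Eq
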