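import Pool.Agent.H312.Eq.Span

set_option autoImplicit false

/-!
# The truncated resonance integral
-/

namespace Pool.Agent.H312.Eq

open Finset Filter Topology MeasureTheory Complex Set Asymptotics
open Pool.Agent.H131R5.BZ Pool.Agent.Y930.Bz Pool.Agent.Y616.BM Pool.Agent.H312.Barnes
open Pool.Agent.H312.Sh Pool.Agent.H312.Ex Pool.Agent.H312.Lb

variable {r : ℕ} {w : Fin r → ℝ}

/-- the small `ρ` contribute little -/
theorem FT_trunc (hw : ∀ j, 0 < w j) {c τ : ℝ} (hc : 0 < c) (hτ : 0 < τ) (h : LinDio w c τ)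
    {p : ℕ} {c₁ C₁ : ℝ} (hc₁ : 0 < c₁) (hC₁ : 0 < C₁) (hD : HD w p c₁ C₁) {σ σ' : ℝ}
    (hσ : 1 / 2 ≤ σ) (hσp : (p : ℝ) < 2 * σ) (hσσ : σ' < σ)
    (hH : ∀ ε : ℝ, 0 < ε → ∃ C : ℝ, 0 ≤ C ∧ ∀ T : ℝ, 2 ≤ T →
      FT w σ' T ≤ ENNReal.ofReal (C * T ^ (2 * σ' + ε))) :
    ∃ q K : ℝ, 0 < q ∧ q < 1 ∧ 0 ≤ K ∧ ∀ m₀ : ℕ, ∃ T₀ : ℝ, 2 ≤ T₀ ∧ ∀ T : ℝ, T₀ ≤ T →
      ∫⁻ ρ in Ioc 1 (T / 2 ^ m₀), ENNReal.ofReal (ρ ^ (2 * σ - 1) * PP w T ρ) ≤
        ENNReal.ofReal (K * q ^ m₀ * T ^ (2 * σ)) := by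
  obtain ⟨K, hK, hb⟩ := block hw hc hτ h hc₁ hC₁ hD hσ
  have hK0 : 0 < K := by linarith
  have hκ : 0 < 2 * (r : ℝ) + τ := by positivity
  obtain ⟨k, T₀, hk, hT₀, hs⟩ := scales hκ hK
  set g : ℝ := 2 * (σ - σ') with hg
  have hg0 : 0 < g := by rw [hg]; linarith
  obtain ⟨C, hC, hH'⟩ := hH (k * g / 2) (by positivity)
  set q : ℝ := (2 : ℝ) ^ (-(2 * σ - p)) with hq
  have hq0 : 0 < q := by positivity
  have hq1 : q < 1 := Real.rpow_lt_one_of_one_lt_of_neg (by norm_num) (by linarith)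
  have hq1' : 0 < 1 - q := by linarith
  refine ⟨q, 1 + K * (1 / (1 - q)), hq0, hq1, by positivity, fun m₀ => ?_⟩
  -- the threshold
  have hev : ∀ᶠ T : ℝ in atTop, C * T ^ (-(k * g / 2)) ≤ q ^ m₀ ∧ (m₀ : ℝ) ≤ k * Real.log T := by
    have h1 : Tendsto (fun T : ℝ => C * T ^ (-(k * g / 2))) atTop (𝓝 (C * 0)) :=
      (tendsto_rpow_neg_atTop (by positivity)).const_mul C
    rw [mul_zero] at h1
    have h2 : Tendsto (fun T : ℝ => k * Real.log T) atTop atTop :=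
      Real.tendsto_log_atTop.const_mul_atTop hk
    filter_upwards [h1.eventually_le_const (by positivity : (0 : ℝ) < q ^ m₀),
      h2.eventually_ge_atTop (m₀ : ℝ)] with T h3 h4
    exact ⟨h3, h4⟩
  obtain ⟨T₁, hT₁⟩ := eventually_atTop.1 hev
  refine ⟨max T₀ T₁, hT₀.trans (le_max_left _ _), fun T hT => ?_⟩
  have hTT₀ : T₀ ≤ T := (le_max_left _ _).trans hT
  obtain ⟨hsm, hm₀⟩ := hT₁ T ((le_max_right _ _).trans hT)
  have hT2 : 2 ≤ T := hT₀.trans hTT₀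
  have hT0 : 0 < T := by linarith
  obtain ⟨M, hM1, hM2, hM3⟩ := hs T hTT₀
  have hM0 : (0 : ℝ) < 2 ^ M := by positivity
  have hmM : m₀ ≤ M := by exact_mod_cast hm₀.trans hM1
  have hTM : T / 2 ^ M ≤ T := div_le_self hT0.le (one_le_pow₀ (by norm_num))
  set S : ℝ := T / 2 ^ m₀ with hS
  have hS0 : 0 < S := by positivity
  have hSM : S / 2 ^ (M - m₀) = T / 2 ^ M := by
    rw [hS, div_div, ← pow_add]
    congr 2
    omega
  have hterm : ∀ i ∈ Finset.range (M - m₀),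
      ∫⁻ ρ in Ioc (S / 2 ^ (i + 1)) (2 * (S / 2 ^ (i + 1))),
        ENNReal.ofReal (ρ ^ (2 * σ - 1) * PP w T ρ) ≤
      ENNReal.ofReal (K * q ^ m₀ * T ^ (2 * σ) * q ^ i) := by
    intro i hi
    have hi' := Finset.mem_range.1 hi
    set m : ℕ := m₀ + i with hm
    have hm' : m < M := by omega
    have hSm : S / 2 ^ (i + 1) = T / 2 ^ (m + 1) := by
      rw [hS, div_div, ← pow_add]
      congr 2
    rw [hSm]
    set R : ℝ := T / 2 ^ (m + 1) with hR
    have hR0 : 0 < R := by positivity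
    have e1 : T / R = 2 ^ (m + 1) := by
      rw [hR]; field_simp
    have h1 := (hb R T hR0 (by
      rw [hR]
      have : (1 : ℝ) ≤ 2 ^ m := one_le_pow₀ (by norm_num)
      rw [pow_succ, mul_div_assoc', div_le_iff₀ (by positivity)]
      nlinarith) (by rw [e1]; exact hM3 m hm')).2
    refine h1.trans (ENNReal.ofReal_le_ofReal ?_)
    rw [e1]
    have e2 : R ^ (2 * σ) * ((2 : ℝ) ^ (m + 1)) ^ p = T ^ (2 * σ) * q ^ (m + 1) := by
      have e3 : R ^ (2 * σ) = T ^ (2 * σ) * ((2 : ℝ) ^ (m + 1)) ^ (-(2 * σ)) := by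
        rw [hR, Real.div_rpow hT0.le (by positivity), Real.rpow_neg (by positivity),
          div_eq_mul_inv]
      have e4 : q ^ (m + 1) = ((2 : ℝ) ^ (m + 1)) ^ (-(2 * σ - p)) := by
        rw [hq, ← Real.rpow_natCast, ← Real.rpow_natCast, ← Real.rpow_mul (by norm_num),
          ← Real.rpow_mul (by norm_num), mul_comm]
      rw [e3, e4, mul_assoc, ← Real.rpow_natCast (((2 : ℝ) ^ (m + 1))) p,
        ← Real.rpow_add (by positivity)]
      congr 2
      ring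
    rw [e2]
    have h5 : q ^ (m + 1) ≤ q ^ m₀ * q ^ i := by
      rw [← pow_add, ← hm, pow_succ]
      have : 0 < q ^ m := by positivity
      nlinarith
    calc K * (T ^ (2 * σ) * q ^ (m + 1)) ≤ K * (T ^ (2 * σ) * (q ^ m₀ * q ^ i)) := by gcongr
      _ = _ := by ring
  have hsum : ∑ i ∈ Finset.range (M - m₀), ENNReal.ofReal (K * q ^ m₀ * T ^ (2 * σ) * q ^ i) ≤
      ENNReal.ofReal (K * (1 / (1 - q)) * q ^ m₀ * T ^ (2 * σ)) := by
    rw [← ENNReal.ofReal_sum_of_nonneg (fun m _ => by positivity), ← Finset.mul_sum]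
    apply ENNReal.ofReal_le_ofReal
    have h5 : ∑ m ∈ Finset.range (M - m₀), q ^ m ≤ 1 / (1 - q) := by
      rw [one_div, ← tsum_geometric_of_lt_one hq0.le hq1]
      exact (summable_geometric_of_lt_one hq0.le hq1).sum_le_tsum _ (fun m _ => by positivity)
    calc _ ≤ K * q ^ m₀ * T ^ (2 * σ) * (1 / (1 - q)) := by gcongr
      _ = _ := by ring
  have hfirst : ∫⁻ ρ in Ioc 1 (T / 2 ^ M), ENNReal.ofReal (ρ ^ (2 * σ - 1) * PP w T ρ) ≤
      ENNReal.ofReal (q ^ m₀ * T ^ (2 * σ)) := by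
    calc _ ≤ ∫⁻ ρ in Ioc 1 (T / 2 ^ M), ENNReal.ofReal ((T / 2 ^ M) ^ g) *
          ENNReal.ofReal (ρ ^ (2 * σ' - 1) * PP w T ρ) := by
          refine setLIntegral_mono' measurableSet_Ioc fun ρ hρ => ?_
          have hρ0 : 0 < ρ := by linarith [hρ.1]
          rw [← ENNReal.ofReal_mul (by positivity)]
          apply ENNReal.ofReal_le_ofReal
          have h1 : ρ ^ (2 * σ - 1) = ρ ^ g * ρ ^ (2 * σ' - 1) := by
            rw [← Real.rpow_add hρ0]
            congr 1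
            rw [hg]; ring
          have h2 : ρ ^ g ≤ (T / 2 ^ M) ^ g := Real.rpow_le_rpow hρ0.le hρ.2 hg0.le
          have h3 := PP_nonneg w T ρ
          rw [h1]
          calc _ ≤ (T / 2 ^ M) ^ g * ρ ^ (2 * σ' - 1) * PP w T ρ := by gcongr
            _ = _ := by ring
      _ = ENNReal.ofReal ((T / 2 ^ M) ^ g) * ∫⁻ ρ in Ioc 1 (T / 2 ^ M),
          ENNReal.ofReal (ρ ^ (2 * σ' - 1) * PP w T ρ) :=
          lintegral_const_mul' _ _ ENNReal.ofReal_ne_top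
      _ ≤ ENNReal.ofReal ((T / 2 ^ M) ^ g) * FT w σ' T :=
          mul_le_mul_right (lintegral_mono_set (Set.Ioc_subset_Ioc_right hTM)) _
      _ ≤ ENNReal.ofReal ((T / 2 ^ M) ^ g) * ENNReal.ofReal (C * T ^ (2 * σ' + k * g / 2)) :=
          mul_le_mul_right (hH' T hT2) _
      _ ≤ _ := by
          rw [← ENNReal.ofReal_mul (by positivity)]
          apply ENNReal.ofReal_le_ofReal
          have h1 : (T / 2 ^ M) ^ g ≤ T ^ (g - k * g) := by
            have h2 : T / 2 ^ M ≤ T ^ (1 - k) := by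
              rw [Real.rpow_sub hT0, Real.rpow_one]
              gcongr
            calc (T / 2 ^ M) ^ g ≤ (T ^ (1 - k)) ^ g :=
                  Real.rpow_le_rpow (by positivity) h2 hg0.le
              _ = _ := by
                  rw [← Real.rpow_mul hT0.le]
                  congr 1
                  ring
          calc (T / 2 ^ M) ^ g * (C * T ^ (2 * σ' + k * g / 2)) ≤
              T ^ (g - k * g) * (C * T ^ (2 * σ' + k * g / 2)) := by gcongr
            _ = C * (T ^ (g - k * g) * T ^ (2 * σ' + k * g / 2)) := by ring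
            _ = C * T ^ (-(k * g / 2)) * T ^ (2 * σ) := by
                rw [← Real.rpow_add hT0, mul_assoc C, ← Real.rpow_add hT0]
                congr 2
                rw [hg]; ring
            _ ≤ _ := by gcongr
  have hsub : Ioc 1 S ⊆ Ioc 1 (T / 2 ^ M) ∪ Ioc (T / 2 ^ M) S := by
    intro ρ hρ
    rcases le_or_gt ρ (T / 2 ^ M) with h | h
    · exact Or.inl ⟨hρ.1, h⟩
    · exact Or.inr ⟨h, hρ.2⟩
  calc ∫⁻ ρ in Ioc 1 S, ENNReal.ofReal (ρ ^ (2 * σ - 1) * PP w T ρ) ≤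
        ∫⁻ ρ in Ioc 1 (T / 2 ^ M) ∪ Ioc (T / 2 ^ M) S,
        ENNReal.ofReal (ρ ^ (2 * σ - 1) * PP w T ρ) := lintegral_mono_set hsub
    _ ≤ (∫⁻ ρ in Ioc 1 (T / 2 ^ M), ENNReal.ofReal (ρ ^ (2 * σ - 1) * PP w T ρ)) +
        ∫⁻ ρ in Ioc (T / 2 ^ M) S, ENNReal.ofReal (ρ ^ (2 * σ - 1) * PP w T ρ) :=
        lintegral_union_le _ _ _
    _ ≤ ENNReal.ofReal (q ^ m₀ * T ^ (2 * σ)) +
        ENNReal.ofReal (K * (1 / (1 - q)) * q ^ m₀ * T ^ (2 * σ)) := by
        refine add_le_add hfirst ?_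
        rw [← hSM, dyad _ hS0 (M - m₀)]
        exact (Finset.sum_le_sum hterm).trans hsum
    _ = _ := by
        rw [← ENNReal.ofReal_add (by positivity) (by positivity)]
        congr 1
        ring

end Pool.Agent.H312.Eq
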