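import Pool.Agent.H312.Eq.Near

set_option autoImplicit false

/-!
# The bound on the edge implies the Diophantine condition
-/

namespace Pool.Agent.H312.Eq

open Finset Filter Topology MeasureTheory Complex Set
open Pool.Agent.H131R5.BZ Pool.Agent.Y930.Bz Pool.Agent.Y616.BM Pool.Agent.H312.Barnes
open Pool.Agent.H312.Sh Pool.Agent.H312.Ex Pool.Agent.H312.Lb

variable {r d : ℕ}

/-- the bound on the edge implies the Diophantine condition -/
theorem dio_of_edge {v : Fin d → ℝ} (B : Fin r → Fin d → ℚ)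
    {w : Fin r → ℝ} (hwB : w = (rm B).mulVec v) (hw : ∀ j, 0 < w j)
    (hσ : 1 / 2 ≤ (r : ℝ) - d / 2)
    (hH : ∀ ε : ℝ, 0 < ε → ∃ C : ℝ, 0 ≤ C ∧ ∀ T : ℝ, 2 ≤ T →
      FT w ((r : ℝ) - d / 2) T ≤ ENNReal.ofReal (C * T ^ (2 * ((r : ℝ) - d / 2) + ε))) :
    ∃ c τ : ℝ, 0 < c ∧ 0 < τ ∧ LinDio w c τ := by
  obtain ⟨q, hq, b, hb⟩ := denom B
  have hq' : (0 : ℝ) < q := by exact_mod_cast hq
  set Q : ℕ := 1 + ∑ j, ∑ i, (b j i).natAbs with hQ
  have hQ1 : 1 ≤ Q := by omega
  have hQb : ∀ i, ∑ j, |b j i| ≤ (Q : ℤ) := by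
    intro i
    have h1 : ∑ j, (b j i).natAbs ≤ ∑ j, ∑ i, (b j i).natAbs := Finset.sum_le_sum fun j _ =>
      Finset.single_le_sum (f := fun i => (b j i).natAbs) (fun _ _ => Nat.zero_le _)
        (Finset.mem_univ i)
    have h2 : ∑ j, |b j i| = ((∑ j, (b j i).natAbs : ℕ) : ℤ) := by
      push_cast
      exact Finset.sum_congr rfl fun j _ => by rw [Int.abs_eq_natAbs]
    rw [h2]
    exact_mod_cast (by omega : ∑ j, (b j i).natAbs ≤ Q)
  set W : ℝ := ∑ j, w j with hW
  have hW0 : 0 ≤ W := Finset.sum_nonneg fun j _ => (hw j).le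
  set ε : ℝ := 1 / (2 * ((d : ℝ) + 1)) with hε
  have hε0 : 0 < ε := by positivity
  have hε1 : ((d : ℝ) + 1) * ε = 1 / 2 := by
    rw [hε]
    field_simp
  obtain ⟨C, hC, hup⟩ := int_up hw hσ hH hε0
  set K : ℝ := (3 * Q) * (5 * Q ^ 2) ^ (d - 1) with hK
  have hQ' : (1 : ℝ) ≤ Q := by exact_mod_cast hQ1
  have hK0 : 0 < K := by positivity
  set E : ℝ := Real.exp (-(2 * W)) with hE
  have hE0 : 0 < E := Real.exp_pos _
  obtain ⟨A, hA⟩ := exists_nat_gt (1 + (32 * E⁻¹ * K * C) ^ 2)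
  have hA1 : (1 : ℝ) < A := by
    have : 0 < (32 * E⁻¹ * K * C) ^ 2 := by positivity
    linarith
  have hAN : 1 ≤ A := by exact_mod_cast hA1.le
  have hA2 : (32 * E⁻¹ * K * C) ^ 2 < A := by linarith
  set c : ℝ := 1 / (32 * Q * (A : ℝ) ^ (d + 1)) with hc
  set τ : ℝ := ((2 * d * (d + 1) + 1 : ℕ) : ℝ) with hτ
  refine ⟨c, τ, by positivity, by positivity, fun n hn => ?_⟩
  by_contra hcon
  push Not at hcon
  set N : ℕ := 1 + ∑ j, (n j).natAbs with hN
  have hN1 : 1 ≤ N := by omega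
  have hNn : ∀ j, |n j| ≤ (N : ℤ) := by
    intro j
    have h1 : (n j).natAbs ≤ ∑ j, (n j).natAbs :=
      Finset.single_le_sum (f := fun j => (n j).natAbs) (fun _ _ => Nat.zero_le _)
        (Finset.mem_univ j)
    rw [Int.abs_eq_natAbs]
    exact_mod_cast (by omega : (n j).natAbs ≤ N)
  have hNr : (N : ℝ) = 1 + ∑ j, |(n j : ℝ)| := by
    rw [hN]
    push_cast
    congr 1
    refine Finset.sum_congr rfl fun j _ => ?_
    rw [Nat.cast_natAbs]
    push_cast
    rfl
  rw [← hNr] at hcon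
  have hN1' : (1 : ℝ) ≤ N := by exact_mod_cast hN1
  -- the nonzero coordinate
  have hfl : ∀ m : Fin r → ℤ, (q : ℝ) * ∑ j, (m j : ℝ) * w j =
      ∑ i, ((∑ j, m j * b j i : ℤ) : ℝ) * v i := by
    intro m
    rw [hwB]
    simp only [rm, Matrix.mulVec, dotProduct, Matrix.of_apply]
    push_cast
    simp only [Finset.sum_mul, Finset.mul_sum]
    rw [Finset.sum_comm]
    refine Finset.sum_congr rfl fun i _ => Finset.sum_congr rfl fun j _ => ?_
    rw [← hb]
    ring
  obtain ⟨i₀, hi₀⟩ : ∃ i₀ : Fin d, ∑ j, n j * b j i₀ ≠ 0 := by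
    by_contra hall
    push Not at hall
    have h1 := hfl n
    simp only [hall, Int.cast_zero, zero_mul, Finset.sum_const_zero] at h1
    rcases mul_eq_zero.1 h1 with h2 | h2
    · exact hq'.ne' h2
    · exact hn h2
  have hd1 : 1 ≤ d := by
    have := i₀.isLt
    omega
  set X : ℕ := A * N ^ (2 * d) with hX
  have hX1 : 1 ≤ X := Nat.one_le_iff_ne_zero.2 (by positivity)
  have hX1' : (1 : ℝ) ≤ X := by exact_mod_cast hX1
  have hX0 : (0 : ℝ) < X := by linarith
  obtain ⟨P, hP1, hP2⟩ := near b Q hQ1 hQb n N hN1 hNn hi₀ X hX1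
  obtain ⟨M, hM1, hM2⟩ := exists_nat_pow_near (x := (X : ℝ) ^ d) (y := 2) (one_le_pow₀ hX1')
    (by norm_num)
  set R : ℝ := 2 ^ (M + 1) with hR
  have hR1 : (X : ℝ) ^ d ≤ R := hM2.le
  have hR2 : R ≤ 2 * (X : ℝ) ^ d := by
    rw [hR, pow_succ]
    linarith
  have hR0 : 0 < R := by positivity
  have hx0 : (0 : ℝ) < 1 / X := by positivity
  have hx1 : (1 : ℝ) / X ≤ 1 := by
    rw [div_le_one hX0]
    exact hX1'
  -- the small linear form
  have hsmall : 32 * Q * (X : ℝ) ^ (d + 1) * |∑ j, (n j : ℝ) * w j| ≤ 1 := by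
    have e1 : (X : ℝ) ^ (d + 1) = (A : ℝ) ^ (d + 1) * (N : ℝ) ^ (2 * d * (d + 1)) := by
      rw [hX]
      push_cast
      rw [mul_pow, ← pow_mul]
    have e2 : (N : ℝ) ^ (-τ) = ((N : ℝ) ^ (2 * d * (d + 1) + 1))⁻¹ := by
      rw [Real.rpow_neg (by linarith), hτ, Real.rpow_natCast]
    have e3 : (N : ℝ) ^ (2 * d * (d + 1)) * ((N : ℝ) ^ (2 * d * (d + 1) + 1))⁻¹ ≤ 1 := by
      rw [← div_eq_mul_inv, div_le_one (by positivity)]
      exact pow_le_pow_right₀ hN1' (by omega)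
    calc 32 * Q * (X : ℝ) ^ (d + 1) * |∑ j, (n j : ℝ) * w j| ≤
        32 * Q * (X : ℝ) ^ (d + 1) * (c * (N : ℝ) ^ (-τ)) := by gcongr
      _ = (N : ℝ) ^ (2 * d * (d + 1)) * ((N : ℝ) ^ (2 * d * (d + 1) + 1))⁻¹ := by
          rw [e1, e2, hc]
          have hA0 : (0 : ℝ) < A := by linarith
          field_simp
      _ ≤ 1 := e3
  have hPdf : ∀ p ∈ P, |df w p| * R ≤ 1 / 8 := by
    intro p hp
    obtain ⟨-, -, s, hs, hsk⟩ := hP2 p hp
    have h1 : df w p = s * ∑ j, (n j : ℝ) * w j := by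
      have h2 := hfl fun j => (p.1 j : ℤ) - p.2 j
      have h3 := hfl n
      have h4 : (q : ℝ) * df w p = q * (s * ∑ j, (n j : ℝ) * w j) := by
        have h5 : ∑ j, (((p.1 j : ℤ) - p.2 j : ℤ) : ℝ) * w j = df w p := by
          unfold df lam
          rw [zero_add, zero_add, ← Finset.sum_sub_distrib]
          refine Finset.sum_congr rfl fun j _ => ?_
          push_cast
          ring
        rw [h5] at h2
        rw [h2]
        simp only [hsk]
        push_cast
        rw [mul_left_comm, h3]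
        push_cast
        rw [Finset.mul_sum]
        exact Finset.sum_congr rfl fun i _ => by ring
      exact mul_left_cancel₀ hq'.ne' h4
    rw [h1, abs_mul]
    have h6 : |(s : ℝ)| ≤ 2 * (X * Q) := by
      have : ((|s| : ℤ) : ℝ) ≤ ((2 * (X * Q) : ℤ) : ℝ) := by exact_mod_cast hs
      push_cast at this
      exact this
    have h7 := abs_nonneg (∑ j, (n j : ℝ) * w j)
    calc |(s : ℝ)| * |∑ j, (n j : ℝ) * w j| * R ≤
        (2 * (X * Q)) * |∑ j, (n j : ℝ) * w j| * (2 * (X : ℝ) ^ d) := by gcongr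
      _ = (32 * Q * (X : ℝ) ^ (d + 1) * |∑ j, (n j : ℝ) * w j|) / 8 := by
          rw [pow_succ]
          ring
      _ ≤ 1 / 8 := by linarith
  have hlow := fej_lower hw hx0 hR0 P hPdf
  have hhigh := hup (1 / X) (M + 1) hx0 hx1
  rw [← hR] at hhigh
  have hcomb := hlow.trans hhigh
  have hew : (P.card : ℝ) * E ≤ ∑ p ∈ P, ew w (1 / X) p := by
    calc (P.card : ℝ) * E = ∑ _p ∈ P, E := by
          rw [Finset.sum_const, nsmul_eq_mul]
      _ ≤ _ := by
          refine Finset.sum_le_sum fun p hp => ?_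
          obtain ⟨h1, h2, -⟩ := hP2 p hp
          have hlam : ∀ m : Fin r → ℕ, (∀ j, m j ≤ X) → lam 0 w m ≤ X * W := by
            intro m hm
            unfold lam
            rw [zero_add, hW, Finset.mul_sum]
            refine Finset.sum_le_sum fun j _ => ?_
            have h2 : (m j : ℝ) ≤ X := by exact_mod_cast hm j
            have := (hw j).le
            gcongr
          rw [hE]
          unfold ew
          apply Real.exp_le_exp.2
          have h3 := hlam p.1 h1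
          have h4 := hlam p.2 h2
          have h5 : (lam 0 w p.1 + lam 0 w p.2) * (1 / X) ≤ (2 * (X * W)) * (1 / X) :=
            mul_le_mul_of_nonneg_right (by linarith) hx0.le
          have h6 : 2 * (X * W) * (1 / X) = 2 * W := by field_simp
          rw [h6] at h5
          linarith
  have hpow : ∀ u : ℝ, (1 / (X : ℝ)) ^ (-u) = (X : ℝ) ^ u := by
    intro u
    rw [one_div, Real.inv_rpow hX0.le, Real.rpow_neg hX0.le, inv_inv]
  rw [hpow, hpow] at hcomb
  have h2 : R / 8 * ((P.card : ℝ) * E) ≤ C * ((X : ℝ) ^ (2 * (r : ℝ)) +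
      R ^ (1 + ε) * (X : ℝ) ^ (2 * ((r : ℝ) - d / 2) + ε)) := by
    refine le_trans ?_ hcomb
    gcongr
  have h1 : (X : ℝ) ^ (2 * r) ≤ K * (N : ℝ) ^ d * (X : ℝ) ^ (d - 1) * (P.card : ℝ) := by
    have h3 : (((X + 1) ^ (2 * r) : ℕ) : ℝ) ≤
        (((3 * Q * N) * (5 * Q ^ 2 * N * X) ^ (d - 1) * P.card : ℕ) : ℝ) := by exact_mod_cast hP1
    push_cast at h3
    calc (X : ℝ) ^ (2 * r) ≤ ((X : ℝ) + 1) ^ (2 * r) := by
          apply pow_le_pow_left₀ hX0.le
          linarith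
      _ ≤ _ := h3
      _ = _ := by
          have e1 : (N : ℝ) ^ d = N * (N : ℝ) ^ (d - 1) := by
            rw [← pow_succ']
            congr 1
            omega
          rw [e1, hK, mul_pow (5 * (Q : ℝ) ^ 2 * N) (X : ℝ), mul_pow (5 * (Q : ℝ) ^ 2) (N : ℝ)]
          ring
  have hfin := num_aux (E := E) hX1' hN1' hC hK0 hE0 hd1 hε0 hε1 hR1 hR2 h1 h2
  have h3 : (X : ℝ) = A * (N : ℝ) ^ (2 * d) := by
    rw [hX]
    push_cast
    rfl
  rw [h3] at hfin
  have h4 := le_of_mul_le_mul_right hfin (by positivity)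
  linarith

/-- the version for all weights -/
theorem dio_of_edge_span {w : Fin r → ℝ} (hr : 1 ≤ r) (hw : ∀ j, 0 < w j)
    (hH : ∀ ε : ℝ, 0 < ε → ∃ C : ℝ, 0 ≤ C ∧ ∀ T : ℝ, 2 ≤ T →
      FT w ((r : ℝ) - (Module.finrank ℚ (Submodule.span ℚ (Set.range w)) : ℝ) / 2) T ≤
        ENNReal.ofReal (C * T ^ (2 * ((r : ℝ) -
          (Module.finrank ℚ (Submodule.span ℚ (Set.range w)) : ℝ) / 2) + ε))) :
    ∃ c τ : ℝ, 0 < c ∧ 0 < τ ∧ LinDio w c τ := by
  have hfd : Module.Finite ℚ (Submodule.span ℚ (Set.range w)) :=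
    FiniteDimensional.span_of_finite ℚ (Set.finite_range w)
  set d : ℕ := Module.finrank ℚ (Submodule.span ℚ (Set.range w)) with hd
  let b : Module.Basis (Fin d) ℚ (Submodule.span ℚ (Set.range w)) := Module.finBasis ℚ _
  set v : Fin d → ℝ := fun i => ((b i : Submodule.span ℚ (Set.range w)) : ℝ) with hv
  have hvi : LinearIndependent ℚ v := by
    have h1 := b.linearIndependent.map' (Submodule.subtype _) (Submodule.ker_subtype _)
    exact h1
  have hspan : Submodule.span ℚ (Set.range w) = Submodule.span ℚ (Set.range v) := by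
    have h1 : Set.range v = (Submodule.subtype (Submodule.span ℚ (Set.range w))) '' (Set.range b) := by
      rw [← Set.range_comp]
      rfl
    rw [h1, ← Submodule.map_span, b.span_eq, Submodule.map_top, Submodule.range_subtype]
  obtain ⟨B, e, he, hdet, hwB⟩ := lin hvi hspan
  have hdr : d ≤ r := by
    simpa using Fintype.card_le_of_injective e he
  have hdr' : (d : ℝ) ≤ r := by exact_mod_cast hdr
  have hr' : (1 : ℝ) ≤ r := by exact_mod_cast hr
  exact dio_of_edge B hwB hw (by linarith) hH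

end Pool.Agent.H312.Eq
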