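import Pool.Agent.H312.Eq.Tr

set_option autoImplicit false

/-!
# A bound which is uniform in the shift: the kernel
-/

namespace Pool.Agent.H312.Eq

open Finset Filter Topology MeasureTheory Complex Set Asymptotics FourierTransform
open Pool.Agent.H131R5.BZ Pool.Agent.Y930.Bz Pool.Agent.Y616.BM Pool.Agent.H312.Barnes
open Pool.Agent.H312.Sh Pool.Agent.H312.Ex Pool.Agent.H312.Lb

variable {r : ℕ} {w : Fin r → ℝ}

lemma Pol_le2 (r : ℕ) (b : ℕ → ℂ) {ρ : ℝ} (hρ : 0 < ρ) : ∃ C : ℝ, 0 ≤ C ∧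
    ∀ z : ℂ, ρ ≤ ‖z‖ → ‖Pol r b z‖ ≤ C * Real.exp (-z.re) * ‖z‖⁻¹ := by
  refine ⟨∑ k ∈ range r, ‖b k‖ * (ρ ^ (r - k - 1))⁻¹, by positivity, fun z hz => ?_⟩
  have hz0 : 0 < ‖z‖ := hρ.trans_le hz
  unfold Pol
  rw [norm_mul, Complex.norm_exp, neg_re, mul_comm, mul_right_comm]
  refine mul_le_mul_of_nonneg_right ?_ (Real.exp_pos _).le
  rw [Finset.sum_mul]
  refine (norm_sum_le _ _).trans (Finset.sum_le_sum fun k hk => ?_)
  have hk' := Finset.mem_range.1 hk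
  rw [norm_mul, norm_inv, norm_pow]
  have e1 : ‖z‖ ^ (r - k) = ‖z‖ ^ (r - k - 1) * ‖z‖ := by
    rw [← pow_succ]
    congr 1
    omega
  rw [e1, mul_inv, mul_assoc]
  gcongr

/-- the square integral of the regularised kernel, with a better error term -/
theorem S_le2 {a : ℝ} {b : ℕ → ℂ} {ρ C₀ : ℝ} (hρ : 0 < ρ)
    (hρ1 : ρ ≤ 1) (h0 : ∀ z : ℂ, z ≠ 0 → ‖z‖ ≤ ρ → ‖Kt a w b z‖ ≤ C₀) {σ δ : ℝ}
    (hδ : 0 < δ) (hδ2 : δ ≤ 2) (hδσ : δ < 2 * σ) :
    ∃ C : ℝ, 0 ≤ C ∧ ∀ η : ℝ, 0 < η → η ≤ 1 →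
      ∫⁻ u, ‖kth a w b σ (Real.pi / 2 - η) u‖ₑ ^ 2 ≤
        ENNReal.ofReal (C * η ^ (-(2 * σ - δ))) + 2 * JJ a w σ (-Real.log ρ) η := by
  obtain ⟨C₁, hC₁, hP⟩ := Pol_le2 r b hρ
  obtain ⟨G, hG0, hG⟩ := gf_lint_scale (σ := 2 * σ - δ) (c := 1) (by linarith) one_pos
  have hlρ : 0 ≤ -Real.log ρ := by
    have := Real.log_nonpos hρ.le hρ1
    linarith
  set B : ℝ := Real.exp ((2 - δ) * (-Real.log ρ)) with hB
  set K : ℝ := C₀ ^ 2 * Real.exp 1 + 2 * C₁ ^ 2 * B with hK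
  refine ⟨K * G, by positivity, fun η hη hη1 => ?_⟩
  set θ : ℝ := Real.pi / 2 - η with hθ
  have hpt : ∀ u : ℝ, ‖kth a w b σ θ u‖ₑ ^ 2 ≤ ENNReal.ofReal (K * gf (2 * σ - δ) (1 * η) u) +
      (Iic (-Real.log ρ)).indicator (fun u : ℝ => 2 * (‖KK a w (cexp (-(u : ℂ) +
        ((Real.pi / 2 - η : ℝ) : ℂ) * I))‖ₑ ^ 2 * ENNReal.ofReal (Real.exp (-(2 * σ) * u)))) u := by
    intro u
    set z : ℂ := cexp (-(u : ℂ) + (θ : ℂ) * I) with hz
    have hz0 : z ≠ 0 := Complex.exp_ne_zero _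
    have hzn : ‖z‖ = Real.exp (-u) := exp_norm u θ
    have hzr : z.re = Real.exp (-u) * Real.sin η := by
      rw [hz, Pool.Agent.Y616.BM.exp_re, hθ, Real.cos_pi_div_two_sub]
    have hk : ‖kth a w b σ θ u‖ₑ ^ 2 = ENNReal.ofReal (Real.exp (-(2 * σ) * u)) *
        ‖Kt a w b z‖ₑ ^ 2 := by
      unfold kth
      rw [enorm_smul, mul_pow]
      congr 1
      rw [Real.enorm_eq_ofReal (Real.exp_pos _).le, ← ENNReal.ofReal_pow (Real.exp_pos _).le,
        ← Real.exp_nat_mul]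
      congr 2
      push_cast; ring
    rw [hk]
    have he : 0 < Real.exp (-(2 * σ) * u) := Real.exp_pos _
    by_cases hu : u ≤ -Real.log ρ
    · rw [Set.indicator_of_mem (show u ∈ Iic (-Real.log ρ) from hu)]
      have h1 : ρ ≤ ‖z‖ := by
        rw [hzn]
        calc ρ = Real.exp (Real.log ρ) := (Real.exp_log hρ).symm
          _ ≤ Real.exp (-u) := Real.exp_le_exp.2 (by linarith)
      have h2 := hP z h1
      have h3 : ‖Kt a w b z‖ₑ ^ 2 ≤ 2 * ‖KK a w z‖ₑ ^ 2 + 2 * ‖Pol r b z‖ₑ ^ 2 :=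
        enorm_sub_sq _ _
      have h4 : ENNReal.ofReal (Real.exp (-(2 * σ) * u)) * (2 * ‖Pol r b z‖ₑ ^ 2) ≤
          ENNReal.ofReal (K * gf (2 * σ - δ) (1 * η) u) := by
        have h5 : (2 : ENNReal) * ‖Pol r b z‖ₑ ^ 2 = ENNReal.ofReal (2 * ‖Pol r b z‖ ^ 2) := by
          rw [ENNReal.ofReal_mul (by norm_num), ENNReal.ofReal_pow (norm_nonneg _), ofReal_norm]
          simp
        rw [h5, ← ENNReal.ofReal_mul he.le]
        apply ENNReal.ofReal_le_ofReal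
        have h6 : ‖Pol r b z‖ ^ 2 ≤ C₁ ^ 2 * Real.exp (-(1 * η) * Real.exp (-u)) *
            Real.exp (2 * u) := by
          calc ‖Pol r b z‖ ^ 2 ≤ (C₁ * Real.exp (-z.re) * ‖z‖⁻¹) ^ 2 :=
                pow_le_pow_left₀ (norm_nonneg _) h2 2
            _ = C₁ ^ 2 * Real.exp (-(2 * z.re)) * Real.exp (2 * u) := by
                rw [hzn, ← Real.exp_neg, neg_neg, mul_pow, mul_pow, ← Real.exp_nat_mul,
                  ← Real.exp_nat_mul]
                congr 2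
                congr 1
                push_cast; ring
            _ ≤ _ := by
                refine mul_le_mul_of_nonneg_right ?_ (Real.exp_pos _).le
                refine mul_le_mul_of_nonneg_left ?_ (by positivity)
                apply Real.exp_le_exp.2
                rw [hzr]
                have h7 := sin_ge hη.le hη1
                have h8 := Real.exp_pos (-u)
                nlinarith
        have h7 : Real.exp (-(2 * σ) * u) * Real.exp (2 * u) ≤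
            B * Real.exp (-(2 * σ - δ) * u) := by
          rw [hB, ← Real.exp_add, ← Real.exp_add]
          apply Real.exp_le_exp.2
          nlinarith
        unfold gf
        calc Real.exp (-(2 * σ) * u) * (2 * ‖Pol r b z‖ ^ 2)
            ≤ Real.exp (-(2 * σ) * u) * (2 * (C₁ ^ 2 * Real.exp (-(1 * η) * Real.exp (-u)) *
              Real.exp (2 * u))) := by
              gcongr
          _ = 2 * C₁ ^ 2 * Real.exp (-(1 * η) * Real.exp (-u)) *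
              (Real.exp (-(2 * σ) * u) * Real.exp (2 * u)) := by ring
          _ ≤ 2 * C₁ ^ 2 * Real.exp (-(1 * η) * Real.exp (-u)) *
              (B * Real.exp (-(2 * σ - δ) * u)) := by gcongr
          _ = 2 * C₁ ^ 2 * B *
              (Real.exp (-(1 * η) * Real.exp (-u)) * Real.exp (-(2 * σ - δ) * u)) := by
              ring
          _ ≤ _ := by
              refine mul_le_mul_of_nonneg_right ?_ (by positivity)
              rw [hK]
              have : 0 ≤ C₀ ^ 2 * Real.exp 1 := by positivity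
              linarith
      calc _ ≤ ENNReal.ofReal (Real.exp (-(2 * σ) * u)) *
            (2 * ‖KK a w z‖ₑ ^ 2 + 2 * ‖Pol r b z‖ₑ ^ 2) := by gcongr
        _ = ENNReal.ofReal (Real.exp (-(2 * σ) * u)) * (2 * ‖Pol r b z‖ₑ ^ 2) +
            2 * (‖KK a w z‖ₑ ^ 2 * ENNReal.ofReal (Real.exp (-(2 * σ) * u))) := by ring
        _ ≤ _ := by gcongr
    · rw [Set.indicator_of_notMem (show u ∉ Iic (-Real.log ρ) from hu), add_zero]
      have hu' : -Real.log ρ < u := lt_of_not_ge hu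
      have h1 : ‖z‖ ≤ ρ := by
        rw [hzn]
        calc Real.exp (-u) ≤ Real.exp (Real.log ρ) := Real.exp_le_exp.2 (by linarith)
          _ = ρ := Real.exp_log hρ
      have h2 := h0 z hz0 h1
      have h5 : ‖Kt a w b z‖ₑ ^ 2 = ENNReal.ofReal (‖Kt a w b z‖ ^ 2) := by
        rw [ENNReal.ofReal_pow (norm_nonneg _), ofReal_norm]
      rw [h5, ← ENNReal.ofReal_mul he.le]
      apply ENNReal.ofReal_le_ofReal
      have h6 : ‖Kt a w b z‖ ^ 2 ≤ C₀ ^ 2 := pow_le_pow_left₀ (norm_nonneg _) h2 2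
      have h7 : 1 ≤ Real.exp 1 * Real.exp (-(1 * η) * Real.exp (-u)) := by
        rw [← Real.exp_add]
        apply Real.one_le_exp
        have h8 : Real.exp (-u) ≤ 1 := by rw [← hzn]; linarith
        have h9 := Real.exp_pos (-u)
        nlinarith
      have h8 : Real.exp (-(2 * σ) * u) ≤ Real.exp (-(2 * σ - δ) * u) := by
        apply Real.exp_le_exp.2
        nlinarith
      unfold gf
      calc Real.exp (-(2 * σ) * u) * ‖Kt a w b z‖ ^ 2
          ≤ Real.exp (-(2 * σ - δ) * u) * (C₀ ^ 2 * 1) := by rw [mul_one]; gcongr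
        _ ≤ Real.exp (-(2 * σ - δ) * u) *
            (C₀ ^ 2 * (Real.exp 1 * Real.exp (-(1 * η) * Real.exp (-u)))) := by gcongr
        _ = (C₀ ^ 2 * Real.exp 1) *
            (Real.exp (-(1 * η) * Real.exp (-u)) * Real.exp (-(2 * σ - δ) * u)) := by ring
        _ ≤ _ := by
            refine mul_le_mul_of_nonneg_right ?_ (by positivity)
            rw [hK]
            have : 0 ≤ 2 * C₁ ^ 2 * B := by positivity
            linarith
  have hK0 : 0 ≤ K := by positivity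
  calc _ ≤ ∫⁻ u, (ENNReal.ofReal (K * gf (2 * σ - δ) (1 * η) u) +
      (Iic (-Real.log ρ)).indicator (fun u : ℝ => 2 * (‖KK a w (cexp (-(u : ℂ) +
        ((Real.pi / 2 - η : ℝ) : ℂ) * I))‖ₑ ^ 2 * ENNReal.ofReal (Real.exp (-(2 * σ) * u)))) u) :=
        lintegral_mono hpt
    _ = _ := by
        rw [lintegral_add_left (by
          exact ((gf_cont (2 * σ - δ) (1 * η)).measurable.const_mul K).ennreal_ofReal),
          lintegral_indicator measurableSet_Iic]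
        congr 1
        · have h1 : ∀ u, ENNReal.ofReal (K * gf (2 * σ - δ) (1 * η) u) =
              ENNReal.ofReal K * ENNReal.ofReal (gf (2 * σ - δ) (1 * η) u) := fun u =>
            ENNReal.ofReal_mul hK0
          simp only [h1]
          rw [lintegral_const_mul _ (gf_cont _ _).measurable.ennreal_ofReal, hG η hη,
            ← ENNReal.ofReal_mul hK0]
          congr 1
          ring
        · unfold JJ
          rw [lintegral_const_mul]
          exact ((KK_ray_meas a w η).pow_const 2).mul (by fun_prop)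

/-- the pointwise comparison, with a constant that does not depend on the shift -/
lemma pt_one {σ : ℝ} (hσ : 0 < σ) : ∃ C : ℝ, 0 < C ∧ ∀ (a : ℝ) (c b : ℕ → ℂ) (ρ C₀ : ℝ),
    0 < a → (∀ j, 0 < w j) → Tay a w c → 0 < ρ → ρ ≤ 1 →
    (∀ z : ℂ, z ≠ 0 → ‖z‖ ≤ ρ → ‖Kt a w b z‖ ≤ C₀) → ∀ T t : ℝ, 1 ≤ T → 1 ≤ t →
      kk σ T t * ‖FF a w c ((σ : ℂ) + t * I)‖ ^ 2 ≤
        C * ‖𝓕 (kth a w b σ (Real.pi / 2 - 1 / T)) (t / (2 * Real.pi))‖ ^ 2 +
        2 * (∑ k ∈ range r, ‖b k‖) ^ 2 * (kk σ T t * (t⁻¹) ^ 2) := by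
  obtain ⟨g, hg, hG⟩ := Gamma_lower_line hσ
  refine ⟨2 * (g⁻¹) ^ 2, by positivity, ?_⟩
  intro a c b ρ C₀ ha hw hc hρ hρ1 h0 T t hT ht
  set B := ∑ k ∈ range r, ‖b k‖ with hB
  have hB0 : 0 ≤ B := by positivity
  have hT0 : 0 < T := by linarith
  have ht0 : 0 < t := by linarith
  have hTi : 1 / T ≤ 1 := by rw [div_le_one hT0]; exact hT
  have hTi0 : 0 < 1 / T := by positivity
  set θ : ℝ := Real.pi / 2 - 1 / T with hθ
  have hθ0 : 0 ≤ θ := by
    have := Real.pi_gt_three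
    linarith
  have hθ1 : θ < Real.pi / 2 := by linarith
  have hF := FF_formula ha hw hc hρ hρ1 h0 (s := (σ : ℂ) + t * I) (by simpa using hσ)
    (by simpa using ht0)
  have hRt : ‖Rt r b ((σ : ℂ) + t * I)‖ ≤ B * t⁻¹ := by
    have h := Rt_le' (r := r) b (s := (σ : ℂ) + t * I) (by simpa using ht)
    have h4 : ((σ : ℂ) + t * I).im = t := by simp
    rwa [h4] at h
  have hΓ0 : Gamma ((σ : ℂ) + t * I) ≠ 0 :=
    Complex.Gamma_ne_zero_of_re_pos (by simpa using hσ)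
  set M : ℂ := mellin (fun t : ℝ => Kt a w b t) ((σ : ℂ) + t * I) with hM
  set Γ : ℂ := Gamma ((σ : ℂ) + t * I) with hΓ
  set F : ℂ := FF a w c ((σ : ℂ) + t * I) with hFd
  set Q : ℂ := Rt r b ((σ : ℂ) + t * I) with hQ
  have hfn := four_norm ha hw hρ hρ1 h0 hσ hθ0 hθ1 t
  rw [← hM] at hfn
  set X : ℝ := ‖𝓕 (kth a w b σ θ) (t / (2 * Real.pi))‖ with hX
  have hk : kk σ T t = (t ^ (σ - 1 / 2) * Real.exp (-(Real.pi / 2 * t)) * Real.exp (θ * t)) ^ 2 := by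
    unfold kk
    rw [mul_pow, mul_pow, ← Real.rpow_natCast (t ^ (σ - 1 / 2)), ← Real.rpow_mul ht0.le,
      ← Real.exp_nat_mul, ← Real.exp_nat_mul, mul_assoc, ← Real.exp_add]
    congr 2
    · push_cast; ring
    · push_cast; rw [hθ]; ring
  set Y : ℝ := t ^ (σ - 1 / 2) * Real.exp (-(Real.pi / 2 * t)) * Real.exp (θ * t) with hY
  have hY0 : 0 < Y := by positivity
  have e1 : g * t ^ (σ - 1 / 2) * Real.exp (-(Real.pi / 2 * t)) * Real.exp (θ * t) = g * Y := by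
    rw [hY]; ring
  have l1 : g * Y ≤ ‖Γ‖ * Real.exp (θ * t) := by
    rw [← e1]
    exact mul_le_mul_of_nonneg_right (hG t ht) (Real.exp_pos _).le
  have hΓn : 0 < ‖Γ‖ := norm_pos_iff.2 hΓ0
  have hQ2 : ‖Q‖ ^ 2 ≤ B ^ 2 * (t⁻¹) ^ 2 := by
    rw [← mul_pow]
    exact pow_le_pow_left₀ (norm_nonneg _) hRt 2
  have hsq : ∀ x y : ℂ, ‖x + y‖ ^ 2 ≤ 2 * ‖x‖ ^ 2 + 2 * ‖y‖ ^ 2 := by
    intro x y
    have h1 := norm_add_le x y
    have h2 := norm_nonneg (x + y)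
    have h3 : ‖x + y‖ ^ 2 ≤ (‖x‖ + ‖y‖) ^ 2 := pow_le_pow_left₀ h2 h1 2
    nlinarith [sq_nonneg (‖x‖ - ‖y‖)]
  have hk0 : 0 ≤ kk σ T t := kk_nonneg σ T ht0.le
  have h1 : ‖F‖ ^ 2 ≤ 2 * ‖Γ⁻¹ * M‖ ^ 2 + 2 * ‖Q‖ ^ 2 := by rw [hF]; exact hsq _ _
  have h2 : kk σ T t * ‖Γ⁻¹ * M‖ ^ 2 ≤ (g⁻¹) ^ 2 * X ^ 2 := by
    rw [hk, ← mul_pow, ← mul_pow]
    refine pow_le_pow_left₀ (by positivity) ?_ 2
    rw [hfn, norm_mul, norm_inv]
    have h3 : Y * ‖Γ‖⁻¹ ≤ g⁻¹ * Real.exp (θ * t) := by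
      rw [← div_eq_mul_inv, div_le_iff₀ hΓn]
      calc Y = g⁻¹ * (g * Y) := by field_simp
        _ ≤ g⁻¹ * (‖Γ‖ * Real.exp (θ * t)) := by gcongr
        _ = _ := by ring
    calc Y * (‖Γ‖⁻¹ * ‖M‖) = (Y * ‖Γ‖⁻¹) * ‖M‖ := by ring
      _ ≤ (g⁻¹ * Real.exp (θ * t)) * ‖M‖ := by gcongr
      _ = _ := by ring
  calc kk σ T t * ‖F‖ ^ 2 ≤ kk σ T t * (2 * ‖Γ⁻¹ * M‖ ^ 2 + 2 * ‖Q‖ ^ 2) := by gcongr
    _ = 2 * (kk σ T t * ‖Γ⁻¹ * M‖ ^ 2) + 2 * (kk σ T t * ‖Q‖ ^ 2) := by ring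
    _ ≤ 2 * ((g⁻¹) ^ 2 * X ^ 2) + 2 * (kk σ T t * (B ^ 2 * (t⁻¹) ^ 2)) := by gcongr
    _ = _ := by ring

end Pool.Agent.H312.Eq
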