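import Pool.Agent.H312.Eq.Un

set_option autoImplicit false

/-!
# A bound which is uniform in the shift: the integral of the kernel
-/

namespace Pool.Agent.H312.Eq

open Finset Filter Topology MeasureTheory Complex Set Asymptotics FourierTransform
open Pool.Agent.H131R5.BZ Pool.Agent.Y930.Bz Pool.Agent.Y616.BM Pool.Agent.H312.Barnes
open Pool.Agent.H312.Sh Pool.Agent.H312.Ex Pool.Agent.H312.Lb

variable {r : ℕ} {w : Fin r → ℝ}

lemma KK_shift (a : ℝ) (w : Fin r → ℝ) (z : ℂ) :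
    ‖KK a w z‖ₑ ^ 2 = ENNReal.ofReal (Real.exp (-(2 * (a - 1)) * z.re)) * ‖KK 1 w z‖ₑ ^ 2 := by
  have h1 : KK a w z = cexp (-((a - 1 : ℝ) : ℂ) * z) * KK 1 w z := by
    unfold KK
    rw [← mul_assoc, ← Complex.exp_add]
    congr 2
    push_cast
    ring
  rw [h1, enorm_mul, mul_pow]
  congr 1
  rw [← ofReal_norm, ← ENNReal.ofReal_pow (norm_nonneg _), Complex.norm_exp, ← Real.exp_nat_mul]
  congr 2
  simp
  ring

/-- the kernel is small for large shifts -/
theorem JJ_small (hw : ∀ j, 0 < w j) {σ σ' : ℝ} (hσ' : 0 < σ') (hσσ : σ' < σ)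
    (hH : ∀ ε : ℝ, 0 < ε → ∃ C : ℝ, 0 ≤ C ∧ ∀ T : ℝ, 2 ≤ T →
      FT w σ' T ≤ ENNReal.ofReal (C * T ^ (2 * σ' + ε)))
    {C₃ T₃ : ℝ} (hC₃ : 0 ≤ C₃) (hF : ∀ T : ℝ, T₃ ≤ T → FT w σ T ≤ ENNReal.ofReal (C₃ * T ^ (2 * σ)))
    {q K : ℝ} (hq0 : 0 < q) (hq1 : q < 1) (hK : 0 ≤ K)
    (htr : ∀ m₀ : ℕ, ∃ T₀ : ℝ, 2 ≤ T₀ ∧ ∀ T : ℝ, T₀ ≤ T →
      ∫⁻ ρ in Ioc 1 (T / 2 ^ m₀), ENNReal.ofReal (ρ ^ (2 * σ - 1) * PP w T ρ) ≤
        ENNReal.ofReal (K * q ^ m₀ * T ^ (2 * σ))) {ε : ℝ} (hε : 0 < ε) :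
    ∃ a₀ : ℝ, 1 ≤ a₀ ∧ ∀ a : ℝ, a₀ ≤ a → ∀ U : ℝ, ∃ T₁ : ℝ, 2 ≤ T₁ ∧ ∀ T : ℝ, T₁ ≤ T →
      JJ a w σ U (1 / T) ≤ ENNReal.ofReal (ε * T ^ (2 * σ)) := by
  have hσ : 0 < σ := hσ'.trans hσσ
  have hp := Real.pi_pos
  have hcos1 : 0 < Real.cos 1 := Real.cos_one_pos
  set b₀ : ℝ := Real.cos 1 / (2 * Real.pi) with hb₀
  have hb₀0 : 0 < b₀ := by positivity
  obtain ⟨m, hm⟩ := exists_nat_gt (max 1 (1 / b₀))
  have hm1 : (1 : ℝ) < m := (le_max_left _ _).trans_lt hm
  have hm2 : 1 / b₀ < m := (le_max_right _ _).trans_lt hm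
  have hm0 : (0 : ℝ) < m := by linarith
  set K₂ : ℝ := ∏ j, (cf (w j))⁻¹ with hK₂
  have hK₂0 : 0 < K₂ := Finset.prod_pos fun j _ => inv_pos.2 (cf_pos (hw j))
  set κ₀ : ℝ := m * b₀ with hκ₀
  have hκ₀0 : 0 < κ₀ := by positivity
  set C₁ : ℝ := K₂ * (m : ℝ) ^ (2 * r) with hC₁
  have hC₁0 : 0 < C₁ := by positivity
  obtain ⟨C₂, hC₂, h2⟩ := JJ_FT_le (a := 1) one_pos hw hσ 0
  -- the choice of `m₀`
  obtain ⟨m₀, hm₀⟩ : ∃ m₀ : ℕ, C₁ * κ₀ ^ (-(2 * σ)) * (K * q ^ m₀) ≤ ε / 3 := by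
    have h3 : Tendsto (fun n : ℕ => C₁ * κ₀ ^ (-(2 * σ)) * (K * q ^ n)) atTop
        (𝓝 (C₁ * κ₀ ^ (-(2 * σ)) * (K * 0))) :=
      ((tendsto_pow_atTop_nhds_zero_of_lt_one hq0.le hq1).const_mul K).const_mul _
    rw [mul_zero, mul_zero] at h3
    exact (h3.eventually_le_const (by positivity : (0 : ℝ) < ε / 3)).exists
  set ϑ : ℝ := 1 / (m * 2 ^ m₀) with hϑ
  have hϑ0 : 0 < ϑ := by positivity
  -- the choice of `a₀`
  obtain ⟨a₁, ha₁⟩ : ∃ a₁ : ℝ, ∀ a : ℝ, a₁ ≤ a →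
      Real.exp (-((a - 1) * ϑ)) * (C₂ * C₃) ≤ ε / 3 := by
    have h3 : Tendsto (fun a : ℝ => (a - 1) * ϑ) atTop atTop :=
      (tendsto_atTop_add_const_right _ (-1) tendsto_id).atTop_mul_const hϑ0
    have h4 : Tendsto (fun a : ℝ => Real.exp (-((a - 1) * ϑ)) * (C₂ * C₃)) atTop
        (𝓝 (0 * (C₂ * C₃))) :=
      (Real.tendsto_exp_neg_atTop_nhds_zero.comp h3).mul_const _
    rw [zero_mul] at h4
    exact eventually_atTop.1 (h4.eventually_le_const (by positivity : (0 : ℝ) < ε / 3))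
  refine ⟨max 1 a₁, le_max_left _ _, fun a ha U => ?_⟩
  have ha1 : 1 ≤ a := (le_max_left _ _).trans ha
  have ha0 : 0 < a := by linarith
  have haa := ha₁ a ((le_max_right _ _).trans ha)
  obtain ⟨C₄, hC₄, h4⟩ := JJ_FT_le (a := a) ha0 hw hσ' U
  obtain ⟨C₅, hC₅, h5⟩ := hH (σ - σ') (by linarith)
  obtain ⟨T₆, hT₆, h6⟩ := htr m₀
  obtain ⟨T₇, hT₇⟩ : ∃ T₇ : ℝ, ∀ T : ℝ, T₇ ≤ T → C₄ * (C₅ * T ^ (-(σ - σ'))) ≤ ε / 3 := by
    have h3 : Tendsto (fun T : ℝ => C₄ * (C₅ * T ^ (-(σ - σ')))) atTop (𝓝 (C₄ * (C₅ * 0))) :=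
      ((tendsto_rpow_neg_atTop (by linarith : 0 < σ - σ')).const_mul C₅).const_mul C₄
    rw [mul_zero, mul_zero] at h3
    exact eventually_atTop.1 (h3.eventually_le_const (by positivity : (0 : ℝ) < ε / 3))
  refine ⟨max (max 2 T₃) (max (max T₆ T₇) (1 / ϑ)), (le_max_left _ _).trans (le_max_left _ _),
    fun T hT => ?_⟩
  have hT2 : 2 ≤ T := ((le_max_left _ _).trans (le_max_left _ _)).trans hT
  have hTT₃ : T₃ ≤ T := ((le_max_right _ _).trans (le_max_left _ _)).trans hT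
  have hTT₆ : T₆ ≤ T := (((le_max_left _ _).trans (le_max_left _ _)).trans (le_max_right _ _)).trans hT
  have hTT₇ : T₇ ≤ T := (((le_max_right _ _).trans (le_max_left _ _)).trans (le_max_right _ _)).trans hT
  have hTϑ : 1 / ϑ ≤ T := ((le_max_right _ _).trans (le_max_right _ _)).trans hT
  have hT0 : 0 < T := by linarith
  have hT1 : 1 ≤ T := by linarith
  have hϑT : 1 ≤ ϑ * T := by
    rw [div_le_iff₀ hϑ0] at hTϑ
    linarith
  set η : ℝ := 1 / T with hη
  have hη0 : 0 < η := by positivity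
  have hη1 : η ≤ 1 := by rw [hη, div_le_one hT0]; exact hT1
  have hηT : η * T = 1 := by rw [hη]; field_simp
  have hsin := sin_ge hη0.le hη1
  have hsin0 : 0 < Real.sin η := by linarith
  set b : ℝ := Real.cos η / (2 * Real.pi) with hb
  have hcη : Real.cos 1 ≤ Real.cos η :=
    Real.cos_le_cos_of_nonneg_of_le_pi hη0.le (by linarith [Real.pi_gt_three]) hη1
  have hbb : b₀ ≤ b := by rw [hb₀, hb]; gcongr
  have hb0 : 0 < b := hb₀0.trans_le hbb
  have hb1 : b ≤ 1 / 2 := by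
    rw [hb, div_le_div_iff₀ (by positivity) (by norm_num)]
    linarith [Real.cos_le_one η, Real.pi_gt_three]
  set κ : ℝ := m * b with hκ
  have hκ0 : 0 < κ := by positivity
  have hκκ : κ₀ ≤ κ := by rw [hκ₀, hκ]; gcongr
  set F : ℝ → ENNReal := fun u => ‖KK a w (zr u η)‖ₑ ^ 2 *
    ENNReal.ofReal (Real.exp (-(2 * σ) * u)) with hFd
  have hJ : JJ a w σ U η = ∫⁻ u in Iic U, F u := rfl
  rw [hJ]
  set Aa : Set ℝ := {u : ℝ | ϑ * T < Real.exp (-u)} with hAa
  set Bb : Set ℝ := {u : ℝ | κ * Real.exp (-u) ∈ Ioc 1 (T / 2 ^ m₀)} with hBb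
  set Gg : Set ℝ := {u : ℝ | 0 < u ∧ u ≤ U} with hGg
  have hAm : MeasurableSet Aa := by
    have h1 : Measurable fun u : ℝ => Real.exp (-u) := by fun_prop
    exact h1 measurableSet_Ioi
  have hBm : MeasurableSet Bb := by
    have h1 : Measurable fun u : ℝ => κ * Real.exp (-u) := by fun_prop
    exact h1 measurableSet_Ioc
  have hGm : MeasurableSet Gg := measurableSet_Ioc
  have hcov : Iic U ⊆ (Aa ∪ Bb) ∪ Gg := by
    intro u hu
    rcases le_or_gt u 0 with h | h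
    · refine Or.inl ?_
      rcases le_or_gt (Real.exp (-u)) (ϑ * T) with h' | h'
      · refine Or.inr ⟨?_, ?_⟩
        · have h1 : 1 ≤ Real.exp (-u) := Real.one_le_exp (by linarith)
          have h3 : 1 < κ := by
            rw [div_lt_iff₀ hb₀0] at hm2
            calc (1 : ℝ) < m * b₀ := hm2
              _ ≤ _ := hκκ
          nlinarith
        · calc κ * Real.exp (-u) ≤ (m * (1 / 2)) * (ϑ * T) := by
                rw [hκ]
                gcongr
            _ = T / 2 ^ m₀ * (1 / 2) := by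
                rw [hϑ]
                field_simp
            _ ≤ T / 2 ^ m₀ * 1 := by
                have : 0 < T / 2 ^ m₀ := by positivity
                nlinarith
            _ = _ := mul_one _
      · exact Or.inl h'
    · exact Or.inr ⟨h, hu⟩
  -- the first part
  have hI1 : ∫⁻ u in Aa, F u ≤ ENNReal.ofReal (ε / 3 * T ^ (2 * σ)) := by
    have hA0 : Aa ⊆ Iic 0 := by
      intro u hu
      have h1 : ϑ * T < Real.exp (-u) := hu
      have h3 : 1 < Real.exp (-u) := by linarith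
      have h7 := Real.one_lt_exp_iff.1 h3
      show u ≤ 0
      linarith
    have hpt : ∀ u ∈ Aa, F u ≤ ENNReal.ofReal (Real.exp (-((a - 1) * ϑ))) *
        (‖KK 1 w (zr u η)‖ₑ ^ 2 * ENNReal.ofReal (Real.exp (-(2 * σ) * u))) := by
      intro u hu
      have h1 : ϑ * T < Real.exp (-u) := hu
      have hre : (zr u η).re = Real.exp (-u) * Real.sin η := by
        rw [zr_eq, Complex.add_re, Complex.ofReal_re, Complex.re_ofReal_mul, Complex.I_re,
          mul_zero, add_zero]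
      simp only [hFd]
      rw [KK_shift a w, hre]
      have h3 : Real.exp (-(2 * (a - 1)) * (Real.exp (-u) * Real.sin η)) ≤
          Real.exp (-((a - 1) * ϑ)) := by
        apply Real.exp_le_exp.2
        have h7 : ϑ / 2 ≤ Real.exp (-u) * Real.sin η := by
          calc ϑ / 2 = (ϑ * T) * (η / 2) := by
                rw [hη]; field_simp
            _ ≤ Real.exp (-u) * Real.sin η :=
                mul_le_mul h1.le hsin (by positivity) (Real.exp_pos _).le
        nlinarith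
      rw [mul_assoc]
      exact mul_le_mul_left (ENNReal.ofReal_le_ofReal h3) _
    calc _ ≤ ∫⁻ u in Aa, ENNReal.ofReal (Real.exp (-((a - 1) * ϑ))) *
          (‖KK 1 w (zr u η)‖ₑ ^ 2 * ENNReal.ofReal (Real.exp (-(2 * σ) * u))) :=
          setLIntegral_mono' hAm hpt
      _ = ENNReal.ofReal (Real.exp (-((a - 1) * ϑ))) * ∫⁻ u in Aa,
          (‖KK 1 w (zr u η)‖ₑ ^ 2 * ENNReal.ofReal (Real.exp (-(2 * σ) * u))) :=
          lintegral_const_mul' _ _ ENNReal.ofReal_ne_top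
      _ ≤ ENNReal.ofReal (Real.exp (-((a - 1) * ϑ))) * JJ 1 w σ 0 η :=
          mul_le_mul_right (lintegral_mono_set hA0) _
      _ ≤ ENNReal.ofReal (Real.exp (-((a - 1) * ϑ))) * (ENNReal.ofReal C₂ *
          ENNReal.ofReal (C₃ * T ^ (2 * σ))) := by
          refine mul_le_mul_right ((h2 T hT2).trans (mul_le_mul_right (hF T hTT₃) _)) _
      _ ≤ _ := by
          rw [← ENNReal.ofReal_mul hC₂, ← ENNReal.ofReal_mul (Real.exp_pos _).le]
          apply ENNReal.ofReal_le_ofReal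
          calc _ = (Real.exp (-((a - 1) * ϑ)) * (C₂ * C₃)) * T ^ (2 * σ) := by ring
            _ ≤ _ := by gcongr
  -- the second part
  have hyx : ∀ u : ℝ, b * Real.exp (-u) / T ≤ Real.exp (-u) * Real.sin η := by
    intro u
    have h1 : b * Real.exp (-u) / T = Real.exp (-u) * (b * η) := by rw [hη]; ring
    rw [h1]
    have h3 : b * η ≤ Real.sin η := by nlinarith
    gcongr
  have hI2 : ∫⁻ u in Bb, F u ≤ ENNReal.ofReal (ε / 3 * T ^ (2 * σ)) := by
    have hpt : ∀ u ∈ Bb, F u ≤ ENNReal.ofReal C₁ * (ENNReal.ofReal (PP w T (κ * Real.exp (-u))) *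
        ENNReal.ofReal (Real.exp (-(2 * σ) * u))) := by
      intro u hu
      have hu1 : 1 < κ * Real.exp (-u) := hu.1
      have hu2 : κ * Real.exp (-u) ≤ T := hu.2.trans (div_le_self hT0.le (one_le_pow₀ (by norm_num)))
      have he := Real.exp_pos (-u)
      have hρ0 : 0 < b * Real.exp (-u) := by positivity
      have hρT : b * Real.exp (-u) ≤ T := by
        calc b * Real.exp (-u) = 1 * (b * Real.exp (-u)) := (one_mul _).symm
          _ ≤ m * (b * Real.exp (-u)) := by gcongr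
          _ = κ * Real.exp (-u) := by rw [hκ]; ring
          _ ≤ T := hu2
      have h1 := KK_ray_le (a := a) hw (u := u) hη0 hη1 (y := b * Real.exp (-u) / T)
        (by positivity) (hyx u) ((div_le_one hT0).2 hρT)
      have h3 : Real.exp (-(2 * a) * (Real.exp (-u) * Real.sin η)) ≤ 1 := by
        apply Real.exp_le_one_iff.2
        have : 0 ≤ a * (Real.exp (-u) * Real.sin η) := by positivity
        linarith
      have h7 : ∏ j, ((max (nd ((Real.cos η / (2 * Real.pi)) * Real.exp (-u) * w j))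
          (b * Real.exp (-u) / T)) ^ 2)⁻¹ ≤ (m : ℝ) ^ (2 * r) * PP w T (κ * Real.exp (-u)) := by
        unfold PP
        refine prod_cmp hm0 (fun j => mx_pos hT0 (by linarith) _) fun j => ?_
        refine max_le ?_ ?_
        · have h8 : κ * Real.exp (-u) * w j = (m : ℝ) * (b * Real.exp (-u) * w j) := by
            rw [hκ]; ring
          rw [h8]
          refine (nd_nat_mul _ _).trans ?_
          rw [← hb]
          gcongr
          exact le_max_left _ _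
        · calc κ * Real.exp (-u) / T = m * (b * Real.exp (-u) / T) := by rw [hκ]; ring
            _ ≤ _ := by
              gcongr
              exact le_max_right _ _
      have h8 := PP_nonneg w T (κ * Real.exp (-u))
      calc F u ≤ (ENNReal.ofReal (Real.exp (-(2 * a) * (Real.exp (-u) * Real.sin η))) *
            ENNReal.ofReal (K₂ * ∏ j, ((max (nd ((Real.cos η / (2 * Real.pi)) * Real.exp (-u) * w j))
              (b * Real.exp (-u) / T)) ^ 2)⁻¹)) * ENNReal.ofReal (Real.exp (-(2 * σ) * u)) := by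
            rw [hFd]
            exact mul_le_mul_left h1 _
        _ ≤ (ENNReal.ofReal 1 *
            ENNReal.ofReal (K₂ * ((m : ℝ) ^ (2 * r) * PP w T (κ * Real.exp (-u))))) *
              ENNReal.ofReal (Real.exp (-(2 * σ) * u)) := by gcongr
        _ = _ := by
            rw [ENNReal.ofReal_one, one_mul, ← mul_assoc K₂, ENNReal.ofReal_mul hC₁0.le, mul_assoc]
    have h1 := subst_exp hκ0 σ (T / 2 ^ m₀) (h := PP w T) (fun ρ => PP_nonneg w T ρ)
    have h3 : ∫⁻ u in Bb, ENNReal.ofReal (PP w T (κ * Real.exp (-u))) *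
        ENNReal.ofReal (Real.exp (-(2 * σ) * u)) = ENNReal.ofReal (κ ^ (-(2 * σ))) *
          ∫⁻ ρ in Ioc 1 (T / 2 ^ m₀), ENNReal.ofReal (ρ ^ (2 * σ - 1) * PP w T ρ) := by
      rw [h1, ← mul_assoc, ← ENNReal.ofReal_mul (by positivity), ← Real.rpow_add hκ0,
        neg_add_cancel, Real.rpow_zero, ENNReal.ofReal_one, one_mul]
    calc _ ≤ ∫⁻ u in Bb, ENNReal.ofReal C₁ * (ENNReal.ofReal (PP w T (κ * Real.exp (-u))) *
          ENNReal.ofReal (Real.exp (-(2 * σ) * u))) := setLIntegral_mono' hBm hpt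
      _ = ENNReal.ofReal C₁ * (ENNReal.ofReal (κ ^ (-(2 * σ))) *
          ∫⁻ ρ in Ioc 1 (T / 2 ^ m₀), ENNReal.ofReal (ρ ^ (2 * σ - 1) * PP w T ρ)) := by
          rw [lintegral_const_mul' _ _ ENNReal.ofReal_ne_top, h3]
      _ ≤ ENNReal.ofReal C₁ * (ENNReal.ofReal (κ₀ ^ (-(2 * σ))) *
          ENNReal.ofReal (K * q ^ m₀ * T ^ (2 * σ))) := by
          have h8 : κ ^ (-(2 * σ)) ≤ κ₀ ^ (-(2 * σ)) :=
            Real.rpow_le_rpow_of_nonpos hκ₀0 hκκ (by linarith)
          have h9 := h6 T hTT₆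
          gcongr
      _ ≤ _ := by
          rw [← ENNReal.ofReal_mul (by positivity), ← ENNReal.ofReal_mul (by positivity)]
          apply ENNReal.ofReal_le_ofReal
          calc _ = (C₁ * κ₀ ^ (-(2 * σ)) * (K * q ^ m₀)) * T ^ (2 * σ) := by ring
            _ ≤ _ := by gcongr
  -- the third part
  have hI3 : ∫⁻ u in Gg, F u ≤ ENNReal.ofReal (ε / 3 * T ^ (2 * σ)) := by
    have hpt : ∀ u ∈ Gg, F u ≤ ‖KK a w (zr u η)‖ₑ ^ 2 *
        ENNReal.ofReal (Real.exp (-(2 * σ') * u)) := by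
      intro u hu
      simp only [hFd]
      have h1 : Real.exp (-(2 * σ) * u) ≤ Real.exp (-(2 * σ') * u) := by
        apply Real.exp_le_exp.2
        have := hu.1
        nlinarith
      gcongr
    have hG0 : Gg ⊆ Iic U := fun u hu => hu.2
    calc _ ≤ ∫⁻ u in Gg, ‖KK a w (zr u η)‖ₑ ^ 2 *
        ENNReal.ofReal (Real.exp (-(2 * σ') * u)) := setLIntegral_mono' hGm hpt
      _ ≤ JJ a w σ' U η := lintegral_mono_set hG0
      _ ≤ ENNReal.ofReal C₄ * ENNReal.ofReal (C₅ * T ^ (2 * σ' + (σ - σ'))) :=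
          (h4 T hT2).trans (mul_le_mul_right (h5 T hT2) _)
      _ ≤ _ := by
          rw [← ENNReal.ofReal_mul hC₄]
          apply ENNReal.ofReal_le_ofReal
          have e1 : T ^ (2 * σ' + (σ - σ')) = T ^ (-(σ - σ')) * T ^ (2 * σ) := by
            rw [← Real.rpow_add hT0]
            congr 1
            ring
          rw [e1]
          calc _ = (C₄ * (C₅ * T ^ (-(σ - σ')))) * T ^ (2 * σ) := by ring
            _ ≤ _ := by
                have := hT₇ T hTT₇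
                gcongr
  calc ∫⁻ u in Iic U, F u ≤ ∫⁻ u in (Aa ∪ Bb) ∪ Gg, F u := lintegral_mono_set hcov
    _ ≤ (∫⁻ u in Aa ∪ Bb, F u) + ∫⁻ u in Gg, F u := lintegral_union_le _ _ _
    _ ≤ ((∫⁻ u in Aa, F u) + ∫⁻ u in Bb, F u) + ∫⁻ u in Gg, F u :=
        add_le_add (lintegral_union_le _ _ _) le_rfl
    _ ≤ (ENNReal.ofReal (ε / 3 * T ^ (2 * σ)) + ENNReal.ofReal (ε / 3 * T ^ (2 * σ))) +
        ENNReal.ofReal (ε / 3 * T ^ (2 * σ)) := add_le_add (add_le_add hI1 hI2) hI3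
    _ = _ := by
        rw [← ENNReal.ofReal_add (by positivity) (by positivity),
          ← ENNReal.ofReal_add (by positivity) (by positivity)]
        congr 1
        ring

end Pool.Agent.H312.Eq
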