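import Pool.Agent.H312.Eq.Un2

set_option autoImplicit false

/-!
# A bound which is uniform in the shift: the mean square
-/

namespace Pool.Agent.H312.Eq

open Finset Filter Topology MeasureTheory Complex Set Asymptotics FourierTransform
open Pool.Agent.H131R5.BZ Pool.Agent.Y930.Bz Pool.Agent.Y616.BM Pool.Agent.H312.Barnes
open Pool.Agent.H312.Sh Pool.Agent.H312.Ex Pool.Agent.H312.Lb

variable {r : ℕ} {w : Fin r → ℝ}

/-- the smooth mean square is small for large shifts -/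
theorem ET_small (hw : ∀ j, 0 < w j) {σ : ℝ} (hσ : 0 < σ)
    (hJ : ∀ ε : ℝ, 0 < ε → ∃ a₀ : ℝ, 1 ≤ a₀ ∧ ∀ a : ℝ, a₀ ≤ a → ∀ U : ℝ, ∃ T₁ : ℝ, 2 ≤ T₁ ∧
      ∀ T : ℝ, T₁ ≤ T → JJ a w σ U (1 / T) ≤ ENNReal.ofReal (ε * T ^ (2 * σ)))
    {ε : ℝ} (hε : 0 < ε) :
    ∃ a₀ : ℝ, 1 ≤ a₀ ∧ ∀ a : ℝ, a₀ ≤ a → ∀ c : ℕ → ℂ, Tay a w c → ∃ T₁ : ℝ, 2 ≤ T₁ ∧
      ∀ T : ℝ, T₁ ≤ T → ET a w c σ T ≤ ENNReal.ofReal (ε * T ^ (2 * σ)) := by
  have hp := Real.pi_pos
  obtain ⟨C, hC, hpt1⟩ := pt_one (w := w) hσ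
  set ε' : ℝ := ε / (2 * (C * (2 * Real.pi) * 2)) with hε'
  have hε'0 : 0 < ε' := by positivity
  obtain ⟨a₀, ha₀, hJ'⟩ := hJ ε' hε'0
  refine ⟨a₀, ha₀, fun a ha c hc => ?_⟩
  have ha1 : 1 ≤ a := ha₀.trans ha
  have ha0 : 0 < a := by linarith
  obtain ⟨b, ρ, C₀, hρ, hρ1, hC₀, h0⟩ := exists_near a hw
  obtain ⟨T₁, hT₁, h1⟩ := hJ' a ha (-Real.log ρ)
  set δ : ℝ := min σ 1 with hδ
  have hδ0 : 0 < δ := lt_min hσ one_pos
  have hδσ : δ ≤ σ := min_le_left _ _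
  have hδ1 : δ ≤ 1 := min_le_right _ _
  obtain ⟨C₂, hC₂, h2⟩ := S_le2 hρ hρ1 h0 (σ := σ) (δ := δ) hδ0 (by linarith) (by linarith)
  obtain ⟨C₄, hC₄, h4⟩ := gint (x := 2 * σ - δ) (by linarith)
  set B : ℝ := 2 * (∑ k ∈ range r, ‖b k‖) ^ 2 with hB
  have hB0 : 0 ≤ B := by positivity
  obtain ⟨T₂, hT₂⟩ : ∃ T₂ : ℝ, ∀ T : ℝ, T₂ ≤ T →
      (C * (2 * Real.pi) * C₂ + B * C₄) * T ^ (-δ) ≤ ε / 2 := by
    have h3 : Tendsto (fun T : ℝ => (C * (2 * Real.pi) * C₂ + B * C₄) * T ^ (-δ)) atTop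
        (𝓝 ((C * (2 * Real.pi) * C₂ + B * C₄) * 0)) :=
      (tendsto_rpow_neg_atTop hδ0).const_mul _
    rw [mul_zero] at h3
    exact eventually_atTop.1 (h3.eventually_le_const (by positivity : (0 : ℝ) < ε / 2))
  refine ⟨max T₁ T₂, hT₁.trans (le_max_left _ _), fun T hT => ?_⟩
  have hTT₁ : T₁ ≤ T := (le_max_left _ _).trans hT
  have hTT₂ : T₂ ≤ T := (le_max_right _ _).trans hT
  have hT2 : 2 ≤ T := hT₁.trans hTT₁
  have hT0 : 0 < T := by linarith
  have hT1 : 1 ≤ T := by linarith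
  have hTi : 1 / T ≤ 1 := by rw [div_le_one hT0]; exact hT1
  have hTi0 : 0 < 1 / T := by positivity
  set θ : ℝ := Real.pi / 2 - 1 / T with hθ
  have hpi := Real.pi_gt_three
  have hθ0 : 0 ≤ θ := by linarith
  have hθ1 : θ < Real.pi / 2 := by linarith
  have hpt : ∀ t ∈ Ioi (1 : ℝ), ENNReal.ofReal (kk σ T t * ‖FF a w c ((σ : ℂ) + t * I)‖ ^ 2) ≤
      ENNReal.ofReal C * ‖𝓕 (kth a w b σ θ) (t / (2 * Real.pi))‖ₑ ^ 2 +
        ENNReal.ofReal B * ENNReal.ofReal (t ^ (2 * σ - δ - 1) * Real.exp (-(2 / T) * t)) := by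
    intro t ht
    have ht1 : (1 : ℝ) < t := ht
    have ht0 : 0 < t := by linarith
    have h5 := hpt1 a c b ρ C₀ ha0 hw hc hρ hρ1 h0 T t hT1 ht1.le
    rw [esq, ← ENNReal.ofReal_mul hC.le, ← ENNReal.ofReal_mul hB0,
      ← ENNReal.ofReal_add (by positivity) (by positivity)]
    apply ENNReal.ofReal_le_ofReal
    refine h5.trans ?_
    have h6 : (t⁻¹) ^ 2 ≤ t ^ (-δ) := by
      rw [inv_pow, ← Real.rpow_natCast, ← Real.rpow_neg ht0.le]
      apply Real.rpow_le_rpow_of_exponent_le ht1.le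
      push_cast
      linarith
    have h8 : kk σ T t * (t⁻¹) ^ 2 ≤ t ^ (2 * σ - δ - 1) * Real.exp (-(2 / T) * t) := by
      unfold kk
      have e1 : t ^ (2 * σ - δ - 1) = t ^ (2 * σ - 1) * t ^ (-δ) := by
        rw [← Real.rpow_add ht0]
        congr 1
        ring
      calc t ^ (2 * σ - 1) * Real.exp (-(2 / T) * t) * (t⁻¹) ^ 2 ≤
          t ^ (2 * σ - 1) * Real.exp (-(2 / T) * t) * t ^ (-δ) := by gcongr
        _ = _ := by rw [e1]; ring
    rw [← hB]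
    gcongr
  have hm : Measurable fun t : ℝ => ENNReal.ofReal B *
      ENNReal.ofReal (t ^ (2 * σ - δ - 1) * Real.exp (-(2 / T) * t)) := by fun_prop
  have e0 : (1 / T) ^ (-(2 * σ - δ)) = T ^ (-δ) * T ^ (2 * σ) := by
    rw [one_div, Real.inv_rpow hT0.le, ← Real.rpow_neg hT0.le, neg_neg, ← Real.rpow_add hT0]
    congr 1
    ring
  have e3 : T ^ (2 * σ - δ) = T ^ (-δ) * T ^ (2 * σ) := by
    rw [← Real.rpow_add hT0]
    congr 1
    ring
  calc ET a w c σ T ≤ ∫⁻ t in Ioi (1 : ℝ),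
        (ENNReal.ofReal C * ‖𝓕 (kth a w b σ θ) (t / (2 * Real.pi))‖ₑ ^ 2 +
        ENNReal.ofReal B * ENNReal.ofReal (t ^ (2 * σ - δ - 1) * Real.exp (-(2 / T) * t))) :=
        setLIntegral_mono' measurableSet_Ioi hpt
    _ = ENNReal.ofReal C * (∫⁻ t in Ioi (1 : ℝ),
        ‖𝓕 (kth a w b σ θ) (t / (2 * Real.pi))‖ₑ ^ 2) + ENNReal.ofReal B *
        ∫⁻ t in Ioi (1 : ℝ), ENNReal.ofReal (t ^ (2 * σ - δ - 1) * Real.exp (-(2 / T) * t)) := by
        rw [lintegral_add_right _ hm, lintegral_const_mul' _ _ ENNReal.ofReal_ne_top,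
          lintegral_const_mul' _ _ ENNReal.ofReal_ne_top]
    _ ≤ ENNReal.ofReal C * (ENNReal.ofReal (2 * Real.pi) *
          (ENNReal.ofReal (C₂ * (1 / T) ^ (-(2 * σ - δ))) +
            ENNReal.ofReal 2 * ENNReal.ofReal (ε' * T ^ (2 * σ)))) +
        ENNReal.ofReal B * ENNReal.ofReal (C₄ * T ^ (2 * σ - δ)) := by
        refine add_le_add (mul_le_mul_right ?_ _) (mul_le_mul_right (h4 T hT1) _)
        calc _ ≤ ∫⁻ t : ℝ, ‖𝓕 (kth a w b σ θ) (t / (2 * Real.pi))‖ₑ ^ 2 :=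
              setLIntegral_le_lintegral _ _
          _ = _ := planch ha0 hw hρ hρ1 h0 hσ hθ0 hθ1
          _ ≤ _ := by
              refine mul_le_mul_right ((h2 (1 / T) hTi0 hTi).trans ?_) _
              have e2 : ENNReal.ofReal 2 = 2 := by simp
              rw [e2]
              exact add_le_add le_rfl (mul_le_mul_right (h1 T hTT₁) _)
    _ ≤ _ := by
        rw [← ENNReal.ofReal_mul (by norm_num), ← ENNReal.ofReal_add (by positivity) (by positivity),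
          ← ENNReal.ofReal_mul (by positivity), ← ENNReal.ofReal_mul hC.le,
          ← ENNReal.ofReal_mul hB0, ← ENNReal.ofReal_add (by positivity) (by positivity)]
        apply ENNReal.ofReal_le_ofReal
        rw [e0, e3]
        have h9 := hT₂ T hTT₂
        have hTσ : 0 < T ^ (2 * σ) := by positivity
        have e4 : C * (2 * Real.pi * (2 * (ε' * T ^ (2 * σ)))) = ε / 2 * T ^ (2 * σ) := by
          rw [hε']
          field_simp
        calc C * (2 * Real.pi * (C₂ * (T ^ (-δ) * T ^ (2 * σ)) + 2 * (ε' * T ^ (2 * σ)))) +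
              B * (C₄ * (T ^ (-δ) * T ^ (2 * σ))) =
            ((C * (2 * Real.pi) * C₂ + B * C₄) * T ^ (-δ)) * T ^ (2 * σ) +
              C * (2 * Real.pi * (2 * (ε' * T ^ (2 * σ)))) := by ring
          _ ≤ ε / 2 * T ^ (2 * σ) + ε / 2 * T ^ (2 * σ) := by
              rw [e4]
              gcongr
          _ = _ := by ring

lemma I1_mono (a : ℝ) (w : Fin r → ℝ) (c : ℕ → ℂ) (σ : ℝ) : Monotone (I1 a w c σ) := by
  intro S T h
  exact lintegral_mono_set (Set.Ioc_subset_Ioc_right h)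

lemma I1_ne_top {a : ℝ} {c : ℕ → ℂ} (ha : 0 < a) (hw : ∀ j, 0 < w j) (hc : Tay a w c) {σ : ℝ}
    (hσ : 0 < σ) (T : ℝ) : I1 a w c σ T ≠ ⊤ := by
  obtain ⟨C, hC, h⟩ := I1_le_PhT ha hw hc hσ
  set S : ℝ := max T 4 with hS
  have h4 : 4 ≤ S := le_max_right _ _
  refine ne_top_of_le_ne_top ?_ ((I1_mono a w c σ (le_max_left T 4)).trans (h S h4))
  exact ENNReal.mul_ne_top ENNReal.ofReal_ne_top (PhT_ne_top w hσ (by linarith))

/-- the mean square is small for large shifts -/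
theorem I1_small (hw : ∀ j, 0 < w j) {σ : ℝ} (hσ : 1 / 2 ≤ σ)
    (hE : ∀ ε : ℝ, 0 < ε → ∃ a₀ : ℝ, 1 ≤ a₀ ∧ ∀ a : ℝ, a₀ ≤ a → ∀ c : ℕ → ℂ, Tay a w c →
      ∃ T₁ : ℝ, 2 ≤ T₁ ∧ ∀ T : ℝ, T₁ ≤ T → ET a w c σ T ≤ ENNReal.ofReal (ε * T ^ (2 * σ)))
    {ε : ℝ} (hε : 0 < ε) :
    ∃ a₀ : ℝ, 1 ≤ a₀ ∧ ∀ a : ℝ, a₀ ≤ a → ∀ c : ℕ → ℂ, Tay a w c → ∃ T₂ : ℝ, 2 ≤ T₂ ∧
      ∀ T : ℝ, T₂ ≤ T → I1 a w c σ T ≤ ENNReal.ofReal (ε * T) := by
  have hσ0 : 0 < σ := by linarith
  have h2σ : 0 ≤ 2 * σ - 1 := by linarith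
  set L : ℝ := Real.exp 2 * 2 ^ (2 * σ - 1) with hL
  have hL0 : 0 < L := by positivity
  obtain ⟨a₀, ha₀, h1⟩ := hE (ε / (4 * L)) (by positivity)
  refine ⟨a₀, ha₀, fun a ha c hc => ?_⟩
  have ha0 : 0 < a := by linarith [ha₀.trans ha]
  obtain ⟨T₁, hT₁, h2⟩ := h1 a ha c hc
  -- one dyadic block
  have hblock : ∀ T : ℝ, T₁ ≤ T → ∫⁻ t in Ioc (T / 2) T,
      ENNReal.ofReal (‖FF a w c ((σ : ℂ) + t * I)‖ ^ 2) ≤ ENNReal.ofReal (ε / 4 * T) := by
    intro T hT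
    have hT2 : 2 ≤ T := hT₁.trans hT
    have hT0 : 0 < T := by linarith
    have hsub : Ioc (T / 2) T ⊆ Ioi 1 := fun t ht => by
      have := ht.1
      show 1 < t
      linarith
    calc _ ≤ ∫⁻ t in Ioc (T / 2) T, ENNReal.ofReal (Real.exp 2 * (T / 2) ^ (-(2 * σ - 1))) *
          ENNReal.ofReal (kk σ T t * ‖FF a w c ((σ : ℂ) + t * I)‖ ^ 2) := by
          refine setLIntegral_mono' measurableSet_Ioc fun t ht => ?_
          have ht0 : 0 < t := by linarith [ht.1]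
          rw [← ENNReal.ofReal_mul (by positivity)]
          apply ENNReal.ofReal_le_ofReal
          have h3 : 1 ≤ Real.exp 2 * (T / 2) ^ (-(2 * σ - 1)) * kk σ T t := by
            unfold kk
            have h4 : 1 ≤ Real.exp 2 * Real.exp (-(2 / T) * t) := by
              rw [← Real.exp_add]
              apply Real.one_le_exp
              have : 2 / T * t ≤ 2 := by
                rw [div_mul_eq_mul_div, div_le_iff₀ hT0]
                linarith [ht.2]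
              linarith
            have h5 : 1 ≤ (T / 2) ^ (-(2 * σ - 1)) * t ^ (2 * σ - 1) := by
              rw [Real.rpow_neg (by positivity), inv_mul_eq_div,
                one_le_div (by positivity)]
              exact Real.rpow_le_rpow (by positivity) ht.1.le h2σ
            calc (1 : ℝ) = 1 * 1 := (one_mul 1).symm
              _ ≤ (Real.exp 2 * Real.exp (-(2 / T) * t)) *
                  ((T / 2) ^ (-(2 * σ - 1)) * t ^ (2 * σ - 1)) :=
                  mul_le_mul h4 h5 zero_le_one (by positivity)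
              _ = _ := by ring
          have h4 : 0 ≤ ‖FF a w c ((σ : ℂ) + t * I)‖ ^ 2 := by positivity
          calc ‖FF a w c ((σ : ℂ) + t * I)‖ ^ 2 = 1 * ‖FF a w c ((σ : ℂ) + t * I)‖ ^ 2 :=
                (one_mul _).symm
            _ ≤ (Real.exp 2 * (T / 2) ^ (-(2 * σ - 1)) * kk σ T t) *
                ‖FF a w c ((σ : ℂ) + t * I)‖ ^ 2 := by gcongr
            _ = _ := by ring
      _ = ENNReal.ofReal (Real.exp 2 * (T / 2) ^ (-(2 * σ - 1))) * ∫⁻ t in Ioc (T / 2) T,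
          ENNReal.ofReal (kk σ T t * ‖FF a w c ((σ : ℂ) + t * I)‖ ^ 2) :=
          lintegral_const_mul' _ _ ENNReal.ofReal_ne_top
      _ ≤ ENNReal.ofReal (Real.exp 2 * (T / 2) ^ (-(2 * σ - 1))) * ET a w c σ T :=
          mul_le_mul_right (lintegral_mono_set hsub) _
      _ ≤ ENNReal.ofReal (Real.exp 2 * (T / 2) ^ (-(2 * σ - 1))) *
          ENNReal.ofReal (ε / (4 * L) * T ^ (2 * σ)) := mul_le_mul_right (h2 T hT) _
      _ ≤ _ := by
          rw [← ENNReal.ofReal_mul (by positivity)]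
          apply ENNReal.ofReal_le_ofReal
          have e1 : (T / 2) ^ (-(2 * σ - 1)) = 2 ^ (2 * σ - 1) * T ^ (-(2 * σ - 1)) := by
            rw [Real.div_rpow hT0.le (by norm_num), Real.rpow_neg (by norm_num : (0 : ℝ) ≤ 2),
              div_inv_eq_mul, mul_comm]
          have e2 : T ^ (-(2 * σ - 1)) * T ^ (2 * σ) = T := by
            rw [← Real.rpow_add hT0]
            have : -(2 * σ - 1) + 2 * σ = 1 := by ring
            rw [this, Real.rpow_one]
          rw [e1]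
          calc _ = L * (ε / (4 * L)) * (T ^ (-(2 * σ - 1)) * T ^ (2 * σ)) := by
                rw [hL]; ring
            _ = ε / 4 * T := by
                rw [e2]
                field_simp
            _ ≤ _ := le_rfl
  set Q : ℝ := (I1 a w c σ T₁).toReal with hQ
  have hQ0 : 0 ≤ Q := ENNReal.toReal_nonneg
  have hQe : I1 a w c σ T₁ = ENNReal.ofReal Q := by
    rw [hQ, ENNReal.ofReal_toReal (I1_ne_top ha0 hw hc hσ0 T₁)]
  have hall : ∀ n : ℕ, ∀ T : ℝ, 0 ≤ T → T ≤ T₁ * 2 ^ n →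
      I1 a w c σ T ≤ ENNReal.ofReal (Q + ε / 2 * T) := by
    intro n
    induction n with
    | zero =>
      intro T hT0 hT
      rw [pow_zero, mul_one] at hT
      refine (I1_mono a w c σ hT).trans ?_
      rw [hQe]
      apply ENNReal.ofReal_le_ofReal
      have : 0 ≤ ε / 2 * T := by positivity
      linarith
    | succ n ih =>
      intro T hT0 hT
      rcases le_or_gt T T₁ with h | h
      · refine (I1_mono a w c σ h).trans ?_
        rw [hQe]
        apply ENNReal.ofReal_le_ofReal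
        have : 0 ≤ ε / 2 * T := by positivity
        linarith
      · have h3 := ih (T / 2) (by linarith) (by rw [pow_succ] at hT; linarith)
        have hsub : Ioc 1 T ⊆ Ioc 1 (T / 2) ∪ Ioc (T / 2) T := by
          intro ρ hρ
          rcases le_or_gt ρ (T / 2) with h | h
          · exact Or.inl ⟨hρ.1, h⟩
          · exact Or.inr ⟨h, hρ.2⟩
        calc I1 a w c σ T ≤ ∫⁻ t in Ioc 1 (T / 2) ∪ Ioc (T / 2) T,
              ENNReal.ofReal (‖FF a w c ((σ : ℂ) + t * I)‖ ^ 2) := lintegral_mono_set hsub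
          _ ≤ I1 a w c σ (T / 2) + ∫⁻ t in Ioc (T / 2) T,
              ENNReal.ofReal (‖FF a w c ((σ : ℂ) + t * I)‖ ^ 2) := lintegral_union_le _ _ _
          _ ≤ ENNReal.ofReal (Q + ε / 2 * (T / 2)) + ENNReal.ofReal (ε / 4 * T) :=
              add_le_add h3 (hblock T h.le)
          _ = _ := by
              rw [← ENNReal.ofReal_add (by positivity) (by positivity)]
              congr 1
              ring
  refine ⟨max T₁ (Q / (ε / 2)), hT₁.trans (le_max_left _ _), fun T hT => ?_⟩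
  have hTT₁ : T₁ ≤ T := (le_max_left _ _).trans hT
  have hT0 : 0 < T := by linarith
  have hQT : Q ≤ ε / 2 * T := by
    have h3 : Q / (ε / 2) ≤ T := (le_max_right _ _).trans hT
    rw [div_le_iff₀ (by positivity)] at h3
    linarith
  obtain ⟨n, hn⟩ := pow_unbounded_of_one_lt (T / T₁) (one_lt_two)
  have h3 := hall n T hT0.le (by
    rw [div_lt_iff₀ (by linarith)] at hn
    linarith)
  refine h3.trans (ENNReal.ofReal_le_ofReal ?_)
  linarith

end Pool.Agent.H312.Eq
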