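import Pool.Agent.H312.Eq.Fej

set_option autoImplicit false

/-!
# The upper bound for the integral of the square of the kernel
-/

namespace Pool.Agent.H312.Eq

open Finset Filter Topology MeasureTheory Complex Set
open Pool.Agent.H131R5.BZ Pool.Agent.Y930.Bz Pool.Agent.Y616.BM Pool.Agent.H312.Barnes
open Pool.Agent.H312.Sh Pool.Agent.H312.Ex Pool.Agent.H312.Lb

variable {r : ℕ} {w : Fin r → ℝ}

/-- the upper bound -/
theorem int_up (hw : ∀ j, 0 < w j) {σ' : ℝ} (hσ' : 1 / 2 ≤ σ')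
    (hH : ∀ ε : ℝ, 0 < ε → ∃ C : ℝ, 0 ≤ C ∧ ∀ T : ℝ, 2 ≤ T →
      FT w σ' T ≤ ENNReal.ofReal (C * T ^ (2 * σ' + ε))) {ε : ℝ} (hε : 0 < ε) :
    ∃ C : ℝ, 0 < C ∧ ∀ (x : ℝ) (M : ℕ), 0 < x → x ≤ 1 →
      ∫ ρ in (0 : ℝ)..(2 ^ M), ‖KK 0 w ((x : ℂ) + ((2 * Real.pi * ρ : ℝ) : ℂ) * I)‖ ^ 2 ≤
        C * (x ^ (-(2 * (r : ℝ))) + ((2 : ℝ) ^ M) ^ (1 + ε) * x ^ (-(2 * σ' + ε))) := by
  obtain ⟨K₂, hK₂, h2⟩ := QQ_KK hw
  obtain ⟨C, hC, hH'⟩ := hH ε hε
  set G : ℝ := C * 2 ^ (2 * σ' + ε) with hG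
  have hG0 : 0 ≤ G := by positivity
  refine ⟨K₂ * (1 + 2 * G), by positivity, fun x M hx hx1 => ?_⟩
  have hxr : 0 < x ^ (-(2 * (r : ℝ))) := by positivity
  have hxσ : 0 < x ^ (-(2 * σ' + ε)) := by positivity
  set f : ℝ → ℝ := fun ρ => ‖KK 0 w ((x : ℂ) + ((2 * Real.pi * ρ : ℝ) : ℂ) * I)‖ ^ 2 with hf
  have hfc : Continuous f := (KK0_cont hw hx).norm.pow 2
  -- the first part
  have hfirst : ∫ ρ in (0 : ℝ)..1, f ρ ≤ K₂ * x ^ (-(2 * (r : ℝ))) := by
    have h3 : ∀ ρ, f ρ ≤ K₂ * x ^ (-(2 * (r : ℝ))) := by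
      intro ρ
      refine (h2 x ρ hx hx1).2.trans (mul_le_mul_of_nonneg_left ?_ hK₂.le)
      unfold QQ
      have e1 : x ^ (-(2 * (r : ℝ))) = ∏ _j : Fin r, (x ^ 2)⁻¹ := by
        rw [Finset.prod_const, Finset.card_univ, Fintype.card_fin, inv_pow, ← pow_mul,
          Real.rpow_neg hx.le, ← Real.rpow_natCast]
        push_cast
        rfl
      rw [e1]
      refine Finset.prod_le_prod (fun j _ => by positivity) fun j _ => ?_
      gcongr
      exact le_max_right _ _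
    calc ∫ ρ in (0 : ℝ)..1, f ρ ≤ ∫ _ρ in (0 : ℝ)..1, K₂ * x ^ (-(2 * (r : ℝ))) :=
          intervalIntegral.integral_mono_on zero_le_one (hfc.intervalIntegrable _ _)
            (by simp) fun ρ _ => h3 ρ
      _ = _ := by simp
  -- a dyadic block
  have hblock : ∀ i : ℕ, ∫ ρ in ((2 : ℝ) ^ i)..(2 ^ (i + 1)), f ρ ≤
      K₂ * (G * (((2 : ℝ) ^ i) ^ (1 + ε) * x ^ (-(2 * σ' + ε)))) := by
    intro i
    set S : ℝ := (2 : ℝ) ^ i with hS
    have hS1 : 1 ≤ S := one_le_pow₀ (by norm_num)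
    have hS0 : 0 < S := by linarith
    have e2 : (2 : ℝ) ^ (i + 1) = 2 * S := by rw [pow_succ]; ring
    rw [e2]
    set T : ℝ := 2 * S / x with hT
    have hT2 : 2 ≤ T := by
      rw [hT, le_div_iff₀ hx]
      nlinarith
    have hT0 : 0 < T := by linarith
    have h3 : ENNReal.ofReal (∫ ρ in S..(2 * S), f ρ) ≤
        ENNReal.ofReal (K₂ * (G * (S ^ (1 + ε) * x ^ (-(2 * σ' + ε))))) := by
      calc ENNReal.ofReal (∫ ρ in S..(2 * S), f ρ) =
          ∫⁻ ρ in Ioc S (2 * S), ENNReal.ofReal (f ρ) := by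
            rw [intervalIntegral.integral_of_le (by linarith), ofReal_integral_eq_lintegral_ofReal
              (hfc.intervalIntegrable _ _).1 (ae_of_all _ fun ρ => by simp only [hf]; positivity)]
        _ ≤ ∫⁻ ρ in Ioc S (2 * S), ENNReal.ofReal (K₂ * S ^ (-(2 * σ' - 1))) *
            ENNReal.ofReal (ρ ^ (2 * σ' - 1) * PP w T ρ) := by
            refine setLIntegral_mono' measurableSet_Ioc fun ρ hρ => ?_
            have hρ0 : 0 < ρ := hS0.trans hρ.1
            rw [← ENNReal.ofReal_mul (by positivity)]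
            apply ENNReal.ofReal_le_ofReal
            have h4 := (h2 x ρ hx hx1).2
            have h5 : QQ w x ρ ≤ PP w T ρ := by
              have : QQ w x ρ ≤ QQ w (ρ / T) ρ := by
                refine QQ_anti w (by positivity) ?_ ρ
                rw [hT, div_div_eq_mul_div, div_le_iff₀ (by positivity)]
                nlinarith [hρ.2]
              exact this
            have h6 : 1 ≤ S ^ (-(2 * σ' - 1)) * ρ ^ (2 * σ' - 1) := by
              rw [Real.rpow_neg hS0.le, inv_mul_eq_div, one_le_div (by positivity)]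
              exact Real.rpow_le_rpow hS0.le hρ.1.le (by linarith)
            have h7 := PP_nonneg w T ρ
            calc f ρ ≤ K₂ * QQ w x ρ := h4
              _ ≤ K₂ * PP w T ρ := by gcongr
              _ = K₂ * (1 * PP w T ρ) := by ring
              _ ≤ K₂ * ((S ^ (-(2 * σ' - 1)) * ρ ^ (2 * σ' - 1)) * PP w T ρ) := by gcongr
              _ = _ := by ring
        _ = ENNReal.ofReal (K₂ * S ^ (-(2 * σ' - 1))) * ∫⁻ ρ in Ioc S (2 * S),
            ENNReal.ofReal (ρ ^ (2 * σ' - 1) * PP w T ρ) :=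
            lintegral_const_mul' _ _ ENNReal.ofReal_ne_top
        _ ≤ ENNReal.ofReal (K₂ * S ^ (-(2 * σ' - 1))) * FT w σ' T := by
            refine mul_le_mul_right (lintegral_mono_set ?_) _
            intro ρ hρ
            refine ⟨hS1.trans_lt hρ.1, hρ.2.trans ?_⟩
            rw [hT, le_div_iff₀ hx]
            nlinarith
        _ ≤ ENNReal.ofReal (K₂ * S ^ (-(2 * σ' - 1))) *
            ENNReal.ofReal (C * T ^ (2 * σ' + ε)) := mul_le_mul_right (hH' T hT2) _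
        _ = _ := by
            rw [← ENNReal.ofReal_mul (by positivity)]
            congr 1
            have e3 : T ^ (2 * σ' + ε) = 2 ^ (2 * σ' + ε) * S ^ (2 * σ' + ε) *
                x ^ (-(2 * σ' + ε)) := by
              rw [hT, Real.div_rpow (by positivity) hx.le, Real.mul_rpow (by norm_num) hS0.le,
                Real.rpow_neg hx.le, div_eq_mul_inv]
            have e4 : S ^ (1 + ε) = S ^ (-(2 * σ' - 1)) * S ^ (2 * σ' + ε) := by
              rw [← Real.rpow_add hS0]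
              congr 1
              ring
            rw [e3, e4, hG]
            ring
    exact (ENNReal.ofReal_le_ofReal_iff (by positivity)).1 h3
  -- the sum
  have hsum : ∀ M : ℕ, ∫ ρ in (1 : ℝ)..(2 ^ M), f ρ ≤
      K₂ * (2 * G * (((2 : ℝ) ^ M) ^ (1 + ε) * x ^ (-(2 * σ' + ε)))) := by
    intro M
    induction M with
    | zero =>
      rw [pow_zero, intervalIntegral.integral_same]
      positivity
    | succ M ih =>
      rw [← intervalIntegral.integral_add_adjacent_intervals (b := (2 : ℝ) ^ M)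
        (hfc.intervalIntegrable _ _) (hfc.intervalIntegrable _ _)]
      refine (add_le_add ih (hblock M)).trans ?_
      have h3 : 2 * ((2 : ℝ) ^ M) ^ (1 + ε) ≤ ((2 : ℝ) ^ (M + 1)) ^ (1 + ε) := by
        rw [pow_succ, Real.mul_rpow (by positivity) (by norm_num), mul_comm]
        have h4 : (2 : ℝ) ≤ 2 ^ (1 + ε) := by
          calc (2 : ℝ) = 2 ^ (1 : ℝ) := (Real.rpow_one 2).symm
            _ ≤ _ := Real.rpow_le_rpow_of_exponent_le (by norm_num) (by linarith)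
        gcongr
      have h5 : 0 < ((2 : ℝ) ^ M) ^ (1 + ε) := by positivity
      calc K₂ * (2 * G * (((2 : ℝ) ^ M) ^ (1 + ε) * x ^ (-(2 * σ' + ε)))) +
            K₂ * (G * (((2 : ℝ) ^ M) ^ (1 + ε) * x ^ (-(2 * σ' + ε)))) =
          K₂ * (3 / 2 * G * ((2 * ((2 : ℝ) ^ M) ^ (1 + ε)) * x ^ (-(2 * σ' + ε)))) := by ring
        _ ≤ K₂ * (2 * G * (((2 : ℝ) ^ (M + 1)) ^ (1 + ε) * x ^ (-(2 * σ' + ε)))) := by
            gcongr
            norm_num
  have h1M : (1 : ℝ) ≤ 2 ^ M := one_le_pow₀ (by norm_num)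
  rw [← intervalIntegral.integral_add_adjacent_intervals (b := (1 : ℝ))
    (hfc.intervalIntegrable _ _) (hfc.intervalIntegrable _ _)]
  refine (add_le_add hfirst (hsum M)).trans ?_
  have h5 : 0 < ((2 : ℝ) ^ M) ^ (1 + ε) := by positivity
  have h6 : 0 ≤ K₂ * (2 * G) * x ^ (-(2 * (r : ℝ))) := by positivity
  have h7 : 0 ≤ K₂ * (((2 : ℝ) ^ M) ^ (1 + ε) * x ^ (-(2 * σ' + ε))) := by positivity
  calc K₂ * x ^ (-(2 * (r : ℝ))) + K₂ * (2 * G * (((2 : ℝ) ^ M) ^ (1 + ε) * x ^ (-(2 * σ' + ε)))) ≤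
      K₂ * x ^ (-(2 * (r : ℝ))) + K₂ * (2 * G * (((2 : ℝ) ^ M) ^ (1 + ε) * x ^ (-(2 * σ' + ε)))) +
      (K₂ * (2 * G) * x ^ (-(2 * (r : ℝ))) +
        K₂ * (((2 : ℝ) ^ M) ^ (1 + ε) * x ^ (-(2 * σ' + ε)))) := by linarith
    _ = _ := by ring

end Pool.Agent.H312.Eq
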